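import Pool.Agent.N335.Hg.Gen

/-! The ends of the windows, for the triangles with the right angle in the middle and for the
triangles with the right angle at the last vertex. -/

set_option autoImplicit false
open Complex Set Topology Metric

namespace Pool.Agent.N335.Hg

open Pool.Agent.H763R2 Pool.Agent.H763R2.An
open Pool.Agent.Y765.Sq (Ann exists_int)

variable {c : ℝ → ℂ} {θ : ℝ → ℝ → ℝ}

theorem half_re : ((1 + I) / 2 : ℂ).re = 1 / 2 := by
  rw [show ((1 + I) / 2 : ℂ) = ((1 / 2 : ℝ) : ℂ) * (1 + I) by push_cast; ring, re_ofReal_mul]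
  simp

theorem half_im : ((1 + I) / 2 : ℂ).im = 1 / 2 := by
  rw [show ((1 + I) / 2 : ℂ) = ((1 / 2 : ℝ) : ℂ) * (1 + I) by push_cast; ring, im_ofReal_mul]
  simp

theorem quarter : (√2 : ℝ) * (√2 / 2) = 1 := by
  have := Real.mul_self_sqrt (show (0:ℝ) ≤ 2 by norm_num)
  linarith

theorem one_add_I : (1 : ℂ) + I = (√2 : ℝ) * exp (((Real.pi / 4 : ℝ) : ℂ) * I) := by
  apply Complex.ext
  · rw [re_ofReal_mul, exp_ofReal_mul_I_re, cos_q, quarter]; simp
  · rw [im_ofReal_mul, exp_ofReal_mul_I_im, sin_q, quarter]; simp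

theorem one_sub_I : (1 : ℂ) - I = (√2 : ℝ) * exp (((-(Real.pi / 4) : ℝ) : ℂ) * I) := by
  apply Complex.ext
  · rw [re_ofReal_mul, exp_ofReal_mul_I_re, Real.cos_neg, cos_q, quarter]; simp
  · rw [im_ofReal_mul, exp_ofReal_mul_I_im, Real.sin_neg, sin_q, mul_neg, quarter]; simp

theorem neg_I_exp : -I = ((1 : ℝ) : ℂ) * exp (((-(Real.pi / 2) : ℝ) : ℂ) * I) := by
  rw [ofReal_neg, neg_mul, exp_neg]
  push_cast
  rw [exp_pi_div_two_mul_I]
  simp

theorem shp2 : Shp ((1 + I) / 2) (Real.pi / 4) (Real.pi / 4) where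
  A0 := by positivity
  A1 := by linarith [Real.pi_pos]
  B0 := by positivity
  B1 := by linarith [Real.pi_pos]
  AB := by linarith
  e1 := ⟨√2 / 2, by positivity, by rw [one_add_I]; push_cast; ring⟩
  e2 := ⟨√2 / 2, by positivity, by
    rw [show (1 : ℂ) - (1 + I) / 2 = (1 - I) / 2 by ring, one_sub_I]; push_cast; ring⟩

theorem shp3 : Shp (1 + I) (Real.pi / 4) (Real.pi / 2) where
  A0 := by positivity
  A1 := by linarith [Real.pi_pos]
  B0 := by positivity
  B1 := by linarith [Real.pi_pos]
  AB := by linarith [Real.pi_pos]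
  e1 := ⟨√2, by positivity, one_add_I⟩
  e2 := ⟨1, one_pos, by
    rw [show (1 : ℂ) - (1 + I) = -I by ring, neg_I_exp]⟩

/-- the triangle read from `Q` before `P` -/
theorem rd2 (L : Loop c) : Rd c ((1 + I) / 2) (fun q => q.1 + q.2.1 - 1) (fun q => q.1)
    (fun q => q.2.2) where
  cF := by fun_prop
  cM := by fun_prop
  cG := by fun_prop
  ord q h1 h2 h3 := ⟨by linarith, h1, by linarith⟩
  rel q h := by
    have e : c (q.1 + q.2.1 - 1) = c (q.1 + q.2.1) := by
      rw [← L.per (q.1 + q.2.1 - 1)]; congr 1; ring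
    rw [e, h]
    linear_combination (-(c (q.1 + q.2.1) - c q.1) / 2) * I_sq
  one q h1 h2 h3 := ⟨by linarith, by linarith⟩

/-- the triangle read from `V` before `P` -/
theorem rd3 (L : Loop c) : Rd c (1 + I) (fun q => q.2.2 - 1) (fun q => q.1 + q.2.1 - 1)
    (fun q => q.1) where
  cF := by fun_prop
  cM := by fun_prop
  cG := by fun_prop
  ord q h1 h2 h3 := ⟨by linarith, by linarith, by linarith⟩
  rel q h := by
    have e : c (q.1 + q.2.1 - 1) = c (q.1 + q.2.1) := by
      rw [← L.per (q.1 + q.2.1 - 1)]; congr 1; ring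
    have e' : c (q.2.2 - 1) = c q.2.2 := by
      rw [← L.per (q.2.2 - 1)]; congr 1; ring
    rw [e, e', h]
    linear_combination (c (q.1 + q.2.1) - c q.1) * I_sq
  one q h1 h2 h3 := ⟨by linarith, by linarith⟩

theorem half_coords {a b u : ℂ} (h : u = a + (1 + I) / 2 * (b - a)) :
    2 * u.re = a.re + b.re - (b.im - a.im) ∧ 2 * u.im = a.im + b.im + (b.re - a.re) := by
  have e : 2 * u = a + b + I * (b - a) := by rw [h]; ring
  have e1 := congrArg Complex.re e
  have e2 := congrArg Complex.im e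
  simp only [add_re, add_im, mul_re, mul_im, I_re, I_im, sub_re, sub_im, zero_mul, one_mul,
    re_ofNat, im_ofNat] at e1 e2
  constructor <;> linarith

theorem full_coords {a b u : ℂ} (h : u = a + (1 + I) * (b - a)) :
    u.re = b.re - (b.im - a.im) ∧ u.im = b.im + (b.re - a.re) := by
  have e : u = b + I * (b - a) := by rw [h]; ring
  have e1 := congrArg Complex.re e
  have e2 := congrArg Complex.im e
  simp only [add_re, add_im, mul_re, mul_im, I_re, I_im, sub_re, sub_im, zero_mul, one_mul,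
    zero_add, zero_sub] at e1 e2
  constructor <;> linarith

namespace Win

variable {κ a a₁ α β b₁ b : ℝ}

theorem smallB (W : Win c κ a a₁ α β b₁ b) {s : ℝ} (h : a₁ ≤ s) (h' : s ≤ b₁) :
    6 * ‖c s‖ ≤ (1 - κ) * (c b).re := by
  have hpos := W.b_pos
  obtain ⟨κ0, κ1, h1, h2, h3, h4, h5, h6, hL, hR, hin, hmid, hne⟩ := W
  have b1 := (hmid s h h').2
  have kp : 0 < 1 - κ := by linarith
  have : (1 - κ) * ((1 - κ) * (c b).re) ≤ 1 * ((1 - κ) * (c b).re) :=
    mul_le_mul_of_nonneg_right (by linarith) (by positivity)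
  nlinarith

/-- the angle of a chord that ends in a point to the right of everything before -/
theorem ang_L (D : Dirn c θ) (B : Base c θ a b) {x u : ℝ} (hx : a ≤ x) (hu : x < u) (hu' : u ≤ b)
    (h : ∀ x', a ≤ x' → x' ≤ x → (c x').re < (c u).re) :
    -(Real.pi / 2) < θ x u ∧ θ x u < Real.pi / 2 := by
  have hb := B.ba
  refine stay (Y := Icc a x) isPreconnected_Icc (φ := fun x => θ x u)
    (D.contL fun x' hx' => ⟨by linarith [hx'.2], by linarith [hx'.1]⟩)
    (fun x' g => ?_) (y₀ := a) ⟨le_rfl, hx⟩ (B.from_a D (by linarith) hu') ⟨hx, le_rfl⟩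
  have hp := D.re_pos (show x' < u by linarith [g.2]) (by linarith [g.1]) (h x' g.1 g.2)
  constructor
  · intro e; rw [e, Real.cos_neg, Real.cos_pi_div_two] at hp; exact lt_irrefl _ hp
  · intro e; rw [e, Real.cos_pi_div_two] at hp; exact lt_irrefl _ hp

/-- the angle of a chord that starts in a point to the left of everything after -/
theorem ang_R (D : Dirn c θ) (B : Base c θ a b) {u y : ℝ} (hu : a ≤ u) (hy : u < y) (hy' : y ≤ b)
    (h : ∀ y', y ≤ y' → y' ≤ b → (c u).re < (c y').re) :
    -(Real.pi / 2) < θ u y ∧ θ u y < Real.pi / 2 := by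
  have hb := B.ba
  refine stay (Y := Icc y b) isPreconnected_Icc
    (D.contR fun y' hy => ⟨by linarith [hy.1], by linarith [hy.2]⟩)
    (fun y' g => ?_) (y₀ := b) ⟨by linarith, le_rfl⟩
    (B.to_b D hu (by linarith)) ⟨le_rfl, by linarith⟩
  have hp := D.re_pos (show u < y' by linarith [g.1]) (by linarith [g.2]) (h y' g.1 g.2)
  constructor
  · intro e; rw [e, Real.cos_neg, Real.cos_pi_div_two] at hp; exact lt_irrefl _ hp
  · intro e; rw [e, Real.cos_pi_div_two] at hp; exact lt_irrefl _ hp

theorem bar2 (W : Win c κ a a₁ α β b₁ b) (D : Dirn c θ) (B : Base c θ a b) :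
    Bar c θ ((1 + I) / 2) (Real.pi / 4) (Real.pi / 4) a a₁ b₁ b := by
  have hπ := Real.pi_pos
  have pa := W.a_pos
  have pb := W.b_pos
  have κ0 := W.κ0
  have κ1 := W.κ1
  have h1 := W.h1
  have h2 := W.h2
  have h3 := W.h3
  have h4 := W.h4
  have h5 := W.h5
  have hb := B.ba
  have kA : 0 < (1 - κ) * -(c a).re := mul_pos (by linarith) pa
  have kB : 0 < (1 - κ) * (c b).re := mul_pos (by linarith) pb
  have aL := abs_le.1 (W.hL a le_rfl (by linarith))
  have bR := abs_le.1 (W.hR b (by linarith) le_rfl)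
  refine ⟨?_, ?_, ?_, ?_⟩
  · intro x u g1 g2 g3 g4 h
    obtain ⟨e1, e2⟩ := half_coords h
    have sx := W.smallB g1 g2
    have x1 := abs_le.1 (Complex.abs_im_le_norm (c x))
    have x2 := abs_le.1 (Complex.abs_re_le_norm (c x))
    have r1 := ang_L D B (x := x) (u := u) (by linarith) g3 g4.le (fun x' q1 q2 => by
      rcases le_total x' a₁ with q | q
      · have := re_of κ0 (W.hL x' q1 (by linarith))
        linarith [x1.1, x1.2, x2.1, x2.2, bR.1, bR.2]
      · have sx' := W.smallB q (by linarith)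
        have x3 := abs_le.1 (Complex.abs_re_le_norm (c x'))
        linarith [x1.1, x1.2, x2.1, x2.2, bR.1, bR.2, x3.1, x3.2])
    have r2 := B.to_b D (show a ≤ x by linarith) (show x < b by linarith)
    obtain ⟨j, hj⟩ := shp2.lab1 D g3 g4 (by linarith) h
    have : j = 0 := int_zero_of (x := θ x u - θ x b - Real.pi / 4) (by linarith)
      (by linarith [r1.1, r1.2, r2.1, r2.2]) (by linarith [r1.1, r1.2, r2.1, r2.2])
    rw [this] at hj
    rw [hj]; push_cast; ring
  · intro x u g1 g2 g3 g4 h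
    obtain ⟨e1, e2⟩ := half_coords h
    have su := W.smallB g3 g4
    have u1 := abs_le.1 (Complex.abs_im_le_norm (c u))
    have u2 := abs_le.1 (Complex.abs_re_le_norm (c u))
    rcases le_total x a₁ with q | q
    · have xL := abs_le.1 (W.hL x g1 (by linarith))
      -- x.im = u.re + u.im - y.re, x.re = u.re - u.im + y.im
      have e3 : (c x).im = (c u).re + (c u).im - (c b).re := by linarith
      have e4 : (c x).re = (c u).re - (c u).im + (c b).im := by linarith
      have e5 : κ * -(c x).re ≤ κ * (2 * ‖c u‖ + κ * (c b).re) := by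
        refine mul_le_mul_of_nonneg_left ?_ κ0.le
        linarith [u1.1, u1.2, u2.1, u2.2, bR.1, bR.2]
      have e6 : (c b).re - 2 * ‖c u‖ ≤ κ * (2 * ‖c u‖ + κ * (c b).re) := by
        linarith [u1.1, u1.2, u2.1, u2.2, xL.1]
      have e7 : (1 + κ) * ((1 - κ) * (c b).re) ≤ (1 + κ) * (2 * ‖c u‖) := by nlinarith
      have e8 := le_of_mul_le_mul_left e7 (by linarith)
      linarith [norm_nonneg (c u)]
    · have sx := W.smallB q (by linarith)
      have x1 := abs_le.1 (Complex.abs_im_le_norm (c x))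
      have : (1 - κ) * (c b).re ≤ (c b).re := by nlinarith
      linarith [x1.1, x1.2, u1.1, u1.2, u2.1, u2.2]
  · intro u y g1 g2 g3 g4 h
    obtain ⟨e1, e2⟩ := half_coords h
    have su := W.small g1 g2
    have u1 := abs_le.1 (Complex.abs_im_le_norm (c u))
    have u2 := abs_le.1 (Complex.abs_re_le_norm (c u))
    have e3 : (c y).im = (c u).im - (c u).re + (c a).re := by linarith
    have e4 : (c y).re = (c u).re + (c u).im - (c a).im := by linarith
    rcases le_total y b₁ with q | q
    · have sy := W.small (by linarith) q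
      have y1 := abs_le.1 (Complex.abs_im_le_norm (c y))
      have : (1 - κ) * -(c a).re ≤ -(c a).re := by nlinarith
      linarith [y1.1, y1.2, u1.1, u1.2, u2.1, u2.2]
    · have yR := abs_le.1 (W.hR y (by linarith) g4)
      have e5 : κ * (c y).re ≤ κ * (2 * ‖c u‖ + κ * -(c a).re) := by
        refine mul_le_mul_of_nonneg_left ?_ κ0.le
        linarith [u1.1, u1.2, u2.1, u2.2, aL.1, aL.2]
      have e6 : -(c a).re - 2 * ‖c u‖ ≤ κ * (2 * ‖c u‖ + κ * -(c a).re) := by
        linarith [u1.1, u1.2, u2.1, u2.2, yR.1]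
      have e7 : (1 + κ) * ((1 - κ) * -(c a).re) ≤ (1 + κ) * (2 * ‖c u‖) := by nlinarith
      have e8 := le_of_mul_le_mul_left e7 (by linarith)
      linarith [norm_nonneg (c u)]
  · intro u y g1 g2 g3 g4 h
    obtain ⟨e1, e2⟩ := half_coords h
    have sy := W.small g3 g4
    have y1 := abs_le.1 (Complex.abs_im_le_norm (c y))
    have y2 := abs_le.1 (Complex.abs_re_le_norm (c y))
    have r1 := ang_R D B (u := u) (y := y) g1.le g2 (by linarith) (fun y' q1 q2 => by
      rcases le_total y' b₁ with q | q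
      · have sy' := W.small (by linarith) q
        have y3 := abs_le.1 (Complex.abs_re_le_norm (c y'))
        linarith [y1.1, y1.2, y2.1, y2.2, aL.1, aL.2, y3.1, y3.2]
      · have := re_of κ0 (W.hR y' (by linarith) q2)
        linarith [y1.1, y1.2, y2.1, y2.2, aL.1, aL.2])
    have r2 := B.from_a D (show a < y by linarith) (by linarith)
    obtain ⟨j, hj⟩ := shp2.lab2 D g1 g2 (by linarith) h
    have : j = 0 := int_zero_of (x := θ u y - θ a y + Real.pi / 4) (by linarith)
      (by linarith [r1.1, r1.2, r2.1, r2.2]) (by linarith [r1.1, r1.2, r2.1, r2.2])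
    rw [this] at hj
    rw [hj]; push_cast; ring

theorem bar3 (W : Win c κ a a₁ α β b₁ b) (D : Dirn c θ) (B : Base c θ a b) :
    Bar c θ (1 + I) (Real.pi / 4) (Real.pi / 2) a a₁ b₁ b := by
  have hπ := Real.pi_pos
  have pa := W.a_pos
  have pb := W.b_pos
  have κ0 := W.κ0
  have κ1 := W.κ1
  have h1 := W.h1
  have h2 := W.h2
  have h3 := W.h3
  have h4 := W.h4
  have h5 := W.h5
  have hb := B.ba
  have kA : 0 < (1 - κ) * -(c a).re := mul_pos (by linarith) pa
  have kB : 0 < (1 - κ) * (c b).re := mul_pos (by linarith) pb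
  have aL := abs_le.1 (W.hL a le_rfl (by linarith))
  have bR := abs_le.1 (W.hR b (by linarith) le_rfl)
  refine ⟨?_, ?_, ?_, ?_⟩
  · intro x u g1 g2 g3 g4 h
    obtain ⟨e1, e2⟩ := full_coords h
    have sx := W.smallB g1 g2
    have x1 := abs_le.1 (Complex.abs_im_le_norm (c x))
    have x2 := abs_le.1 (Complex.abs_re_le_norm (c x))
    have r1 := ang_L D B (x := x) (u := u) (by linarith) g3 g4.le (fun x' q1 q2 => by
      rcases le_total x' a₁ with q | q
      · have := re_of κ0 (W.hL x' q1 (by linarith))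
        linarith [x1.1, x1.2, x2.1, x2.2, bR.1, bR.2]
      · have sx' := W.smallB q (by linarith)
        have x3 := abs_le.1 (Complex.abs_re_le_norm (c x'))
        linarith [x1.1, x1.2, x2.1, x2.2, bR.1, bR.2, x3.1, x3.2])
    have r2 := B.to_b D (show a ≤ x by linarith) (show x < b by linarith)
    obtain ⟨j, hj⟩ := shp3.lab1 D g3 g4 (by linarith) h
    have : j = 0 := int_zero_of (x := θ x u - θ x b - Real.pi / 4) (by linarith)
      (by linarith [r1.1, r1.2, r2.1, r2.2]) (by linarith [r1.1, r1.2, r2.1, r2.2])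
    rw [this] at hj
    rw [hj]; push_cast; ring
  · intro x u g1 g2 g3 g4 h
    obtain ⟨e1, e2⟩ := full_coords h
    have su := W.smallB g3 g4
    have u1 := abs_le.1 (Complex.abs_im_le_norm (c u))
    have u2 := abs_le.1 (Complex.abs_re_le_norm (c u))
    have e4 : (c x).re = (c b).re + (c b).im - (c u).im := by linarith
    rcases le_total x a₁ with q | q
    · have := re_of κ0 (W.hL x g1 (by linarith))
      linarith [u1.1, u1.2, bR.1, bR.2]
    · have sx := W.smallB q (by linarith)
      have x1 := abs_le.1 (Complex.abs_re_le_norm (c x))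
      linarith [x1.1, x1.2, u1.1, u1.2, bR.1, bR.2]
  · intro u y g1 g2 g3 g4 h
    obtain ⟨e1, e2⟩ := full_coords h
    have su := W.small g1 g2
    have u1 := abs_le.1 (Complex.abs_im_le_norm (c u))
    have u2 := abs_le.1 (Complex.abs_re_le_norm (c u))
    have e4 : 2 * (c y).re = (c u).re + (c u).im + (c a).re - (c a).im := by linarith
    rcases le_total y b₁ with q | q
    · have sy := W.small (by linarith) q
      have y1 := abs_le.1 (Complex.abs_re_le_norm (c y))
      linarith [y1.1, y1.2, u1.1, u1.2, u2.1, u2.2, aL.1, aL.2]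
    · have := re_of κ0 (W.hR y (by linarith) g4)
      linarith [u1.1, u1.2, u2.1, u2.2, aL.1, aL.2]
  · intro u y g1 g2 g3 g4 h
    exfalso
    obtain ⟨e1, e2⟩ := full_coords h
    have sy := W.small g3 g4
    have y1 := abs_le.1 (Complex.abs_im_le_norm (c y))
    have y2 := abs_le.1 (Complex.abs_re_le_norm (c y))
    rcases le_total u a₁ with q | q
    · have uL := abs_le.1 (W.hL u g1.le (by linarith))
      have e5 : κ * -(c u).re ≤ κ * (2 * ‖c y‖ + κ * -(c a).re) := by
        refine mul_le_mul_of_nonneg_left ?_ κ0.le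
        linarith [y1.1, y1.2, y2.1, y2.2, aL.1, aL.2]
      have e6 : -(c a).re - 2 * ‖c y‖ ≤ κ * (2 * ‖c y‖ + κ * -(c a).re) := by
        linarith [y1.1, y1.2, y2.1, y2.2, uL.2]
      have e7 : (1 + κ) * ((1 - κ) * -(c a).re) ≤ (1 + κ) * (2 * ‖c y‖) := by nlinarith
      have e8 := le_of_mul_le_mul_left e7 (by linarith)
      linarith [norm_nonneg (c y)]
    · have su := W.small q (by linarith)
      have u1 := abs_le.1 (Complex.abs_im_le_norm (c u))
      have : (1 - κ) * -(c a).re ≤ -(c a).re := by nlinarith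
      linarith [y1.1, y1.2, y2.1, y2.2, u1.1, u1.2]

end Win

end Pool.Agent.N335.Hg
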