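import Pool.Agent.N335.Hg.Glob

/-! Consequences: double sectors at all points, one-sided tangents, differentiable curves. -/

set_option autoImplicit false
open Complex Set Topology Metric Filter

namespace Pool.Agent.N335.Hg

open Pool.Agent.H763R2 Pool.Agent.H763R2.An

variable {c : ℝ → ℂ}

/-- the double sector condition at the parameter `t` -/
def Cone (c : ℝ → ℂ) (t : ℝ) : Prop :=
  ∃ (κ ρ : ℝ) (w : ℂ), 0 < κ ∧ κ < 1 ∧ 0 < ρ ∧ w ≠ 0 ∧
    (∀ s, t - ρ < s → s < t → |(w * (c s - c t)).im| ≤ κ * -(w * (c s - c t)).re) ∧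
    (∀ s, t < s → s < t + ρ → |(w * (c s - c t)).im| ≤ κ * (w * (c s - c t)).re)

theorem hour_of_cone (L : Loop c) (J : Inj c) {t : ℝ} (h : Cone c t) : Hourglass c t := by
  obtain ⟨κ, ρ, w, κ0, κ1, hρ, hw, h1, h2⟩ := h
  have hcc := L.cont
  obtain ⟨r, hr⟩ : ∃ r, r = min (ρ / 2) (1 / 4) := ⟨_, rfl⟩
  have r0 : 0 < r := by rw [hr]; positivity
  have r1 : r < ρ := by
    have : r ≤ ρ / 2 := by rw [hr]; exact min_le_left _ _
    linarith
  have r2 : r ≤ 1 / 4 := by rw [hr]; exact min_le_right _ _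
  have ha : 0 < ‖c (t - r) - c t‖ :=
    norm_pos_iff.2 (sub_ne_zero.2 (J (t - r) t (by linarith) (by linarith)))
  have hb : 0 < ‖c (t + r) - c t‖ :=
    norm_pos_iff.2 (sub_ne_zero.2 (J t (t + r) (by linarith) (by linarith)).symm)
  have kk : 0 < (1 - κ) ^ 2 := by
    have : 0 < 1 - κ := by linarith
    positivity
  obtain ⟨m, hm⟩ : ∃ m, m = (1 - κ) ^ 2 * min ‖c (t - r) - c t‖ ‖c (t + r) - c t‖ := ⟨_, rfl⟩
  have m0 : 0 < m := by rw [hm]; exact mul_pos kk (lt_min ha hb)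
  have m1 : m ≤ (1 - κ) ^ 2 * ‖c (t - r) - c t‖ := by
    rw [hm]; exact mul_le_mul_of_nonneg_left (min_le_left _ _) kk.le
  have m2 : m ≤ (1 - κ) ^ 2 * ‖c (t + r) - c t‖ := by
    rw [hm]; exact mul_le_mul_of_nonneg_left (min_le_right _ _) kk.le
  have hcont : Continuous fun s => 10 * ‖c s - c t‖ := by fun_prop
  have hev : ∀ᶠ s in 𝓝 t, 10 * ‖c s - c t‖ < m := by
    refine hcont.continuousAt.eventually (gt_mem_nhds ?_)
    show 10 * ‖c t - c t‖ < m
    rw [sub_self, norm_zero, mul_zero]; exact m0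
  obtain ⟨η, η0, hη⟩ := Metric.eventually_nhds_iff.1 hev
  obtain ⟨e, he⟩ : ∃ e, e = min (η / 2) (r / 2) := ⟨_, rfl⟩
  have e0 : 0 < e := by rw [he]; positivity
  have e1 : e < η := by
    have : e ≤ η / 2 := by rw [he]; exact min_le_left _ _
    linarith
  have e2 : e < r := by
    have : e ≤ r / 2 := by rw [he]; exact min_le_right _ _
    linarith
  refine ⟨κ, t - r, t - e, t, t, t + e, t + r, w, κ0, κ1, hw, by linarith, by linarith, le_rfl,
    le_rfl, by linarith, by linarith, by linarith, ?_, ?_, ?_, ?_⟩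
  · intro s hs
    rcases eq_or_lt_of_le hs.2 with h | h
    · rw [h, sub_self, mul_zero]; simp
    · exact h1 s (by linarith [hs.1]) h
  · intro s hs
    rcases eq_or_lt_of_le hs.1 with h | h
    · rw [← h, sub_self, mul_zero]; simp
    · exact h2 s h (by linarith [hs.2])
  · intro s hs s' _
    have : s = t := le_antisymm hs.2 hs.1
    rw [this, sub_self, norm_zero, mul_zero]
    positivity
  · intro s hs
    have hd : dist s t < η := by
      rw [Real.dist_eq, abs_lt]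
      constructor <;> linarith [hs.1, hs.2]
    have := hη hd
    exact ⟨by linarith, by linarith⟩

/-- a limit of directions in an open sector -/
theorem sector_ev {l : Filter ℝ} {g : ℝ → ℂ} {v w : ℂ} {κ : ℝ} (hg : Tendsto g l (𝓝 v))
    (h : |(w * v).im| < κ * (w * v).re) : ∀ᶠ s in l, |(w * g s).im| < κ * (w * g s).re := by
  have h1 : Continuous fun z : ℂ => κ * (w * z).re - |(w * z).im| := by fun_prop
  have h2 := (h1.tendsto v).comp hg
  have h3 : (0:ℝ) < κ * (w * v).re - |(w * v).im| := by linarith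
  filter_upwards [h2.eventually (lt_mem_nhds h3)] with s hs
  simp only [Function.comp] at hs
  linarith

theorem scale_sector {ρ κ : ℝ} (hρ : 0 ≤ ρ) {w z : ℂ} (h : |(w * z).im| ≤ κ * (w * z).re) :
    |(w * (ρ * z)).im| ≤ κ * (w * (ρ * z)).re := by
  rw [show w * (ρ * z) = ρ * (w * z) by ring, im_ofReal_mul, re_ofReal_mul, abs_mul,
    abs_of_nonneg hρ]
  calc ρ * |(w * z).im| ≤ ρ * (κ * (w * z).re) := mul_le_mul_of_nonneg_left h hρ
    _ = κ * (ρ * (w * z).re) := by ring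

/-- one-sided tangents at an angle of more than 90 degrees -/
theorem cone_of_tangents {t : ℝ} {u v : ℂ} (hu : ‖u‖ = 1) (hv : ‖v‖ = 1)
    (huv : (u * (starRingEnd ℂ) v).re < 0)
    (h1 : Tendsto (fun s => ((‖c s - c t‖⁻¹ : ℝ) : ℂ) * (c s - c t)) (𝓝[<] t) (𝓝 u))
    (h2 : Tendsto (fun s => ((‖c s - c t‖⁻¹ : ℝ) : ℂ) * (c s - c t)) (𝓝[>] t) (𝓝 v)) :
    Cone c t := by
  obtain ⟨w, hw⟩ : ∃ w, w = (starRingEnd ℂ) (v - u) := ⟨_, rfl⟩
  obtain ⟨p, hp⟩ : ∃ p, p = -(u * (starRingEnd ℂ) v).re := ⟨_, rfl⟩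
  obtain ⟨q, hq⟩ : ∃ q, q = (u * (starRingEnd ℂ) v).im := ⟨_, rfl⟩
  have hpq : p ^ 2 + q ^ 2 = 1 := by
    have h := Complex.normSq_eq_norm_sq (u * (starRingEnd ℂ) v)
    rw [norm_mul, Complex.norm_conj, hu, hv, Complex.normSq_apply] at h
    rw [hp, hq]
    linarith
  have p0 : 0 < p := by rw [hp]; linarith
  have p1 : p ≤ 1 := by nlinarith [sq_nonneg q]
  have nv : v.re ^ 2 + v.im ^ 2 = 1 := by
    have h := Complex.normSq_eq_norm_sq v
    rw [hv, Complex.normSq_apply] at h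
    linarith
  have nu : u.re ^ 2 + u.im ^ 2 = 1 := by
    have h := Complex.normSq_eq_norm_sq u
    rw [hu, Complex.normSq_apply] at h
    linarith
  have ep : p = -(u.re * v.re + u.im * v.im) := by rw [hp]; simp
  have eq : q = u.im * v.re - u.re * v.im := by rw [hq]; simp; ring
  have wv1 : (w * v).re = 1 + p := by
    rw [hw, ep]; simp; nlinarith
  have wv2 : (w * v).im = q := by
    rw [hw, eq]; simp; ring
  have wu1 : (w * u).re = -(1 + p) := by
    rw [hw, ep]; simp; nlinarith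
  have wu2 : (w * u).im = q := by
    rw [hw, eq]; simp; ring
  have hqlt : |q| < 1 + p := by
    rw [abs_lt]
    constructor <;> nlinarith
  obtain ⟨κ, hκ1, hκ2⟩ : ∃ κ, |q| / (1 + p) < κ ∧ κ < 1 :=
    exists_between (by rw [div_lt_one (by linarith)]; exact hqlt)
  have κ0 : 0 < κ := lt_of_le_of_lt (by positivity) hκ1
  rw [div_lt_iff₀ (by linarith)] at hκ1
  have e2 : ∀ᶠ s in 𝓝[>] t, |(w * (((‖c s - c t‖⁻¹ : ℝ) : ℂ) * (c s - c t))).im| <
      κ * (w * (((‖c s - c t‖⁻¹ : ℝ) : ℂ) * (c s - c t))).re :=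
    sector_ev h2 (by rw [wv1, wv2]; exact hκ1)
  have e1 : ∀ᶠ s in 𝓝[<] t, |(-w * (((‖c s - c t‖⁻¹ : ℝ) : ℂ) * (c s - c t))).im| <
      κ * (-w * (((‖c s - c t‖⁻¹ : ℝ) : ℂ) * (c s - c t))).re :=
    sector_ev h1 (by
      rw [neg_mul, neg_im, neg_re, wu1, wu2, abs_neg, neg_neg]; exact hκ1)
  obtain ⟨b, hb, hb'⟩ := (mem_nhdsGT_iff_exists_Ioo_subset).1 e2
  obtain ⟨a, ha, ha'⟩ := (mem_nhdsLT_iff_exists_Ioo_subset).1 e1
  have scal : ∀ z : ℂ, z = ((‖z‖ : ℝ) : ℂ) * (((‖z‖⁻¹ : ℝ) : ℂ) * z) := by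
    intro z
    by_cases hz : z = 0
    · rw [hz]; simp
    · have : ((‖z‖ : ℝ) : ℂ) ≠ 0 := ofReal_ne_zero.2 (norm_ne_zero_iff.2 hz)
      push_cast
      field_simp
  have hb0 : t < b := hb
  have ha0 : a < t := ha
  refine ⟨κ, min (b - t) (t - a), w, κ0, hκ2, lt_min (by linarith) (by linarith), ?_, ?_, ?_⟩
  · rintro rfl
    rw [zero_mul, zero_re] at wv1
    linarith
  · intro s g1 g2
    have g3 : min (b - t) (t - a) ≤ t - a := min_le_right _ _
    have h : |(-w * (((‖c s - c t‖⁻¹ : ℝ) : ℂ) * (c s - c t))).im| <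
      κ * (-w * (((‖c s - c t‖⁻¹ : ℝ) : ℂ) * (c s - c t))).re := ha' ⟨by linarith, g2⟩
    have h' := scale_sector (norm_nonneg (c s - c t)) h.le
    rw [← scal, neg_mul, neg_im, neg_re, abs_neg] at h'
    exact h'
  · intro s g1 g2
    have g3 : min (b - t) (t - a) ≤ b - t := min_le_left _ _
    have h : |(w * (((‖c s - c t‖⁻¹ : ℝ) : ℂ) * (c s - c t))).im| <
      κ * (w * (((‖c s - c t‖⁻¹ : ℝ) : ℂ) * (c s - c t))).re := hb' ⟨g1, by linarith⟩
    have h' := scale_sector (norm_nonneg (c s - c t)) h.le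
    rw [← scal] at h'
    exact h'

/-- a non-vanishing derivative -/
theorem cone_of_deriv {t : ℝ} {v : ℂ} (hv : v ≠ 0) (h : HasDerivAt c v t) : Cone c t := by
  have h1 := hasDerivAt_iff_tendsto_slope.1 h
  have hv2 : 0 < Complex.normSq v := Complex.normSq_pos.2 hv
  have e := sector_ev (w := (starRingEnd ℂ) v) (κ := 1 / 2) h1 (by
    have : (starRingEnd ℂ) v * v = ((Complex.normSq v : ℝ) : ℂ) := by
      rw [mul_comm, Complex.mul_conj]
    rw [this, ofReal_im, ofReal_re, abs_zero]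
    linarith)
  rw [eventually_nhdsWithin_iff] at e
  obtain ⟨η, η0, hη⟩ := Metric.eventually_nhds_iff.1 e
  have hsl : ∀ s, s ≠ t → c s - c t = ((s - t : ℝ) : ℂ) * slope c t s := by
    intro s hs
    rw [slope_def_module, Complex.real_smul, ← mul_assoc, ← ofReal_mul,
      mul_inv_cancel₀ (sub_ne_zero.2 hs), ofReal_one, one_mul]
  refine ⟨1 / 2, η, (starRingEnd ℂ) v, by norm_num, by norm_num, η0, ?_, ?_, ?_⟩
  · rw [ne_eq, map_eq_zero]; exact hv
  · intro s g1 g2
    have hd : dist s t < η := by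
      rw [Real.dist_eq, abs_lt]; constructor <;> linarith
    have h2 := hη hd (by simpa using g2.ne)
    have h3 := scale_sector (ρ := t - s) (by linarith) h2.le
    have h4 : (starRingEnd ℂ) v * (((t - s : ℝ) : ℂ) * slope c t s) =
        -((starRingEnd ℂ) v * (c s - c t)) := by
      rw [hsl s g2.ne]; push_cast; ring
    rw [h4, neg_im, neg_re, abs_neg] at h3
    exact h3
  · intro s g1 g2
    have hd : dist s t < η := by
      rw [Real.dist_eq, abs_lt]; constructor <;> linarith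
    have h2 := hη hd (by simpa using g1.ne')
    have h3 := scale_sector (ρ := s - t) (by linarith) h2.le
    rw [← hsl s g1.ne'] at h3
    exact h3

end Pool.Agent.N335.Hg
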