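import Pool.Agent.N335.Hg.Grand2

/-! The local theorem for families of triangles with an escape: roles of free points. -/

set_option autoImplicit false
open Complex Set Topology Metric

namespace Pool.Agent.N335.Hg

open Pool.Agent.H763R2 Pool.Agent.H763R2.An
open Pool.Agent.Y765.Sq (Ann exists_int)

variable {c : ℝ → ℂ} {θ : ℝ → ℝ → ℝ}

/-- a connected family stays in a closed part if it avoids the frontier -/
theorem clopen3 (L : Loop c) (J : Inj c) {δ a : ℝ} (hδ : 0 < δ) {T : Set Ann}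
    (hT : IsPreconnected T) (hTt : TyA c δ T) {N N' : Set (ℝ × ℝ × ℝ)}
    (h1 : IsClosed (Mm c δ a ∩ N)) (h2 : IsClosed (Mm c δ a ∩ N'))
    (hc : ∀ q ∈ Mm c δ a, q ∉ N → q ∈ N')
    (hin : ∀ q ∈ Mm c δ a ∩ N, a < q.1 ∧ q.1 < a + 1)
    (hd : ∀ q ∈ Mm c δ a, q ∈ N → q ∈ N' → (((q.1 : AddCircle (1 : ℝ)), q.2.1) : Ann) ∉ T)
    {q₀ : ℝ × ℝ × ℝ}
    (hq₀ : q₀ ∈ Mm c δ a ∩ N) (hq₀T : (((q₀.1 : AddCircle (1 : ℝ)), q₀.2.1) : Ann) ∈ T) :
    ∀ p ∈ T, ∃ q ∈ Mm c δ a ∩ N, (((q.1 : AddCircle (1 : ℝ)), q.2.1) : Ann) = p := by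
  obtain ⟨π, hπ⟩ : ∃ π : ℝ × ℝ × ℝ → Ann, π = fun q => ((q.1 : AddCircle (1 : ℝ)), q.2.1) :=
    ⟨_, rfl⟩
  have cπ : Continuous π := by
    rw [hπ]
    exact ((AddCircle.continuous_mk' 1).comp continuous_fst).prodMk
      (continuous_fst.comp continuous_snd)
  have hM := Mm_compact L.cont δ a hδ
  have g1 : IsClosed (π '' (Mm c δ a ∩ N)) :=
    ((hM.of_isClosed_subset h1 inter_subset_left).image cπ).isClosed
  have g2 : IsClosed (π '' (Mm c δ a ∩ N')) :=
    ((hM.of_isClosed_subset h2 inter_subset_left).image cπ).isClosed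
  have hcov : T ⊆ π '' (Mm c δ a ∩ N) ∪ π '' (Mm c δ a ∩ N') := by
    intro p hp
    obtain ⟨d1, d2, hall⟩ := hTt p hp
    obtain ⟨y, hy⟩ := QuotientAddGroup.mk_surjective p.1
    change (y : AddCircle (1 : ℝ)) = p.1 at hy
    obtain ⟨x, hx⟩ : ∃ x, x = a + Int.fract (y - a) := ⟨_, rfl⟩
    have hxp : (x : AddCircle (1 : ℝ)) = p.1 := by
      rw [← hy, hx]
      have : y = a + Int.fract (y - a) + (⌊y - a⌋ : ℝ) := by
        rw [add_assoc, Int.fract_add_floor]; ring
      rw [this, AddCircle.coe_add (p := (1:ℝ)) (a + Int.fract (y - a)) _]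
      have h0 : ((⌊y - a⌋ : ℝ) : AddCircle (1 : ℝ)) = 0 := by
        rw [AddCircle.coe_eq_zero_iff]
        exact ⟨⌊y - a⌋, by simp⟩
      rw [show a + Int.fract (y - a) + (⌊y - a⌋ : ℝ) - a = y - a from by rw [← this]]
      rw [h0, add_zero]
    obtain ⟨u, u1, u2, u3⟩ := hall x hxp
    have hmem : (x, p.2, u) ∈ Mm c δ a :=
      ⟨⟨by rw [hx]; linarith [Int.fract_nonneg (y - a)],
        by rw [hx]; linarith [Int.fract_lt_one (y - a)]⟩, ⟨d1, d2⟩, u1.le, u2.le, u3⟩
    have hpi : π (x, p.2, u) = p := by rw [hπ]; exact Prod.ext hxp rfl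
    by_cases hS : (x, p.2, u) ∈ N
    · exact Or.inl ⟨_, ⟨hmem, hS⟩, hpi⟩
    · exact Or.inr ⟨_, ⟨hmem, hc _ hmem hS⟩, hpi⟩
  have hdis : ∀ p ∈ T, ¬ (p ∈ π '' (Mm c δ a ∩ N) ∧ p ∈ π '' (Mm c δ a ∩ N')) := by
    rintro p hpT ⟨⟨⟨x, s, u⟩, hq, e⟩, ⟨⟨x', s', u'⟩, hq', e'⟩⟩
    have hx := hin _ hq
    have s1 := Mm_strict J hδ hq.1
    have s2 := Mm_strict J hδ hq'.1
    have m1 := hq.1
    have m2 := hq'.1
    obtain ⟨k1, k2, k3, k4, k5⟩ := m1
    obtain ⟨l1, l2, l3, l4, l5⟩ := m2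
    rw [hπ] at e e'
    simp only at *
    have e3 := e.trans e'.symm
    obtain ⟨e4, e5⟩ := Prod.mk.injEq .. ▸ e3
    obtain ⟨n, hn⟩ := exists_int e4
    have n1 : (-1 : ℝ) < n := by linarith [l1.2]
    have n2 : (n : ℝ) < 1 := by linarith [l1.1]
    have n3 : -1 < n := by exact_mod_cast n1
    have n4 : n < 1 := by exact_mod_cast n2
    have n5 : n = 0 := by omega
    rw [n5, Int.cast_zero, add_zero] at hn
    subst hn
    subst e5
    have hu : u = u' := by
      have hcu : c u = c u' := by rw [k5, l5]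
      rcases lt_trichotomy u u' with h | h | h
      · exact absurd hcu (J u u' h (by linarith))
      · exact h
      · exact absurd hcu.symm (J u' u h (by linarith))
    subst hu
    refine hd _ hq.1 hq.2 hq'.2 ?_
    simp only
    rw [e]
    exact hpT
  intro p hp
  have hp1 : p ∈ π '' (Mm c δ a ∩ N) := by
    by_contra hcon
    have hp2 := (hcov hp).resolve_left hcon
    obtain ⟨r, hrT, hr⟩ := isPreconnected_closed_iff.1 hT _ _ g1 g2 hcov
      ⟨_, hq₀T, ⟨q₀, hq₀, by rw [hπ]⟩⟩ ⟨p, hp, hp2⟩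
    exact hdis r hrT hr
  obtain ⟨q, hq, e⟩ := hp1
  exact ⟨q, hq, by rw [← e, hπ]⟩

/-- rotated curves -/
theorem Dirn.rot (D : Dirn c θ) {w : ℂ} (hw : w ≠ 0) (t : ℝ) :
    Dirn (mv c w t) (fun x y => θ x y + (log w).im) := by
  refine ⟨D.cont.add continuousOn_const, fun x y h1 h2 => ?_⟩
  obtain ⟨ρ, hρ, e⟩ := D.ex x y h1 h2
  refine ⟨Real.exp (log w).re * ρ, mul_pos (Real.exp_pos _) hρ, ?_⟩
  have e1 : mv c w t y - mv c w t x = w * (c y - c x) := by unfold mv; ring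
  rw [e1, e]
  nth_rewrite 1 [← exp_log hw, ← re_add_im (log w)]
  rw [exp_add, ← ofReal_exp]
  push_cast
  rw [add_mul, exp_add]
  ring

/-- two choices of the directions differ by a constant -/
theorem dirn_diff {θ' : ℝ → ℝ → ℝ} {w : ℂ} {t : ℝ} (hw : w ≠ 0) (D : Dirn c θ)
    (D' : Dirn (mv c w t) θ') : ∃ C : ℝ, ∀ x y, x < y → y < x + 1 → θ' x y = θ x y + C := by
  have hne : UU.Nonempty := ⟨(0, 1/2), by norm_num [UU]⟩
  have : PreconnectedSpace UU := Subtype.preconnectedSpace UU_convex.isPreconnected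
  have c1 : Continuous fun p : UU => θ p.1.1 p.1.2 := by
    have := continuousOn_iff_continuous_domRestrict.1 D.cont
    exact this
  have c2 : Continuous fun p : UU => θ' p.1.1 p.1.2 := by
    have := continuousOn_iff_continuous_domRestrict.1 D'.cont
    exact this
  have D2 := D.rot hw t
  have key := H777R2.exp_const (X := UU)
    (k := fun p => (((θ' p.1.1 p.1.2 - (θ p.1.1 p.1.2 + (log w).im) : ℝ) : ℂ)) * I)
    ((continuous_ofReal.comp (c2.sub (c1.add continuous_const))).mul continuous_const) (c := 1)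
    (fun p => by
      obtain ⟨ρ, hρ, e⟩ := D2.ex p.1.1 p.1.2 p.2.1 p.2.2
      obtain ⟨ρ', hρ', e'⟩ := D'.ex p.1.1 p.1.2 p.2.1 p.2.2
      rw [e] at e'
      obtain ⟨n, hn⟩ := ang_eq hρ' hρ e'.symm
      rw [hn, add_sub_cancel_left, exp_eq_one_iff]
      exact ⟨n, by push_cast; ring⟩)
  refine ⟨θ' 0 (1 / 2) - θ 0 (1 / 2), fun x y h1 h2 => ?_⟩
  have h := key ⟨(x, y), ⟨h1, h2⟩⟩ ⟨(0, 1 / 2), by norm_num [UU]⟩
  simp only at h
  have h3 := mul_right_cancel₀ I_ne_zero h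
  have h4 : θ' x y - (θ x y + (log w).im) = θ' 0 (1 / 2) - (θ 0 (1 / 2) + (log w).im) := by
    exact_mod_cast h3
  linarith

/-- the directions from `z` to later points are in an interval of length `3 π / 2` -/
def Fu (θ : ℝ → ℝ → ℝ) (b z : ℝ) : Prop :=
  ∃ f, ∀ y, z < y → y ≤ b → f < θ z y ∧ θ z y < f + 3 * Real.pi / 2

/-- the directions to `z` from earlier points are in an interval of length `3 π / 2` -/
def Pa (θ : ℝ → ℝ → ℝ) (a z : ℝ) : Prop :=
  ∃ f, ∀ x, a ≤ x → x < z → f < θ x z ∧ θ x z < f + 3 * Real.pi / 2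

theorem norm_angle (x : ℝ) : ∃ k : ℤ, -(Real.pi / 4) ≤ x + k * (2 * Real.pi) ∧
    x + k * (2 * Real.pi) < 7 * Real.pi / 4 := by
  have hπ := Real.pi_pos
  refine ⟨-⌊(x + Real.pi / 4) / (2 * Real.pi)⌋, ?_⟩
  have e1 := Int.floor_le ((x + Real.pi / 4) / (2 * Real.pi))
  have e2 := Int.lt_floor_add_one ((x + Real.pi / 4) / (2 * Real.pi))
  rw [le_div_iff₀ (by positivity)] at e1
  rw [div_lt_iff₀ (by positivity)] at e2
  push_cast
  constructor <;> linarith

theorem sec_of_angle {ρ t : ℝ} (hρ : 0 < ρ) (h1 : 5 * Real.pi / 4 ≤ t)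
    (h2 : t ≤ 7 * Real.pi / 4) : Sec (ρ * exp (t * I)) := by
  refine sec_mul hρ ?_
  unfold Sec
  rw [exp_ofReal_mul_I_re, exp_ofReal_mul_I_im]
  obtain ⟨s, hs⟩ : ∃ s, s = t - 3 * Real.pi / 2 := ⟨_, rfl⟩
  have hπ := Real.pi_pos
  have ht : t = s + Real.pi + Real.pi / 2 := by rw [hs]; ring
  have e1 : Real.cos t = Real.sin s := by
    rw [ht, Real.cos_add_pi_div_two, Real.sin_add_pi, neg_neg]
  have e2 : Real.sin t = -Real.cos s := by
    rw [ht, Real.sin_add_pi_div_two, Real.cos_add_pi]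
  rw [e1, e2, neg_neg, abs_le]
  have hs1 : -(Real.pi / 4) ≤ s := by rw [hs]; linarith
  have hs2 : s ≤ Real.pi / 4 := by rw [hs]; linarith
  have hc : Real.cos (Real.pi / 4) ≤ Real.cos s := by
    rw [← Real.cos_abs s]
    exact Real.cos_le_cos_of_nonneg_of_le_pi (abs_nonneg _) (by linarith)
      (abs_le.2 ⟨by linarith, hs2⟩)
  have h3 : Real.sin s ≤ Real.sin (Real.pi / 4) :=
    Real.sin_le_sin_of_le_of_le_pi_div_two (by linarith) (by linarith) hs2
  have h4 : Real.sin (-(Real.pi / 4)) ≤ Real.sin s :=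
    Real.sin_le_sin_of_le_of_le_pi_div_two (by linarith) (by linarith) hs1
  rw [Real.sin_neg] at h4
  rw [cos_q] at hc
  rw [sin_q] at h3 h4
  constructor <;> linarith

theorem Dirn.fu (D : Dirn c θ) {b z : ℝ} (hb : b < z + 1)
    (h : ∀ s, z < s → s ≤ b → ¬ Sec (c s - c z)) : Fu θ b z := by
  have hπ := Real.pi_pos
  rcases le_or_gt b z with hbz | hbz
  · exact ⟨0, fun y h1 h2 => absurd h1 (by linarith)⟩
  obtain ⟨k, k1, k2⟩ := norm_angle (θ z b)
  have D' := D.shift k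
  have key : -(Real.pi / 4) < θ z b + k * (2 * Real.pi) ∧
      θ z b + k * (2 * Real.pi) < 5 * Real.pi / 4 := by
    obtain ⟨ρ, hρ, e⟩ := D'.ex z b hbz hb
    constructor
    · exact lt_of_le_of_ne k1 (Ne.symm (D'.ne_a hbz hb (h b hbz le_rfl)))
    · by_contra hc
      push Not at hc
      exact h b hbz le_rfl (e ▸ sec_of_angle hρ hc k2.le)
  refine ⟨-(Real.pi / 4) - k * (2 * Real.pi), fun y h1 h2 => ?_⟩
  have := stay (Y := Ioc z b) isPreconnected_Ioc (D'.contR fun y hy => ⟨hy.1, by linarith [hy.2]⟩)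
    (fun y hy => ⟨D'.ne_a hy.1 (by linarith [hy.2]) (h y hy.1 hy.2),
      D'.ne_b hy.1 (by linarith [hy.2]) (h y hy.1 hy.2)⟩)
    (y₀ := b) ⟨hbz, le_rfl⟩ key (y₁ := y) ⟨h1, h2⟩
  constructor <;> linarith [this.1, this.2]

theorem Dirn.pa (D : Dirn c θ) {a z : ℝ} (ha : z < a + 1)
    (h : ∀ s, a ≤ s → s < z → ¬ Sec (c s - c z)) : Pa θ a z := by
  have hπ := Real.pi_pos
  rcases le_or_gt z a with haz | haz
  · exact ⟨0, fun y h1 h2 => absurd h1 (by linarith)⟩
  obtain ⟨k, k1, k2⟩ := norm_angle (θ a z + Real.pi)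
  have D' := D.shift k
  have key : -(5 * Real.pi / 4) < θ a z + k * (2 * Real.pi) ∧
      θ a z + k * (2 * Real.pi) < Real.pi / 4 := by
    obtain ⟨ρ, hρ, e⟩ := D'.ex a z haz ha
    constructor
    · exact lt_of_le_of_ne (by linarith) (Ne.symm (D'.ne_d haz ha (h a le_rfl haz)))
    · by_contra hc
      push Not at hc
      refine h a le_rfl haz ?_
      have e2 : c a - c z = ρ * exp (((θ a z + k * (2 * Real.pi) + Real.pi : ℝ) : ℂ) * I) := by
        have : exp (((θ a z + k * (2 * Real.pi) + Real.pi : ℝ) : ℂ) * I) =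
            -exp (((θ a z + k * (2 * Real.pi) : ℝ) : ℂ) * I) := by
          rw [ofReal_add, add_mul, exp_add, exp_pi_mul_I]
          ring
        rw [this]
        linear_combination -e
      rw [e2]
      exact sec_of_angle hρ (by linarith) (by linarith)
  refine ⟨-(5 * Real.pi / 4) - k * (2 * Real.pi), fun x h1 h2 => ?_⟩
  have := stay (Y := Ico a z) isPreconnected_Ico (φ := fun x => θ x z + k * (2 * Real.pi))
    (D'.contL fun x hx => ⟨hx.2, by linarith [hx.1]⟩)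
    (fun x hx => ⟨D'.ne_d hx.2 (by linarith [hx.1]) (h x hx.1 hx.2),
      D'.ne_c hx.2 (by linarith [hx.1]) (h x hx.1 hx.2)⟩)
    (y₀ := a) ⟨le_rfl, haz⟩ key (y₁ := x) ⟨h1, h2⟩
  constructor <;> linarith [this.1, this.2]

theorem Fu.role {μ : ℂ} {A B : ℝ} (D : Dirn c θ) (H : Shp μ A B) {z u y b : ℝ} (F : Fu θ b z)
    (h2 : z < u) (h3 : u < y) (h4 : y ≤ b) (h5 : y < z + 1) (h : c u = c z + μ * (c y - c z)) :
    θ z u = θ z y + A := by
  have hπ := Real.pi_pos
  have hA0 := H.A0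
  have hA1 := H.A1
  obtain ⟨j, hj⟩ := H.lab1 D h2 h3 h5 h
  obtain ⟨f, hf⟩ := F
  have f1 := hf u h2 (by linarith)
  have f2 := hf y (h2.trans h3) h4
  have : j = 0 := int_zero_of (x := θ z u - θ z y - A) (by linarith)
    (by linarith [f1.1, f2.2]) (by linarith [f1.2, f2.1])
  rw [this] at hj
  rw [hj]; push_cast; ring

theorem Pa.role {μ : ℂ} {A B : ℝ} (D : Dirn c θ) (H : Shp μ A B) {x u z a : ℝ} (F : Pa θ a z)
    (h2 : a ≤ x) (h3 : x < u) (h4 : u < z) (h5 : z < x + 1) (h : c u = c x + μ * (c z - c x)) :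
    θ u z = θ x z - B := by
  have hπ := Real.pi_pos
  have hB0 := H.B0
  have hB1 := H.B1
  obtain ⟨j, hj⟩ := H.lab2 D h3 h4 h5 h
  obtain ⟨f, hf⟩ := F
  have f1 := hf u (by linarith) h4
  have f2 := hf x h2 (h3.trans h4)
  have : j = 0 := int_zero_of (x := θ u z - θ x z + B) (by linarith)
    (by linarith [f1.1, f2.2]) (by linarith [f1.2, f2.1])
  rw [this] at hj
  rw [hj]; push_cast; ring

variable {μ : ℂ} {A B : ℝ} {F M G : ℝ × ℝ × ℝ → ℝ}

/-- the local theorem with an escape -/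
theorem local_gen2 (L : Loop c) (J : Inj c) (D : Dirn c θ) {a' a b : ℝ} (ha : a' < a)
    (hb : b < a' + 1) (H : Shp μ A B) (R : Rd c μ F M G) {zL zR yL yR : ℝ}
    (L1 : a < zL) (R2 : zR < b)
    (FL : Fu θ b zL) (FR : Fu θ b zR) (PL : Pa θ a zL) (PR : Pa θ a zR)
    (BF : ∀ x u, zL ≤ x → x ≤ zR → x < u → u < b → c u = c x + μ * (c b - c x) → False)
    (BG : ∀ u y, zL ≤ y → y ≤ zR → a < u → u < y → c u = c a + μ * (c y - c a) → False)
    {δ : ℝ} {T : Set Ann} (hδ : 0 < δ)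
    (hT : IsPreconnected T) (hTt : TyA c δ T) {q₀ : ℝ × ℝ × ℝ} (hq₀ : q₀ ∈ Mm c δ a')
    (hq₀T : (((q₀.1 : AddCircle (1 : ℝ)), q₀.2.1) : Ann) ∈ T) (hq1 : zL < F q₀)
    (hq2 : G q₀ < zR) (hq3 : yL < F q₀) (hq4 : G q₀ < yR) :
    (∀ p ∈ T, ∃ q ∈ Mm c δ a', (((q.1 : AddCircle (1 : ℝ)), q.2.1) : Ann) = p ∧
      G q - F q ≤ b - a) ∨
    (∃ q ∈ Mm c δ a', (((q.1 : AddCircle (1 : ℝ)), q.2.1) : Ann) ∈ T ∧ a ≤ F q ∧ G q ≤ b ∧
      yL ≤ M q ∧ M q ≤ yR ∧ (M q = yL ∨ M q = yR ∨ F q = a ∨ G q = b) ∧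
      la θ F M G q = A ∧ lb θ F M G q = -B) := by
  have s₀ := R.st J hδ hq₀
  have hM := Mm_closed L.cont δ a'
  have cF := R.cF
  have cM := R.cM
  have cG := R.cG
  obtain ⟨C1, C1'⟩ := disc_closed hM (la_cont D J R (a := a') hδ) (v := A) (fun q hq => by
    have s := R.st J hδ hq
    obtain ⟨j, hj⟩ := H.lab1 D s.1 s.2.1 s.2.2 (R.rel q hq.2.2.2.2)
    exact ⟨j, by unfold la; linarith⟩)
  obtain ⟨C2, C2'⟩ := disc_closed hM (lb_cont D J R (a := a') hδ) (v := -B) (fun q hq => by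
    have s := R.st J hδ hq
    obtain ⟨j, hj⟩ := H.lab2 D s.1 s.2.1 s.2.2 (R.rel q hq.2.2.2.2)
    exact ⟨j, by unfold lb; linarith⟩)
  by_cases hP : la θ F M G q₀ = A
  · by_cases hQ : lb θ F M G q₀ = -B
    · -- role M
      by_cases hesc : ∃ q ∈ Mm c δ a', (((q.1 : AddCircle (1 : ℝ)), q.2.1) : Ann) ∈ T ∧ a ≤ F q ∧
        G q ≤ b ∧ yL ≤ M q ∧ M q ≤ yR ∧ (M q = yL ∨ M q = yR ∨ F q = a ∨ G q = b) ∧
        la θ F M G q = A ∧ lb θ F M G q = -B
      · exact Or.inr hesc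
      left
      push Not at hesc
      obtain ⟨N, hN⟩ : ∃ N : Set (ℝ × ℝ × ℝ), N = {q | yL ≤ M q ∧ M q ≤ yR ∧ a ≤ F q ∧
        G q ≤ b ∧ la θ F M G q = A ∧ lb θ F M G q = -B} := ⟨_, rfl⟩
      obtain ⟨N', hN'⟩ : ∃ N' : Set (ℝ × ℝ × ℝ), N' = {q | M q ≤ yL ∨ yR ≤ M q ∨ F q ≤ a ∨
        b ≤ G q ∨ la θ F M G q ≠ A ∨ lb θ F M G q ≠ -B} := ⟨_, rfl⟩
      have k1 : Mm c δ a' ∩ N = (Mm c δ a' ∩ {q | la θ F M G q = A}) ∩
          (Mm c δ a' ∩ {q | lb θ F M G q = -B}) ∩ ({q | yL ≤ M q} ∩ {q | M q ≤ yR} ∩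
            {q | a ≤ F q} ∩ {q | G q ≤ b}) := by
        ext q
        rw [hN]
        simp only [mem_inter_iff, mem_ofPred_eq]
        tauto
      have k2 : Mm c δ a' ∩ N' = (Mm c δ a' ∩ {q | la θ F M G q ≠ A}) ∪
          (Mm c δ a' ∩ {q | lb θ F M G q ≠ -B}) ∪ (Mm c δ a' ∩ ({q | M q ≤ yL} ∪
            {q | yR ≤ M q} ∪ {q | F q ≤ a} ∪ {q | b ≤ G q})) := by
        ext q
        rw [hN']
        simp only [mem_inter_iff, mem_ofPred_eq, mem_union]
        tauto
      have c1 : IsClosed (Mm c δ a' ∩ N) := by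
        rw [k1]
        exact (C1.inter C2).inter ((((isClosed_le continuous_const cM).inter
          (isClosed_le cM continuous_const)).inter (isClosed_le continuous_const cF)).inter
          (isClosed_le cG continuous_const))
      have c2 : IsClosed (Mm c δ a' ∩ N') := by
        rw [k2]
        exact (C1'.union C2').union (hM.inter ((((isClosed_le cM continuous_const).union
          (isClosed_le continuous_const cM)).union (isClosed_le cF continuous_const)).union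
          (isClosed_le continuous_const cG)))
      intro p hp
      obtain ⟨q', ⟨hq', hqS⟩, e⟩ := clopen3 L J hδ hT hTt c1 c2 (fun q _ hqN => by
        rw [hN] at hqN
        rw [hN']
        simp only [mem_ofPred_eq, not_and_or, not_le] at hqN ⊢
        rcases hqN with h | h | h | h | h | h
        · exact Or.inl h.le
        · exact Or.inr (Or.inl h.le)
        · exact Or.inr (Or.inr (Or.inl h.le))
        · exact Or.inr (Or.inr (Or.inr (Or.inl h.le)))
        · exact Or.inr (Or.inr (Or.inr (Or.inr (Or.inl h))))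
        · exact Or.inr (Or.inr (Or.inr (Or.inr (Or.inr h))))) (fun q hq => by
        have hqS := hq.2
        rw [hN] at hqS
        obtain ⟨g1, g2, g3, g4, g5, g6⟩ := hqS
        have s := Mm_strict J hδ hq.1
        have o := R.one q s.1 s.2.1 s.2.2
        exact ⟨by linarith [o.1], by linarith [o.2]⟩) (fun q hq hqN hqN' hqT => by
        rw [hN] at hqN
        rw [hN'] at hqN'
        obtain ⟨g1, g2, g3, g4, g5, g6⟩ := hqN
        have hes := hesc q hq hqT g3 g4 g1 g2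
        rcases hqN' with h | h | h | h | h | h
        · exact hes (Or.inl (le_antisymm h g1)) g5 g6
        · exact hes (Or.inr (Or.inl (le_antisymm g2 h))) g5 g6
        · exact hes (Or.inr (Or.inr (Or.inl (le_antisymm h g3)))) g5 g6
        · exact hes (Or.inr (Or.inr (Or.inr (le_antisymm g4 h)))) g5 g6
        · exact h g5
        · exact h g6) (q₀ := q₀)
        ⟨hq₀, by rw [hN]; exact ⟨by linarith, by linarith, by linarith, by linarith, hP, hQ⟩⟩
        hq₀T p hp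
      rw [hN] at hqS
      obtain ⟨g1, g2, g3, g4, g5, g6⟩ := hqS
      exact ⟨q', hq', e, by linarith⟩
    · -- role G
      left
      obtain ⟨N, hN⟩ : ∃ N : Set (ℝ × ℝ × ℝ), N = {q | zL ≤ G q ∧ G q ≤ zR ∧
        a ≤ F q ∧ lb θ F M G q ≠ -B} := ⟨_, rfl⟩
      obtain ⟨N', hN'⟩ : ∃ N' : Set (ℝ × ℝ × ℝ), N' = {q | G q ≤ zL ∨ zR ≤ G q ∨
        F q ≤ a ∨ lb θ F M G q = -B} := ⟨_, rfl⟩
      have k1 : Mm c δ a' ∩ N = (Mm c δ a' ∩ {q | lb θ F M G q ≠ -B}) ∩
          ({q | zL ≤ G q} ∩ {q | G q ≤ zR} ∩ {q | a ≤ F q}) := by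
        ext q
        rw [hN]
        simp only [mem_inter_iff, mem_ofPred_eq]
        tauto
      have k2 : Mm c δ a' ∩ N' = (Mm c δ a' ∩ {q | lb θ F M G q = -B}) ∪
          (Mm c δ a' ∩ ({q | G q ≤ zL} ∪ {q | zR ≤ G q} ∪ {q | F q ≤ a})) := by
        ext q
        rw [hN']
        simp only [mem_inter_iff, mem_ofPred_eq, mem_union]
        tauto
      have c1 : IsClosed (Mm c δ a' ∩ N) := by
        rw [k1]
        exact C2'.inter (((isClosed_le continuous_const cG).inter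
          (isClosed_le cG continuous_const)).inter (isClosed_le continuous_const cF))
      have c2 : IsClosed (Mm c δ a' ∩ N') := by
        rw [k2]
        exact C2.union (hM.inter (((isClosed_le cG continuous_const).union
          (isClosed_le continuous_const cG)).union (isClosed_le cF continuous_const)))
      intro p hp
      obtain ⟨q', ⟨hq', hqS⟩, e⟩ := clopen3 L J hδ hT hTt c1 c2 (fun q _ hqN => by
        rw [hN] at hqN
        rw [hN']
        simp only [mem_ofPred_eq, not_and_or, not_le, not_not, ne_eq] at hqN ⊢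
        rcases hqN with h | h | h | h
        · exact Or.inl h.le
        · exact Or.inr (Or.inl h.le)
        · exact Or.inr (Or.inr (Or.inl h.le))
        · exact Or.inr (Or.inr (Or.inr h))) (fun q hq => by
        have hqS := hq.2
        rw [hN] at hqS
        obtain ⟨g1, g2, g3, g4⟩ := hqS
        have s := Mm_strict J hδ hq.1
        have o := R.one q s.1 s.2.1 s.2.2
        exact ⟨by linarith [o.1], by linarith [o.2]⟩) (fun q hq hqN hqN' _ => by
        rw [hN] at hqN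
        rw [hN'] at hqN'
        obtain ⟨g1, g2, g3, g4⟩ := hqN
        have s := R.st J hδ hq
        have e := R.rel q hq.2.2.2.2
        rcases hqN' with h | h | h | h
        · have h' := le_antisymm g1 h
          have := Pa.role D H (z := G q) (h' ▸ PL) g3 s.1 s.2.1 s.2.2 e
          exact g4 (by unfold lb; linarith)
        · have h' := le_antisymm h g2
          have := Pa.role D H (z := G q) (h' ▸ PR) g3 s.1 s.2.1 s.2.2 e
          exact g4 (by unfold lb; linarith)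
        · have h' := le_antisymm h g3
          rw [h'] at e s
          exact BG (M q) (G q) g1 g2 s.1 s.2.1 e
        · exact g4 h) (q₀ := q₀)
        ⟨hq₀, by rw [hN]; exact ⟨by linarith, by linarith, by linarith, hQ⟩⟩
        hq₀T p hp
      rw [hN] at hqS
      obtain ⟨g1, g2, g3, g4⟩ := hqS
      exact ⟨q', hq', e, by linarith⟩
  · -- role F
    left
    obtain ⟨N, hN⟩ : ∃ N : Set (ℝ × ℝ × ℝ), N = {q | zL ≤ F q ∧ F q ≤ zR ∧ G q ≤ b ∧
      la θ F M G q ≠ A} := ⟨_, rfl⟩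
    obtain ⟨N', hN'⟩ : ∃ N' : Set (ℝ × ℝ × ℝ), N' = {q | F q ≤ zL ∨ zR ≤ F q ∨ b ≤ G q ∨
      la θ F M G q = A} := ⟨_, rfl⟩
    have k1 : Mm c δ a' ∩ N = (Mm c δ a' ∩ {q | la θ F M G q ≠ A}) ∩
        ({q | zL ≤ F q} ∩ {q | F q ≤ zR} ∩ {q | G q ≤ b}) := by
      ext q
      rw [hN]
      simp only [mem_inter_iff, mem_ofPred_eq]
      tauto
    have k2 : Mm c δ a' ∩ N' = (Mm c δ a' ∩ {q | la θ F M G q = A}) ∪
        (Mm c δ a' ∩ ({q | F q ≤ zL} ∪ {q | zR ≤ F q} ∪ {q | b ≤ G q})) := by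
      ext q
      rw [hN']
      simp only [mem_inter_iff, mem_ofPred_eq, mem_union]
      tauto
    have c1 : IsClosed (Mm c δ a' ∩ N) := by
      rw [k1]
      exact C1'.inter (((isClosed_le continuous_const cF).inter
        (isClosed_le cF continuous_const)).inter (isClosed_le cG continuous_const))
    have c2 : IsClosed (Mm c δ a' ∩ N') := by
      rw [k2]
      exact C1.union (hM.inter (((isClosed_le cF continuous_const).union
        (isClosed_le continuous_const cF)).union (isClosed_le continuous_const cG)))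
    intro p hp
    obtain ⟨q', ⟨hq', hqS⟩, e⟩ := clopen3 L J hδ hT hTt c1 c2 (fun q _ hqN => by
      rw [hN] at hqN
      rw [hN']
      simp only [mem_ofPred_eq, not_and_or, not_le, not_not, ne_eq] at hqN ⊢
      rcases hqN with h | h | h | h
      · exact Or.inl h.le
      · exact Or.inr (Or.inl h.le)
      · exact Or.inr (Or.inr (Or.inl h.le))
      · exact Or.inr (Or.inr (Or.inr h))) (fun q hq => by
      have hqS := hq.2
      rw [hN] at hqS
      obtain ⟨g1, g2, g3, g4⟩ := hqS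
      have s := Mm_strict J hδ hq.1
      have o := R.one q s.1 s.2.1 s.2.2
      exact ⟨by linarith [o.1], by linarith [o.2]⟩) (fun q hq hqN hqN' _ => by
      rw [hN] at hqN
      rw [hN'] at hqN'
      obtain ⟨g1, g2, g3, g4⟩ := hqN
      have s := R.st J hδ hq
      have e := R.rel q hq.2.2.2.2
      rcases hqN' with h | h | h | h
      · have h' := le_antisymm g1 h
        have := Fu.role D H (z := F q) (h' ▸ FL) s.1 s.2.1 g3 s.2.2 e
        exact g4 (by unfold la; linarith)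
      · have h' := le_antisymm h g2
        have := Fu.role D H (z := F q) (h' ▸ FR) s.1 s.2.1 g3 s.2.2 e
        exact g4 (by unfold la; linarith)
      · have h' := le_antisymm g3 h
        rw [h'] at e s
        exact BF (F q) (M q) g1 g2 s.1 s.2.1 e
      · exact g4 h) (q₀ := q₀)
      ⟨hq₀, by rw [hN]; exact ⟨by linarith, by linarith, by linarith, hP⟩⟩
      hq₀T p hp
    rw [hN] at hqS
    obtain ⟨g1, g2, g3, g4⟩ := hqS
    exact ⟨q', hq', e, by linarith⟩

end Pool.Agent.N335.Hg
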