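import Pool.Agent.N335.Hg.Crn1

/-! Windows of corners: free points and barriers. -/

set_option autoImplicit false
open Complex Set Topology Metric
open scoped ComplexConjugate

namespace Pool.Agent.N335.Hg

open Pool.Agent.H763R2 Pool.Agent.H763R2.An
open Pool.Agent.Y765.Sq (Ann exists_int)

variable {c f : ℝ → ℂ} {θ : ℝ → ℝ → ℝ}

/-- free points on the left branch -/
theorem exL (hc : Continuous f) (J : Inj f) {κ a a₁ t b' : ℝ} (κ0 : 0 < κ) (κ1 : κ ≤ 1 / 10)
    (h1 : a < a₁) (h2 : a₁ < t) (h3 : t ≤ b') (h5 : b' < a + 1) (ft : f t = 0)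
    (hL : ∀ s, a ≤ s → s ≤ t → |(f s).im| ≤ κ * -(f s).re)
    (hR : ∀ s, t ≤ s → s ≤ b' → 8 * κ * ‖f s‖ ≤ (f s).im) :
    ∃ z, a₁ < z ∧ z < t ∧ ∀ s, a ≤ s → s ≤ b' → Sec (f s - f z) → s = z := by
  obtain ⟨s₀, hs₀, hmin⟩ := (isCompact_Icc (a := a) (b := a₁)).exists_isMinOn ⟨a, le_rfl, h1.le⟩
    (f := fun s => -(f s).re) (continuous_re.comp hc).neg.continuousOn
  obtain ⟨m, hm⟩ : ∃ m, m = -(f s₀).re := ⟨_, rfl⟩
  have hX : ∀ s, a ≤ s → s ≤ a₁ → m ≤ -(f s).re := fun s g1 g2 => by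
    rw [hm]; exact hmin ⟨g1, g2⟩
  have m0 : 0 < m := by
    have g := hL s₀ hs₀.1 (by linarith [hs₀.2])
    have h0 := Win.re_of κ0 g
    rw [hm]
    refine lt_of_le_of_ne h0 fun h' => ?_
    rw [← h', mul_zero] at g
    refine J s₀ t (by linarith [hs₀.2]) (by linarith [hs₀.1]) ?_
    rw [ft]
    exact Complex.ext (by rw [zero_re]; linarith) (abs_nonpos_iff.1 g)
  obtain ⟨r, hr⟩ : ∃ r, r = m / 4 := ⟨_, rfl⟩
  have r0 : 0 < r := by rw [hr]; linarith
  obtain ⟨t', ht', hte⟩ : ∃ t' ∈ Icc a₁ t, -(f t').re = r := by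
    refine intermediate_value_Icc' h2.le (f := fun s => -(f s).re)
      (continuous_re.comp hc).neg.continuousOn ⟨?_, ?_⟩
    · rw [ft, zero_re]; linarith
    · have := hX a₁ h1.le le_rfl
      rw [hr]; linarith
  have htc := hL t' (h1.le.trans ht'.1) ht'.2
  rw [hte] at htc
  obtain ⟨z, hz, hsec, hz'⟩ := exists_free hc (a := a) (b := b') (t := t')
    ⟨h1.le.trans ht'.1, by linarith [ht'.2]⟩
  unfold Sec at hsec
  rw [sub_re, sub_im] at hsec
  have q1 := le_abs_self ((f z).re - (f t').re)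
  have q2 := neg_abs_le ((f z).re - (f t').re)
  have q3 := (le_abs_self (f t').im).trans htc
  have kr : κ * r ≤ 1 / 10 * r := mul_le_mul_of_nonneg_right κ1 r0.le
  refine ⟨z, ?_, ?_, fun s g1 g2 g3 => ?_⟩
  · by_contra hcon
    push Not at hcon
    have hx := hX z hz.1 hcon
    have hi := hL z hz.1 (by linarith)
    have q4 := (neg_le_abs (f z).im).trans hi
    have : κ * -(f z).re ≤ 1 / 10 * -(f z).re := mul_le_mul_of_nonneg_right κ1 (by linarith)
    linarith
  · by_contra hcon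
    push Not at hcon
    have hi := hR z hcon hz.2
    have h0 := norm_nonneg (f z)
    have h1 : 0 < 8 * κ := by linarith
    have h2 : 8 * κ * ‖f z‖ ≤ 8 * κ * (r / 8) := by
      have : 0 ≤ |(f z).re - (f t').re| := abs_nonneg _
      linarith
    have h3 := le_of_mul_le_mul_left h2 h1
    have h4 := abs_le.1 (Complex.abs_re_le_norm (f z))
    have h5 : 0 ≤ 8 * κ * ‖f z‖ := by positivity
    linarith [h4.1]
  · have e := hz' s ⟨g1, g2⟩ g3
    rcases lt_trichotomy s z with hlt | he | hgt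
    · exact absurd e (J s z hlt (by linarith [hz.2]))
    · exact he
    · exact absurd e.symm (J z s hgt (by linarith [hz.1]))

/-- the normalised window of a corner: the left branch is near the negative real axis and the right
branch near the ray through `e` -/
structure Cw (f : ℝ → ℂ) (e : ℂ) (κ a a₁ t b₁ b : ℝ) : Prop where
  κ0 : 0 < κ
  κS : 1000 * κ ≤ e.im ^ 2
  e1 : e.re ^ 2 + e.im ^ 2 = 1
  e2 : e.re ≤ 0
  h1 : a < a₁
  h2 : a₁ < t
  h3 : t < b₁
  h4 : b₁ < b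
  h5 : b < a + 1
  ft : f t = 0
  hL : ∀ s, a ≤ s → s ≤ t → |(f s).im| ≤ κ * -(f s).re
  hR : ∀ s, t ≤ s → s ≤ b → |(conj e * f s).im| ≤ κ * (conj e * f s).re
  hl : ∀ s, a < s → s ≤ t → (f a).re < (f s).re
  hr : ∀ s, t ≤ s → s < b → (conj e * f s).re < (conj e * f b).re
  mid : ∀ s, a₁ ≤ s → s ≤ b₁ → ‖f s‖ ≤ κ * -(f a).re ∧ ‖f s‖ ≤ κ * (conj e * f b).re

/-- the curve run backwards and reflected -/
noncomputable def mir (f : ℝ → ℂ) (e : ℂ) : ℝ → ℂ := fun s => -conj (conj e * f (-s))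

theorem mir_loop (L : Loop f) (e : ℂ) : Loop (mir f e) := by
  have := L.cont
  refine ⟨?_, fun s => ?_⟩
  · unfold mir
    exact (continuous_conj.comp (by fun_prop)).neg
  · unfold mir
    rw [← L.per (-(s + 1))]
    congr 4; ring

theorem mir_inj (J : Inj f) {e : ℂ} (he : e ≠ 0) : Inj (mir f e) := by
  intro x y h1 h2 h
  unfold mir at h
  have h3 := (starRingEnd ℂ).injective (neg_injective h)
  have h4 := mul_left_cancel₀ ((map_ne_zero _).2 he) h3
  exact J (-y) (-x) (by linarith) (by linarith) h4.symm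

namespace Cw

variable {e : ℂ} {κ a a₁ t b₁ b : ℝ}

theorem e0 (W : Cw f e κ a a₁ t b₁ b) : e ≠ 0 := by
  rintro rfl
  have := W.e1
  simp at this

theorem ee (W : Cw f e κ a a₁ t b₁ b) : e * conj e = 1 := by
  rw [mul_conj, normSq_apply]
  have := W.e1
  norm_cast
  nlinarith

theorem ne (W : Cw f e κ a a₁ t b₁ b) : ‖e‖ = 1 := by
  have h := Complex.normSq_eq_norm_sq e
  rw [Complex.normSq_apply] at h
  have := W.e1
  have h2 : ‖e‖ ^ 2 = 1 := by nlinarith
  exact (pow_eq_one_iff_of_nonneg (norm_nonneg e) two_ne_zero).1 h2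

theorem κ1 (W : Cw f e κ a a₁ t b₁ b) : 1000 * κ ≤ 1 := by
  have := W.κS
  have := W.e1
  nlinarith [sq_nonneg e.re]

theorem mirror (W : Cw f e κ a a₁ t b₁ b) : Cw (mir f e) e κ (-b) (-b₁) (-t) (-a₁) (-a) := by
  have hee := W.ee
  have r1 : ∀ s, (mir f e s).re = -(conj e * f (-s)).re := fun s => by
    unfold mir; rw [neg_re, conj_re]
  have r2 : ∀ s, (mir f e s).im = (conj e * f (-s)).im := fun s => by
    unfold mir; rw [neg_im, conj_im, neg_neg]
  have r3 : ∀ s, conj e * mir f e s = -conj (f (-s)) := fun s => by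
    unfold mir
    rw [map_mul, conj_conj, mul_neg, ← mul_assoc, mul_comm (conj e) e, hee, one_mul]
  have r4 : ∀ s, ‖mir f e s‖ = ‖f (-s)‖ := fun s => by
    unfold mir
    rw [norm_neg, norm_conj, norm_mul, norm_conj, W.ne, one_mul]
  refine ⟨W.κ0, W.κS, W.e1, W.e2, by linarith [W.h4], by linarith [W.h3], by linarith [W.h2],
    by linarith [W.h1], by linarith [W.h5], ?_, fun s g1 g2 => ?_, fun s g1 g2 => ?_,
    fun s g1 g2 => ?_, fun s g1 g2 => ?_, fun s g1 g2 => ?_⟩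
  · unfold mir
    rw [neg_neg, W.ft]; simp
  · rw [r1, r2, neg_neg]
    exact W.hR (-s) (by linarith) (by linarith)
  · rw [r3, neg_im, conj_im, neg_neg, neg_re, conj_re]
    exact W.hL (-s) (by linarith) (by linarith)
  · rw [r1, r1, neg_neg]
    have := W.hr (-s) (by linarith) (by linarith)
    linarith
  · rw [r3, r3, neg_re, neg_re, conj_re, conj_re, neg_neg]
    have := W.hl (-s) (by linarith) (by linarith)
    linarith
  · have := W.mid (-s) (by linarith) (by linarith)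
    rw [r4, r1, r3, neg_re, conj_re, neg_neg, neg_neg, neg_neg]
    exact ⟨this.2, this.1⟩

theorem mir_mir (W : Cw f e κ a a₁ t b₁ b) (s : ℝ) : mir (mir f e) e s = f s := by
  unfold mir
  rw [neg_neg]
  simp only [map_neg, map_mul, conj_conj, mul_neg, neg_neg]
  rw [← mul_assoc, W.ee, one_mul]

theorem b_pos (W : Cw f e κ a a₁ t b₁ b) : 0 < (conj e * f b).re := by
  have := W.hr t le_rfl (by linarith [W.h3, W.h4])
  rwa [W.ft, mul_zero, zero_re] at this

theorem a_pos (W : Cw f e κ a a₁ t b₁ b) : 0 < -(f a).re := by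
  have := W.hl t (by linarith [W.h1, W.h2]) le_rfl
  rw [W.ft, zero_re] at this
  linarith

theorem norm_b (W : Cw f e κ a a₁ t b₁ b) : ‖f b‖ ≤ 2 * (conj e * f b).re := by
  have h1 := W.hR b (by linarith [W.h3, W.h4]) le_rfl
  have h2 := W.b_pos
  have h3 := W.κ1
  have h4 : ‖conj e * f b‖ = ‖f b‖ := by rw [norm_mul, norm_conj, W.ne, one_mul]
  rw [← h4]
  have h5 := Complex.norm_le_abs_re_add_abs_im (conj e * f b)
  rw [abs_of_pos h2] at h5
  have h6 : κ * (conj e * f b).re ≤ 1 * (conj e * f b).re :=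
    mul_le_mul_of_nonneg_right (by linarith) h2.le
  linarith

/-- condition of exL for the right branch in the left frame -/
theorem condR (W : Cw f e κ a a₁ t b₁ b) (he : 0 < e.im) {s : ℝ} (h : t ≤ s) (h' : s ≤ b) :
    8 * κ * ‖f s‖ ≤ (f s).im := by
  have h1 := W.hR s h h'
  have h2 := Win.re_of W.κ0 h1
  have κ0 := W.κ0
  have κ1 := W.κ1
  have κS := W.κS
  have e1 := W.e1
  have e2 := W.e2
  obtain ⟨v, hv⟩ : ∃ v, v = conj e * f s := ⟨_, rfl⟩
  have hfv : f s = e * v := by rw [hv, ← mul_assoc, W.ee, one_mul]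
  have hn : ‖f s‖ = ‖v‖ := by rw [hfv, norm_mul, W.ne, one_mul]
  rw [← hv] at h1 h2
  rw [hn, hfv, mul_im]
  have h5 := Complex.norm_le_abs_re_add_abs_im v
  rw [abs_of_nonneg h2] at h5
  have hS1 : e.im ≤ 1 := by nlinarith [sq_nonneg e.re]
  have hS : 1000 * κ ≤ e.im := by nlinarith
  have h6 := abs_le.1 h1
  have h7 : κ * v.re ≤ 1 * v.re := mul_le_mul_of_nonneg_right (by linarith) h2
  have h8 : -1 ≤ e.re := by nlinarith [sq_nonneg e.im]
  have h9 : -(κ * v.re) ≤ e.re * v.im := by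
    have : |e.re * v.im| ≤ 1 * (κ * v.re) := by
      rw [abs_mul]
      exact mul_le_mul (abs_le.2 ⟨h8, by linarith⟩) h1 (abs_nonneg _) zero_le_one
    linarith [(abs_le.1 this).1]
  have h10 : 1000 * κ * v.re ≤ e.im * v.re := mul_le_mul_of_nonneg_right hS h2
  have h11 : 8 * κ * ‖v‖ ≤ 8 * κ * (2 * v.re) :=
    mul_le_mul_of_nonneg_left (by linarith) (by linarith)
  have h12 : 0 ≤ κ * v.re := mul_nonneg κ0.le h2
  linarith

end Cw

/-- shapes for the barriers -/
structure Shb (μ : ℂ) : Prop where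
  i1 : 1 / 2 ≤ μ.im
  i2 : μ.im ≤ 1
  r1 : 0 ≤ μ.re
  r2 : μ.re ≤ 1

theorem Shb.mir {μ : ℂ} (H : Shb μ) : Shb (1 - conj μ) := by
  refine ⟨?_, ?_, ?_, ?_⟩
  · simpa using H.i1
  · simpa using H.i2
  · simpa using H.r2
  · simpa using H.r1

theorem Shb.norm {μ : ℂ} (H : Shb μ) : ‖μ‖ ≤ 2 := by
  have h := Complex.norm_le_abs_re_add_abs_im μ
  rw [abs_of_nonneg H.r1, abs_of_nonneg (by linarith [H.i1])] at h
  linarith [H.i2, H.r2]

theorem Shb.norm' {μ : ℂ} (H : Shb μ) : ‖1 - μ‖ ≤ 2 := by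
  have h := Complex.norm_le_abs_re_add_abs_im (1 - μ)
  rw [sub_re, one_re, sub_im, one_im, zero_sub, abs_neg, abs_of_nonneg (by linarith [H.r2]),
    abs_of_nonneg (by linarith [H.i1])] at h
  linarith [H.i2, H.r1]

/-- the relation of a triangle under the reflection -/
theorem mir_rel {e μ : ℂ} {x u y : ℝ} (h : f u = f x + μ * (f y - f x)) :
    mir f e (-u) = mir f e (-y) + (1 - conj μ) * (mir f e (-x) - mir f e (-y)) := by
  unfold mir
  rw [neg_neg, neg_neg, neg_neg, h]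
  simp only [map_mul, map_add, map_sub, conj_conj]
  ring

namespace Cw

variable {e : ℂ} {κ a a₁ t b₁ b : ℝ} {μ : ℂ}

/-- no triangle with last vertex `f b` and two vertices in the middle part -/
theorem no_mid (W : Cw f e κ a a₁ t b₁ b) (H : Shb μ) {x u : ℝ} (hx : a₁ ≤ x) (hx' : x ≤ b₁)
    (hu : a₁ ≤ u) (hu' : u ≤ b₁) (h : f u = f x + μ * (f b - f x)) : False := by
  have hb := W.b_pos
  have κ1 := W.κ1
  have κ0 := W.κ0
  have m1 := (W.mid x hx hx').2
  have m2 := (W.mid u hu hu').2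
  have h3 : μ * f b = f u - (1 - μ) * f x := by rw [h]; ring
  have h4 := norm_sub_le (f u) ((1 - μ) * f x)
  rw [← h3, norm_mul, norm_mul] at h4
  have h5 : 1 / 2 ≤ ‖μ‖ := H.i1.trans ((le_abs_self _).trans (Complex.abs_im_le_norm μ))
  have h6 : (conj e * f b).re ≤ ‖f b‖ := by
    have := Complex.re_le_norm (conj e * f b)
    rwa [norm_mul, norm_conj, W.ne, one_mul] at this
  have h7 : 1 / 2 * ‖f b‖ ≤ ‖μ‖ * ‖f b‖ := mul_le_mul_of_nonneg_right h5 (norm_nonneg _)
  have h8 : ‖1 - μ‖ * ‖f x‖ ≤ 2 * ‖f x‖ := mul_le_mul_of_nonneg_right H.norm' (norm_nonneg _)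
  have h9 : 1000 * κ * (conj e * f b).re ≤ 1 * (conj e * f b).re :=
    mul_le_mul_of_nonneg_right κ1 hb.le
  linarith

/-- the barrier for the first vertex -/
theorem barF (W : Cw f e κ a a₁ t b₁ b) (H : Shb μ) {x u : ℝ} (hx : a₁ ≤ x) (hx' : x ≤ b₁)
    (hu : x < u) (hu' : u < b) (h : f u = f x + μ * (f b - f x)) : False := by
  rcases le_total u b₁ with h' | h'
  · exact W.no_mid H hx hx' (by linarith) h' h
  have hb := W.b_pos
  have κ1 := W.κ1
  have κ0 := W.κ0
  have m1 := (W.mid x hx hx').2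
  have hRb := W.hR b (by linarith [W.h3, W.h4]) le_rfl
  have hRu := W.hR u (by linarith [W.h3]) hu'.le
  obtain ⟨B, hB⟩ : ∃ B, B = conj e * f b := ⟨_, rfl⟩
  obtain ⟨U, hU⟩ : ∃ U, U = conj e * f u := ⟨_, rfl⟩
  obtain ⟨X, hX⟩ : ∃ X, X = (1 - μ) * (conj e * f x) := ⟨_, rfl⟩
  rw [← hB] at hb m1 hRb
  rw [← hU] at hRu
  have e1 : U = X + μ * B := by rw [hU, hB, hX, h]; ring
  have hXn : ‖X‖ ≤ 2 * (κ * B.re) := by
    rw [hX, norm_mul, norm_mul, norm_conj, W.ne, one_mul]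
    exact mul_le_mul H.norm' m1 (norm_nonneg _) (by norm_num)
  have x1 := abs_le.1 (Complex.abs_re_le_norm X)
  have x2 := abs_le.1 (Complex.abs_im_le_norm X)
  have r := congrArg Complex.re e1
  have i := congrArg Complex.im e1
  rw [add_re, mul_re] at r
  rw [add_im, mul_im] at i
  have kb : 0 ≤ κ * B.re := mul_nonneg κ0.le hb.le
  have b1 := abs_le.1 hRb
  have u1 := abs_le.1 hRu
  have i1 := H.i1
  have i2 := H.i2
  have r1 := H.r1
  have r2 := H.r2
  -- products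
  have p1 : 1 / 2 * B.re ≤ μ.im * B.re := mul_le_mul_of_nonneg_right i1 hb.le
  have p2 : μ.re * B.re ≤ 1 * B.re := mul_le_mul_of_nonneg_right r2 hb.le
  have p3 : |μ.re * B.im| ≤ 1 * (κ * B.re) := by
    rw [abs_mul]
    exact mul_le_mul (abs_le.2 ⟨by linarith, r2⟩) hRb (abs_nonneg _) zero_le_one
  have p4 : |μ.im * B.im| ≤ 1 * (κ * B.re) := by
    rw [abs_mul]
    exact mul_le_mul (abs_le.2 ⟨by linarith, i2⟩) hRb (abs_nonneg _) zero_le_one
  have p5 := abs_le.1 p3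
  have p6 := abs_le.1 p4
  have q1 : 1000 * κ * B.re ≤ 1 * B.re := mul_le_mul_of_nonneg_right κ1 hb.le
  have q2 : U.re ≤ 2 * B.re := by linarith
  have q3 : κ * U.re ≤ κ * (2 * B.re) := mul_le_mul_of_nonneg_left q2 κ0.le
  linarith

/-- the barrier for the last vertex -/
theorem barG (W : Cw f e κ a a₁ t b₁ b) (H : Shb μ) {u y : ℝ} (hy : a₁ ≤ y) (hy' : y ≤ b₁)
    (hu : a < u) (hu' : u < y) (h : f u = f a + μ * (f y - f a)) : False :=
  W.mirror.barF H.mir (x := -y) (u := -u) (by linarith) (by linarith) (by linarith)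
    (by linarith) (mir_rel h)

/-- two vertices in the middle part and the first vertex `f a` -/
theorem no_mid' (W : Cw f e κ a a₁ t b₁ b) (H : Shb μ) {u y : ℝ} (hx : a₁ ≤ y) (hx' : y ≤ b₁)
    (hu : a₁ ≤ u) (hu' : u ≤ b₁) (h : f u = f a + μ * (f y - f a)) : False :=
  W.mirror.no_mid H.mir (x := -y) (u := -u) (by linarith) (by linarith) (by linarith)
    (by linarith) (mir_rel h)

/-- the last vertex `f b` and the middle vertex in the middle part, for left turns -/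
theorem barM (W : Cw f e κ a a₁ t b₁ b) (he : 0 < e.im) (H : Shb μ) {x u : ℝ} (hx : a ≤ x)
    (hx' : x < u) (hu : a₁ ≤ u) (hu' : u ≤ b₁) (h : f u = f x + μ * (f b - f x)) : False := by
  rcases le_total a₁ x with h' | h'
  · exact W.no_mid H h' (by linarith) hu hu' h
  have hb := W.b_pos
  have κ1 := W.κ1
  have κ0 := W.κ0
  have m1 := (W.mid u hu hu').2
  have hRb := W.hR b (by linarith [W.h3, W.h4]) le_rfl
  have hLx : 8 * κ * ‖f x‖ ≤ (conj e * f x).im := by
    have := W.mirror.condR he (s := -x) (by linarith [W.h2]) (by linarith)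
    unfold mir at this
    rw [neg_neg, norm_neg, norm_conj, norm_mul, norm_conj, W.ne, one_mul, neg_im, conj_im,
      neg_neg] at this
    exact this
  obtain ⟨B, hB⟩ : ∃ B, B = conj e * f b := ⟨_, rfl⟩
  obtain ⟨U, hU⟩ : ∃ U, U = conj (1 - μ) * (conj e * f u) := ⟨_, rfl⟩
  obtain ⟨X, hX⟩ : ∃ X, X = conj e * f x := ⟨_, rfl⟩
  rw [← hB] at hb m1 hRb
  rw [← hX] at hLx
  have hx0 : 0 ≤ X.im := le_trans (by positivity) hLx
  have e1 : ((normSq (1 - μ) : ℝ) : ℂ) * X = U - (μ - ((normSq μ : ℝ) : ℂ)) * B := by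
    rw [hU, hB, hX, h, ← mul_conj, ← mul_conj, map_sub, map_one]
    ring
  have hUn : ‖U‖ ≤ 2 * (κ * B.re) := by
    rw [hU, norm_mul, norm_mul, norm_conj, norm_conj, W.ne, one_mul]
    exact mul_le_mul H.norm' m1 (norm_nonneg _) (by norm_num)
  have i := congrArg Complex.im e1
  rw [im_ofReal_mul, sub_im, mul_im, sub_re, sub_im, ofReal_re, ofReal_im, sub_zero] at i
  have i0 : 0 ≤ normSq (1 - μ) * X.im := mul_nonneg (normSq_nonneg _) hx0
  have x2 := abs_le.1 (Complex.abs_im_le_norm U)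
  have i1 := H.i1
  have i2 := H.i2
  have r1 := H.r1
  have r2 := H.r2
  have hns : normSq μ ≤ 2 := by
    rw [normSq_apply]
    nlinarith
  have hns0 := normSq_nonneg μ
  have p1 : 1 / 2 * B.re ≤ μ.im * B.re := mul_le_mul_of_nonneg_right i1 hb.le
  have p3 : |(μ.re - normSq μ) * B.im| ≤ 2 * (κ * B.re) := by
    rw [abs_mul]
    exact mul_le_mul (abs_le.2 ⟨by linarith, by linarith⟩) hRb (abs_nonneg _) (by norm_num)
  have p5 := abs_le.1 p3
  have q1 : 1000 * κ * B.re ≤ 1 * B.re := mul_le_mul_of_nonneg_right κ1 hb.le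
  linarith [p5.1, p5.2]

theorem barM' (W : Cw f e κ a a₁ t b₁ b) (he : 0 < e.im) (H : Shb μ) {u y : ℝ} (hy : u < y)
    (hy' : y ≤ b) (hu : a₁ ≤ u) (hu' : u ≤ b₁) (h : f u = f a + μ * (f y - f a)) : False :=
  W.mirror.barM he H.mir (x := -y) (u := -u) (by linarith) (by linarith) (by linarith)
    (by linarith) (mir_rel h)

end Cw

end Pool.Agent.N335.Hg
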