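import Pool.Agent.N335.Hg.Crn2

/-! The fourth vertex of the square of a triangle with vertices near two rays. -/

set_option autoImplicit false
open Complex Set Topology Metric
open scoped ComplexConjugate

namespace Pool.Agent.N335.Hg

/-- the thin sector around the positive real axis -/
def ZL (κ : ℝ) (z : ℂ) : Prop := |z.im| ≤ κ * z.re
/-- the thin sector around the ray through `ε` -/
def ZR (κ : ℝ) (ε z : ℂ) : Prop := |(conj ε * z).im| ≤ κ * (conj ε * z).re

/-- the data of the two rays -/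
structure Ry (κ : ℝ) (ε : ℂ) : Prop where
  κ0 : 0 < κ
  κS : 1000 * κ ≤ ε.im ^ 2
  e1 : ε.re ^ 2 + ε.im ^ 2 = 1
  C0 : 0 ≤ ε.re
  S0 : 0 < ε.im

variable {κ : ℝ} {ε F M G : ℂ}

namespace Ry

theorem S1 (R : Ry κ ε) : ε.im ≤ 1 := by
  have := R.e1
  have := R.S0
  nlinarith [sq_nonneg ε.re]

theorem C1 (R : Ry κ ε) : ε.re ≤ 1 := by
  have := R.e1
  have := R.C0
  nlinarith [sq_nonneg ε.im]

theorem κ1 (R : Ry κ ε) : 1000 * κ ≤ 1 := by
  have := R.κS
  have := R.e1
  nlinarith [sq_nonneg ε.re]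

theorem κS1 (R : Ry κ ε) : 1000 * κ ≤ ε.im := by
  have := R.κS
  have := R.S1
  have := R.S0
  nlinarith

theorem ee (R : Ry κ ε) : conj ε * ε = 1 := by
  rw [mul_comm, mul_conj, normSq_apply]
  have := R.e1
  norm_cast
  nlinarith

theorem ne (R : Ry κ ε) : ‖ε‖ = 1 := by
  have h := Complex.normSq_eq_norm_sq ε
  rw [Complex.normSq_apply] at h
  have := R.e1
  have h2 : ‖ε‖ ^ 2 = 1 := by nlinarith
  exact (pow_eq_one_iff_of_nonneg (norm_nonneg ε) two_ne_zero).1 h2

end Ry

/-- coordinates along the two rays and bounds for products -/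
theorem coords (R : Ry κ ε) (hG : ZR κ ε G) : ∃ p q : ℝ, p = (conj ε * G).re ∧
    q = (conj ε * G).im ∧ 0 ≤ p ∧ |q| ≤ κ * p ∧ G.re = ε.re * p - ε.im * q ∧
    G.im = ε.im * p + ε.re * q ∧ |ε.im * q| ≤ κ * p ∧ |ε.re * q| ≤ κ * p ∧
    1000 * (κ * p) ≤ ε.im ^ 2 * p ∧ 1000 * (κ * p) ≤ ε.im * p ∧ ε.im * p ≤ p ∧ ε.re * p ≤ p ∧
    0 ≤ ε.re * p := by
  obtain ⟨p, hp⟩ : ∃ p, p = (conj ε * G).re := ⟨_, rfl⟩
  obtain ⟨q, hq⟩ : ∃ q, q = (conj ε * G).im := ⟨_, rfl⟩
  unfold ZR at hG
  rw [← hp, ← hq] at hG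
  have p0 := Win.re_of R.κ0 hG
  have hG' : G = ε * (conj ε * G) := by rw [← mul_assoc, mul_comm ε, R.ee, one_mul]
  have C0 := R.C0
  have S0 := R.S0
  refine ⟨p, q, hp, hq, p0, hG, ?_, ?_, ?_, ?_, ?_, ?_, ?_, ?_, mul_nonneg C0 p0⟩
  · nth_rewrite 1 [hG']
    rw [mul_re, ← hp, ← hq]
  · nth_rewrite 1 [hG']
    rw [mul_im, ← hp, ← hq]; ring
  · rw [abs_mul, abs_of_pos S0]
    calc ε.im * |q| ≤ 1 * (κ * p) := mul_le_mul R.S1 hG (abs_nonneg _) zero_le_one
      _ = κ * p := one_mul _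
  · rw [abs_mul, abs_of_nonneg C0]
    calc ε.re * |q| ≤ 1 * (κ * p) := mul_le_mul R.C1 hG (abs_nonneg _) zero_le_one
      _ = κ * p := one_mul _
  · have := mul_le_mul_of_nonneg_right R.κS p0
    linarith
  · have := mul_le_mul_of_nonneg_right R.κS1 p0
    linarith
  · have := mul_le_mul_of_nonneg_right R.S1 p0
    linarith
  · have := mul_le_mul_of_nonneg_right R.C1 p0
    linarith

theorem im_conj_mul (ε z : ℂ) : (conj ε * z).im = ε.re * z.im - ε.im * z.re := by
  rw [mul_im, conj_re, conj_im]; ring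

/-- right angle at the first vertex, middle vertex on the left branch -/
theorem geoA_L (R : Ry κ ε) (hF : ZL κ F) (hM : ZL κ M) (hG : ZR κ ε G) (hne : F ≠ G)
    (h : M = F + I * (G - F)) : κ * ‖M + G - F‖ < (conj ε * (M + G - F)).im := by
  obtain ⟨p, q, hp, hq, p0, hG', g1, g2, b1, b2, b3, b4, b5, b6, b7⟩ := coords R hG
  unfold ZL at hF hM
  have κ0 := R.κ0
  have κ1 := R.κ1
  have f0 := Win.re_of κ0 hF
  have m0 := Win.re_of κ0 hM
  have r1 := congrArg Complex.re h
  have r2 := congrArg Complex.im h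
  simp only [add_re, add_im, mul_re, mul_im, I_re, I_im, sub_re, sub_im, zero_mul, one_mul,
    zero_add, zero_sub] at r1 r2
  have F2 := abs_le.1 hF
  have M2 := abs_le.1 hM
  have Q2 := abs_le.1 hG'
  have B1 := abs_le.1 b1
  have B2 := abs_le.1 b2
  have X1 : κ * F.re ≤ F.re / 1000 := by
    have := mul_le_mul_of_nonneg_right κ1 f0; linarith
  have Y1 : κ * M.re ≤ M.re / 1000 := by
    have := mul_le_mul_of_nonneg_right κ1 m0; linarith
  have Z1 : κ * p ≤ p / 1000 := by
    have := mul_le_mul_of_nonneg_right κ1 p0; linarith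
  have f1 : F.re ≤ 2 * p := by linarith
  have m1 : M.re ≤ 2 * p := by linarith
  have X2 : κ * F.re ≤ 2 * (κ * p) := by
    have := mul_le_mul_of_nonneg_left f1 κ0.le; linarith
  have Y2 : κ * M.re ≤ 2 * (κ * p) := by
    have := mul_le_mul_of_nonneg_left m1 κ0.le; linarith
  have pp : 0 < p := by
    refine lt_of_le_of_ne p0 fun h0 => hne ?_
    rw [← h0] at f1 g1 g2 hG'
    have hf : F.re = 0 := by linarith
    rw [hf, mul_zero] at hF
    have hf2 := abs_nonpos_iff.1 hF
    rw [mul_zero] at hG'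
    have hq0 := abs_nonpos_iff.1 hG'
    rw [hq0, mul_zero, mul_zero] at g1 g2
    refine Complex.ext ?_ ?_
    · rw [g1, hf]; ring
    · rw [g2, hf2]; ring
  have Z0 : 0 < κ * p := mul_pos κ0 pp
  rw [im_conj_mul]
  have n1 := Complex.norm_le_abs_re_add_abs_im (M + G - F)
  have n2 : |(M + G - F).re| ≤ 3 * p := by
    rw [abs_le, sub_re, add_re]
    constructor <;> linarith
  have n3 : |(M + G - F).im| ≤ 3 * p := by
    rw [abs_le, sub_im, add_im]
    constructor <;> linarith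
  have n4 : κ * ‖M + G - F‖ ≤ κ * (6 * p) := mul_le_mul_of_nonneg_left (by linarith) κ0.le
  rw [sub_re, add_re, sub_im, add_im]
  have S0 := R.S0
  have C0 := R.C0
  have e1 : ε.re * (M.im + G.im - F.im) - ε.im * (M.re + G.re - F.re) =
      q * (ε.re ^ 2 + ε.im ^ 2) + ε.re * (M.im - F.im) + ε.im * (F.re - M.re) := by
    rw [g1, g2]; ring
  have e2 : ε.im * (F.re - M.re) = ε.im ^ 2 * p + ε.im * (ε.re * q) - ε.im * F.im := by
    have : F.re - M.re = G.im - F.im := by linarith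
    rw [this, g2]; ring
  have t1 : |ε.re * (M.im - F.im)| ≤ 1 * (4 * (κ * p)) := by
    rw [abs_mul, abs_of_nonneg C0]
    refine mul_le_mul R.C1 ?_ (abs_nonneg _) zero_le_one
    rw [abs_le]
    constructor <;> linarith
  have t2 : |ε.im * (ε.re * q)| ≤ 1 * (κ * p) := by
    rw [abs_mul, abs_of_pos S0]
    exact mul_le_mul R.S1 b2 (abs_nonneg _) zero_le_one
  have t3 : |ε.im * F.im| ≤ 1 * (2 * (κ * p)) := by
    rw [abs_mul, abs_of_pos S0]
    exact mul_le_mul R.S1 (hF.trans X2) (abs_nonneg _) zero_le_one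
  have T1 := abs_le.1 t1
  have T2 := abs_le.1 t2
  have T3 := abs_le.1 t3
  rw [e1, e2, R.e1, mul_one]
  linarith

/-- right angle at the last vertex, middle vertex on the left branch -/
theorem geoC_L (R : Ry κ ε) (hF : ZL κ F) (hM : ZL κ M) (hG : ZR κ ε G) (hne : F ≠ G)
    (h : M = F + (1 + I) * (G - F)) : κ * ‖M + F - G‖ < -(M + F - G).im := by
  obtain ⟨p, q, hp, hq, p0, hG', g1, g2, b1, b2, b3, b4, b5, b6, b7⟩ := coords R hG
  unfold ZL at hF hM
  have κ0 := R.κ0
  have κ1 := R.κ1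
  have f0 := Win.re_of κ0 hF
  have m0 := Win.re_of κ0 hM
  obtain ⟨r1, r2⟩ := full_coords h
  have F2 := abs_le.1 hF
  have M2 := abs_le.1 hM
  have Q2 := abs_le.1 hG'
  have B1 := abs_le.1 b1
  have B2 := abs_le.1 b2
  have X1 : κ * F.re ≤ F.re / 1000 := by
    have := mul_le_mul_of_nonneg_right κ1 f0; linarith
  have Y1 : κ * M.re ≤ M.re / 1000 := by
    have := mul_le_mul_of_nonneg_right κ1 m0; linarith
  have Z1 : κ * p ≤ p / 1000 := by
    have := mul_le_mul_of_nonneg_right κ1 p0; linarith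
  have fm : F.re + M.re ≤ 3 * p := by linarith
  have f1 : F.re ≤ 3 * p := by linarith
  have m1 : M.re ≤ 3 * p := by linarith
  have X2 : κ * F.re ≤ 3 * (κ * p) := by
    have := mul_le_mul_of_nonneg_left f1 κ0.le; linarith
  have Y2 : κ * M.re ≤ 3 * (κ * p) := by
    have := mul_le_mul_of_nonneg_left m1 κ0.le; linarith
  have pp : 0 < p := by
    refine lt_of_le_of_ne p0 fun h0 => hne ?_
    rw [← h0] at f1 g1 g2 hG'
    have hf : F.re = 0 := by linarith
    rw [hf, mul_zero] at hF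
    have hf2 := abs_nonpos_iff.1 hF
    rw [mul_zero] at hG'
    have hq0 := abs_nonpos_iff.1 hG'
    rw [hq0, mul_zero, mul_zero] at g1 g2
    refine Complex.ext ?_ ?_
    · rw [g1, hf]; ring
    · rw [g2, hf2]; ring
  have Z0 : 0 < κ * p := mul_pos κ0 pp
  have n1 := Complex.norm_le_abs_re_add_abs_im (M + F - G)
  have n2 : |(M + F - G).re| ≤ 7 * p := by
    rw [abs_le, sub_re, add_re]
    constructor <;> linarith
  have n3 : |(M + F - G).im| ≤ 7 * p := by
    rw [abs_le, sub_im, add_im]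
    constructor <;> linarith
  have n4 : κ * ‖M + F - G‖ ≤ κ * (14 * p) := mul_le_mul_of_nonneg_left (by linarith) κ0.le
  rw [sub_im, add_im]
  linarith

/-- right angle at the middle vertex, which is on the left branch -/
theorem geoB_L (R : Ry κ ε) (hF : ZL κ F) (hM : ZL κ M) (hG : ZR κ ε G) (hne : F ≠ G)
    (h : M = F + (1 + I) / 2 * (G - F)) : κ * ‖F + G - M‖ < (F + G - M).im ∧
    κ * ‖F + G - M‖ < -(conj ε * (F + G - M)).im ∧ 0 < F.re ∧ 0 < (conj ε * G).re := by
  obtain ⟨p, q, hp, hq, p0, hG', g1, g2, b1, b2, b3, b4, b5, b6, b7⟩ := coords R hG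
  unfold ZL at hF hM
  have κ0 := R.κ0
  have κ1 := R.κ1
  have f0 := Win.re_of κ0 hF
  have m0 := Win.re_of κ0 hM
  obtain ⟨r1, r2⟩ := half_coords h
  have F2 := abs_le.1 hF
  have M2 := abs_le.1 hM
  have Q2 := abs_le.1 hG'
  have B1 := abs_le.1 b1
  have B2 := abs_le.1 b2
  have X1 : κ * F.re ≤ F.re / 1000 := by
    have := mul_le_mul_of_nonneg_right κ1 f0; linarith
  have Y1 : κ * M.re ≤ M.re / 1000 := by
    have := mul_le_mul_of_nonneg_right κ1 m0; linarith
  have Z1 : κ * p ≤ p / 1000 := by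
    have := mul_le_mul_of_nonneg_right κ1 p0; linarith
  have f1 : F.re ≤ 3 * p := by linarith
  have m1 : M.re ≤ 3 * p := by linarith
  have X2 : κ * F.re ≤ 3 * (κ * p) := by
    have := mul_le_mul_of_nonneg_left f1 κ0.le; linarith
  have Y2 : κ * M.re ≤ 3 * (κ * p) := by
    have := mul_le_mul_of_nonneg_left m1 κ0.le; linarith
  have pp : 0 < p := by
    refine lt_of_le_of_ne p0 fun h0 => hne ?_
    rw [← h0] at f1 g1 g2 hG'
    have hf : F.re = 0 := by linarith
    rw [hf, mul_zero] at hF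
    have hf2 := abs_nonpos_iff.1 hF
    rw [mul_zero] at hG'
    have hq0 := abs_nonpos_iff.1 hG'
    rw [hq0, mul_zero, mul_zero] at g1 g2
    refine Complex.ext ?_ ?_
    · rw [g1, hf]; ring
    · rw [g2, hf2]; ring
  have Z0 : 0 < κ * p := mul_pos κ0 pp
  have n1 := Complex.norm_le_abs_re_add_abs_im (F + G - M)
  have n2 : |(F + G - M).re| ≤ 7 * p := by
    rw [abs_le, sub_re, add_re]
    constructor <;> linarith
  have n3 : |(F + G - M).im| ≤ 7 * p := by
    rw [abs_le, sub_im, add_im]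
    constructor <;> linarith
  have n4 : κ * ‖F + G - M‖ ≤ κ * (14 * p) := mul_le_mul_of_nonneg_left (by linarith) κ0.le
  refine ⟨?_, ?_, by linarith, by rw [← hp]; exact pp⟩
  · rw [sub_im, add_im]
    linarith
  · rw [im_conj_mul, sub_re, add_re, sub_im, add_im]
    have S0 := R.S0
    have C0 := R.C0
    have e1 : -(ε.re * (F.im + G.im - M.im) - ε.im * (F.re + G.re - M.re)) =
        -(q * (ε.re ^ 2 + ε.im ^ 2)) + ε.re * (M.im - F.im) + ε.im * (F.re - M.re) := by
      rw [g1, g2]; ring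
    have e2 : ε.im * (F.re - M.re) = ε.im ^ 2 * p + ε.im * (ε.re * q) - ε.im * M.im := by
      have : F.re - M.re = G.im - M.im := by linarith
      rw [this, g2]; ring
    have t1 : |ε.re * (M.im - F.im)| ≤ 1 * (6 * (κ * p)) := by
      rw [abs_mul, abs_of_nonneg C0]
      refine mul_le_mul R.C1 ?_ (abs_nonneg _) zero_le_one
      rw [abs_le]
      constructor <;> linarith
    have t2 : |ε.im * (ε.re * q)| ≤ 1 * (κ * p) := by
      rw [abs_mul, abs_of_pos S0]
      exact mul_le_mul R.S1 b2 (abs_nonneg _) zero_le_one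
    have t3 : |ε.im * M.im| ≤ 1 * (3 * (κ * p)) := by
      rw [abs_mul, abs_of_pos S0]
      exact mul_le_mul R.S1 (hM.trans Y2) (abs_nonneg _) zero_le_one
    have T1 := abs_le.1 t1
    have T2 := abs_le.1 t2
    have T3 := abs_le.1 t3
    rw [e1, e2, R.e1, mul_one]
    linarith

/-! the reflection -/

theorem refl_ZL (hG : ZR κ ε G) : ZL κ (ε * conj G) := by
  have e : ε * conj G = conj (conj ε * G) := by rw [map_mul, conj_conj]
  unfold ZL
  rw [e, conj_im, conj_re, abs_neg]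
  exact hG

theorem refl_ZR (R : Ry κ ε) (hF : ZL κ F) : ZR κ ε (ε * conj F) := by
  unfold ZR
  rw [← mul_assoc, R.ee, one_mul, conj_im, conj_re, abs_neg]
  exact hF

theorem refl_ne (R : Ry κ ε) (hne : F ≠ G) : ε * conj G ≠ ε * conj F := by
  intro h
  have he : ε ≠ 0 := fun h0 => by
    have := R.ne
    rw [h0, norm_zero] at this
    exact zero_ne_one this
  exact hne ((starRingEnd ℂ).injective (mul_left_cancel₀ he h)).symm

theorem geoA_R (R : Ry κ ε) (hF : ZL κ F) (hM : ZR κ ε M) (hG : ZR κ ε G) (hne : F ≠ G)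
    (h : M = F + I * (G - F)) : κ * ‖M + G - F‖ < (conj ε * (M + G - F)).im := by
  have := geoC_L R (refl_ZL hG) (refl_ZL hM) (refl_ZR R hF) (refl_ne R hne) (by
    rw [h]
    simp only [map_add, map_mul, map_sub, conj_I]
    ring)
  have e : ε * conj M + ε * conj G - ε * conj F = conj (conj ε * (M + G - F)) := by
    simp only [map_add, map_mul, map_sub, conj_conj]
    ring
  rw [e, conj_im, neg_neg, norm_conj, norm_mul, norm_conj, R.ne, one_mul] at this
  exact this

theorem geoC_R (R : Ry κ ε) (hF : ZL κ F) (hM : ZR κ ε M) (hG : ZR κ ε G) (hne : F ≠ G)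
    (h : M = F + (1 + I) * (G - F)) : κ * ‖M + F - G‖ < -(M + F - G).im := by
  have := geoA_L R (refl_ZL hG) (refl_ZL hM) (refl_ZR R hF) (refl_ne R hne) (by
    rw [h]
    simp only [map_add, map_mul, map_sub, map_one, conj_I]
    ring)
  have e : ε * conj M + ε * conj F - ε * conj G = ε * conj (M + F - G) := by
    simp only [map_add, map_sub]
    ring
  rw [e, ← mul_assoc, R.ee, one_mul, conj_im, norm_mul, norm_conj, R.ne, one_mul] at this
  exact this

theorem geoB_R (R : Ry κ ε) (hF : ZL κ F) (hM : ZR κ ε M) (hG : ZR κ ε G) (hne : F ≠ G)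
    (h : M = F + (1 + I) / 2 * (G - F)) : κ * ‖F + G - M‖ < (F + G - M).im ∧
    κ * ‖F + G - M‖ < -(conj ε * (F + G - M)).im ∧ 0 < F.re ∧ 0 < (conj ε * G).re := by
  have := geoB_L R (refl_ZL hG) (refl_ZL hM) (refl_ZR R hF) (refl_ne R hne) (by
    rw [h]
    simp only [map_add, map_mul, map_sub, map_one, conj_I, map_div₀, map_ofNat]
    ring)
  have e : ε * conj G + ε * conj F - ε * conj M = conj (conj ε * (F + G - M)) := by
    simp only [map_add, map_mul, map_sub, conj_conj]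
    ring
  have e' : conj ε * conj (conj ε * (F + G - M)) = conj (F + G - M) := by
    simp only [map_mul, conj_conj]
    rw [← mul_assoc, R.ee, one_mul]
  rw [e, e', conj_im, conj_im, norm_conj, norm_mul, norm_conj, R.ne, one_mul, neg_neg,
    ← mul_assoc, R.ee, one_mul, conj_re] at this
  obtain ⟨a1, a2, a3, a4⟩ := this
  refine ⟨a2, a1, a4, ?_⟩
  have e2 : ε * conj G = conj (conj ε * G) := by rw [map_mul, conj_conj]
  rw [e2, conj_re] at a3
  exact a3

/-! half planes -/

theorem re_plus (κ : ℝ) (v : ℂ) : ((κ + I) * v).re = κ * v.re - v.im := by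
  rw [add_mul, add_re, re_ofReal_mul, mul_re, I_re, I_im]; ring

theorem re_minus (κ : ℝ) (v : ℂ) : ((κ - I) * v).re = κ * v.re + v.im := by
  rw [sub_mul, sub_re, re_ofReal_mul, mul_re, I_re, I_im]; ring

/-- the half plane for the shape `i` -/
theorem hpA (R : Ry κ ε) {z : ℂ} (hz : ZL κ z ∨ ZR κ ε z) :
    0 ≤ (((κ + I) * conj ε) * z).re := by
  rw [mul_assoc, re_plus]
  rcases hz with hz | hz
  · unfold ZL at hz
    have κ0 := R.κ0
    have z0 := Win.re_of κ0 hz
    have C0 := R.C0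
    have S0 := R.S0
    have Z := abs_le.1 hz
    rw [im_conj_mul, mul_re, conj_re, conj_im]
    have t1 : |ε.re * z.im| ≤ 1 * (κ * z.re) := by
      rw [abs_mul, abs_of_nonneg C0]
      exact mul_le_mul R.C1 hz (abs_nonneg _) zero_le_one
    have t2 : |κ * (ε.im * z.im)| ≤ 1 * (1 * (κ * z.re)) := by
      rw [abs_mul, abs_of_pos κ0, abs_mul, abs_of_pos S0]
      refine mul_le_mul (by linarith [R.κ1]) ?_ (by positivity) zero_le_one
      exact mul_le_mul R.S1 hz (abs_nonneg _) zero_le_one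
    have T1 := abs_le.1 t1
    have T2 := abs_le.1 t2
    have t3 : 0 ≤ κ * (ε.re * z.re) := by positivity
    have t4 := mul_le_mul_of_nonneg_right R.κS1 z0
    have t5 : 0 ≤ κ * z.re := by positivity
    linarith
  · have := abs_le.1 hz
    linarith [this.2]

/-- the half plane for the shape `1 + i` -/
theorem hpC (R : Ry κ ε) {z : ℂ} (hz : ZL κ z ∨ ZR κ ε z) :
    0 ≤ ((κ - I) * z).re := by
  rw [re_minus]
  rcases hz with hz | hz
  · have := abs_le.1 hz
    linarith [this.1]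
  · obtain ⟨p, q, hp, hq, p0, hG', g1, g2, b1, b2, b3, b4, b5, b6, b7⟩ := coords R hz
    have κ0 := R.κ0
    have κ1 := R.κ1
    rw [g1, g2]
    have t2 : |κ * (ε.im * q)| ≤ 1 * (κ * p) := by
      rw [abs_mul, abs_of_pos κ0]
      exact mul_le_mul (by linarith) b1 (abs_nonneg _) zero_le_one
    have T1 := abs_le.1 b2
    have T2 := abs_le.1 t2
    have t3 : 0 ≤ κ * (ε.re * p) := by positivity
    have t5 : 0 ≤ κ * p := by positivity
    linarith

theorem negA (R : Ry κ ε) {E : ℂ} (h : κ * ‖E‖ < (conj ε * E).im) :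
    (((κ + I) * conj ε) * E).re < 0 := by
  rw [mul_assoc, re_plus]
  have h1 := Complex.re_le_norm (conj ε * E)
  rw [norm_mul, norm_conj, R.ne, one_mul] at h1
  have := mul_le_mul_of_nonneg_left h1 R.κ0.le
  linarith

theorem negC (R : Ry κ ε) {E : ℂ} (h : κ * ‖E‖ < -E.im) : ((κ - I) * E).re < 0 := by
  rw [re_minus]
  have h1 := Complex.re_le_norm E
  have := mul_le_mul_of_nonneg_left h1 R.κ0.le
  linarith

theorem negBL (R : Ry κ ε) {E : ℂ} (h : κ * ‖E‖ < E.im) : ((κ + I) * E).re < 0 := by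
  rw [re_plus]
  have h1 := Complex.re_le_norm E
  have := mul_le_mul_of_nonneg_left h1 R.κ0.le
  linarith

theorem negBR (R : Ry κ ε) {E : ℂ} (h : κ * ‖E‖ < -(conj ε * E).im) :
    (((κ - I) * conj ε) * E).re < 0 := by
  rw [mul_assoc, re_minus]
  have h1 := Complex.re_le_norm (conj ε * E)
  rw [norm_mul, norm_conj, R.ne, one_mul] at h1
  have := mul_le_mul_of_nonneg_left h1 R.κ0.le
  linarith

end Pool.Agent.N335.Hg
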