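import Pool.Agent.N335.Hg.Crn3

/-! Families of triangles near a corner: they are confined, or they have a member with vertices on
both branches. -/

set_option autoImplicit false
open Complex Set Topology Metric
open scoped ComplexConjugate

namespace Pool.Agent.N335.Hg

open Pool.Agent.H763R2 Pool.Agent.H763R2.An
open Pool.Agent.Y765.Sq (Ann exists_int)

variable {c f : ℝ → ℂ} {θ : ℝ → ℝ → ℝ}

theorem Fu_of (D : Dirn f θ) {w : ℂ} (hw : w ≠ 0) {b z : ℝ} (hb : b < z + 1)
    (h : ∀ s, z < s → s ≤ b → ¬ Sec (w * (f s - f z))) : Fu θ b z := by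
  obtain ⟨g, hg⟩ := (D.rot hw 0).fu hb (fun s g1 g2 hs => h s g1 g2 (by
    have : mv f w 0 s - mv f w 0 z = w * (f s - f z) := by unfold mv; ring
    rwa [this] at hs))
  exact ⟨g - (log w).im, fun y g1 g2 => by
    have := hg y g1 g2
    constructor <;> linarith [this.1, this.2]⟩

theorem Pa_of (D : Dirn f θ) {w : ℂ} (hw : w ≠ 0) {a z : ℝ} (ha : z < a + 1)
    (h : ∀ s, a ≤ s → s < z → ¬ Sec (w * (f s - f z))) : Pa θ a z := by
  obtain ⟨g, hg⟩ := (D.rot hw 0).pa ha (fun s g1 g2 hs => h s g1 g2 (by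
    have : mv f w 0 s - mv f w 0 z = w * (f s - f z) := by unfold mv; ring
    rwa [this] at hs))
  exact ⟨g - (log w).im, fun y g1 g2 => by
    have := hg y g1 g2
    constructor <;> linarith [this.1, this.2]⟩

theorem sec_conj {v : ℂ} : Sec (conj v) ↔ Sec (-v) := by
  unfold Sec
  rw [conj_re, conj_im, neg_re, neg_im, abs_neg]

theorem sec_negconj {v : ℂ} : Sec (-conj v) ↔ Sec v := by
  unfold Sec
  rw [neg_re, neg_im, conj_re, conj_im, abs_neg, neg_neg]

/-- lower bound of later directions and upper bound of earlier directions, left branch -/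
theorem rf_L (D : Dirn f θ) {a t b z : ℝ} (B : Base f θ a t) (h1 : a < z) (h2 : z < t)
    (h3 : t ≤ b) (h4 : b < a + 1) (F : ∀ s, a ≤ s → s ≤ b → Sec (f s - f z) → s = z) :
    (∀ y, z < y → y ≤ b → -(Real.pi / 4) < θ z y) ∧ (∀ x, a ≤ x → x < z → θ x z < Real.pi / 4) := by
  have hπ := Real.pi_pos
  have F' : Free f a t z := fun s g1 g2 g3 => F s g1 (g2.trans h3) g3
  have hno : ∀ y, z < y → y ≤ b → ¬ Sec (f y - f z) := fun y hy hy' hs =>
    absurd (F y (by linarith) hy' hs) (by linarith)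
  refine ⟨fun y g1 g2 => ?_, fun x g1 g2 => (B.past D F' h2.le g1 g2).2⟩
  exact (stay (Y := Ioc z b) isPreconnected_Ioc (D.contR fun y hy => ⟨hy.1, by linarith [hy.2]⟩)
    (fun y hy => ⟨D.ne_a hy.1 (by linarith [hy.2]) (hno y hy.1 hy.2),
      D.ne_b hy.1 (by linarith [hy.2]) (hno y hy.1 hy.2)⟩)
    (y₀ := t) ⟨h2, h3⟩ (B.fut D F' h1.le h2 le_rfl) ⟨g1, g2⟩).1

/-- lower bound of later directions and upper bound of earlier directions, right branch -/
theorem rf_R (D : Dirn f θ) {a t b z : ℝ} (B : Base f θ t b) (h1 : t < z) (h2 : z < b)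
    (h3 : a ≤ t) (h4 : b < a + 1) (F : ∀ s, a ≤ s → s ≤ b → Sec (f s - f z) → s = z) :
    (∀ y, z < y → y ≤ b → -(Real.pi / 4) < θ z y) ∧ (∀ x, a ≤ x → x < z → θ x z < Real.pi / 4) := by
  have hπ := Real.pi_pos
  have F' : Free f t b z := fun s g1 g2 g3 => F s (h3.trans g1) g2 g3
  have hno : ∀ x, a ≤ x → x < z → ¬ Sec (f x - f z) := fun x hx hx' hs =>
    absurd (F x hx (by linarith) hs) (by linarith)
  refine ⟨fun y g1 g2 => (B.fut D F' h1.le g1 g2).1, fun x g1 g2 => ?_⟩
  exact (stay (Y := Ico a z) isPreconnected_Ico (φ := fun x => θ x z)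
    (D.contL fun x hx => ⟨hx.2, by linarith [hx.1]⟩)
    (fun x hx => ⟨D.ne_d hx.2 (by linarith [hx.1]) (hno x hx.1 hx.2),
      D.ne_c hx.2 (by linarith [hx.1]) (hno x hx.1 hx.2)⟩)
    (y₀ := t) ⟨h3, h1⟩ (B.past D F' h2.le le_rfl h1) (y₁ := x) ⟨g1, g2⟩).2

namespace Cw

variable {e : ℂ} {κ a a₁ t b₁ b : ℝ} {μ : ℂ} {A B : ℝ}

theorem ce0 (W : Cw f e κ a a₁ t b₁ b) : conj e ≠ 0 := (map_ne_zero _).2 W.e0

/-- the reflected window -/
theorem cj (W : Cw f e κ a a₁ t b₁ b) : Cw (fun s => conj (f s)) (conj e) κ a a₁ t b₁ b := by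
  have r : ∀ s, conj (conj e) * conj (f s) = conj (conj e * f s) := fun s => (map_mul _ _ _).symm
  refine ⟨W.κ0, by rw [conj_im, neg_sq]; exact W.κS, by rw [conj_re, conj_im, neg_sq]; exact W.e1,
    by rw [conj_re]; exact W.e2, W.h1, W.h2, W.h3, W.h4, W.h5, by simp only [W.ft, map_zero],
    fun s g1 g2 => ?_, fun s g1 g2 => ?_, fun s g1 g2 => ?_, fun s g1 g2 => ?_,
    fun s g1 g2 => ?_⟩
  · rw [conj_re, conj_im, abs_neg]
    exact W.hL s g1 g2
  · rw [r, conj_re, conj_im, abs_neg]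
    exact W.hR s g1 g2
  · rw [conj_re, conj_re]
    exact W.hl s g1 g2
  · rw [r, r, conj_re, conj_re]
    exact W.hr s g1 g2
  · rw [norm_conj, r, conj_re, conj_re]
    exact W.mid s g1 g2

theorem reL (W : Cw f e κ a a₁ t b₁ b) (J : Inj f) {s : ℝ} (h : a ≤ s) (h' : s < t) :
    (f s).re < 0 := by
  have g := W.hL s h h'.le
  have h0 := Win.re_of W.κ0 g
  have h1 := W.h1
  have h2 := W.h2
  have h3 := W.h3
  have h4 := W.h4
  have h5 := W.h5
  refine lt_of_le_of_ne (by linarith) fun h' => ?_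
  rw [h', neg_zero, mul_zero] at g
  refine J s t (by linarith) (by linarith) ?_
  rw [W.ft]
  exact Complex.ext h' (abs_nonpos_iff.1 g)

theorem reR (W : Cw f e κ a a₁ t b₁ b) (J : Inj f) {s : ℝ} (h : t < s) (h' : s ≤ b) :
    0 < (conj e * f s).re := by
  have g := W.hR s h.le h'
  have h0 := Win.re_of W.κ0 g
  have h1 := W.h1
  have h2 := W.h2
  have h3 := W.h3
  have h4 := W.h4
  have h5 := W.h5
  refine lt_of_le_of_ne h0 fun h' => ?_
  rw [← h', mul_zero] at g
  refine J t s h (by linarith) ?_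
  rw [W.ft]
  have : conj e * f s = 0 := Complex.ext h'.symm (abs_nonpos_iff.1 g)
  rcases mul_eq_zero.1 this with h | h
  · exact absurd h W.ce0
  · exact h.symm

/-- free points on the left branch for left turns -/
theorem freeL (W : Cw f e κ a a₁ t b₁ b) (hc : Continuous f) (J : Inj f) (he : 0 < e.im) :
    ∃ z, a₁ < z ∧ z < t ∧ ∀ s, a ≤ s → s ≤ b → Sec (f s - f z) → s = z :=
  exL hc J W.κ0 (by linarith [W.κ1]) W.h1 W.h2 (by linarith [W.h3, W.h4]) W.h5 W.ft W.hL
    fun s g1 g2 => W.condR he g1 g2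

/-- free points on the left branch relative to this branch -/
theorem freeL' (W : Cw f e κ a a₁ t b₁ b) (hc : Continuous f) (J : Inj f) :
    ∃ z, a₁ < z ∧ z < t ∧ ∀ s, a ≤ s → s ≤ t → Sec (f s - f z) → s = z :=
  exL hc J W.κ0 (by linarith [W.κ1]) W.h1 W.h2 le_rfl (by linarith [W.h3, W.h4, W.h5]) W.ft W.hL
    fun s g1 g2 => by
      rw [le_antisymm g2 g1, W.ft]; simp

theorem mir_sub (e : ℂ) (s z : ℝ) : mir f e (-s) - mir f e (-z) =
    -conj (conj e * (f s - f z)) := by
  unfold mir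
  rw [neg_neg, neg_neg, mul_sub, map_sub]
  ring

theorem freeR (W : Cw f e κ a a₁ t b₁ b) (hc : Continuous f) (J : Inj f) (he : 0 < e.im) :
    ∃ z, t < z ∧ z < b₁ ∧ ∀ s, a ≤ s → s ≤ b → Sec (conj e * (f s - f z)) → s = z := by
  have hcm : Continuous (mir f e) := by
    unfold mir
    exact (continuous_conj.comp (by fun_prop)).neg
  obtain ⟨z, z1, z2, z3⟩ := W.mirror.freeL hcm (mir_inj J W.e0) he
  refine ⟨-z, by linarith, by linarith, fun s g1 g2 g3 => ?_⟩
  have := z3 (-s) (by linarith) (by linarith) (by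
    have h := mir_sub (f := f) e s (-z)
    rw [neg_neg] at h
    rw [h, sec_negconj]; exact g3)
  linarith

theorem freeR' (W : Cw f e κ a a₁ t b₁ b) (hc : Continuous f) (J : Inj f) :
    ∃ z, t < z ∧ z < b₁ ∧ ∀ s, t ≤ s → s ≤ b → Sec (conj e * (f s - f z)) → s = z := by
  have hcm : Continuous (mir f e) := by
    unfold mir
    exact (continuous_conj.comp (by fun_prop)).neg
  obtain ⟨z, z1, z2, z3⟩ := W.mirror.freeL' hcm (mir_inj J W.e0)
  refine ⟨-z, by linarith, by linarith, fun s g1 g2 g3 => ?_⟩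
  have := z3 (-s) (by linarith) (by linarith) (by
    have h := mir_sub (f := f) e s (-z)
    rw [neg_neg] at h
    rw [h, sec_negconj]; exact g3)
  linarith

/-- free points on the outer side, both turns -/
theorem outer (W : Cw f e κ a a₁ t b₁ b) (hc : Continuous f) (J : Inj f) (D : Dirn f θ)
    (he : e.im ≠ 0) : ∃ zL zR, a₁ < zL ∧ zL < t ∧ t < zR ∧ zR < b₁ ∧ Fu θ b zL ∧ Fu θ b zR ∧
      Pa θ a zL ∧ Pa θ a zR ∧ (0 < e.im → (∀ s, a ≤ s → s ≤ b → Sec (f s - f zL) → s = zL) ∧
        (∀ s, a ≤ s → s ≤ b → Sec (conj e * (f s - f zR)) → s = zR)) := by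
  have h1 := W.h1
  have h2 := W.h2
  have h3 := W.h3
  have h4 := W.h4
  have h5 := W.h5
  rcases lt_or_gt_of_ne he with he' | he'
  · have Jc : Inj (fun s => conj (f s)) := by
      intro x y g1 g2 h
      exact J x y g1 g2 ((starRingEnd ℂ).injective h)
    have hcc : Continuous (fun s => conj (f s)) := continuous_conj.comp hc
    obtain ⟨zL, L1, L2, L3⟩ := W.cj.freeL hcc Jc (by rw [conj_im]; linarith)
    obtain ⟨zR, R1, R2, R3⟩ := W.cj.freeR hcc Jc (by rw [conj_im]; linarith)
    have L4 : ∀ s, a ≤ s → s ≤ b → Sec (-1 * (f s - f zL)) → s = zL := fun s g1 g2 g3 =>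
      L3 s g1 g2 (by
        rw [← map_sub, sec_conj, ← neg_one_mul]
        exact g3)
    have R4 : ∀ s, a ≤ s → s ≤ b → Sec (-conj e * (f s - f zR)) → s = zR := fun s g1 g2 g3 =>
      R3 s g1 g2 (by
        rw [← map_sub, ← map_mul, sec_conj, ← neg_mul]
        exact g3)
    refine ⟨zL, zR, L1, L2, R1, R2, Fu_of D (w := -1) (by norm_num) (by linarith) ?_,
      Fu_of D (w := -conj e) (neg_ne_zero.2 W.ce0) (by linarith) ?_,
      Pa_of D (w := -1) (by norm_num) (by linarith) ?_,
      Pa_of D (w := -conj e) (neg_ne_zero.2 W.ce0) (by linarith) ?_, fun h => absurd h (by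
        linarith)⟩
    · exact fun s g1 g2 g3 => absurd (L4 s (by linarith) g2 g3) (by linarith)
    · exact fun s g1 g2 g3 => absurd (R4 s (by linarith) g2 g3) (by linarith)
    · exact fun s g1 g2 g3 => absurd (L4 s g1 (by linarith) g3) (by linarith)
    · exact fun s g1 g2 g3 => absurd (R4 s g1 (by linarith) g3) (by linarith)
  · obtain ⟨zL, L1, L2, L3⟩ := W.freeL hc J he'
    obtain ⟨zR, R1, R2, R3⟩ := W.freeR hc J he'
    refine ⟨zL, zR, L1, L2, R1, R2, Fu_of D (w := 1) one_ne_zero (by linarith) ?_,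
      Fu_of D (w := conj e) W.ce0 (by linarith) ?_,
      Pa_of D (w := 1) one_ne_zero (by linarith) ?_,
      Pa_of D (w := conj e) W.ce0 (by linarith) ?_, fun _ => ⟨L3, R3⟩⟩
    · exact fun s g1 g2 g3 => absurd (L3 s (by linarith) g2 (by rwa [one_mul] at g3)) (by linarith)
    · exact fun s g1 g2 g3 => absurd (R3 s (by linarith) g2 g3) (by linarith)
    · exact fun s g1 g2 g3 => absurd (L3 s g1 (by linarith) (by rwa [one_mul] at g3)) (by linarith)
    · exact fun s g1 g2 g3 => absurd (R3 s g1 (by linarith) g3) (by linarith)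

end Cw

variable {e : ℂ} {κ a a₁ t b₁ b : ℝ} {μ : ℂ} {A B : ℝ} {F M G : ℝ × ℝ × ℝ → ℝ}

/-- the families near a corner -/
theorem crn_gen (L : Loop f) (J : Inj f) (W : Cw f e κ a a₁ t b₁ b) (he : e.im ≠ 0)
    (D : Dirn f θ) (H : Shp μ A B) (Hb : Shb μ) (R : Rd f μ F M G) {a' : ℝ} (ha : a' < a)
    (hb : b < a' + 1) :
    ∃ zL zR, a < zL ∧ zL < t ∧ t < zR ∧ zR < b ∧ ∀ (δ : ℝ) (T : Set Ann), 0 < δ →
      IsPreconnected T → TyA f δ T → ∀ q₀ ∈ Mm f δ a',
      (((q₀.1 : AddCircle (1 : ℝ)), q₀.2.1) : Ann) ∈ T → zL < F q₀ → G q₀ < zR →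
      (∀ p ∈ T, ∃ q ∈ Mm f δ a', (((q.1 : AddCircle (1 : ℝ)), q.2.1) : Ann) = p ∧
        G q - F q ≤ b - a) ∨
      (e.im < 0 ∧ ∃ q ∈ Mm f δ a', (((q.1 : AddCircle (1 : ℝ)), q.2.1) : Ann) ∈ T ∧ a ≤ F q ∧
        F q ≤ t ∧ t ≤ G q ∧ G q ≤ b ∧ la θ F M G q = A) := by
  have hc := L.cont
  have h1 := W.h1
  have h2 := W.h2
  have h3 := W.h3
  have h4 := W.h4
  have h5 := W.h5
  have hπ := Real.pi_pos
  have hAB := H.AB
  obtain ⟨g, hg⟩ : ∃ g, g = mv f (conj e) t := ⟨_, rfl⟩
  have hgs : ∀ s, g s = conj e * f s := fun s => by rw [hg]; unfold mv; rw [W.ft, sub_zero]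
  have Lg : Loop g := hg ▸ mv_loop L (conj e) t
  have Jg : Inj g := hg ▸ mv_inj J W.ce0 t
  obtain ⟨θL, DL, BL⟩ := exists_base L J (a := a) (b := t) (by linarith) (by linarith)
    (fun s g1 g2 => W.hl s g1 g2) (fun s g1 g2 => by rw [W.ft, zero_re]; exact W.reL J g1 g2)
  obtain ⟨θR, DR, BR⟩ := exists_base Lg Jg (a := t) (b := b) (by linarith) (by linarith)
    (fun s g1 g2 => by rw [hgs, hgs, W.ft, mul_zero, zero_re]; exact W.reR J g1 g2)
    (fun s g1 g2 => by rw [hgs, hgs]; exact W.hr s g1 g2)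
  obtain ⟨CL, hCL⟩ : ∃ C : ℝ, ∀ x y, x < y → y < x + 1 → θL x y = θ x y + C := by
    refine dirn_diff (w := 1) (t := t) one_ne_zero D ?_
    have : mv f 1 t = f := by
      funext s
      unfold mv
      rw [W.ft, sub_zero, one_mul]
    rw [this]; exact DL
  obtain ⟨CR, hCR⟩ := dirn_diff (w := conj e) (t := t) W.ce0 D (hg ▸ DR)
  obtain ⟨zL, zR, L1, L2, R1, R2, FL, FR, PL, PR, hpos⟩ := W.outer hc J D he
  -- the points for the middle vertex
  rcases lt_or_gt_of_ne he with he' | he'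
  · obtain ⟨yL, yL1, yL2, yL3⟩ := W.freeL' hc J
    obtain ⟨yR, yR1, yR2, yR3⟩ := W.freeR' hc J
    refine ⟨max zL yL, min zR yR, lt_max_of_lt_left (by linarith), max_lt L2 yL2,
      lt_min R1 yR1, min_lt_of_left_lt (by linarith), ?_⟩
    intro δ T hδ hT hTt q₀ hq₀ hq₀T g1 g2
    rcases local_gen2 L J D ha hb H R (zL := zL) (zR := zR) (yL := yL) (yR := yR) (by linarith)
      (by linarith) FL FR PL PR
      (fun x u k1 k2 k3 k4 k5 => W.barF Hb (by linarith) (by linarith) k3 k4 k5)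
      (fun u y k1 k2 k3 k4 k5 => W.barG Hb (by linarith) (by linarith) k3 k4 k5)
      hδ hT hTt hq₀ hq₀T (by linarith [le_max_left zL yL]) (by linarith [min_le_left zR yR])
      (by linarith [le_max_right zL yL]) (by linarith [min_le_right zR yR]) with h | h
    · exact Or.inl h
    · right
      refine ⟨he', ?_⟩
      obtain ⟨q, hq, hqT, k1, k2, k3, k4, k5, k6, k7⟩ := h
      have s := R.st J hδ hq
      have er := R.rel q hq.2.2.2.2
      have k6' := k6
      unfold la at k6
      unfold lb at k7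
      have s1 := s.1
      have s2 := s.2.1
      have s3 := s.2.2
      refine ⟨q, hq, hqT, k1, ?_, ?_, k2, k6'⟩
      · -- F q ≤ t
        by_contra hcon
        push Not at hcon
        rcases k5 with k5 | k5 | k5 | k5
        · linarith
        · have Fr : Free g t b (M q) := fun s' l1 l2 l3 => by
            rw [k5]
            refine yR3 s' l1 l2 ?_
            have : g s' - g (M q) = conj e * (f s' - f yR) := by rw [hgs, hgs, k5]; ring
            rwa [this] at l3
          refine BR.role_M DR H Fr (x := F q) (y := G q) hcon.le s1 s2 k2 ?_ ?_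
          · rw [hCR _ _ s1 (by linarith), hCR _ _ (by linarith) s3]; linarith
          · rw [hCR _ _ s2 (by linarith), hCR _ _ (by linarith) s3]; linarith
        · linarith
        · rw [k5] at er
          exact W.no_mid Hb (x := F q) (u := M q) (by linarith) (by linarith) (by linarith)
            (by linarith) er
      · by_contra hcon
        push Not at hcon
        rcases k5 with k5 | k5 | k5 | k5
        · have Fr : Free f a t (M q) := fun s' l1 l2 l3 => by
            rw [k5] at l3 ⊢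
            exact yL3 s' l1 l2 l3
          refine BL.role_M DL H Fr (x := F q) (y := G q) k1 s1 s2 hcon.le ?_ ?_
          · rw [hCL _ _ s1 (by linarith), hCL _ _ (by linarith) s3]; linarith
          · rw [hCL _ _ s2 (by linarith), hCL _ _ (by linarith) s3]; linarith
        · linarith
        · rw [k5] at er
          exact W.no_mid' Hb (y := G q) (u := M q) (by linarith) (by linarith) (by linarith)
            (by linarith) er
        · linarith
  · obtain ⟨FFL, FFR⟩ := hpos he'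
    refine ⟨zL, zR, by linarith, L2, R1, by linarith, ?_⟩
    intro δ T hδ hT hTt q₀ hq₀ hq₀T g1 g2
    rcases local_gen2 L J D ha hb H R (zL := zL) (zR := zR) (yL := zL) (yR := zR) (by linarith)
      (by linarith) FL FR PL PR
      (fun x u k1 k2 k3 k4 k5 => W.barF Hb (by linarith) (by linarith) k3 k4 k5)
      (fun u y k1 k2 k3 k4 k5 => W.barG Hb (by linarith) (by linarith) k3 k4 k5)
      hδ hT hTt hq₀ hq₀T g1 g2 g1 g2 with h | h
    · exact Or.inl h
    · exfalso
      obtain ⟨q, hq, hqT, k1, k2, k3, k4, k5, k6, k7⟩ := h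
      have s := R.st J hδ hq
      have er := R.rel q hq.2.2.2.2
      unfold la at k6
      unfold lb at k7
      have s1 := s.1
      have s2 := s.2.1
      have s3 := s.2.2
      rcases k5 with k5 | k5 | k5 | k5
      · obtain ⟨r1, r2⟩ := rf_L DL BL (z := M q) (b := b) (by linarith) (by linarith)
          (by linarith) (by linarith) (fun s' l1 l2 l3 => by
            rw [k5] at l3 ⊢
            exact FFL s' l1 l2 l3)
        have a1 := r1 (G q) s2 k2
        have a2 := r2 (F q) k1 s1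
        rw [hCL _ _ s2 (by linarith)] at a1
        rw [hCL _ _ s1 (by linarith)] at a2
        linarith
      · obtain ⟨r1, r2⟩ := rf_R DR BR (z := M q) (a := a) (by linarith) (by linarith)
          (by linarith) (by linarith) (fun s' l1 l2 l3 => by
            rw [k5]
            refine FFR s' l1 l2 ?_
            have : g s' - g (M q) = conj e * (f s' - f zR) := by rw [hgs, hgs, k5]; ring
            rwa [this] at l3)
        have a1 := r1 (G q) s2 k2
        have a2 := r2 (F q) k1 s1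
        rw [hCR _ _ s2 (by linarith)] at a1
        rw [hCR _ _ s1 (by linarith)] at a2
        linarith
      · rw [k5] at er
        exact W.barM' he' Hb (u := M q) (y := G q) s2 k2 (by linarith) (by linarith) er
      · rw [k5] at er
        exact W.barM he' Hb (x := F q) (u := M q) k1 s1 (by linarith) (by linarith) er

end Pool.Agent.N335.Hg
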