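import Pool.Agent.N335.Hg.Crn4

/-! The labels of families of triangles near a corner. -/

set_option autoImplicit false
open Complex Set Topology Metric
open scoped ComplexConjugate

namespace Pool.Agent.N335.Hg

open Pool.Agent.H763R2 Pool.Agent.H763R2.An
open Pool.Agent.H763R2.Dm (NoSq)
open Pool.Agent.Y765.Sq (Ann exists_int)

variable {c f : ℝ → ℂ} {θ : ℝ → ℝ → ℝ}

theorem phi_w (L : Loop c) {E : ℂ} (hE : E ∉ range c) (w w' : ℂ) (t : ℝ) {s s' : ℝ}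
    (hst : s ≤ s') (h1 : ∀ τ ∈ Icc s s', 0 ≤ (w' * -(mv c w t τ)).re)
    (h2 : (w' * -(w * (E - c t))).re < 0) : |Phi c E s s'| < Real.pi :=
  Phi_half L hE (w := w' * -w) hst (fun τ hτ => by
    have : w' * -w * (c τ - E) = w' * -(mv c w t τ) - w' * -(w * (E - c t)) := by
      unfold mv; ring
    rw [this, sub_re]
    linarith [h1 τ hτ])

theorem phi_neg (L : Loop c) {E : ℂ} (hE : E ∉ range c) {s s' : ℝ}
    (h1 : |Phi c E s s'| < Real.pi) (h2 : ((c s' - E) * conj (c s - E)).im < 0) :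
    Phi c E s s' < 0 := by
  by_contra hcon
  push Not at hcon
  obtain ⟨ρ, hρ, e⟩ := Phi_polar L hE s s'
  rw [e] at h2
  have e2 : ρ * exp (Phi c E s s' * I) * (c s - E) * conj (c s - E) =
      ((ρ * normSq (c s - E) : ℝ) : ℂ) * exp (Phi c E s s' * I) := by
    push_cast
    rw [← mul_conj]
    ring
  rw [e2, im_ofReal_mul, exp_ofReal_mul_I_im] at h2
  have h3 : 0 ≤ Real.sin (Phi c E s s') :=
    Real.sin_nonneg_of_nonneg_of_le_pi hcon (abs_lt.1 h1).2.le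
  have h4 : 0 ≤ ρ * normSq (c s - E) := mul_nonneg hρ.le (normSq_nonneg _)
  have := mul_nonneg h4 h3
  linarith

theorem shp1 : Shp I (Real.pi / 2) (Real.pi / 4) where
  A0 := by positivity
  A1 := le_rfl
  B0 := by positivity
  B1 := by linarith [Real.pi_pos]
  AB := by linarith [Real.pi_pos]
  e1 := ⟨1, one_pos, by push_cast; rw [exp_pi_div_two_mul_I, one_mul]⟩
  e2 := ⟨√2, by positivity, one_sub_I⟩

theorem rd1 (c : ℝ → ℂ) : Rd c I (fun q => q.1) (fun q => q.2.2) (fun q => q.1 + q.2.1) where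
  cF := by fun_prop
  cM := by fun_prop
  cG := by fun_prop
  ord q h1 h2 h3 := ⟨h1, h2, h3⟩
  rel q h := h
  one q h1 h2 h3 := ⟨le_rfl, by linarith⟩

theorem shb1 : Shb I := ⟨by simp; norm_num, by simp, by simp, by simp⟩
theorem shb2 : Shb ((1 + I) / 2) :=
  ⟨by rw [half_im], by rw [half_im]; norm_num, by rw [half_re]; norm_num,
    by rw [half_re]; norm_num⟩
theorem shb3 : Shb (1 + I) := ⟨by simp; norm_num, by simp, by simp, by simp⟩

theorem Mm_mv {w : ℂ} (hw : w ≠ 0) {t δ a : ℝ} {q : ℝ × ℝ × ℝ} :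
    q ∈ Mm (mv c w t) δ a ↔ q ∈ Mm c δ a := by
  have key : mv c w t q.2.2 = mv c w t q.1 + I * (mv c w t (q.1 + q.2.1) - mv c w t q.1) ↔
      c q.2.2 = c q.1 + I * (c (q.1 + q.2.1) - c q.1) := by
    unfold mv
    constructor
    · intro h
      refine mul_left_cancel₀ hw ?_
      linear_combination h
    · intro h
      rw [h]; ring
  unfold Mm
  simp only [mem_ofPred_eq]
  rw [key]

section esc

variable {w e : ℂ} {κ a a₁ t b₁ b : ℝ}

theorem Cw.ry (W : Cw f e κ a a₁ t b₁ b) (he : e.im < 0) : Ry κ (-e) :=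
  ⟨W.κ0, by rw [neg_im, neg_sq]; exact W.κS, by rw [neg_im, neg_re, neg_sq, neg_sq]; exact W.e1,
    by rw [neg_re]; linarith [W.e2], by rw [neg_im]; linarith⟩

theorem Cw.zl (W : Cw f e κ a a₁ t b₁ b) {s : ℝ} (h : a ≤ s) (h' : s ≤ t) : ZL κ (-f s) := by
  unfold ZL
  rw [neg_im, abs_neg, neg_re]
  exact W.hL s h h'

theorem Cw.zr (W : Cw f e κ a a₁ t b₁ b) {s : ℝ} (h : t ≤ s) (h' : s ≤ b) :
    ZR κ (-e) (-f s) := by
  unfold ZR
  rw [map_neg, neg_mul_neg]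
  exact W.hR s h h'

theorem Cw.zlr (W : Cw f e κ a a₁ t b₁ b) {s : ℝ} (h : a ≤ s) (h' : s ≤ b) :
    ZL κ (-f s) ∨ ZR κ (-e) (-f s) := by
  rcases le_total s t with g | g
  · exact Or.inl (W.zl h g)
  · exact Or.inr (W.zr g h')

theorem mv_ne (J : Inj c) (hw : w ≠ 0) {x y : ℝ} (h : x < y) (h' : y < x + 1) :
    -mv c w t x ≠ -mv c w t y := fun h0 => mv_inj J hw t x y h h' (neg_injective h0)

/-- the labels of an escaping family, small triangles with `V` in the middle -/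
theorem esc_short (L : Loop c) (J : Inj c) (nosq : NoSq (range c)) (hw : w ≠ 0)
    (W : Cw (mv c w t) e κ a a₁ t b₁ b) (he : e.im < 0) {δ a' : ℝ} (hδ : 0 < δ)
    {q : ℝ × ℝ × ℝ} (hq : q ∈ Mm c δ a') (k1 : a ≤ q.1) (k2 : q.1 ≤ t) (k3 : t ≤ q.1 + q.2.1)
    (k4 : q.1 + q.2.1 ≤ b) : m1 c q = -(Real.pi / 4) ∧ m2 c q = Real.pi / 2 := by
  have hπ := Real.pi_pos
  have s := Mm_strict J hδ hq
  have hE := E4_notMem J nosq hδ hq
  have hr := hq.2.2.2.2
  have R := W.ry he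
  have hrel : -mv c w t q.2.2 = -mv c w t q.1 +
      I * (-mv c w t (q.1 + q.2.1) - -mv c w t q.1) := by
    rw [mv_tri (w := w) (t := t) hr]; ring
  have key : κ * ‖-mv c w t q.2.2 + -mv c w t (q.1 + q.2.1) - -mv c w t q.1‖ <
      (conj (-e) * (-mv c w t q.2.2 + -mv c w t (q.1 + q.2.1) - -mv c w t q.1)).im := by
    rcases le_total q.2.2 t with g | g
    · exact geoA_L R (W.zl k1 k2) (W.zl (by linarith) g) (W.zr k3 k4)
        (mv_ne J hw (by linarith) s.2.2) hrel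
    · exact geoA_R R (W.zl k1 k2) (W.zr g (by linarith)) (W.zr k3 k4)
        (mv_ne J hw (by linarith) s.2.2) hrel
  have eE : -mv c w t q.2.2 + -mv c w t (q.1 + q.2.1) - -mv c w t q.1 =
      -(w * (E4 c q - c t)) := by
    unfold mv E4
    rw [hr]; ring
  rw [eE] at key
  have neg := negA R key
  have hh : ∀ τ, a ≤ τ → τ ≤ b → 0 ≤ (((κ + I) * conj (-e)) * -(mv c w t τ)).re :=
    fun τ g1 g2 => hpA R (W.zlr g1 g2)
  have p1 := abs_lt.1 (phi_w L hE w _ t s.1.le (fun τ hτ => hh τ (by linarith [hτ.1])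
    (by linarith [hτ.2])) neg)
  have p2 := abs_lt.1 (phi_w L hE w _ t s.2.1.le (fun τ hτ => hh τ (by linarith [hτ.1])
    (by linarith [hτ.2])) neg)
  obtain ⟨j1, hj1⟩ := m1_val L J nosq hδ hq
  obtain ⟨j2, hj2⟩ := m2_val L J nosq hδ hq
  have z1 : j1 = 0 := int_zero_of (x := m1 c q + Real.pi / 4) (by linarith)
    (by unfold m1; linarith [p1.1]) (by unfold m1; linarith [p1.2])
  have z2 : j2 = 0 := int_zero_of (x := m2 c q - Real.pi / 2) (by linarith)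
    (by unfold m2; linarith [p2.1]) (by unfold m2; linarith [p2.2])
  rw [z1] at hj1
  rw [z2] at hj2
  constructor
  · rw [hj1]; push_cast; ring
  · rw [hj2]; push_cast; ring

/-- the labels of an escaping family, order `V`, `Q`, `P` -/
theorem esc_long3 (L : Loop c) (J : Inj c) (nosq : NoSq (range c)) (hw : w ≠ 0)
    (W : Cw (mv c w t) e κ a a₁ t b₁ b) (he : e.im < 0) {δ a' : ℝ} (hδ : 0 < δ)
    {q : ℝ × ℝ × ℝ} (hq : q ∈ Mm c δ a') (k1 : a ≤ q.2.2 - 1) (k2 : q.2.2 - 1 ≤ t)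
    (k3 : t ≤ q.1) (k4 : q.1 ≤ b) {n : ℤ} (hn : n ≠ 0) (hW : IsWc c (E4 c q) n) :
    m1 c q ≠ -(Real.pi / 4) := by
  intro hm
  have hπ := Real.pi_pos
  have s := Mm_strict J hδ hq
  have hE := E4_notMem J nosq hδ hq
  have hr := hq.2.2.2.2
  have R := W.ry he
  have Lf := mv_loop L w t
  have eQ : mv c w t (q.1 + q.2.1 - 1) = mv c w t (q.1 + q.2.1) := by
    rw [← Lf.per (q.1 + q.2.1 - 1)]; congr 1; ring
  have eV : mv c w t (q.2.2 - 1) = mv c w t q.2.2 := by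
    rw [← Lf.per (q.2.2 - 1)]; congr 1; ring
  have hf := mv_tri (w := w) (t := t) hr
  have hrel : -mv c w t (q.1 + q.2.1 - 1) = -mv c w t (q.2.2 - 1) +
      (1 + I) * (-mv c w t q.1 - -mv c w t (q.2.2 - 1)) := by
    rw [eQ, eV, hf]
    linear_combination (mv c w t q.1 - mv c w t (q.1 + q.2.1)) * I_sq
  have key : κ * ‖-mv c w t (q.1 + q.2.1 - 1) + -mv c w t (q.2.2 - 1) - -mv c w t q.1‖ <
      -(-mv c w t (q.1 + q.2.1 - 1) + -mv c w t (q.2.2 - 1) - -mv c w t q.1).im := by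
    rcases le_total (q.1 + q.2.1 - 1) t with g | g
    · exact geoC_L R (W.zl k1 k2) (W.zl (by linarith) g) (W.zr k3 k4)
        (mv_ne J hw (by linarith) (by linarith)) hrel
    · exact geoC_R R (W.zl k1 k2) (W.zr g (by linarith)) (W.zr k3 k4)
        (mv_ne J hw (by linarith) (by linarith)) hrel
  have eE : -mv c w t (q.1 + q.2.1 - 1) + -mv c w t (q.2.2 - 1) - -mv c w t q.1 =
      -(w * (E4 c q - c t)) := by
    rw [eQ, eV]
    unfold mv E4
    rw [hr]; ring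
  rw [eE] at key
  have neg := negC R key
  have p1 := abs_lt.1 (phi_w L hE w _ t (s := q.2.2 - 1) (s' := q.1) (by linarith)
    (fun τ hτ => hpC R (W.zlr (by linarith [hτ.1]) (by linarith [hτ.2]))) neg)
  have a1 := Phi_add L hE (q.2.2 - 1) q.1 q.2.2
  have a2 := Phi_wind L hW (q.2.2 - 1)
  rw [sub_add_cancel] at a2
  unfold m1 at hm
  rw [a2, hm] at a1
  have n1 : (-1 : ℝ) < n := by
    by_contra hc
    have := mul_le_mul_of_nonneg_right (not_lt.1 hc) (show 0 ≤ 2 * Real.pi by linarith)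
    linarith [p1.1]
  have n2 : (n : ℝ) < 1 := by
    by_contra hc
    have := mul_le_mul_of_nonneg_right (not_lt.1 hc) (show 0 ≤ 2 * Real.pi by linarith)
    linarith [p1.2]
  have n3 : -1 < n := by exact_mod_cast n1
  have n4 : n < 1 := by exact_mod_cast n2
  exact hn (by omega)

/-- the labels of an escaping family, order `Q`, `P`, `V` -/
theorem esc_long2 (L : Loop c) (J : Inj c) (nosq : NoSq (range c)) (hw : w ≠ 0)
    (W : Cw (mv c w t) e κ a a₁ t b₁ b) (he : e.im < 0) {δ a' : ℝ} (hδ : 0 < δ)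
    {q : ℝ × ℝ × ℝ} (hq : q ∈ Mm c δ a') (k1 : a ≤ q.1 + q.2.1 - 1)
    (k2 : q.1 + q.2.1 - 1 ≤ t) (k3 : t ≤ q.2.2) (k4 : q.2.2 ≤ b) {n : ℤ} (hn : n ≠ 0)
    (hW : IsWc c (E4 c q) n) : m2 c q ≠ Real.pi / 2 := by
  intro hm
  have hπ := Real.pi_pos
  have s := Mm_strict J hδ hq
  have hE := E4_notMem J nosq hδ hq
  have hr := hq.2.2.2.2
  have R := W.ry he
  have Lf := mv_loop L w t
  have eQ : mv c w t (q.1 + q.2.1 - 1) = mv c w t (q.1 + q.2.1) := by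
    rw [← Lf.per (q.1 + q.2.1 - 1)]; congr 1; ring
  have eQc : c (q.1 + q.2.1 - 1) = c (q.1 + q.2.1) := by
    rw [← L.per (q.1 + q.2.1 - 1)]; congr 1; ring
  have hf := mv_tri (w := w) (t := t) hr
  have hrel : -mv c w t q.1 = -mv c w t (q.1 + q.2.1 - 1) +
      (1 + I) / 2 * (-mv c w t q.2.2 - -mv c w t (q.1 + q.2.1 - 1)) := by
    rw [eQ, hf]
    linear_combination ((mv c w t (q.1 + q.2.1) - mv c w t q.1) / 2) * I_sq
  have key : κ * ‖-mv c w t (q.1 + q.2.1 - 1) + -mv c w t q.2.2 - -mv c w t q.1‖ <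
      (-mv c w t (q.1 + q.2.1 - 1) + -mv c w t q.2.2 - -mv c w t q.1).im ∧
      κ * ‖-mv c w t (q.1 + q.2.1 - 1) + -mv c w t q.2.2 - -mv c w t q.1‖ <
      -(conj (-e) * (-mv c w t (q.1 + q.2.1 - 1) + -mv c w t q.2.2 - -mv c w t q.1)).im ∧
      0 < (-mv c w t (q.1 + q.2.1 - 1)).re ∧ 0 < (conj (-e) * -mv c w t q.2.2).re := by
    rcases le_total q.1 t with g | g
    · exact geoB_L R (W.zl k1 k2) (W.zl (by linarith) g) (W.zr k3 k4)
        (mv_ne J hw (by linarith) (by linarith)) hrel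
    · exact geoB_R R (W.zl k1 k2) (W.zr g (by linarith)) (W.zr k3 k4)
        (mv_ne J hw (by linarith) (by linarith)) hrel
  have eE : -mv c w t (q.1 + q.2.1 - 1) + -mv c w t q.2.2 - -mv c w t q.1 =
      -(w * (E4 c q - c t)) := by
    rw [eQ]
    unfold mv E4
    rw [hr]; ring
  rw [eE] at key
  obtain ⟨key1, key2, key3, -⟩ := key
  obtain ⟨F, hF⟩ : ∃ F, F = -mv c w t (q.1 + q.2.1 - 1) := ⟨_, rfl⟩
  obtain ⟨E, hEd⟩ : ∃ E, E = -(w * (E4 c q - c t)) := ⟨_, rfl⟩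
  -- left part
  have p1 := phi_w L hE w _ t (s := q.1 + q.2.1 - 1) (s' := t) k2
    (fun τ hτ => by
      rw [re_plus]
      have := abs_le.1 (W.zl (s := τ) (by linarith [hτ.1]) hτ.2)
      linarith [this.2]) (negBL R key1)
  have p2 := phi_neg L hE p1 (by
    have hF2 := W.zl k1 k2
    unfold ZL at hF2
    rw [← hF] at hF2 key3
    rw [← hEd] at key1
    have h5 : w * (c t - E4 c q) = E := by rw [hEd]; ring
    have h6 : w * (c (q.1 + q.2.1 - 1) - E4 c q) = E - F := by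
      rw [hEd, hF]; unfold mv; ring
    have h7 : ((normSq w : ℝ) : ℂ) * ((c t - E4 c q) * conj (c (q.1 + q.2.1 - 1) - E4 c q)) =
        (w * (c t - E4 c q)) * conj (w * (c (q.1 + q.2.1 - 1) - E4 c q)) := by
      rw [map_mul, ← mul_conj]; ring
    rw [h5, h6] at h7
    have h8 := congrArg Complex.im h7
    rw [im_ofReal_mul] at h8
    have h8' : (E * conj (E - F)).im = -(E * conj F).im := by
      rw [map_sub, mul_sub, sub_im, mul_conj, ofReal_im, zero_sub]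
    rw [h8'] at h8
    have h9 : 0 < (E * conj F).im := by
      rw [mul_im, conj_re, conj_im]
      have t1 : |E.re * F.im| ≤ ‖E‖ * (κ * F.re) := by
        rw [abs_mul]
        exact mul_le_mul (abs_re_le_norm _) hF2 (abs_nonneg _) (norm_nonneg _)
      have t2 := mul_lt_mul_of_pos_right key1 key3
      have t3 := (abs_le.1 t1).2
      linarith
    have h10 : 0 < normSq w := normSq_pos.2 hw
    by_contra hcon
    push Not at hcon
    have := mul_nonneg h10.le hcon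
    linarith)
  have p3 := abs_lt.1 p1
  -- right part
  have p4 := abs_lt.1 (phi_w L hE w _ t (s := t) (s' := q.2.2) k3
    (fun τ hτ => by
      rw [mul_assoc, re_minus]
      have := abs_le.1 (W.zr (s := τ) hτ.1 (by linarith [hτ.2]))
      linarith [this.1]) (negBR R key2))
  have a1 := Phi_add L hE (q.1 + q.2.1 - 1) t q.2.2
  have a3 := Phi_add L hE (q.1 + q.2.1 - 1) q.2.2 (q.1 + q.2.1)
  have a2 := Phi_wind L hW (q.1 + q.2.1 - 1)
  rw [sub_add_cancel] at a2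
  unfold m2 at hm
  rw [a2, hm] at a3
  have n1 : (-1 : ℝ) < n := by
    by_contra hc
    have := mul_le_mul_of_nonneg_right (not_lt.1 hc) (show 0 ≤ 2 * Real.pi by linarith)
    linarith [p3.1, p4.1]
  have n2 : (n : ℝ) < 1 := by
    by_contra hc
    have := mul_le_mul_of_nonneg_right (not_lt.1 hc) (show 0 ≤ 2 * Real.pi by linarith)
    linarith [p4.2]
  have n3 : -1 < n := by exact_mod_cast n1
  have n4 : n < 1 := by exact_mod_cast n2
  exact hn (by omega)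

end esc

/-- corners -/
def Crn (c : ℝ → ℂ) (t : ℝ) : Prop :=
  ∃ (w e : ℂ) (κ a a₁ b₁ b : ℝ), w ≠ 0 ∧ e.im ≠ 0 ∧ Cw (mv c w t) e κ a a₁ t b₁ b

theorem crn_short (L : Loop c) (J : Inj c) (nosq : NoSq (range c)) (D : Dirn c θ) {t : ℝ}
    (H : Crn c t) : ∃ zL zR d, zL < t ∧ t < zR ∧ d < 1 ∧ ∀ (δ : ℝ) (T : Set Ann), 0 < δ →
      IsPreconnected T → TyA c δ T →
      (∃ p ∈ T, ∃ x : ℝ, (x : AddCircle (1 : ℝ)) = p.1 ∧ zL < x ∧ x + p.2 < zR) →
      (∀ q ∈ T, q.2 ≤ d) ∨ ∃ a', ∃ q ∈ Mm c δ a',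
        (((q.1 : AddCircle (1 : ℝ)), q.2.1) : Ann) ∈ T ∧
        l1 θ q = Real.pi / 2 ∧ m1 c q = -(Real.pi / 4) ∧ m2 c q = Real.pi / 2 := by
  obtain ⟨w, e, κ, a, a₁, b₁, b, hw, he, W⟩ := H
  have h1 := W.h1
  have h2 := W.h2
  have h3 := W.h3
  have h4 := W.h4
  have h5 := W.h5
  obtain ⟨a', ha'⟩ : ∃ a', a' = (a + b - 1) / 2 := ⟨_, rfl⟩
  obtain ⟨zL, zR, L1, L2, R1, R2, hloc⟩ := crn_gen (mv_loop L w t) (mv_inj J hw t) W he
    (D.rot hw t) shp1 shb1 (rd1 _) (a' := a') (by rw [ha']; linarith) (by rw [ha']; linarith)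
  refine ⟨zL, zR, b - a, L2, R1, by linarith, ?_⟩
  rintro δ T hδ hT hTt ⟨p, hp, x, hx, x1, x2⟩
  obtain ⟨d1, d2, hall⟩ := hTt p hp
  obtain ⟨u, u1, u2, u3⟩ := hall x hx
  have hq₀ : (x, p.2, u) ∈ Mm c δ a' :=
    ⟨⟨by show a' ≤ x; rw [ha']; linarith, by show x ≤ a' + 1; rw [ha']; linarith⟩, ⟨d1, d2⟩,
      u1.le, u2.le, u3⟩
  have hq₀T : (((x : AddCircle (1 : ℝ)), p.2) : Ann) ∈ T := by
    have : (((x : AddCircle (1 : ℝ)), p.2) : Ann) = p := Prod.ext hx rfl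
    rw [this]; exact hp
  rcases hloc δ T hδ hT (mv_tyA hTt) (x, p.2, u) ((Mm_mv hw).2 hq₀) hq₀T x1 x2 with h | h
  · left
    intro p' hp'
    obtain ⟨q, hq, e1, e2⟩ := h p' hp'
    rw [← e1]
    simp only at e2 ⊢
    linarith
  · right
    obtain ⟨he', q, hq, hqT, g1, g2, g3, g4, g5⟩ := h
    have hq' := (Mm_mv hw).1 hq
    refine ⟨a', q, hq', hqT, ?_, esc_short L J nosq hw W he' hδ hq' g1 g2 g3 g4⟩
    unfold la at g5
    unfold l1
    linarith

theorem crn_long (L : Loop c) (J : Inj c) (nosq : NoSq (range c)) {t : ℝ}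
    (H : Crn c t) : ∃ zL zR d, zL < t ∧ t < zR ∧ 0 < d ∧ ∀ (δ : ℝ) (T : Set Ann), 0 < δ →
      IsPreconnected T → TyA c δ T →
      (∃ p ∈ T, ∃ x u : ℝ, (x : AddCircle (1 : ℝ)) = p.1 ∧ x < u ∧ u < x + p.2 ∧
        c u = c x + I * (c (x + p.2) - c x) ∧
        ((zL < x + p.2 - 1 ∧ u < zR) ∨ (zL < u - 1 ∧ x < zR))) →
      (∀ q ∈ T, d ≤ q.2) ∨ ∃ a', ∃ q ∈ Mm c δ a',
        (((q.1 : AddCircle (1 : ℝ)), q.2.1) : Ann) ∈ T ∧
        ∀ n : ℤ, n ≠ 0 → IsWc c (E4 c q) n →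
          ¬ (m1 c q = -(Real.pi / 4) ∧ m2 c q = Real.pi / 2) := by
  obtain ⟨w, e, κ, a, a₁, b₁, b, hw, he, W⟩ := H
  have h1 := W.h1
  have h2 := W.h2
  have h3 := W.h3
  have h4 := W.h4
  have h5 := W.h5
  obtain ⟨θ, D⟩ := exists_dirn L J
  obtain ⟨a', ha'⟩ : ∃ a', a' = (a + b - 1) / 2 := ⟨_, rfl⟩
  have Lf := mv_loop L w t
  obtain ⟨zL, zR, L1, L2, R1, R2, hloc⟩ := crn_gen Lf (mv_inj J hw t) W he
    (D.rot hw t) shp2 shb2 (rd2 Lf) (a' := a') (by rw [ha']; linarith) (by rw [ha']; linarith)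
  obtain ⟨yL, yR, L1', L2', R1', R2', hloc'⟩ := crn_gen Lf (mv_inj J hw t) W he
    (D.rot hw t) shp3 shb3 (rd3 Lf) (a' := a') (by rw [ha']; linarith) (by rw [ha']; linarith)
  refine ⟨max zL yL, min zR yR, 1 - (b - a), max_lt L2 L2', lt_min R1 R1', by linarith, ?_⟩
  rintro δ T hδ hT hTt ⟨p, hp, x, u, hx, u1, u2, u3, hcase⟩
  obtain ⟨d1, d2, -⟩ := hTt p hp
  have l1 := le_max_left zL yL
  have l2 := le_max_right zL yL
  have l3 := min_le_left zR yR
  have l4 := min_le_right zR yR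
  have hq₀T : (((x : AddCircle (1 : ℝ)), p.2) : Ann) ∈ T := by
    have : (((x : AddCircle (1 : ℝ)), p.2) : Ann) = p := Prod.ext hx rfl
    rw [this]; exact hp
  have hq₀ : (x, p.2, u) ∈ Mm c δ a' := by
    refine ⟨⟨?_, ?_⟩, ⟨d1, d2⟩, u1.le, u2.le, u3⟩
    · show a' ≤ x
      rw [ha']
      rcases hcase with ⟨g1, g2⟩ | ⟨g1, g2⟩ <;> linarith
    · show x ≤ a' + 1
      rw [ha']
      rcases hcase with ⟨g1, g2⟩ | ⟨g1, g2⟩ <;> linarith
  rcases hcase with ⟨g1, g2⟩ | ⟨g1, g2⟩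
  · rcases hloc δ T hδ hT (mv_tyA hTt) (x, p.2, u) ((Mm_mv hw).2 hq₀) hq₀T
      (by show zL < x + p.2 - 1; linarith) (by show u < zR; linarith) with h | h
    · left
      intro p' hp'
      obtain ⟨q, hq, e1, e2⟩ := h p' hp'
      have s := Mm_strict J hδ ((Mm_mv hw).1 hq)
      rw [← e1]
      simp only at e2 ⊢
      linarith [s.1]
    · right
      obtain ⟨he', q, hq, hqT, k1, k2, k3, k4, -⟩ := h
      have hq' := (Mm_mv hw).1 hq
      exact ⟨a', q, hq', hqT, fun n hn hW hm =>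
        esc_long2 L J nosq hw W he' hδ hq' k1 k2 k3 k4 hn hW hm.2⟩
  · rcases hloc' δ T hδ hT (mv_tyA hTt) (x, p.2, u) ((Mm_mv hw).2 hq₀) hq₀T
      (by show yL < u - 1; linarith) (by show x < yR; linarith) with h | h
    · left
      intro p' hp'
      obtain ⟨q, hq, e1, e2⟩ := h p' hp'
      have s := Mm_strict J hδ ((Mm_mv hw).1 hq)
      rw [← e1]
      simp only at e2 ⊢
      linarith [s.2.1]
    · right
      obtain ⟨he', q, hq, hqT, k1, k2, k3, k4, -⟩ := h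
      have hq' := (Mm_mv hw).1 hq
      exact ⟨a', q, hq', hqT, fun n hn hW hm =>
        esc_long3 L J nosq hw W he' hδ hq' k1 k2 k3 k4 hn hW hm.1⟩

end Pool.Agent.N335.Hg
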