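import Pool.Agent.N335.Hg.Crn5

/-! Corners: windows from one-sided tangents; labels under shifts. -/

set_option autoImplicit false
open Complex Set Topology Metric Filter
open scoped ComplexConjugate

namespace Pool.Agent.N335.Hg

open Pool.Agent.H763R2 Pool.Agent.H763R2.An
open Pool.Agent.H763R2.Dm (NoSq)
open Pool.Agent.Y765.Sq (Ann exists_int)

variable {c f : ℝ → ℂ} {θ : ℝ → ℝ → ℝ}

/-- one-sided tangents in different directions -/
def Tan (c : ℝ → ℂ) (t : ℝ) : Prop := ∃ u v : ℂ, ‖u‖ = 1 ∧ ‖v‖ = 1 ∧ u ≠ v ∧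
  Tendsto (fun s => ((‖c s - c t‖⁻¹ : ℝ) : ℂ) * (c s - c t)) (𝓝[<] t) (𝓝 u) ∧
  Tendsto (fun s => ((‖c s - c t‖⁻¹ : ℝ) : ℂ) * (c s - c t)) (𝓝[>] t) (𝓝 v)

theorem unscale (z : ℂ) : z = ((‖z‖ : ℝ) : ℂ) * (((‖z‖⁻¹ : ℝ) : ℂ) * z) := by
  by_cases hz : z = 0
  · rw [hz]; simp
  · have : ((‖z‖ : ℝ) : ℂ) ≠ 0 := ofReal_ne_zero.2 (norm_ne_zero_iff.2 hz)
    push_cast
    field_simp

/-- the window of a corner -/
theorem crn_of_tan (L : Loop c) (J : Inj c) {t : ℝ} {u v : ℂ} (hu : ‖u‖ = 1) (hv : ‖v‖ = 1)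
    (huv : u ≠ v) (hre : 0 ≤ (u * conj v).re)
    (h1 : Tendsto (fun s => ((‖c s - c t‖⁻¹ : ℝ) : ℂ) * (c s - c t)) (𝓝[<] t) (𝓝 u))
    (h2 : Tendsto (fun s => ((‖c s - c t‖⁻¹ : ℝ) : ℂ) * (c s - c t)) (𝓝[>] t) (𝓝 v)) :
    Crn c t := by
  obtain ⟨w, hw⟩ : ∃ w, w = -conj u := ⟨_, rfl⟩
  obtain ⟨e, he⟩ : ∃ e, e = w * v := ⟨_, rfl⟩
  have nu : conj u * u = 1 := by
    rw [mul_comm, mul_conj, normSq_eq_norm_sq, hu]; norm_num
  have nv : v * conj v = 1 := by
    rw [mul_conj, normSq_eq_norm_sq, hv]; norm_num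
  have wu : w * u = -1 := by rw [hw, neg_mul, nu]
  have nw : ‖w‖ = 1 := by rw [hw, norm_neg, norm_conj, hu]
  have ne : ‖e‖ = 1 := by rw [he, norm_mul, nw, hv, mul_one]
  have w0 : w ≠ 0 := by
    rintro rfl
    simp at nw
  have e1 : e.re ^ 2 + e.im ^ 2 = 1 := by
    have h := Complex.normSq_eq_norm_sq e
    rw [ne, Complex.normSq_apply] at h
    linarith
  have e2 : e.re ≤ 0 := by
    have : e.re = -(u * conj v).re := by
      rw [he, hw]; simp
    linarith
  have e3 : e.im ≠ 0 := by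
    intro h0
    have h3 : e.re = -1 := by
      rw [h0] at e1
      have : (e.re - 1) * (e.re + 1) = 0 := by linarith
      rcases mul_eq_zero.1 this with h | h <;> linarith
    have h4 : e = -1 := Complex.ext (by rw [h3]; simp) (by rw [h0]; simp)
    apply huv
    have h5 : conj u * v = 1 := by
      have : w * v = -1 := by rw [← he, h4]
      rw [hw] at this
      linear_combination -this
    calc u = u * (conj u * v) := by rw [h5, mul_one]
      _ = (conj u * u) * v := by ring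
      _ = v := by rw [nu, one_mul]
  have ee : conj e * e = 1 := by
    rw [mul_comm, mul_conj, normSq_eq_norm_sq, ne]; norm_num
  obtain ⟨κ, hκ⟩ : ∃ κ, κ = e.im ^ 2 / 1000 := ⟨_, rfl⟩
  have κ0 : 0 < κ := by rw [hκ]; positivity
  have κ1 : κ ≤ 1 / 1000 := by
    rw [hκ]
    have := sq_nonneg e.re
    linarith
  -- thin sectors
  have s1 : ∀ᶠ s in 𝓝[<] t, |(-w * (((‖c s - c t‖⁻¹ : ℝ) : ℂ) * (c s - c t))).im| <
      κ * (-w * (((‖c s - c t‖⁻¹ : ℝ) : ℂ) * (c s - c t))).re :=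
    sector_ev h1 (by rw [neg_mul, wu]; simpa using κ0)
  have s2 : ∀ᶠ s in 𝓝[>] t, |((conj e * w) * (((‖c s - c t‖⁻¹ : ℝ) : ℂ) * (c s - c t))).im| <
      κ * ((conj e * w) * (((‖c s - c t‖⁻¹ : ℝ) : ℂ) * (c s - c t))).re :=
    sector_ev h2 (by rw [mul_assoc, ← he, ee]; simpa using κ0)
  obtain ⟨b', hb, hb'⟩ := (mem_nhdsGT_iff_exists_Ioo_subset).1 s2
  obtain ⟨a', ha, ha'⟩ := (mem_nhdsLT_iff_exists_Ioo_subset).1 s1
  have hb0 : t < b' := hb
  have ha0 : a' < t := ha
  obtain ⟨f, hf⟩ : ∃ f, f = mv c w t := ⟨_, rfl⟩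
  have fs : ∀ s, f s = w * (c s - c t) := fun s => by rw [hf]; rfl
  have ft : f t = 0 := by rw [fs, sub_self, mul_zero]
  have Lf : Loop f := hf ▸ mv_loop L w t
  have Jf : Inj f := hf ▸ mv_inj J w0 t
  have fc := Lf.cont
  obtain ⟨r, hr⟩ : ∃ r, r = min (min ((b' - t) / 2) ((t - a') / 2)) (1 / 4) := ⟨_, rfl⟩
  have r0 : 0 < r := by
    rw [hr]
    exact lt_min (lt_min (by linarith) (by linarith)) (by norm_num)
  have r1 : r < b' - t := by
    have : r ≤ (b' - t) / 2 := by rw [hr]; exact (min_le_left _ _).trans (min_le_left _ _)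
    linarith
  have r2 : r < t - a' := by
    have : r ≤ (t - a') / 2 := by rw [hr]; exact (min_le_left _ _).trans (min_le_right _ _)
    linarith
  have r3 : r ≤ 1 / 4 := by rw [hr]; exact min_le_right _ _
  have hL : ∀ s, t - r ≤ s → s ≤ t → |(f s).im| ≤ κ * -(f s).re := by
    intro s g1 g2
    rcases eq_or_lt_of_le g2 with g | g
    · rw [g, ft]; simp
    · have h : |(-w * (((‖c s - c t‖⁻¹ : ℝ) : ℂ) * (c s - c t))).im| <
        κ * (-w * (((‖c s - c t‖⁻¹ : ℝ) : ℂ) * (c s - c t))).re := ha' ⟨by linarith, g⟩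
      have h' := scale_sector (norm_nonneg (c s - c t)) h.le
      rw [← unscale, neg_mul, neg_im, neg_re, abs_neg, ← fs] at h'
      exact h'
  have hR : ∀ s, t ≤ s → s ≤ t + r → |(conj e * f s).im| ≤ κ * (conj e * f s).re := by
    intro s g1 g2
    rcases eq_or_lt_of_le g1 with g | g
    · rw [← g, ft]; simp
    · have h : |((conj e * w) * (((‖c s - c t‖⁻¹ : ℝ) : ℂ) * (c s - c t))).im| <
        κ * ((conj e * w) * (((‖c s - c t‖⁻¹ : ℝ) : ℂ) * (c s - c t))).re :=
        hb' ⟨g, by linarith⟩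
      have h' := scale_sector (norm_nonneg (c s - c t)) h.le
      rw [← unscale, mul_assoc, ← fs] at h'
      exact h'
  obtain ⟨A, hA⟩ : ∃ A, A = -(f (t - r)).re := ⟨_, rfl⟩
  obtain ⟨B, hB⟩ : ∃ B, B = (conj e * f (t + r)).re := ⟨_, rfl⟩
  have ce0 : conj e ≠ 0 := fun h => by rw [h, zero_mul] at ee; exact zero_ne_one ee
  have A0 : 0 < A := by
    have g := hL (t - r) le_rfl (by linarith)
    have h0 := Win.re_of κ0 g
    rw [hA]
    refine lt_of_le_of_ne h0 fun h' => ?_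
    rw [← h', mul_zero] at g
    refine Jf (t - r) t (by linarith) (by linarith) ?_
    rw [ft]
    exact Complex.ext (by rw [zero_re]; linarith) (abs_nonpos_iff.1 g)
  have B0 : 0 < B := by
    have g := hR (t + r) (by linarith) le_rfl
    have h0 := Win.re_of κ0 g
    rw [hB]
    refine lt_of_le_of_ne h0 fun h' => ?_
    rw [← h', mul_zero] at g
    refine Jf t (t + r) (by linarith) (by linarith) ?_
    rw [ft]
    have : conj e * f (t + r) = 0 := Complex.ext h'.symm (abs_nonpos_iff.1 g)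
    rcases mul_eq_zero.1 this with h | h
    · exact absurd h ce0
    · exact h.symm
  obtain ⟨m, hm⟩ : ∃ m, m = κ * min A B := ⟨_, rfl⟩
  have m0 : 0 < m := by rw [hm]; exact mul_pos κ0 (lt_min A0 B0)
  have m1 : m ≤ κ * A := by rw [hm]; exact mul_le_mul_of_nonneg_left (min_le_left _ _) κ0.le
  have m2 : m ≤ κ * B := by rw [hm]; exact mul_le_mul_of_nonneg_left (min_le_right _ _) κ0.le
  have hev : ∀ᶠ s in 𝓝 t, ‖f s‖ < m := by
    refine fc.norm.continuousAt.eventually (gt_mem_nhds ?_)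
    show ‖f t‖ < m
    rw [ft, norm_zero]; exact m0
  obtain ⟨η, η0, hη⟩ := Metric.eventually_nhds_iff.1 hev
  obtain ⟨h, hh⟩ : ∃ h, h = min (η / 2) (r / 2) := ⟨_, rfl⟩
  have h0 : 0 < h := by rw [hh]; positivity
  have h3 : h < η := by
    have : h ≤ η / 2 := by rw [hh]; exact min_le_left _ _
    linarith
  have h4 : h < r := by
    have : h ≤ r / 2 := by rw [hh]; exact min_le_right _ _
    linarith
  have mid : ∀ s, t - h ≤ s → s ≤ t + h → ‖f s‖ ≤ m := fun s g1 g2 => by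
    have : dist s t < η := by rw [Real.dist_eq, abs_lt]; constructor <;> linarith
    exact (hη this).le
  have kA : κ * A ≤ 1 / 1000 * A := mul_le_mul_of_nonneg_right κ1 A0.le
  have kB : κ * B ≤ 1 / 1000 * B := mul_le_mul_of_nonneg_right κ1 B0.le
  obtain ⟨a, ⟨⟨ha1, ha2⟩, ha3⟩, ha4⟩ : ∃ a ∈ Icc (t - r) (t - h) ∩ {s | (f s).re ≤ -A},
      ∀ s ∈ Icc (t - r) (t - h) ∩ {s | (f s).re ≤ -A}, s ≤ a := by
    have hK : IsCompact (Icc (t - r) (t - h) ∩ {s | (f s).re ≤ -A}) :=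
      isCompact_Icc.inter_right (isClosed_le (continuous_re.comp fc) continuous_const)
    exact hK.exists_isGreatest ⟨t - r, ⟨le_rfl, by linarith⟩, by
      show (f (t - r)).re ≤ -A; rw [hA]; linarith⟩
  obtain ⟨b, ⟨⟨hb1, hb2⟩, hb3⟩, hb4⟩ : ∃ b ∈ Icc (t + h) (t + r) ∩ {s | B ≤ (conj e * f s).re},
      ∀ s ∈ Icc (t + h) (t + r) ∩ {s | B ≤ (conj e * f s).re}, b ≤ s := by
    have hK : IsCompact (Icc (t + h) (t + r) ∩ {s | B ≤ (conj e * f s).re}) :=
      isCompact_Icc.inter_right (isClosed_le continuous_const (by fun_prop))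
    exact hK.exists_isLeast ⟨t + r, ⟨by linarith, le_rfl⟩, by
      show B ≤ (conj e * f (t + r)).re; rw [hB]⟩
  simp only [mem_ofPred_eq] at ha3 hb3
  have nrm : ∀ s, (conj e * f s).re ≤ ‖f s‖ := fun s => by
    have := Complex.re_le_norm (conj e * f s)
    rwa [norm_mul, norm_conj, ne, one_mul] at this
  have ha5 : a < t - h := by
    refine lt_of_le_of_ne ha2 fun e => ?_
    have := mid (t - h) le_rfl (by linarith)
    have h5 := abs_le.1 (Complex.abs_re_le_norm (f (t - h)))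
    rw [e] at ha3
    linarith [h5.1]
  have hb5 : t + h < b := by
    refine lt_of_le_of_ne hb1 fun e' => ?_
    have := mid (t + h) (by linarith) le_rfl
    have h5 := nrm (t + h)
    rw [← e'] at hb3
    linarith
  refine ⟨w, e, κ, a, t - h, t + h, b, w0, e3, ?_⟩
  rw [← hf]
  refine ⟨κ0, by rw [hκ]; linarith, e1, e2, ha5, by linarith, by linarith, hb5, by linarith, ft,
    fun s g1 g2 => hL s (by linarith) g2, fun s g1 g2 => hR s g1 (by linarith),
    fun s g1 g2 => ?_, fun s g1 g2 => ?_, fun s g1 g2 => ?_⟩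
  · rcases le_total s (t - h) with g | g
    · by_contra hcon
      have := ha4 s ⟨⟨by linarith, g⟩, by show (f s).re ≤ -A; linarith⟩
      linarith
    · have h5 := abs_le.1 (Complex.abs_re_le_norm (f s))
      have := mid s g (by linarith)
      linarith [h5.1]
  · rcases le_total (t + h) s with g | g
    · by_contra hcon
      have := hb4 s ⟨⟨g, by linarith⟩, by show B ≤ (conj e * f s).re; linarith⟩
      linarith
    · have h5 := nrm s
      have := mid s (by linarith) g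
      linarith
  · have g3 := mid s g1 g2
    have g4 : κ * A ≤ κ * -(f a).re := mul_le_mul_of_nonneg_left (by linarith) κ0.le
    have g5 : κ * B ≤ κ * (conj e * f b).re := mul_le_mul_of_nonneg_left hb3 κ0.le
    exact ⟨by linarith, by linarith⟩

theorem hour_or_crn (L : Loop c) (J : Inj c) {t : ℝ} (h : Tan c t) :
    Hourglass c t ∨ Crn c t := by
  obtain ⟨u, v, hu, hv, huv, h1, h2⟩ := h
  rcases lt_or_ge (u * conj v).re 0 with g | g
  · exact Or.inl (hour_of_cone L J (cone_of_tangents hu hv g h1 h2))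
  · exact Or.inr (crn_of_tan L J hu hv huv g h1 h2)

theorem neg_tends (t : ℝ) : Tendsto (fun s : ℝ => -s) (𝓝[<] (-t)) (𝓝[>] t) := by
  refine tendsto_nhdsWithin_iff.2 ⟨?_, ?_⟩
  · have := (continuous_neg.tendsto (-t)).mono_left (nhdsWithin_le_nhds (s := Iio (-t)))
    rwa [neg_neg] at this
  · filter_upwards [self_mem_nhdsWithin] with s hs
    simp only [mem_Iio] at hs
    simp only [mem_Ioi]
    linarith

theorem neg_tends' (t : ℝ) : Tendsto (fun s : ℝ => -s) (𝓝[>] (-t)) (𝓝[<] t) := by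
  refine tendsto_nhdsWithin_iff.2 ⟨?_, ?_⟩
  · have := (continuous_neg.tendsto (-t)).mono_left (nhdsWithin_le_nhds (s := Ioi (-t)))
    rwa [neg_neg] at this
  · filter_upwards [self_mem_nhdsWithin] with s hs
    simp only [mem_Ioi] at hs
    simp only [mem_Iio]
    linarith

theorem Tan.rev {t : ℝ} (h : Tan c t) : Tan (fun s => c (-s)) (-t) := by
  obtain ⟨u, v, hu, hv, huv, h1, h2⟩ := h
  refine ⟨v, u, hv, hu, huv.symm, ?_, ?_⟩
  · have := h2.comp (neg_tends t)
    simp only [neg_neg]; exact this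
  · have := h1.comp (neg_tends' t)
    simp only [neg_neg]; exact this

theorem Tan.conj {t : ℝ} (h : Tan c t) : Tan (fun s => (starRingEnd ℂ) (c s)) t := by
  obtain ⟨u, v, hu, hv, huv, h1, h2⟩ := h
  have e : (fun s => ((‖(starRingEnd ℂ) (c s) - (starRingEnd ℂ) (c t)‖⁻¹ : ℝ) : ℂ) *
      ((starRingEnd ℂ) (c s) - (starRingEnd ℂ) (c t))) =
      fun s => (starRingEnd ℂ) (((‖c s - c t‖⁻¹ : ℝ) : ℂ) * (c s - c t)) := by
    funext s
    rw [← map_sub, norm_conj, map_mul, conj_ofReal]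
  refine ⟨(starRingEnd ℂ) u, (starRingEnd ℂ) v, by rw [norm_conj, hu], by rw [norm_conj, hv],
    fun h => huv ((starRingEnd ℂ).injective h), ?_, ?_⟩
  · rw [e]
    exact (continuous_conj.tendsto u).comp h1
  · rw [e]
    exact (continuous_conj.tendsto v).comp h2

/-! labels under shifts -/

theorem per_int {C : ℝ} (h : ∀ x y, x < y → y < x + 1 → θ (x + 1) (y + 1) = θ x y + C) (k : ℤ) :
    ∀ x y, x < y → y < x + 1 → θ (x + k) (y + k) = θ x y + k * C := by
  induction k using Int.induction_on with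
  | zero => intro x y _ _; simp
  | succ n ih =>
    intro x y h1 h2
    push_cast at ih ⊢
    have := h (x + n) (y + n) (by linarith) (by linarith)
    rw [show x + ((n : ℝ) + 1) = x + n + 1 by ring, show y + ((n : ℝ) + 1) = y + n + 1 by ring,
      this, ih x y h1 h2]
    ring
  | pred n ih =>
    intro x y h1 h2
    push_cast at ih ⊢
    have := h (x + (-n - 1)) (y + (-n - 1)) (by linarith) (by linarith)
    rw [show x + (-(n : ℝ) - 1) + 1 = x + -n by ring, show y + (-(n : ℝ) - 1) + 1 = y + -n by ring,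
      ih x y h1 h2] at this
    linarith

theorem Phi_per_int (L : Loop c) {z : ℂ} (hz : z ∉ range c) (k : ℤ) (s t : ℝ) :
    Phi c z (s + k) (t + k) = Phi c z s t := by
  induction k using Int.induction_on with
  | zero => simp
  | succ n ih =>
    push_cast at ih ⊢
    rw [show s + ((n : ℝ) + 1) = s + n + 1 by ring, show t + ((n : ℝ) + 1) = t + n + 1 by ring,
      Phi_per L hz, ih]
  | pred n ih =>
    push_cast at ih ⊢
    rw [← Phi_per L hz, show s + (-(n : ℝ) - 1) + 1 = s + -n by ring,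
      show t + (-(n : ℝ) - 1) + 1 = t + -n by ring, ih]

/-- the labels of all members of a family agree, for all representatives -/
theorem labels_all (L : Loop c) (J : Inj c) (nosq : NoSq (range c)) (D : Dirn c θ) {δ a : ℝ}
    (hδ : 0 < δ) {T : Set Ann} (hT : IsPreconnected T) (hTt : TyA c δ T) {q₀ : ℝ × ℝ × ℝ}
    (hq₀ : q₀ ∈ Mm c δ a) (hq₀T : (((q₀.1 : AddCircle (1 : ℝ)), q₀.2.1) : Ann) ∈ T)
    (e1 : l1 θ q₀ = Real.pi / 2) (e2 : m1 c q₀ = -(Real.pi / 4)) (e3 : m2 c q₀ = Real.pi / 2) :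
    ∀ a', ∀ q ∈ Mm c δ a', (((q.1 : AddCircle (1 : ℝ)), q.2.1) : Ann) ∈ T →
      l1 θ q = Real.pi / 2 ∧ m1 c q = -(Real.pi / 4) ∧ m2 c q = Real.pi / 2 := by
  have key := labels L J nosq D hδ hT hTt hq₀ hq₀T e1 e2 e3
  obtain ⟨C, hC⟩ := D.per L
  rintro a' ⟨x, s, u⟩ hq hqT
  have st := Mm_strict J hδ hq
  have hE := E4_notMem J nosq hδ hq
  obtain ⟨k1, k2, k3, k4, k5⟩ := hq
  simp only at st k2 k3 k4 k5 hqT
  obtain ⟨k, hk⟩ : ∃ k : ℤ, k = -⌊x - a⌋ := ⟨_, rfl⟩
  have hk' : (k : ℝ) = -(⌊x - a⌋ : ℝ) := by rw [hk]; push_cast; ring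
  have f1 := Int.floor_le (x - a)
  have f2 := Int.lt_floor_add_one (x - a)
  have hq' : (x + k, s, u + k) ∈ Mm c δ a := by
    refine ⟨⟨by show a ≤ x + k; linarith, by show x + k ≤ a + 1; linarith⟩, k2,
      by show x + k ≤ u + k; linarith, by show u + k ≤ x + k + s; linarith, ?_⟩
    show c (u + k) = c (x + k) + I * (c (x + k + s) - c (x + k))
    rw [L.per_int, L.per_int, show x + (k : ℝ) + s = x + s + k by ring, L.per_int]
    exact k5
  have hT' : (((x + k : ℝ) : AddCircle (1 : ℝ)), s) ∈ T := by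
    have : ((x + k : ℝ) : AddCircle (1 : ℝ)) = (x : AddCircle (1 : ℝ)) := by
      rw [AddCircle.coe_add]
      have h0 : ((k : ℝ) : AddCircle (1 : ℝ)) = 0 := by
        rw [AddCircle.coe_eq_zero_iff]
        exact ⟨k, by simp⟩
      rw [h0, add_zero]
    rw [this]; exact hqT
  obtain ⟨g1, g2, g3⟩ := key _ hq' hT'
  have f0 : E4 c (x + k, s, u + k) = E4 c (x, s, u) := by
    unfold E4
    simp only
    rw [show x + (k : ℝ) + s = x + s + k by ring, L.per_int, L.per_int]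
  refine ⟨?_, ?_, ?_⟩
  · unfold l1 at g1 ⊢
    simp only at g1 ⊢
    rw [show x + (k : ℝ) + s = x + s + k by ring, per_int hC k x u st.1 (by linarith),
      per_int hC k x (x + s) (by linarith) st.2.2] at g1
    linarith
  · unfold m1 at g2 ⊢
    rw [f0] at g2
    simp only at g2 ⊢
    rwa [Phi_per_int L hE] at g2
  · unfold m2 at g3 ⊢
    rw [f0] at g3
    simp only at g3 ⊢
    rwa [show x + (k : ℝ) + s = x + s + k by ring, Phi_per_int L hE] at g3

end Pool.Agent.N335.Hg
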