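import Pool.Agent.N335.Hg.Loc

/-! The local theorem: a connected family of triangles with a small member inside the inner part of
a window stays inside the window. -/

set_option autoImplicit false
open Complex Set Topology Metric

namespace Pool.Agent.N335.Hg

open Pool.Agent.H763R2 Pool.Agent.H763R2.An
open Pool.Agent.Y765.Sq (Ann exists_int)

variable {c : ℝ → ℂ} {θ : ℝ → ℝ → ℝ}

theorem exists_base (L : Loop c) (J : Inj c) {a b : ℝ} (hab : a < b) (hba : b < a + 1)
    (hl : ∀ s, a < s → s ≤ b → (c a).re < (c s).re)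
    (hr : ∀ s, a ≤ s → s < b → (c s).re < (c b).re) : ∃ θ, Dirn c θ ∧ Base c θ a b := by
  obtain ⟨θ, D⟩ := exists_dirn L J
  have hπ := Real.pi_pos
  obtain ⟨k, hk⟩ : ∃ k : ℤ, k = -⌊(θ a b + Real.pi) / (2 * Real.pi)⌋ := ⟨_, rfl⟩
  have D' := D.shift k
  refine ⟨_, D', hab, hba, hl, hr, ?_⟩
  have hp := D'.re_pos hab hba (hl b hab le_rfl)
  have e1 := Int.floor_le ((θ a b + Real.pi) / (2 * Real.pi))
  have e2 := Int.lt_floor_add_one ((θ a b + Real.pi) / (2 * Real.pi))
  rw [le_div_iff₀ (by positivity)] at e1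
  rw [div_lt_iff₀ (by positivity)] at e2
  have hk' : (k : ℝ) = -(⌊(θ a b + Real.pi) / (2 * Real.pi)⌋ : ℝ) := by rw [hk]; push_cast; ring
  obtain ⟨t, ht⟩ : ∃ t, t = θ a b + k * (2 * Real.pi) := ⟨_, rfl⟩
  rw [← ht] at hp ⊢
  have t1 : -Real.pi ≤ t := by rw [ht, hk']; linarith
  have t2 : t < Real.pi := by rw [ht, hk']; linarith
  constructor
  · by_contra hc
    push Not at hc
    have := Real.cos_nonpos_of_pi_div_two_le_of_le (x := -t) (by linarith) (by linarith)
    rw [Real.cos_neg] at this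
    linarith
  · by_contra hc
    push Not at hc
    have := Real.cos_nonpos_of_pi_div_two_le_of_le (x := t) (by linarith) (by linarith)
    linarith

theorem local_thm (L : Loop c) (J : Inj c) {κ a a₁ α β b₁ b : ℝ} (W : Win c κ a a₁ α β b₁ b)
    (hl : ∀ s, a < s → s ≤ b → (c a).re < (c s).re)
    (hr : ∀ s, a ≤ s → s < b → (c s).re < (c b).re) :
    ∃ zL zR, zL < α ∧ β < zR ∧ ∀ (δ : ℝ) (T : Set Ann), 0 < δ → IsPreconnected T → TyA c δ T →
      (∃ p ∈ T, ∃ x : ℝ, (x : AddCircle (1 : ℝ)) = p.1 ∧ zL < x ∧ x + p.2 < zR) →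
      ∀ q ∈ T, q.2 < b - a := by
  obtain ⟨zL, L1, L2, FL⟩ := W.exists_zL L.cont J
  obtain ⟨zR, R1, R2, FR⟩ := W.exists_zR L.cont J
  have h1 := W.h1
  have h2 := W.h2
  have h3 := W.h3
  have h4 := W.h4
  have h5 := W.h5
  have h6 := W.h6
  obtain ⟨θ, D, B⟩ := exists_base L J (by linarith) h6 hl hr
  refine ⟨zL, zR, L2, R1, ?_⟩
  rintro δ T hδ hT hTt ⟨p, hp, x, hx, hx1, hx2⟩
  obtain ⟨d1, d2, hall⟩ := hTt p hp
  obtain ⟨u, u1, u2, u3⟩ := hall x hx
  have hq₀ : (x, p.2, u) ∈ Mm c δ a :=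
    ⟨⟨by show a ≤ x; linarith, by show x ≤ a + 1; linarith⟩, ⟨d1, d2⟩, u1.le, u2.le, u3⟩
  have hq₀T : (((x : AddCircle (1 : ℝ)), p.2) : Ann) ∈ T := by
    have : (((x : AddCircle (1 : ℝ)), p.2) : Ann) = p := Prod.ext hx rfl
    rw [this]; exact hp
  obtain ⟨C1, C1'⟩ := l1_closed D L J (a := a) hδ
  obtain ⟨C2, C2'⟩ := l2_closed D L J (a := a) hδ
  have hM := Mm_closed L.cont δ a
  have cx : Continuous fun q : ℝ × ℝ × ℝ => q.1 := by fun_prop
  have cy : Continuous fun q : ℝ × ℝ × ℝ => q.1 + q.2.1 := by fun_prop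
  have cu : Continuous fun q : ℝ × ℝ × ℝ => q.2.2 := by fun_prop
  -- the three cases
  by_cases hP : l1 θ (x, p.2, u) = Real.pi / 2
  · by_cases hQ : l2 θ (x, p.2, u) = -(Real.pi / 4)
    · -- role V
      obtain ⟨S, hS⟩ : ∃ S : Set (ℝ × ℝ × ℝ), S = {q | zL < q.2.2 ∧ q.2.2 < zR ∧ a < q.1 ∧
        q.1 + q.2.1 < b ∧ l1 θ q = Real.pi / 2 ∧ l2 θ q = -(Real.pi / 4)} := ⟨_, rfl⟩
      have k1 : Mm c δ a ∩ S = (Mm c δ a ∩ {q | l1 θ q = Real.pi / 2}) ∩
          (Mm c δ a ∩ {q | l2 θ q = -(Real.pi / 4)}) ∩ ({q | zL ≤ q.2.2} ∩ {q | q.2.2 ≤ zR} ∩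
            {q | a ≤ q.1} ∩ {q | q.1 + q.2.1 ≤ b}) := by
        ext q
        constructor
        · rintro ⟨hq, hqS⟩
          rw [hS] at hqS
          obtain ⟨g1, g2, g3, g4, g5, g6⟩ := hqS
          exact ⟨⟨⟨hq, g5⟩, ⟨hq, g6⟩⟩, ⟨⟨⟨g1.le, g2.le⟩, g3.le⟩, g4.le⟩⟩
        · rintro ⟨⟨⟨hq, g5⟩, ⟨-, g6⟩⟩, ⟨⟨⟨g1, g2⟩, g3⟩, g4⟩⟩
          simp only [mem_setOf_eq] at g1 g2 g3 g4 g5 g6
          have s := Mm_strict J hδ hq
          have e := hq.2.2.2.2
          unfold l1 at g5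
          unfold l2 at g6
          refine ⟨hq, ?_⟩
          rw [hS]
          refine ⟨lt_of_le_of_ne g1 fun h => ?_, lt_of_le_of_ne g2 fun h => ?_,
            lt_of_le_of_ne g3 fun h => ?_, lt_of_le_of_ne g4 fun h => ?_, by unfold l1; exact g5,
            by unfold l2; exact g6⟩
          · refine B.role_V D (z := q.2.2) (h ▸ FL) g3 s.1 s.2.1 g4 (by linarith) (by linarith)
          · refine B.role_V D (z := q.2.2) (h ▸ FR) g3 s.1 s.2.1 g4 (by linarith) (by linarith)
          · rw [← h] at e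
            refine W.bar_A1 (u := q.2.2) (y := a + q.2.1) (by linarith) (by linarith) ?_ ?_ e
            · rw [h]; exact s.2.1
            · rw [h]; exact g4
          · rw [h] at e
            exact W.bar_B2 (x := q.1) g3 s.1 (by linarith) (by linarith) e
      have k2 : Mm c δ a ∩ Sᶜ = (Mm c δ a ∩ {q | l1 θ q ≠ Real.pi / 2}) ∪
          (Mm c δ a ∩ {q | l2 θ q ≠ -(Real.pi / 4)}) ∪ (Mm c δ a ∩ ({q | q.2.2 ≤ zL} ∪
            {q | zR ≤ q.2.2} ∪ {q | q.1 ≤ a} ∪ {q | b ≤ q.1 + q.2.1})) := by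
        ext q
        rw [hS]
        simp only [mem_inter_iff, mem_compl_iff, mem_setOf_eq, mem_union, not_and_or, not_lt]
        tauto
      have c1 : IsClosed (Mm c δ a ∩ S) := by
        rw [k1]
        exact (C1.inter C2).inter ((((isClosed_le continuous_const cu).inter
          (isClosed_le cu continuous_const)).inter (isClosed_le continuous_const cx)).inter
          (isClosed_le cy continuous_const))
      have c2 : IsClosed (Mm c δ a ∩ Sᶜ) := by
        rw [k2]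
        exact (C1'.union C2').union (hM.inter ((((isClosed_le cu continuous_const).union
          (isClosed_le continuous_const cu)).union (isClosed_le cx continuous_const)).union
          (isClosed_le continuous_const cy)))
      have hq₀S : (x, p.2, u) ∈ S := by
        rw [hS]
        exact ⟨by show zL < u; linarith, by show u < zR; linarith, by show a < x; linarith,
          by show x + p.2 < b; linarith, hP, hQ⟩
      intro q hq
      obtain ⟨q', ⟨hq', hqS⟩, e⟩ := clopen L J hδ hT hTt c1 c2 (fun q hq => by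
        have hqS := hq.2
        have s := Mm_strict J hδ hq.1
        rw [hS] at hqS
        obtain ⟨g1, g2, g3, g4, g5, g6⟩ := hqS
        exact ⟨g3, by linarith⟩) ⟨hq₀, hq₀S⟩ hq₀T q hq
      rw [hS] at hqS
      obtain ⟨g1, g2, g3, g4, g5, g6⟩ := hqS
      rw [← e]
      show q'.2.1 < b - a
      linarith
    · -- role Q
      obtain ⟨S, hS⟩ : ∃ S : Set (ℝ × ℝ × ℝ), S = {q | zL < q.1 + q.2.1 ∧ q.1 + q.2.1 < zR ∧
        a < q.1 ∧ l2 θ q ≠ -(Real.pi / 4)} := ⟨_, rfl⟩
      have k1 : Mm c δ a ∩ S = (Mm c δ a ∩ {q | l2 θ q ≠ -(Real.pi / 4)}) ∩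
          ({q | zL ≤ q.1 + q.2.1} ∩ {q | q.1 + q.2.1 ≤ zR} ∩ {q | a ≤ q.1}) := by
        ext q
        constructor
        · rintro ⟨hq, hqS⟩
          rw [hS] at hqS
          obtain ⟨g1, g2, g3, g4⟩ := hqS
          exact ⟨⟨hq, g4⟩, ⟨⟨g1.le, g2.le⟩, g3.le⟩⟩
        · rintro ⟨⟨hq, g4⟩, ⟨⟨g1, g2⟩, g3⟩⟩
          simp only [mem_setOf_eq] at g1 g2 g3 g4
          have s := Mm_strict J hδ hq
          have e := hq.2.2.2.2
          refine ⟨hq, ?_⟩
          rw [hS]
          refine ⟨lt_of_le_of_ne g1 fun h => g4 ?_, lt_of_le_of_ne g2 fun h => g4 ?_,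
            lt_of_le_of_ne g3 fun h => g4 ?_, g4⟩
          · have := B.role_Q D (z := q.1 + q.2.1) (h ▸ FL) (by linarith) g3 s.1 s.2.1 e
            unfold l2; linarith
          · have := B.role_Q D (z := q.1 + q.2.1) (h ▸ FR) (by linarith) g3 s.1 s.2.1 e
            unfold l2; linarith
          · rw [← h] at e
            have := W.bar_A2 D B (u := q.2.2) (y := a + q.2.1) (by rw [h]; exact s.1)
              (by rw [h]; exact s.2.1) (by rw [h]; linarith) (by rw [h]; linarith) e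
            unfold l2
            rw [← h]
            linarith
      have k2 : Mm c δ a ∩ Sᶜ = (Mm c δ a ∩ {q | l2 θ q = -(Real.pi / 4)}) ∪
          (Mm c δ a ∩ ({q | q.1 + q.2.1 ≤ zL} ∪ {q | zR ≤ q.1 + q.2.1} ∪ {q | q.1 ≤ a})) := by
        ext q
        rw [hS]
        simp only [mem_inter_iff, mem_compl_iff, mem_setOf_eq, mem_union, not_and_or, not_lt,
          ne_eq, not_not]
        tauto
      have c1 : IsClosed (Mm c δ a ∩ S) := by
        rw [k1]
        exact C2'.inter (((isClosed_le continuous_const cy).inter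
          (isClosed_le cy continuous_const)).inter (isClosed_le continuous_const cx))
      have c2 : IsClosed (Mm c δ a ∩ Sᶜ) := by
        rw [k2]
        exact C2.union (hM.inter (((isClosed_le cy continuous_const).union
          (isClosed_le continuous_const cy)).union (isClosed_le cx continuous_const)))
      have hq₀S : (x, p.2, u) ∈ S := by
        rw [hS]
        exact ⟨by show zL < x + p.2; linarith, by show x + p.2 < zR; linarith,
          by show a < x; linarith, hQ⟩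
      intro q hq
      obtain ⟨q', ⟨hq', hqS⟩, e⟩ := clopen L J hδ hT hTt c1 c2 (fun q hq => by
        have hqS := hq.2
        have s := Mm_strict J hδ hq.1
        rw [hS] at hqS
        obtain ⟨g1, g2, g3, g4⟩ := hqS
        exact ⟨g3, by linarith⟩) ⟨hq₀, hq₀S⟩ hq₀T q hq
      rw [hS] at hqS
      obtain ⟨g1, g2, g3, g4⟩ := hqS
      rw [← e]
      show q'.2.1 < b - a
      linarith
  · -- role P
    obtain ⟨S, hS⟩ : ∃ S : Set (ℝ × ℝ × ℝ), S = {q | zL < q.1 ∧ q.1 < zR ∧ q.1 + q.2.1 < b ∧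
      l1 θ q ≠ Real.pi / 2} := ⟨_, rfl⟩
    have k1 : Mm c δ a ∩ S = (Mm c δ a ∩ {q | l1 θ q ≠ Real.pi / 2}) ∩
        ({q | zL ≤ q.1} ∩ {q | q.1 ≤ zR} ∩ {q | q.1 + q.2.1 ≤ b}) := by
      ext q
      constructor
      · rintro ⟨hq, hqS⟩
        rw [hS] at hqS
        obtain ⟨g1, g2, g3, g4⟩ := hqS
        exact ⟨⟨hq, g4⟩, ⟨⟨g1.le, g2.le⟩, g3.le⟩⟩
      · rintro ⟨⟨hq, g4⟩, ⟨⟨g1, g2⟩, g3⟩⟩
        simp only [mem_setOf_eq] at g1 g2 g3 g4
        have s := Mm_strict J hδ hq
        have e := hq.2.2.2.2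
        refine ⟨hq, ?_⟩
        rw [hS]
        refine ⟨lt_of_le_of_ne g1 fun h => g4 ?_, lt_of_le_of_ne g2 fun h => g4 ?_,
          lt_of_le_of_ne g3 fun h => ?_, g4⟩
        · have := B.role_P D (z := q.1) (h ▸ FL) (by linarith) s.1 s.2.1 g3 e
          unfold l1; linarith
        · have := B.role_P D (z := q.1) (h ▸ FR) (by linarith) s.1 s.2.1 g3 e
          unfold l1; linarith
        · rw [h] at e
          exact W.bar_B1 (x := q.1) (by linarith) (by linarith) s.1 (by linarith [s.2.1]) e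
    have k2 : Mm c δ a ∩ Sᶜ = (Mm c δ a ∩ {q | l1 θ q = Real.pi / 2}) ∪
        (Mm c δ a ∩ ({q | q.1 ≤ zL} ∪ {q | zR ≤ q.1} ∪ {q | b ≤ q.1 + q.2.1})) := by
      ext q
      rw [hS]
      simp only [mem_inter_iff, mem_compl_iff, mem_setOf_eq, mem_union, not_and_or, not_lt,
        ne_eq, not_not]
      tauto
    have c1 : IsClosed (Mm c δ a ∩ S) := by
      rw [k1]
      exact C1'.inter (((isClosed_le continuous_const cx).inter
        (isClosed_le cx continuous_const)).inter (isClosed_le cy continuous_const))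
    have c2 : IsClosed (Mm c δ a ∩ Sᶜ) := by
      rw [k2]
      exact C1.union (hM.inter (((isClosed_le cx continuous_const).union
        (isClosed_le continuous_const cx)).union (isClosed_le continuous_const cy)))
    have hq₀S : (x, p.2, u) ∈ S := by
      rw [hS]
      exact ⟨hx1, by show x < zR; linarith, by show x + p.2 < b; linarith, hP⟩
    intro q hq
    obtain ⟨q', ⟨hq', hqS⟩, e⟩ := clopen L J hδ hT hTt c1 c2 (fun q hq => by
      have hqS := hq.2
      rw [hS] at hqS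
      obtain ⟨g1, g2, g3, g4⟩ := hqS
      exact ⟨by linarith, by linarith⟩) ⟨hq₀, hq₀S⟩ hq₀T q hq
    rw [hS] at hqS
    obtain ⟨g1, g2, g3, g4⟩ := hqS
    rw [← e]
    show q'.2.1 < b - a
    linarith

end Pool.Agent.N335.Hg
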