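import Pool.Agent.N335.Hg.Fam

/-! The local theorem for triangles of other shapes: a connected family of triangles with a member
inside the inner part of a window stays inside the window. -/

set_option autoImplicit false
open Complex Set Topology Metric

namespace Pool.Agent.N335.Hg

open Pool.Agent.H763R2 Pool.Agent.H763R2.An
open Pool.Agent.Y765.Sq (Ann exists_int)

variable {c : ℝ → ℂ} {θ : ℝ → ℝ → ℝ}

/-- three parameters `F q < M q < G q < F q + 1` read off from the parameters of a triangle -/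
structure Rd (c : ℝ → ℂ) (μ : ℂ) (F M G : ℝ × ℝ × ℝ → ℝ) : Prop where
  cF : Continuous F
  cM : Continuous M
  cG : Continuous G
  ord : ∀ q : ℝ × ℝ × ℝ, q.1 < q.2.2 → q.2.2 < q.1 + q.2.1 → q.1 + q.2.1 < q.1 + 1 →
    F q < M q ∧ M q < G q ∧ G q < F q + 1
  rel : ∀ q : ℝ × ℝ × ℝ, c q.2.2 = c q.1 + I * (c (q.1 + q.2.1) - c q.1) →
    c (M q) = c (F q) + μ * (c (G q) - c (F q))
  one : ∀ q : ℝ × ℝ × ℝ, q.1 < q.2.2 → q.2.2 < q.1 + q.2.1 → q.1 + q.2.1 < q.1 + 1 →
    F q ≤ q.1 ∧ q.1 ≤ G q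

/-- the shape of a triangle -/
structure Shp (μ : ℂ) (A B : ℝ) : Prop where
  A0 : 0 < A
  A1 : A ≤ Real.pi / 2
  B0 : 0 < B
  B1 : B ≤ Real.pi / 2
  AB : Real.pi / 2 ≤ A + B
  e1 : ∃ ρ : ℝ, 0 < ρ ∧ μ = ρ * exp (A * I)
  e2 : ∃ ρ : ℝ, 0 < ρ ∧ 1 - μ = ρ * exp (((-B : ℝ) : ℂ) * I)

variable {μ : ℂ} {A B : ℝ}

theorem Shp.lab1 (H : Shp μ A B) (D : Dirn c θ) {x u y : ℝ} (h1 : x < u) (h2 : u < y)
    (h3 : y < x + 1) (h : c u = c x + μ * (c y - c x)) :
    ∃ j : ℤ, θ x u = θ x y + A + j * (2 * Real.pi) := by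
  obtain ⟨ρ, hρ, e⟩ := D.ex x y (h1.trans h2) h3
  obtain ⟨ρ', hρ', e'⟩ := D.ex x u h1 (h2.trans h3)
  obtain ⟨r, hr, er⟩ := H.e1
  refine ang_eq hρ' (mul_pos hr hρ) ?_
  rw [← e', h, add_sub_cancel_left, e, er]
  push_cast
  rw [add_mul, exp_add]
  ring

theorem Shp.lab2 (H : Shp μ A B) (D : Dirn c θ) {x u y : ℝ} (h1 : x < u) (h2 : u < y)
    (h3 : y < x + 1) (h : c u = c x + μ * (c y - c x)) :
    ∃ l : ℤ, θ u y = θ x y - B + l * (2 * Real.pi) := by
  obtain ⟨ρ, hρ, e⟩ := D.ex x y (h1.trans h2) h3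
  obtain ⟨ρ', hρ', e'⟩ := D.ex u y h2 (by linarith)
  obtain ⟨r, hr, er⟩ := H.e2
  refine ang_eq hρ' (mul_pos hr hρ) ?_
  have e2 : c y - c u = (1 - μ) * (c y - c x) := by rw [h]; ring
  rw [← e', e2, e, er]
  push_cast
  rw [sub_mul, sub_eq_add_neg, exp_add, ← neg_mul]
  ring

/-- first label -/
def la (θ : ℝ → ℝ → ℝ) (F M G : ℝ × ℝ × ℝ → ℝ) (q : ℝ × ℝ × ℝ) : ℝ :=
  θ (F q) (M q) - θ (F q) (G q)
/-- second label -/
def lb (θ : ℝ → ℝ → ℝ) (F M G : ℝ × ℝ × ℝ → ℝ) (q : ℝ × ℝ × ℝ) : ℝ :=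
  θ (M q) (G q) - θ (F q) (G q)

variable {F M G : ℝ × ℝ × ℝ → ℝ}

theorem Rd.st (R : Rd c μ F M G) (J : Inj c) {δ a : ℝ} (hδ : 0 < δ) {q : ℝ × ℝ × ℝ}
    (hq : q ∈ Mm c δ a) : F q < M q ∧ M q < G q ∧ G q < F q + 1 := by
  have s := Mm_strict J hδ hq
  exact R.ord q s.1 s.2.1 s.2.2

theorem la_cont (D : Dirn c θ) (J : Inj c) (R : Rd c μ F M G) {δ a : ℝ} (hδ : 0 < δ) :
    ContinuousOn (la θ F M G) (Mm c δ a) := by
  have c1 := R.cF
  have c2 := R.cM
  have c3 := R.cG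
  unfold la
  refine ContinuousOn.sub ?_ ?_
  · refine D.cont.comp (f := fun q : ℝ × ℝ × ℝ => (F q, M q)) (by fun_prop) fun q hq => ?_
    have := R.st J hδ hq
    exact ⟨this.1, by show M q < F q + 1; linarith⟩
  · refine D.cont.comp (f := fun q : ℝ × ℝ × ℝ => (F q, G q)) (by fun_prop) fun q hq => ?_
    have := R.st J hδ hq
    exact ⟨by show F q < G q; linarith, this.2.2⟩

theorem lb_cont (D : Dirn c θ) (J : Inj c) (R : Rd c μ F M G) {δ a : ℝ} (hδ : 0 < δ) :
    ContinuousOn (lb θ F M G) (Mm c δ a) := by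
  have c1 := R.cF
  have c2 := R.cM
  have c3 := R.cG
  unfold lb
  refine ContinuousOn.sub ?_ ?_
  · refine D.cont.comp (f := fun q : ℝ × ℝ × ℝ => (M q, G q)) (by fun_prop) fun q hq => ?_
    have := R.st J hδ hq
    exact ⟨this.2.1, by show G q < M q + 1; linarith⟩
  · refine D.cont.comp (f := fun q : ℝ × ℝ × ℝ => (F q, G q)) (by fun_prop) fun q hq => ?_
    have := R.st J hδ hq
    exact ⟨by show F q < G q; linarith, this.2.2⟩

/-- a continuous function with discrete values is constant on connected sets -/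
theorem disc_closed {N : Set (ℝ × ℝ × ℝ)} (hN : IsClosed N) {f : ℝ × ℝ × ℝ → ℝ}
    (hf : ContinuousOn f N) {v : ℝ} (hd : ∀ q ∈ N, ∃ j : ℤ, f q = v + j * (2 * Real.pi)) :
    IsClosed (N ∩ {q | f q = v}) ∧ IsClosed (N ∩ {q | f q ≠ v}) := by
  refine ⟨hf.preimage_isClosed_of_isClosed hN isClosed_singleton, ?_⟩
  have h1 : IsClosed {t : ℝ | Real.pi ≤ |t - v|} :=
    isClosed_le continuous_const (by fun_prop)
  have := hf.preimage_isClosed_of_isClosed hN h1
  convert this using 1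
  ext q
  constructor
  · rintro ⟨hq, h⟩
    obtain ⟨j, hj⟩ := hd q hq
    exact ⟨hq, (disc hj).1 h⟩
  · rintro ⟨hq, h⟩
    obtain ⟨j, hj⟩ := hd q hq
    exact ⟨hq, (disc hj).2 h⟩

namespace Base

variable {a b : ℝ}

theorem role_F (D : Dirn c θ) (B' : Base c θ a b) (H : Shp μ A B) {z u y : ℝ} (F : Free c a b z)
    (h1 : a ≤ z) (h2 : z < u) (h3 : u < y) (h4 : y ≤ b) (h : c u = c z + μ * (c y - c z)) :
    θ z u = θ z y + A := by
  have hb := B'.ba
  have hπ := Real.pi_pos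
  have hA0 := H.A0
  have hA1 := H.A1
  obtain ⟨j, hj⟩ := H.lab1 D h2 h3 (by linarith) h
  have f1 := B'.fut D F h1 h2 (by linarith)
  have f2 := B'.fut D F h1 (h2.trans h3) h4
  have : j = 0 := int_zero_of (x := θ z u - θ z y - A) (by linarith)
    (by linarith [f1.1, f2.2]) (by linarith [f1.2, f2.1])
  rw [this] at hj
  rw [hj]; push_cast; ring

theorem role_G (D : Dirn c θ) (B' : Base c θ a b) (H : Shp μ A B) {x u z : ℝ} (F : Free c a b z)
    (h1 : z ≤ b) (h2 : a ≤ x) (h3 : x < u) (h4 : u < z) (h : c u = c x + μ * (c z - c x)) :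
    θ u z = θ x z - B := by
  have hb := B'.ba
  have hπ := Real.pi_pos
  have hB0 := H.B0
  have hB1 := H.B1
  obtain ⟨j, hj⟩ := H.lab2 D h3 h4 (by linarith) h
  have f1 := B'.past D F h1 (show a ≤ u by linarith) h4
  have f2 := B'.past D F h1 h2 (h3.trans h4)
  have : j = 0 := int_zero_of (x := θ u z - θ x z + B) (by linarith)
    (by linarith [f1.1, f2.2]) (by linarith [f1.2, f2.1])
  rw [this] at hj
  rw [hj]; push_cast; ring

theorem role_M (D : Dirn c θ) (B' : Base c θ a b) (H : Shp μ A B) {x z y : ℝ} (F : Free c a b z)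
    (h1 : a ≤ x) (h2 : x < z) (h3 : z < y) (h4 : y ≤ b) (e1 : θ x z = θ x y + A)
    (e2 : θ z y = θ x y - B) : False := by
  have hπ := Real.pi_pos
  have hAB := H.AB
  have f1 := B'.past D F (show z ≤ b by linarith) h1 h2
  have f2 := B'.fut D F (show a ≤ z by linarith) h3 h4
  linarith [f1.2, f2.1]

end Base

/-- what happens at the ends of the window -/
structure Bar (c : ℝ → ℂ) (θ : ℝ → ℝ → ℝ) (μ : ℂ) (A B a a₁ b₁ b : ℝ) : Prop where
  B1 : ∀ x u, a₁ ≤ x → x ≤ b₁ → x < u → u < b → c u = c x + μ * (c b - c x) →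
    θ x u = θ x b + A
  B2 : ∀ x u, a ≤ x → x < u → a₁ ≤ u → u ≤ b₁ → c u = c x + μ * (c b - c x) → False
  A1 : ∀ u y, a₁ ≤ u → u ≤ b₁ → u < y → y ≤ b → c u = c a + μ * (c y - c a) → False
  A2 : ∀ u y, a < u → u < y → a₁ ≤ y → y ≤ b₁ → c u = c a + μ * (c y - c a) →
    θ u y = θ a y - B

theorem local_gen (L : Loop c) (J : Inj c) (D : Dirn c θ) {a a₁ b₁ b : ℝ} (Bs : Base c θ a b)
    (h1 : a < a₁) (h5 : b₁ < b) (H : Shp μ A B)
    (E : Bar c θ μ A B a a₁ b₁ b) (R : Rd c μ F M G) {zL zR : ℝ} (L1 : a₁ < zL) (LR : zL < zR)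
    (R2 : zR < b₁) (FL : Free c a b zL) (FR : Free c a b zR) {δ : ℝ} {T : Set Ann} (hδ : 0 < δ)
    (hT : IsPreconnected T) (hTt : TyA c δ T) {q₀ : ℝ × ℝ × ℝ} (hq₀ : q₀ ∈ Mm c δ a)
    (hq₀T : (((q₀.1 : AddCircle (1 : ℝ)), q₀.2.1) : Ann) ∈ T) (hq1 : zL < F q₀)
    (hq2 : G q₀ < zR) :
    ∀ p ∈ T, ∃ q ∈ Mm c δ a, (((q.1 : AddCircle (1 : ℝ)), q.2.1) : Ann) = p ∧
      G q - F q < b - a := by
  have h6 := Bs.ba
  have s₀ := R.st J hδ hq₀
  have hM := Mm_closed L.cont δ a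
  have cF := R.cF
  have cM := R.cM
  have cG := R.cG
  obtain ⟨C1, C1'⟩ := disc_closed hM (la_cont D J R (a := a) hδ) (v := A) (fun q hq => by
    have s := R.st J hδ hq
    obtain ⟨j, hj⟩ := H.lab1 D s.1 s.2.1 s.2.2 (R.rel q hq.2.2.2.2)
    exact ⟨j, by unfold la; linarith⟩)
  obtain ⟨C2, C2'⟩ := disc_closed hM (lb_cont D J R (a := a) hδ) (v := -B) (fun q hq => by
    have s := R.st J hδ hq
    obtain ⟨j, hj⟩ := H.lab2 D s.1 s.2.1 s.2.2 (R.rel q hq.2.2.2.2)
    exact ⟨j, by unfold lb; linarith⟩)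
  by_cases hP : la θ F M G q₀ = A
  · by_cases hQ : lb θ F M G q₀ = -B
    · -- role M
      obtain ⟨S, hS⟩ : ∃ S : Set (ℝ × ℝ × ℝ), S = {q | zL < M q ∧ M q < zR ∧ a < F q ∧
        G q < b ∧ la θ F M G q = A ∧ lb θ F M G q = -B} := ⟨_, rfl⟩
      have k1 : Mm c δ a ∩ S = (Mm c δ a ∩ {q | la θ F M G q = A}) ∩
          (Mm c δ a ∩ {q | lb θ F M G q = -B}) ∩ ({q | zL ≤ M q} ∩ {q | M q ≤ zR} ∩
            {q | a ≤ F q} ∩ {q | G q ≤ b}) := by
        ext q
        constructor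
        · rintro ⟨hq, hqS⟩
          rw [hS] at hqS
          obtain ⟨g1, g2, g3, g4, g5, g6⟩ := hqS
          exact ⟨⟨⟨hq, g5⟩, ⟨hq, g6⟩⟩, ⟨⟨⟨g1.le, g2.le⟩, g3.le⟩, g4.le⟩⟩
        · rintro ⟨⟨⟨hq, g5⟩, ⟨-, g6⟩⟩, ⟨⟨⟨g1, g2⟩, g3⟩, g4⟩⟩
          simp only [mem_ofPred_eq] at g1 g2 g3 g4 g5 g6
          have s := R.st J hδ hq
          have e := R.rel q hq.2.2.2.2
          unfold la at g5
          unfold lb at g6
          refine ⟨hq, ?_⟩
          rw [hS]
          refine ⟨lt_of_le_of_ne g1 fun h => ?_, lt_of_le_of_ne g2 fun h => ?_,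
            lt_of_le_of_ne g3 fun h => ?_, lt_of_le_of_ne g4 fun h => ?_, by unfold la; exact g5,
            by unfold lb; exact g6⟩
          · exact Bs.role_M D H (z := M q) (h ▸ FL) g3 s.1 s.2.1 g4 (by linarith) (by linarith)
          · exact Bs.role_M D H (z := M q) (h ▸ FR) g3 s.1 s.2.1 g4 (by linarith) (by linarith)
          · rw [← h] at e
            exact E.A1 (M q) (G q) (by linarith) (by linarith) s.2.1 g4 e
          · rw [h] at e
            exact E.B2 (F q) (M q) g3 s.1 (by linarith) (by linarith) e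
      have k2 : Mm c δ a ∩ Sᶜ = (Mm c δ a ∩ {q | la θ F M G q ≠ A}) ∪
          (Mm c δ a ∩ {q | lb θ F M G q ≠ -B}) ∪ (Mm c δ a ∩ ({q | M q ≤ zL} ∪
            {q | zR ≤ M q} ∪ {q | F q ≤ a} ∪ {q | b ≤ G q})) := by
        ext q
        rw [hS]
        simp only [mem_inter_iff, mem_compl_iff, mem_ofPred_eq, mem_union, not_and_or, not_lt,
          ne_eq]
        tauto
      have c1 : IsClosed (Mm c δ a ∩ S) := by
        rw [k1]
        exact (C1.inter C2).inter ((((isClosed_le continuous_const cM).inter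
          (isClosed_le cM continuous_const)).inter (isClosed_le continuous_const cF)).inter
          (isClosed_le cG continuous_const))
      have c2 : IsClosed (Mm c δ a ∩ Sᶜ) := by
        rw [k2]
        exact (C1'.union C2').union (hM.inter ((((isClosed_le cM continuous_const).union
          (isClosed_le continuous_const cM)).union (isClosed_le cF continuous_const)).union
          (isClosed_le continuous_const cG)))
      have hq₀S : q₀ ∈ S := by
        rw [hS]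
        exact ⟨by linarith, by linarith, by linarith, by linarith, hP, hQ⟩
      intro p hp
      obtain ⟨q', ⟨hq', hqS⟩, e⟩ := clopen L J hδ hT hTt c1 c2 (fun q hq => by
        have hqS := hq.2
        rw [hS] at hqS
        obtain ⟨g1, g2, g3, g4, g5, g6⟩ := hqS
        have s := Mm_strict J hδ hq.1
        have o := R.one q s.1 s.2.1 s.2.2
        exact ⟨by linarith [o.1], by linarith [o.2]⟩) ⟨hq₀, hq₀S⟩ hq₀T p hp
      rw [hS] at hqS
      obtain ⟨g1, g2, g3, g4, g5, g6⟩ := hqS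
      exact ⟨q', hq', e, by linarith⟩
    · -- role G
      obtain ⟨S, hS⟩ : ∃ S : Set (ℝ × ℝ × ℝ), S = {q | zL < G q ∧ G q < zR ∧
        a < F q ∧ lb θ F M G q ≠ -B} := ⟨_, rfl⟩
      have k1 : Mm c δ a ∩ S = (Mm c δ a ∩ {q | lb θ F M G q ≠ -B}) ∩
          ({q | zL ≤ G q} ∩ {q | G q ≤ zR} ∩ {q | a ≤ F q}) := by
        ext q
        constructor
        · rintro ⟨hq, hqS⟩
          rw [hS] at hqS
          obtain ⟨g1, g2, g3, g4⟩ := hqS
          exact ⟨⟨hq, g4⟩, ⟨⟨g1.le, g2.le⟩, g3.le⟩⟩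
        · rintro ⟨⟨hq, g4⟩, ⟨⟨g1, g2⟩, g3⟩⟩
          simp only [mem_ofPred_eq] at g1 g2 g3 g4
          have s := R.st J hδ hq
          have e := R.rel q hq.2.2.2.2
          refine ⟨hq, ?_⟩
          rw [hS]
          refine ⟨lt_of_le_of_ne g1 fun h => g4 ?_, lt_of_le_of_ne g2 fun h => g4 ?_,
            lt_of_le_of_ne g3 fun h => g4 ?_, g4⟩
          · have := Bs.role_G D H (z := G q) (h ▸ FL) (by linarith) g3 s.1 s.2.1 e
            unfold lb; linarith
          · have := Bs.role_G D H (z := G q) (h ▸ FR) (by linarith) g3 s.1 s.2.1 e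
            unfold lb; linarith
          · rw [← h] at e
            have := E.A2 (M q) (G q) (by rw [h]; exact s.1) s.2.1 (by linarith) (by linarith) e
            unfold lb
            rw [← h]
            linarith
      have k2 : Mm c δ a ∩ Sᶜ = (Mm c δ a ∩ {q | lb θ F M G q = -B}) ∪
          (Mm c δ a ∩ ({q | G q ≤ zL} ∪ {q | zR ≤ G q} ∪ {q | F q ≤ a})) := by
        ext q
        rw [hS]
        simp only [mem_inter_iff, mem_compl_iff, mem_ofPred_eq, mem_union, not_and_or, not_lt,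
          ne_eq, not_not]
        tauto
      have c1 : IsClosed (Mm c δ a ∩ S) := by
        rw [k1]
        exact C2'.inter (((isClosed_le continuous_const cG).inter
          (isClosed_le cG continuous_const)).inter (isClosed_le continuous_const cF))
      have c2 : IsClosed (Mm c δ a ∩ Sᶜ) := by
        rw [k2]
        exact C2.union (hM.inter (((isClosed_le cG continuous_const).union
          (isClosed_le continuous_const cG)).union (isClosed_le cF continuous_const)))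
      have hq₀S : q₀ ∈ S := by
        rw [hS]
        exact ⟨by linarith, by linarith, by linarith, hQ⟩
      intro p hp
      obtain ⟨q', ⟨hq', hqS⟩, e⟩ := clopen L J hδ hT hTt c1 c2 (fun q hq => by
        have hqS := hq.2
        rw [hS] at hqS
        obtain ⟨g1, g2, g3, g4⟩ := hqS
        have s := Mm_strict J hδ hq.1
        have o := R.one q s.1 s.2.1 s.2.2
        exact ⟨by linarith [o.1], by linarith [o.2]⟩) ⟨hq₀, hq₀S⟩ hq₀T p hp
      rw [hS] at hqS
      obtain ⟨g1, g2, g3, g4⟩ := hqS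
      exact ⟨q', hq', e, by linarith⟩
  · -- role F
    obtain ⟨S, hS⟩ : ∃ S : Set (ℝ × ℝ × ℝ), S = {q | zL < F q ∧ F q < zR ∧ G q < b ∧
      la θ F M G q ≠ A} := ⟨_, rfl⟩
    have k1 : Mm c δ a ∩ S = (Mm c δ a ∩ {q | la θ F M G q ≠ A}) ∩
        ({q | zL ≤ F q} ∩ {q | F q ≤ zR} ∩ {q | G q ≤ b}) := by
      ext q
      constructor
      · rintro ⟨hq, hqS⟩
        rw [hS] at hqS
        obtain ⟨g1, g2, g3, g4⟩ := hqS
        exact ⟨⟨hq, g4⟩, ⟨⟨g1.le, g2.le⟩, g3.le⟩⟩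
      · rintro ⟨⟨hq, g4⟩, ⟨⟨g1, g2⟩, g3⟩⟩
        simp only [mem_ofPred_eq] at g1 g2 g3 g4
        have s := R.st J hδ hq
        have e := R.rel q hq.2.2.2.2
        refine ⟨hq, ?_⟩
        rw [hS]
        refine ⟨lt_of_le_of_ne g1 fun h => g4 ?_, lt_of_le_of_ne g2 fun h => g4 ?_,
          lt_of_le_of_ne g3 fun h => g4 ?_, g4⟩
        · have := Bs.role_F D H (z := F q) (h ▸ FL) (by linarith) s.1 s.2.1 g3 e
          unfold la; linarith
        · have := Bs.role_F D H (z := F q) (h ▸ FR) (by linarith) s.1 s.2.1 g3 e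
          unfold la; linarith
        · rw [h] at e
          have := E.B1 (F q) (M q) (by linarith) (by linarith) s.1 (by rw [← h]; exact s.2.1) e
          unfold la
          rw [h]
          linarith
    have k2 : Mm c δ a ∩ Sᶜ = (Mm c δ a ∩ {q | la θ F M G q = A}) ∪
        (Mm c δ a ∩ ({q | F q ≤ zL} ∪ {q | zR ≤ F q} ∪ {q | b ≤ G q})) := by
      ext q
      rw [hS]
      simp only [mem_inter_iff, mem_compl_iff, mem_ofPred_eq, mem_union, not_and_or, not_lt,
        ne_eq, not_not]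
      tauto
    have c1 : IsClosed (Mm c δ a ∩ S) := by
      rw [k1]
      exact C1'.inter (((isClosed_le continuous_const cF).inter
        (isClosed_le cF continuous_const)).inter (isClosed_le cG continuous_const))
    have c2 : IsClosed (Mm c δ a ∩ Sᶜ) := by
      rw [k2]
      exact C1.union (hM.inter (((isClosed_le cF continuous_const).union
        (isClosed_le continuous_const cF)).union (isClosed_le continuous_const cG)))
    have hq₀S : q₀ ∈ S := by
      rw [hS]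
      exact ⟨hq1, by linarith, by linarith, hP⟩
    intro p hp
    obtain ⟨q', ⟨hq', hqS⟩, e⟩ := clopen L J hδ hT hTt c1 c2 (fun q hq => by
      have hqS := hq.2
      rw [hS] at hqS
      obtain ⟨g1, g2, g3, g4⟩ := hqS
      have s := Mm_strict J hδ hq.1
      have o := R.one q s.1 s.2.1 s.2.2
      exact ⟨by linarith [o.1], by linarith [o.2]⟩) ⟨hq₀, hq₀S⟩ hq₀T p hp
    rw [hS] at hqS
    obtain ⟨g1, g2, g3, g4⟩ := hqS
    exact ⟨q', hq', e, by linarith⟩

end Pool.Agent.N335.Hg
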