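import Pool.Agent.N335.Hg.Fam

/-! Hourglasses at all points of a simple closed curve exclude shrinking families of triangles. -/

set_option autoImplicit false
open Complex Set Topology Metric Filter

namespace Pool.Agent.N335.Hg

open Pool.Agent.H763R2 Pool.Agent.H763R2.An
open Pool.Agent.Y765.Sq (Ann exists_int exists_rep TriM tri_fam)

variable {c : ℝ → ℂ}

/-- the hourglass condition at the parameter `t` -/
def Hourglass (c : ℝ → ℂ) (t : ℝ) : Prop :=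
  ∃ (κ a a₁ α β b₁ b : ℝ) (w : ℂ), 0 < κ ∧ κ < 1 ∧ w ≠ 0 ∧ a < a₁ ∧ a₁ < α ∧ α ≤ t ∧ t ≤ β ∧
    β < b₁ ∧ b₁ < b ∧ b < a + 1 ∧
    (∀ s ∈ Icc a α, |(w * (c s - c t)).im| ≤ κ * -(w * (c s - c t)).re) ∧
    (∀ s ∈ Icc β b, |(w * (c s - c t)).im| ≤ κ * (w * (c s - c t)).re) ∧
    (∀ s ∈ Icc α β, ∀ s' ∈ Icc a a₁ ∪ Icc b₁ b, 10 * ‖c s - c t‖ ≤ (1 - κ) ^ 2 * ‖c s' - c t‖) ∧
    (∀ s ∈ Icc a₁ b₁, 10 * ‖c s - c t‖ ≤ (1 - κ) ^ 2 * ‖c a - c t‖ ∧
      10 * ‖c s - c t‖ ≤ (1 - κ) ^ 2 * ‖c b - c t‖)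

theorem norm53 {v : ℂ} {κ X : ℝ} (hκ1 : κ < 1) (hX : 0 ≤ X) (hr : |v.re| = X)
    (hi : |v.im| ≤ κ * X) : 3 * ‖v‖ ≤ 5 * X := by
  have h1 : |v.im| ≤ X := hi.trans (by nlinarith)
  have h2 : ‖v‖ ^ 2 = v.re ^ 2 + v.im ^ 2 := by
    rw [← Complex.normSq_eq_norm_sq, Complex.normSq_apply]; ring
  have h3 : v.re ^ 2 = X ^ 2 := by rw [← hr, sq_abs]
  have h4 : v.im ^ 2 ≤ X ^ 2 := by
    rw [← sq_abs v.im]
    exact pow_le_pow_left₀ (abs_nonneg _) h1 2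
  have h5 : (3 * ‖v‖) ^ 2 ≤ (5 * X) ^ 2 := by nlinarith [sq_nonneg X]
  exact (abs_le_abs_of_sq_le_sq' h5 (by positivity) (by positivity))
where
  abs_le_abs_of_sq_le_sq' {p q : ℝ} (h : p ^ 2 ≤ q ^ 2) (hp : 0 ≤ p) (hq : 0 ≤ q) : p ≤ q := by
    exact (sq_le_sq₀ hp hq).1 h

/-- the curve moved so that `c t` is the origin -/
def mv (c : ℝ → ℂ) (w : ℂ) (t : ℝ) : ℝ → ℂ := fun s => w * (c s - c t)

theorem mv_loop (L : Loop c) (w : ℂ) (t : ℝ) : Loop (mv c w t) := by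
  have := L.cont
  refine ⟨by unfold mv; fun_prop, fun s => ?_⟩
  unfold mv
  rw [L.per]

theorem mv_inj (J : Inj c) {w : ℂ} (hw : w ≠ 0) (t : ℝ) : Inj (mv c w t) := by
  intro x y h1 h2 h
  unfold mv at h
  have := mul_left_cancel₀ hw h
  exact J x y h1 h2 (by linear_combination this)

theorem mv_tyA {w : ℂ} {t δ : ℝ} {T : Set Ann} (h : TyA c δ T) : TyA (mv c w t) δ T := by
  intro p hp
  obtain ⟨d1, d2, hall⟩ := h p hp
  refine ⟨d1, d2, fun x hx => ?_⟩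
  obtain ⟨u, u1, u2, u3⟩ := hall x hx
  refine ⟨u, u1, u2, ?_⟩
  unfold mv
  rw [u3]; ring

theorem hour_thm (L : Loop c) (J : Inj c) {t : ℝ} (H : Hourglass c t) :
    ∃ zL zR d, zL < t ∧ t < zR ∧ d < 1 ∧ ∀ (δ : ℝ) (T : Set Ann), 0 < δ → IsPreconnected T →
      TyA c δ T →
      (∃ p ∈ T, ∃ x : ℝ, (x : AddCircle (1 : ℝ)) = p.1 ∧ zL < x ∧ x + p.2 < zR) →
      ∀ q ∈ T, q.2 < d := by
  obtain ⟨κ, a, a₁, α, β, b₁, b, w, κ0, κ1, hw, h1, h2, h3, h4, h5, h6, h7, hL, hR, hin, hmid⟩ := H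
  obtain ⟨f, hf⟩ : ∃ f, f = mv c w t := ⟨_, rfl⟩
  have Lf : Loop f := hf ▸ mv_loop L w t
  have Jf : Inj f := hf ▸ mv_inj J hw t
  have fc := Lf.cont
  have w0 : 0 < ‖w‖ := norm_pos_iff.2 hw
  have fn : ∀ s, ‖f s‖ = ‖w‖ * ‖c s - c t‖ := fun s => by rw [hf]; unfold mv; rw [norm_mul]
  have fL : ∀ s, a ≤ s → s ≤ α → |(f s).im| ≤ κ * -(f s).re := fun s g1 g2 => by
    rw [hf]; exact hL s ⟨g1, g2⟩
  have fR : ∀ s, β ≤ s → s ≤ b → |(f s).im| ≤ κ * (f s).re := fun s g1 g2 => by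
    rw [hf]; exact hR s ⟨g1, g2⟩
  have fin : ∀ s, α ≤ s → s ≤ β → ∀ s', (a ≤ s' ∧ s' ≤ a₁ ∨ b₁ ≤ s' ∧ s' ≤ b) →
      10 * ‖f s‖ ≤ (1 - κ) ^ 2 * ‖f s'‖ := fun s g1 g2 s' g3 => by
    have := mul_le_mul_of_nonneg_left (hin s ⟨g1, g2⟩ s' (g3.imp id id)) w0.le
    rw [fn, fn]; linarith
  have fmid : ∀ s, a₁ ≤ s → s ≤ b₁ → 10 * ‖f s‖ ≤ (1 - κ) ^ 2 * ‖f a‖ ∧
      10 * ‖f s‖ ≤ (1 - κ) ^ 2 * ‖f b‖ := fun s g1 g2 => by
    have q1 := mul_le_mul_of_nonneg_left (hmid s ⟨g1, g2⟩).1 w0.le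
    have q2 := mul_le_mul_of_nonneg_left (hmid s ⟨g1, g2⟩).2 w0.le
    rw [fn, fn, fn]
    constructor <;> linarith
  have ft : f t = 0 := by rw [hf]; unfold mv; rw [sub_self, mul_zero]
  have fne : ∀ s', (a ≤ s' ∧ s' ≤ a₁ ∨ b₁ ≤ s' ∧ s' ≤ b) → f s' ≠ 0 := by
    rintro s' (⟨g1, g2⟩ | ⟨g1, g2⟩)
    · rw [← ft]; exact Jf s' t (by linarith) (by linarith)
    · rw [← ft]; exact (Jf t s' (by linarith) (by linarith)).symm
  -- the new ends
  obtain ⟨A, hA⟩ : ∃ A, A = -(f a).re := ⟨_, rfl⟩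
  obtain ⟨B, hB⟩ : ∃ B, B = (f b).re := ⟨_, rfl⟩
  have A0' : 0 ≤ A := by rw [hA]; exact Win.re_of κ0 (fL a le_rfl (by linarith))
  have B0' : 0 ≤ B := by rw [hB]; exact Win.re_of κ0 (fR b (by linarith) le_rfl)
  have nA : 3 * ‖f a‖ ≤ 5 * A := norm53 κ1 A0' (by rw [hA, ← abs_neg, abs_of_nonneg
    (by rw [← hA]; exact A0')]) (by rw [hA]; exact fL a le_rfl (by linarith))
  have nB : 3 * ‖f b‖ ≤ 5 * B := norm53 κ1 B0' (by rw [hB, abs_of_nonneg
    (by rw [← hB]; exact B0')]) (by rw [hB]; exact fR b (by linarith) le_rfl)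
  have A0 : 0 < A := by
    have := norm_pos_iff.2 (fne a (Or.inl ⟨le_rfl, h1.le⟩))
    linarith
  have B0 : 0 < B := by
    have := norm_pos_iff.2 (fne b (Or.inr ⟨h6.le, le_rfl⟩))
    linarith
  have kk : 0 < (1 - κ) ^ 2 := by
    have : 0 < 1 - κ := by linarith
    positivity
  have kk1 : (1 - κ) ^ 2 ≤ 1 := by nlinarith
  have mid : ∀ s, a₁ ≤ s → s ≤ b₁ → 6 * ‖f s‖ ≤ (1 - κ) ^ 2 * A ∧ 6 * ‖f s‖ ≤ (1 - κ) ^ 2 * B := by
    intro s g1 g2
    obtain ⟨q1, q2⟩ := fmid s g1 g2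
    have r1 := mul_le_mul_of_nonneg_left nA kk.le
    have r2 := mul_le_mul_of_nonneg_left nB kk.le
    constructor <;> linarith
  have mid' : ∀ s, a₁ ≤ s → s ≤ b₁ → |(f s).re| < A ∧ |(f s).re| < B := by
    intro s g1 g2
    obtain ⟨q1, q2⟩ := mid s g1 g2
    have := Complex.abs_re_le_norm (f s)
    have r1 := mul_le_mul_of_nonneg_right kk1 A0.le
    have r2 := mul_le_mul_of_nonneg_right kk1 B0.le
    constructor <;> linarith
  obtain ⟨a', ⟨⟨ha1, ha2⟩, ha3⟩, ha4⟩ : ∃ a' ∈ Icc a a₁ ∩ {s | (f s).re ≤ -A},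
      ∀ s ∈ Icc a a₁ ∩ {s | (f s).re ≤ -A}, s ≤ a' := by
    have hK : IsCompact (Icc a a₁ ∩ {s | (f s).re ≤ -A}) :=
      isCompact_Icc.inter_right (isClosed_le (continuous_re.comp fc) continuous_const)
    exact hK.exists_isGreatest ⟨a, ⟨le_rfl, h1.le⟩, by show (f a).re ≤ -A; rw [hA]; linarith⟩
  obtain ⟨b', ⟨⟨hb1, hb2⟩, hb3⟩, hb4⟩ : ∃ b' ∈ Icc b₁ b ∩ {s | B ≤ (f s).re},
      ∀ s ∈ Icc b₁ b ∩ {s | B ≤ (f s).re}, b' ≤ s := by
    have hK : IsCompact (Icc b₁ b ∩ {s | B ≤ (f s).re}) :=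
      isCompact_Icc.inter_right (isClosed_le continuous_const (continuous_re.comp fc))
    exact hK.exists_isLeast ⟨b, ⟨h6.le, le_rfl⟩, by show B ≤ (f b).re; rw [hB]⟩
  simp only [mem_setOf_eq] at ha3 hb3
  have ha5 : a' < a₁ := by
    refine lt_of_le_of_ne ha2 fun e => ?_
    have := (mid' a₁ le_rfl (by linarith)).1
    rw [abs_lt] at this
    rw [e] at ha3
    linarith [this.1]
  have hb5 : b₁ < b' := by
    refine lt_of_le_of_ne hb1 fun e => ?_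
    have := (mid' b₁ (by linarith) le_rfl).2
    rw [abs_lt] at this
    rw [← e] at hb3
    linarith [this.2]
  have W : Win f κ a' a₁ α β b₁ b' := by
    refine ⟨κ0, κ1, ha5, h2, by linarith, h5, hb5, by linarith, fun s g1 g2 => fL s (by linarith) g2,
      fun s g1 g2 => fR s g1 (by linarith), fun s g1 g2 s' g3 => fin s g1 g2 s' ?_,
      fun s g1 g2 => ?_, fun s' g3 => fne s' ?_⟩
    · rcases g3 with g3 | g3
      · exact Or.inl ⟨by linarith [g3.1], g3.2⟩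
      · exact Or.inr ⟨g3.1, by linarith [g3.2]⟩
    · obtain ⟨q1, q2⟩ := mid s g1 g2
      have r1 := mul_le_mul_of_nonneg_left (show A ≤ -(f a').re by linarith) kk.le
      have r2 := mul_le_mul_of_nonneg_left hb3 kk.le
      constructor <;> linarith
    · rcases g3 with g3 | g3
      · exact Or.inl ⟨by linarith [g3.1], g3.2⟩
      · exact Or.inr ⟨g3.1, by linarith [g3.2]⟩
  have hl : ∀ s, a' < s → s ≤ b' → (f a').re < (f s).re := by
    intro s g1 g2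
    rcases le_total s a₁ with g | g
    · by_contra hcon
      have := ha4 s ⟨⟨by linarith, g⟩, by show (f s).re ≤ -A; linarith⟩
      linarith
    rcases le_total s b₁ with g' | g'
    · have := (mid' s g g').1
      rw [abs_lt] at this
      linarith [this.1]
    · have := Win.re_of κ0 (fR s (by linarith) (by linarith))
      linarith
  have hr : ∀ s, a' ≤ s → s < b' → (f s).re < (f b').re := by
    intro s g1 g2
    rcases le_total b₁ s with g | g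
    · by_contra hcon
      have := hb4 s ⟨⟨g, by linarith⟩, by show B ≤ (f s).re; linarith⟩
      linarith
    rcases le_total a₁ s with g' | g'
    · have := (mid' s g' g).2
      rw [abs_lt] at this
      linarith [this.2]
    · have := Win.re_of κ0 (fL s (by linarith) (by linarith))
      linarith
  obtain ⟨zL, zR, z1, z2, hz⟩ := local_thm Lf Jf W hl hr
  refine ⟨zL, zR, b' - a', by linarith, by linarith, by linarith, fun δ T hδ hT hTt hp q hq => ?_⟩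
  exact hz δ T hδ hT (hf ▸ mv_tyA hTt) hp q hq

/-- families of type A with a further property `R` of the triangles -/
def TyR (c : ℝ → ℂ) (R : ℝ → ℝ → ℝ → Prop) (δ : ℝ) (T : Set Ann) : Prop :=
  ∀ p ∈ T, δ ≤ p.2 ∧ p.2 ≤ 1 - δ ∧ ∀ x : ℝ, (x : AddCircle (1 : ℝ)) = p.1 →
    ∃ u, x < u ∧ u < x + p.2 ∧ c u = c x + I * (c (x + p.2) - c x) ∧ R x u (x + p.2)

theorem TyR.tyA {R : ℝ → ℝ → ℝ → Prop} {δ : ℝ} {T : Set Ann} (h : TyR c R δ T) : TyA c δ T := by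
  intro p hp
  obtain ⟨d1, d2, hall⟩ := h p hp
  refine ⟨d1, d2, fun x hx => ?_⟩
  obtain ⟨u, u1, u2, u3, -⟩ := hall x hx
  exact ⟨u, u1, u2, u3⟩

/-- near the parameter `t` there are no triangles with the property `R` -/
def NoR (R : ℝ → ℝ → ℝ → Prop) (t : ℝ) : Prop :=
  ∃ ε > 0, ∀ x u y, t - ε < x → x < u → u < y → y < t + ε → ¬ R x u y

/-- there are no arbitrarily small families of type A -/
theorem tyR_false (L : Loop c) (J : Inj c) {R : ℝ → ℝ → ℝ → Prop}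
    (H : ∀ t, Hourglass c t ∨ NoR R t)
    (hT : ∀ ε > 0, ∃ δ, 0 < δ ∧ δ < ε ∧ ∃ T : Set Ann, IsPreconnected T ∧ TyR c R δ T ∧
      (∃ p ∈ T, p.2 = δ) ∧ ∃ p ∈ T, p.2 = 1 - δ) : False := by
  have hT' : ∀ n : ℕ, ∃ δ, 0 < δ ∧ δ < 1 / ((n : ℝ) + 1) ∧ ∃ T : Set Ann, IsPreconnected T ∧
      TyR c R δ T ∧ (∃ p ∈ T, p.2 = δ) ∧ ∃ p ∈ T, p.2 = 1 - δ :=
    fun n => hT _ Nat.one_div_pos_of_nat
  choose δ δ0 δ1 T hTc hTA hTp hTq using hT'
  choose p hp hp' using hTp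
  choose q hq hq' using hTq
  have hx : ∀ n, ∃ x ∈ Icc (0:ℝ) 1, (x : AddCircle (1 : ℝ)) = (p n).1 := fun n =>
    exists_rep (p n).1
  choose x hx hxp using hx
  obtain ⟨z, hz, φ, hφ, hlim⟩ := isCompact_Icc.tendsto_subseq hx
  have dlim : Tendsto (fun n => δ (φ n)) atTop (𝓝 0) := by
    have h0 : Tendsto (fun n : ℕ => 1 / ((n : ℝ) + 1)) atTop (𝓝 0) :=
      tendsto_one_div_add_atTop_nhds_zero_nat
    have h1 : Tendsto δ atTop (𝓝 0) :=
      squeeze_zero (fun n => (δ0 n).le) (fun n => (δ1 n).le) h0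
    exact h1.comp hφ.tendsto_atTop
  have key : ∀ zL zR, zL < z → z < zR → ∀ᶠ n in atTop, zL < x (φ n) ∧ x (φ n) + δ (φ n) < zR := by
    intro zL zR z1 z2
    have e1 : ∀ᶠ n in atTop, zL < x (φ n) := hlim.eventually (lt_mem_nhds z1)
    have e2 : ∀ᶠ n in atTop, x (φ n) + δ (φ n) < zR := by
      have : Tendsto (fun n => x (φ n) + δ (φ n)) atTop (𝓝 (z + 0)) := hlim.add dlim
      rw [add_zero] at this
      exact this.eventually (gt_mem_nhds z2)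
    exact e1.and e2
  rcases H z with H | ⟨ε, hε, H⟩
  · obtain ⟨zL, zR, d, z1, z2, hd, hloc⟩ := hour_thm L J H
    have e3 : ∀ᶠ n in atTop, δ (φ n) < 1 - d := dlim.eventually (gt_mem_nhds (by linarith))
    obtain ⟨n, ⟨a1, a2⟩, a3⟩ := ((key zL zR z1 z2).and e3).exists
    have := hloc (δ (φ n)) (T (φ n)) (δ0 _) (hTc _) (hTA _).tyA
      ⟨p (φ n), hp _, x (φ n), hxp _, a1, by rw [hp']; exact a2⟩ (q (φ n)) (hq _)
    rw [hq'] at this
    linarith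
  · obtain ⟨n, a1, a2⟩ := (key (z - ε) (z + ε) (by linarith) (by linarith)).exists
    obtain ⟨-, -, hall⟩ := hTA (φ n) (p (φ n)) (hp _)
    obtain ⟨u, u1, u2, -, u4⟩ := hall (x (φ n)) (hxp _)
    rw [hp'] at u2 u4
    exact H _ _ _ a1 u1 u2 a2 u4

/-- the curve run backwards -/
theorem rev_hour {t : ℝ} (h : Hourglass c t) : Hourglass (fun s => c (-s)) (-t) := by
  obtain ⟨κ, a, a₁, α, β, b₁, b, w, κ0, κ1, hw, h1, h2, h3, h4, h5, h6, h7, hL, hR, hin, hmid⟩ := h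
  refine ⟨κ, -b, -b₁, -β, -α, -a₁, -a, -w, κ0, κ1, neg_ne_zero.2 hw, by linarith, by linarith,
    by linarith, by linarith, by linarith, by linarith, by linarith, ?_, ?_, ?_, ?_⟩
  · intro s hs
    have := hR (-s) ⟨by linarith [hs.2], by linarith [hs.1]⟩
    simp only [neg_neg, neg_mul, neg_im, neg_re, abs_neg]
    simpa using this
  · intro s hs
    have := hL (-s) ⟨by linarith [hs.2], by linarith [hs.1]⟩
    simp only [neg_neg, neg_mul, neg_im, neg_re, abs_neg]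
    simpa using this
  · intro s hs s' hs'
    simp only [neg_neg]
    refine hin (-s) ⟨by linarith [hs.2], by linarith [hs.1]⟩ (-s') ?_
    rcases hs' with g | g
    · exact Or.inr ⟨by linarith [g.2], by linarith [g.1]⟩
    · exact Or.inl ⟨by linarith [g.2], by linarith [g.1]⟩
  · intro s hs
    simp only [neg_neg]
    have := hmid (-s) ⟨by linarith [hs.2], by linarith [hs.1]⟩
    exact ⟨this.2, this.1⟩

/-- near the parameter `t` there are no triangles `P, Q, V` with `V = P + i (Q - P)` between `P`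
and `Q` whose fourth vertex has the sign `σ` -/
def NoTri (c : ℝ → ℂ) (σ t : ℝ) : Prop :=
  ∃ ε > 0, ∀ t₁ t₂ t₃, t - ε < t₁ → t₁ < t₂ → t₂ < t₃ → t₃ < t + ε →
    ¬ TriM c I σ t₁ t₃ t₂ ∧ ¬ TriM c I σ t₃ t₁ t₂

theorem square_of_hour (L : Loop c) (J : Inj c) {σ : ℝ} (hσ : σ = 1 ∨ σ = -1)
    (H : ∀ t, Hourglass c t ∨ NoTri c σ t) :
    ∃ z w : ℂ, w ≠ 0 ∧ z ∈ range c ∧ z + w ∈ range c ∧ z + w + I * w ∈ range c ∧
      z + I * w ∈ range c := by
  by_contra nosq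
  by_cases hA : ∀ ε > 0, ∃ δ, 0 < δ ∧ δ < ε ∧ ∃ T : Set Ann, IsPreconnected T ∧
      TyR c (fun x u y => TriM c I σ x y u) δ T ∧ (∃ p ∈ T, p.2 = δ) ∧ ∃ p ∈ T, p.2 = 1 - δ
  · refine tyR_false L J (fun t => ?_) hA
    rcases H t with h | ⟨ε, hε, h⟩
    · exact Or.inl h
    · exact Or.inr ⟨ε, hε, fun x u y g1 g2 g3 g4 => (h x u y g1 g2 g3 g4).1⟩
  · push Not at hA
    obtain ⟨ε, hε, hA⟩ := hA
    obtain ⟨g, hg⟩ : ∃ g : ℝ → ℂ, g = fun s => c (-s) := ⟨_, rfl⟩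
    have Lg : Loop g := by
      have := L.cont
      refine ⟨by rw [hg]; fun_prop, fun s => ?_⟩
      rw [hg]
      simp only
      rw [← L.per (-(s + 1))]
      congr 1; ring
    have Jg : Inj g := by
      intro x y h1 h2
      rw [hg]
      exact (J (-y) (-x) (by linarith) (by linarith)).symm
    refine tyR_false Lg Jg (R := fun x u y => TriM c I σ (-x) (-y) (-u)) (fun t => ?_)
      fun ε' hε' => ?_
    · rcases H (-t) with h | ⟨ε, hε, h⟩
      · have := rev_hour h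
        rw [neg_neg] at this
        rw [hg]; exact Or.inl this
      · exact Or.inr ⟨ε, hε, fun x u y g1 g2 g3 g4 =>
          (h (-y) (-u) (-x) (by linarith) (by linarith) (by linarith) (by linarith)).2⟩
    obtain ⟨δ, hδ⟩ : ∃ δ, δ = min (min (ε / 2) (ε' / 2)) (1 / 4) := ⟨_, rfl⟩
    have δ0 : 0 < δ := by rw [hδ]; positivity
    have δ1 : δ < ε := by
      have : δ ≤ ε / 2 := by rw [hδ]; exact (min_le_left _ _).trans (min_le_left _ _)
      linarith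
    have δ2 : δ < ε' := by
      have : δ ≤ ε' / 2 := by rw [hδ]; exact (min_le_left _ _).trans (min_le_right _ _)
      linarith
    have δ3 : δ < 1 / 2 := by
      have : δ ≤ 1 / 4 := by rw [hδ]; exact min_le_right _ _
      linarith
    obtain ⟨T, hT, ⟨p1, hp1, e1⟩, ⟨p2, hp2, e2⟩, hb, hab⟩ :=
      tri_fam L J nosq (κ := I) (Or.inl rfl) hσ δ0 δ3
    rcases hab with hab | hab
    · exfalso
      exact hA δ δ0 δ1 T hT.isPreconnected (fun p hp => ⟨(hb p hp).1, (hb p hp).2, fun x hx => by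
        obtain ⟨u, a1, a2, a3⟩ := hab p hp x hx
        exact ⟨u, a1, a2, a3.1, a3⟩⟩) ⟨p1, hp1, e1⟩ p2 hp2 e2
    · have ch : Continuous fun p : Ann => ((-p.1, 1 - p.2) : Ann) :=
        continuous_fst.neg.prodMk (continuous_const.sub continuous_snd)
      refine ⟨δ, δ0, δ2, (fun p : Ann => ((-p.1, 1 - p.2) : Ann)) '' T,
        (hT.image _ ch.continuousOn).isPreconnected, ?_, ⟨_, ⟨p2, hp2, rfl⟩, ?_⟩,
        ⟨_, ⟨p1, hp1, rfl⟩, ?_⟩⟩
      · rintro _ ⟨p, hp, rfl⟩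
        refine ⟨by show δ ≤ 1 - p.2; linarith [(hb p hp).2],
          by show 1 - p.2 ≤ 1 - δ; linarith [(hb p hp).1], fun x hx => ?_⟩
        have hx' : ((-x : ℝ) : AddCircle (1 : ℝ)) = p.1 := by
          rw [AddCircle.coe_neg, hx]
          show - -p.1 = p.1
          rw [neg_neg]
        obtain ⟨u, a1, a2, a3⟩ := hab p hp (-x) hx'
        have g1 : c (-(1 - u)) = c u := by
          rw [← L.per (-(1 - u))]; congr 1; ring
        have g3 : c (-(x + (1 - p.2))) = c (-x + p.2) := by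
          rw [← L.per (-(x + (1 - p.2)))]; congr 1; ring
        refine ⟨1 - u, by linarith, by show 1 - u < x + (1 - p.2); linarith, ?_, ?_⟩
        · rw [hg]
          show c (-(1 - u)) = c (-x) + I * (c (-(x + (1 - p.2))) - c (-x))
          rw [g1, g3]
          exact a3.1
        · show TriM c I σ (-x) (-(x + (1 - p.2))) (-(1 - u))
          unfold TriM
          rw [g1, g3]
          exact a3
      · show 1 - p2.2 = δ
        rw [e2]; ring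
      · show 1 - p1.2 = 1 - δ
        rw [e1]

end Pool.Agent.N335.Hg
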