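import Pool.Agent.N335.Hg.Cor

/-! The theorem for the triangles on the other side, by reflection. -/

set_option autoImplicit false
open Complex Set Topology Metric
open scoped ComplexConjugate

namespace Pool.Agent.N335.Hg

open Pool.Agent.H763R2 Pool.Agent.H763R2.An
open Pool.Agent.Y765.Sq (Ann exists_int exists_rep TriM tri_fam)

variable {c : ℝ → ℂ}

theorem mgc_conj (L : Loop c) (z : ℂ) :
    mgc (fun t => conj (c (-t))) z = mgc c (conj z) := by
  have hc := L.cont
  have hr : range (fun t => conj (c (-t))) = conj '' range c := by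
    apply Subset.antisymm
    · rintro _ ⟨t, rfl⟩; exact ⟨_, mem_range_self _, rfl⟩
    · rintro _ ⟨_, ⟨t, rfl⟩, rfl⟩; exact ⟨- t, by simp⟩
  have hd : infDist z (range (fun t => conj (c (-t)))) = infDist (conj z) (range c) := by
    rw [hr]
    have := Metric.infDist_image (x := conj z) (t := range c) Complex.isometry_conj
    rw [← this, conj_conj]
  have hn : Odc (fun t => conj (c (-t))) z ↔ Odc c (conj z) := by
    constructor
    · rintro ⟨n, ⟨k, hk, ek, e⟩, ho⟩
      refine ⟨n, ⟨fun t => conj (k (-t)), continuous_conj.comp (hk.comp continuous_neg),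
        fun t => ?_, ?_⟩, ho⟩
      · rw [exp_conj, ek]
        simp
      · have hz' : ∀ t, exp (k t) ≠ 0 := fun t => exp_ne_zero _
        have := H777R2.exp_const (X := ℝ) (k := fun t => k (t + 1) - k t) (by fun_prop) (c := 1)
          (fun t => by
            rw [exp_sub, ek, ek]
            have h1 := L.per (-(t + 1))
            simp only
            rw [← h1]
            rw [show -(t + 1) + 1 = -t by ring]
            refine div_self ?_
            have := hz' t
            rwa [ek] at this) (-1) 0
        simp only [zero_add] at this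
        rw [e] at this
        simp only [neg_zero]
        rw [show (-1 : ℝ) + 1 = 0 by ring] at this
        rw [← map_sub, show k (-1) - k 0 = -(k 0 - k (-1)) by ring, this]
        simp only [map_neg, map_mul, map_ofNat, conj_ofReal, conj_I, map_intCast]
        ring
    · rintro ⟨n, ⟨k, hk, ek, e⟩, ho⟩
      refine ⟨n, ⟨fun t => conj (k (-t)), continuous_conj.comp (hk.comp continuous_neg),
        fun t => ?_, ?_⟩, ho⟩
      · rw [exp_conj, ek]
        simp
      · have hz' : ∀ t, exp (k t) ≠ 0 := fun t => exp_ne_zero _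
        have := H777R2.exp_const (X := ℝ) (k := fun t => k (t + 1) - k t) (by fun_prop) (c := 1)
          (fun t => by
            rw [exp_sub, ek, ek]
            rw [L.per t]
            refine div_self ?_
            have := hz' t
            rwa [ek] at this) (-1) 0
        simp only [zero_add] at this
        rw [e] at this
        simp only [neg_zero]
        rw [show (-1 : ℝ) + 1 = 0 by ring] at this
        rw [← map_sub, show k (-1) - k 0 = -(k 0 - k (-1)) by ring, this]
        simp only [map_neg, map_mul, map_ofNat, conj_ofReal, conj_I, map_intCast]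
        ring
  unfold mgc
  rw [hd]
  by_cases o : Odc c (conj z)
  · rw [if_pos o, if_pos (hn.2 o)]
  · rw [if_neg o, if_neg (fun h => o (hn.1 h))]

theorem conj_hour {t : ℝ} (h : Hourglass c t) : Hourglass (fun s => conj (c (-s))) (-t) := by
  obtain ⟨κ, a, a₁, α, β, b₁, b, w, κ0, κ1, hw, h1, h2, h3, h4, h5, h6, h7, hL, hR, hin, hmid⟩ :=
    rev_hour h
  have hn : ∀ s, ‖conj (c (-s)) - conj (c (- -t))‖ = ‖c (-s) - c (- -t)‖ := fun s => by
    rw [← map_sub, Complex.norm_conj]
  have e : ∀ s, conj w * (conj (c (-s)) - conj (c (- -t))) = conj (w * (c (-s) - c (- -t))) :=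
    fun s => by rw [map_mul, map_sub]
  refine ⟨κ, a, a₁, α, β, b₁, b, conj w, κ0, κ1, by rw [ne_eq, map_eq_zero]; exact hw, h1, h2, h3,
    h4, h5, h6, h7, fun s hs => ?_, fun s hs => ?_, fun s hs s' hs' => ?_, fun s hs => ?_⟩
  · simp only
    rw [e, conj_im, conj_re, abs_neg]
    exact hL s hs
  · simp only
    rw [e, conj_im, conj_re, abs_neg]
    exact hR s hs
  · simp only
    rw [hn, hn]
    exact hin s hs s' hs'
  · simp only
    rw [hn, hn, hn]
    exact hmid s hs

/-- near the parameter `t` there are no triangles `P, Q, V` with `V = P + κ (Q - P)` between `P`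
and `Q` whose fourth vertex has the sign `σ` -/
def NoTri' (c : ℝ → ℂ) (κ : ℂ) (σ t : ℝ) : Prop :=
  ∃ ε > 0, ∀ t₁ t₂ t₃, t - ε < t₁ → t₁ < t₂ → t₂ < t₃ → t₃ < t + ε →
    ¬ TriM c κ σ t₁ t₃ t₂ ∧ ¬ TriM c κ σ t₃ t₁ t₂

theorem square_of_hour' (L : Loop c) (J : Inj c) {κ : ℂ} (hκ : κ = I ∨ κ = -I) {σ : ℝ}
    (hσ : σ = 1 ∨ σ = -1) (H : ∀ t, Hourglass c t ∨ NoTri' c κ σ t) :
    ∃ z w : ℂ, w ≠ 0 ∧ z ∈ range c ∧ z + w ∈ range c ∧ z + w + I * w ∈ range c ∧
      z + I * w ∈ range c := by
  rcases hκ with rfl | rfl
  · exact square_of_hour L J hσ H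
  obtain ⟨g, hg⟩ : ∃ g : ℝ → ℂ, g = fun s => conj (c (-s)) := ⟨_, rfl⟩
  have Lg : Loop g := by
    have := L.cont
    refine ⟨by rw [hg]; exact continuous_conj.comp (this.comp continuous_neg), fun s => ?_⟩
    rw [hg]
    simp only
    rw [← L.per (-(s + 1))]
    congr 2; ring
  have Jg : Inj g := by
    intro x y h1 h2 h
    rw [hg] at h
    have h' := (starRingEnd ℂ).injective h
    exact (J (-y) (-x) (by linarith) (by linarith)).symm h'
  have hmem : ∀ z, z ∈ range g → conj z ∈ range c := by
    rintro _ ⟨s, rfl⟩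
    rw [hg]
    exact ⟨-s, by simp⟩
  have tri : ∀ x y u, TriM g I σ x y u → TriM c (-I) σ (-x) (-y) (-u) := by
    rintro x y u ⟨e1, e2⟩
    rw [hg] at e1 e2
    simp only at e1 e2
    constructor
    · have := congrArg conj e1
      simp only [map_add, map_mul, map_sub, conj_conj, conj_I] at this
      exact this
    · rw [mgc_conj L] at e2
      simp only [map_add, map_mul, map_sub, conj_conj, conj_I] at e2
      exact e2
  have key : ∀ t, Hourglass g t ∨ NoTri g σ t := by
    intro t
    rcases H (-t) with h | ⟨ε, hε, h⟩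
    · have := conj_hour h
      rw [neg_neg] at this
      rw [hg]
      exact Or.inl this
    · refine Or.inr ⟨ε, hε, fun t₁ t₂ t₃ g1 g2 g3 g4 => ?_⟩
      obtain ⟨q1, q2⟩ := h (-t₃) (-t₂) (-t₁) (by linarith) (by linarith) (by linarith) (by linarith)
      exact ⟨fun hh => q2 (tri _ _ _ hh), fun hh => q1 (tri _ _ _ hh)⟩
  obtain ⟨z, w, hw, m1, m2, m3, m4⟩ := square_of_hour Lg Jg hσ key
  refine ⟨conj (z + I * w), conj w, by rw [ne_eq, map_eq_zero]; exact hw, hmem _ m4, ?_, ?_, ?_⟩
  · have := hmem _ m3
    convert this using 1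
    simp only [map_add, map_mul, conj_I]
    ring
  · have := hmem _ m2
    convert this using 1
    simp only [map_add, map_mul, conj_I]
    ring
  · have := hmem _ m1
    convert this using 1
    simp only [map_add, map_mul, conj_I]
    ring

end Pool.Agent.N335.Hg
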