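import Pool.Agent.N335.Hg.MonEnd
import Pool.Agent.N335.Hg.Mirr

/-! Curves that are locally monotone at some points and have hourglasses at the other points. -/

set_option autoImplicit false
open Complex Set Topology Metric Filter

namespace Pool.Agent.N335.Hg

open Pool.Agent.H763R2 Pool.Agent.H763R2.An
open Pool.Agent.H763R2.Dm (NoSq)
open Pool.Agent.Y765.Sq (Ann exists_int exists_rep TriM tri_fam)

variable {c : ℝ → ℂ} {θ : ℝ → ℝ → ℝ}

/-- near the parameter `s` all chords go into an open half plane -/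
def Mon (c : ℝ → ℂ) (s : ℝ) : Prop := ∃ ρ > 0, ∃ w : ℂ, ∀ x y : ℝ, |x - s| < ρ → |y - s| < ρ →
  x < y → 0 < (w * (c y - c x)).re

theorem Mon.win {s : ℝ} (h : Mon c s) : ∃ ρ > 0, ∃ w, MonW c w (s - ρ) (s + ρ) := by
  obtain ⟨ρ, hρ, w, hw⟩ := h
  refine ⟨ρ, hρ, w, fun x y h1 h2 h3 => hw x y ?_ ?_ h2⟩
  · rw [abs_lt]; constructor <;> linarith
  · rw [abs_lt]; constructor <;> linarith

/-- families of triangles `P`, `Q`, `V` with `V` between `P` and `Q` and with the property `Rp` -/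
def TyP (c : ℝ → ℂ) (Rp : ℂ → ℂ → ℂ → Prop) (δ : ℝ) (T : Set Ann) : Prop :=
  ∀ p ∈ T, δ ≤ p.2 ∧ p.2 ≤ 1 - δ ∧ ∀ x : ℝ, (x : AddCircle (1 : ℝ)) = p.1 →
    ∃ u, x < u ∧ u < x + p.2 ∧ c u = c x + I * (c (x + p.2) - c x) ∧
      Rp (c x) (c (x + p.2)) (c u)

theorem TyP.tyA {Rp : ℂ → ℂ → ℂ → Prop} {δ : ℝ} {T : Set Ann} (h : TyP c Rp δ T) :
    TyA c δ T := by
  intro p hp
  obtain ⟨d1, d2, hall⟩ := h p hp
  refine ⟨d1, d2, fun x hx => ?_⟩
  obtain ⟨u, u1, u2, u3, -⟩ := hall x hx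
  exact ⟨u, u1, u2, u3⟩

/-- there are no triangles with the property `Rp` near the parameter `t` -/
def NoP (c : ℝ → ℂ) (Rp : ℂ → ℂ → ℂ → Prop) (t : ℝ) : Prop :=
  ∃ ε > 0, ∀ x y u, |x - t| < ε → |y - t| < ε → |u - t| < ε → ¬ Rp (c x) (c y) (c u)

theorem far_pos (L : Loop c) (J : Inj c) {t ρ : ℝ} (hρ : 0 < ρ) :
    ∃ d > 0, ∀ σ, t + ρ ≤ σ → σ ≤ t - ρ + 1 → d ≤ ‖c σ - c t‖ := by
  have cc := L.cont
  rcases le_or_gt (t + ρ) (t - ρ + 1) with h | h
  · obtain ⟨m, hm, hmin⟩ := (isCompact_Icc (a := t + ρ) (b := t - ρ + 1)).exists_isMinOn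
      ⟨t + ρ, le_rfl, h⟩ (f := fun σ => ‖c σ - c t‖) (by fun_prop)
    refine ⟨‖c m - c t‖, norm_pos_iff.2 (sub_ne_zero.2 ?_), fun σ h1 h2 => hmin ⟨h1, h2⟩⟩
    exact (J t m (by linarith [hm.1]) (by linarith [hm.2])).symm
  · exact ⟨1, one_pos, fun σ h1 h2 => absurd (h1.trans h2) (not_le.2 h)⟩

/-- the core of the argument -/
theorem core (L : Loop c) (J : Inj c) (nosq : NoSq (range c)) {Rp : ℂ → ℂ → ℂ → Prop}
    (hR : ∀ x y u, Rp (c x) (c y) (c u) → ∃ n : ℤ, n ≠ 0 ∧ IsWc c (c y + I * (c y - c x)) n)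
    (H : ∀ t, Mon c t ∨ Hourglass c t ∨ NoP c Rp t)
    (hT : ∀ ε > 0, ∃ δ, 0 < δ ∧ δ < ε ∧ ∃ T : Set Ann, IsPreconnected T ∧ TyP c Rp δ T ∧
      (∃ p ∈ T, p.2 = δ) ∧ ∃ p ∈ T, p.2 = 1 - δ) : False := by
  have cc := L.cont
  obtain ⟨θ, D⟩ := exists_dirn L J
  have hT' : ∀ n : ℕ, ∃ δ, 0 < δ ∧ δ < 1 / ((n : ℝ) + 1) ∧ ∃ T : Set Ann, IsPreconnected T ∧
      TyP c Rp δ T ∧ (∃ p ∈ T, p.2 = δ) ∧ ∃ p ∈ T, p.2 = 1 - δ :=
    fun n => hT _ Nat.one_div_pos_of_nat
  choose δ δ0 δ1 T hTc hTA hTp hTq using hT'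
  choose p hp hp' using hTp
  choose q hq hq' using hTq
  have hx : ∀ n, ∃ x ∈ Icc (0:ℝ) 1, (x : AddCircle (1 : ℝ)) = (p n).1 := fun n =>
    exists_rep (p n).1
  choose x hx hxp using hx
  have hX : ∀ n, ∃ x ∈ Icc (0:ℝ) 1, (x : AddCircle (1 : ℝ)) = (q n).1 := fun n =>
    exists_rep (q n).1
  choose X hX hXq using hX
  have hu : ∀ n, ∃ u, x n < u ∧ u < x n + δ n ∧
      c u = c (x n) + I * (c (x n + δ n) - c (x n)) ∧ Rp (c (x n)) (c (x n + δ n)) (c u) := by
    intro n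
    obtain ⟨-, -, hall⟩ := hTA n (p n) (hp n)
    have := hall (x n) (hxp n)
    rwa [hp'] at this
  choose u u1 u2 u3 u4 using hu
  have hU : ∀ n, ∃ u, X n < u ∧ u < X n + (1 - δ n) ∧
      c u = c (X n) + I * (c (X n + (1 - δ n)) - c (X n)) ∧
      Rp (c (X n)) (c (X n + (1 - δ n))) (c u) := by
    intro n
    obtain ⟨-, -, hall⟩ := hTA n (q n) (hq n)
    have := hall (X n) (hXq n)
    rwa [hq'] at this
  choose U U1 U2 U3 U4 using hU
  obtain ⟨⟨z, Z, v⟩, hz, φ, hφ, hlim⟩ := (isCompact_Icc.prod (isCompact_Icc.prod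
    (isCompact_Icc (a := (0:ℝ)) (b := 2)))).tendsto_subseq
    (x := fun n => (x n, X n, U n)) (fun n => ⟨hx n, hX n, ⟨by linarith [(hX n).1, U1 n],
      by linarith [(hX n).2, U2 n, δ0 n]⟩⟩)
  have lx : Tendsto (fun n => x (φ n)) atTop (𝓝 z) :=
    (continuous_fst.tendsto _).comp hlim
  have lX : Tendsto (fun n => X (φ n)) atTop (𝓝 Z) :=
    ((continuous_fst.comp continuous_snd).tendsto _).comp hlim
  have lU : Tendsto (fun n => U (φ n)) atTop (𝓝 v) :=
    ((continuous_snd.comp continuous_snd).tendsto _).comp hlim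
  have lδ : Tendsto (fun n => δ (φ n)) atTop (𝓝 0) := by
    have h0 : Tendsto (fun n : ℕ => 1 / ((n : ℝ) + 1)) atTop (𝓝 0) :=
      tendsto_one_div_add_atTop_nhds_zero_nat
    have h1 : Tendsto δ atTop (𝓝 0) :=
      squeeze_zero (fun n => (δ0 n).le) (fun n => (δ1 n).le) h0
    exact h1.comp hφ.tendsto_atTop
  have lx2 : Tendsto (fun n => x (φ n) + δ (φ n)) atTop (𝓝 z) := by
    have := lx.add lδ
    rwa [add_zero] at this
  have lQ : Tendsto (fun n => X (φ n) + (1 - δ (φ n)) - 1) atTop (𝓝 Z) := by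
    have := (lX.add (tendsto_const_nhds (x := (1:ℝ)) |>.sub lδ)).sub
      (tendsto_const_nhds (x := (1:ℝ)))
    rwa [sub_zero, add_sub_cancel_right] at this
  have eQ : ∀ n, c (X n + (1 - δ n) - 1) = c (X n + (1 - δ n)) := fun n => by
    rw [← L.per (X n + (1 - δ n) - 1)]; congr 1; ring
  have lcQ : Tendsto (fun n => c (X (φ n) + (1 - δ (φ n)))) atTop (𝓝 (c Z)) := by
    have := (cc.tendsto Z).comp lQ
    refine this.congr fun n => ?_
    exact eQ (φ n)
  have lcX : Tendsto (fun n => c (X (φ n))) atTop (𝓝 (c Z)) := (cc.tendsto Z).comp lX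
  have lcU : Tendsto (fun n => c (U (φ n))) atTop (𝓝 (c v)) := (cc.tendsto v).comp lU
  have hcv : c v = c Z := by
    have h1 : Tendsto (fun n => c (U (φ n))) atTop (𝓝 (c Z + I * (c Z - c Z))) := by
      have := lcX.add ((lcQ.sub lcX).const_mul I)
      refine this.congr fun n => ?_
      exact (U3 (φ n)).symm
    have := tendsto_nhds_unique lcU h1
    rw [this, sub_self, mul_zero, add_zero]
  have v1 : Z ≤ v := le_of_tendsto_of_tendsto' lX lU fun n => (U1 (φ n)).le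
  have v2 : v ≤ Z + 1 := by
    have h2 : Tendsto (fun n => X (φ n) + 1) atTop (𝓝 (Z + 1)) := lX.add_const 1
    exact le_of_tendsto_of_tendsto' lU h2 fun n => by linarith [U2 (φ n), δ0 (φ n)]
  have hv : v = Z ∨ v = Z + 1 := by
    rcases eq_or_lt_of_le v1 with h | h
    · exact Or.inl h.symm
    · rcases eq_or_lt_of_le v2 with h' | h'
      · exact Or.inr h'
      · exact absurd hcv.symm (J Z v h h')
  have lU' : Tendsto (fun n => U (φ n) - 1) atTop (𝓝 (v - 1)) := lU.sub_const 1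
  have eU : ∀ n, c (U n - 1) = c (U n) := fun n => by
    rw [← L.per (U n - 1)]; congr 1; ring
  -- the short end
  rcases H z with hz1 | hz1 | ⟨ε, hε, hz1⟩
  · -- locally monotone at the short end
    obtain ⟨ρ, hρ, w, M⟩ := hz1.win
    have ev1 : ∀ᶠ n in atTop, z - ρ < x (φ n) := lx.eventually (lt_mem_nhds (by linarith))
    have ev2 : ∀ᶠ n in atTop, x (φ n) + δ (φ n) < z + ρ :=
      lx2.eventually (gt_mem_nhds (by linarith))
    have ev3 : ∀ᶠ n in atTop, δ (φ n) < 1 / 2 := lδ.eventually (gt_mem_nhds (by norm_num))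
    have lab : ∀ n, z - ρ < x (φ n) → x (φ n) + δ (φ n) < z + ρ → δ (φ n) < 1 / 2 →
        (X (φ n), 1 - δ (φ n), U (φ n)) ∈ Mm c (δ (φ n)) 0 ∧
        l1 θ (X (φ n), 1 - δ (φ n), U (φ n)) = Real.pi / 2 ∧
        m1 c (X (φ n), 1 - δ (φ n), U (φ n)) = -(Real.pi / 4) ∧
        m2 c (X (φ n), 1 - δ (φ n), U (φ n)) = Real.pi / 2 := by
      intro n g1 g2 g3
      have d0 := δ0 (φ n)
      have hm1 : (x (φ n), δ (φ n), u (φ n)) ∈ Mm c (δ (φ n)) 0 :=
        ⟨⟨(hx _).1, by rw [zero_add]; exact (hx _).2⟩, ⟨le_rfl, by show δ (φ n) ≤ _; linarith⟩,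
          (u1 _).le, (u2 _).le, u3 _⟩
      have hm2 : (X (φ n), 1 - δ (φ n), U (φ n)) ∈ Mm c (δ (φ n)) 0 :=
        ⟨⟨(hX _).1, by rw [zero_add]; exact (hX _).2⟩,
          ⟨by show δ (φ n) ≤ 1 - δ (φ n); linarith, le_rfl⟩, (U1 _).le, (U2 _).le, U3 _⟩
      obtain ⟨b1, b2, b3⟩ := mon_short L J nosq D d0 hm1 M g1 g2
      refine ⟨hm2, labels L J nosq D d0 (hTc (φ n)) (hTA (φ n)).tyA hm1 ?_ b1 b2 b3 _ hm2 ?_⟩
      · have : (((x (φ n) : AddCircle (1 : ℝ)), δ (φ n)) : Ann) = p (φ n) :=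
          Prod.ext (hxp _) (hp' _).symm
        rw [this]; exact hp _
      · have : (((X (φ n) : AddCircle (1 : ℝ)), 1 - δ (φ n)) : Ann) = q (φ n) :=
          Prod.ext (hXq _) (hq' _).symm
        rw [this]; exact hq _
    -- the long end
    rcases H Z with hZ1 | hZ1 | ⟨ε, hε, hZ1⟩
    · obtain ⟨r, hr, w', M'⟩ := hZ1.win
      rcases hv with hv | hv
      · obtain ⟨d, hd, hfar⟩ := far_pos L J (t := Z) hr
        rw [hv] at lU lcU
        have f1 : ∀ᶠ n in atTop, Z - r < X (φ n) + (1 - δ (φ n)) - 1 :=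
          lQ.eventually (lt_mem_nhds (by linarith))
        have f2 : ∀ᶠ n in atTop, U (φ n) < Z + r := lU.eventually (gt_mem_nhds (by linarith))
        have nn : ∀ {f : ℕ → ℂ}, Tendsto f atTop (𝓝 (c Z)) → ∀ᶠ n in atTop, 4 * ‖f n - c Z‖ < d := by
          intro f hf
          have h1 : Tendsto (fun n => 4 * ‖f n - c Z‖) atTop (𝓝 (4 * ‖c Z - c Z‖)) :=
            ((hf.sub_const (c Z)).norm).const_mul 4
          rw [sub_self, norm_zero, mul_zero] at h1
          exact h1.eventually (gt_mem_nhds hd)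
        obtain ⟨n, g1, g2, g3, g4, g5, g6, g7, g8⟩ := (ev1.and (ev2.and (ev3.and (f1.and (f2.and
          ((nn lcX).and ((nn lcQ).and (nn lcU)))))))).exists
        obtain ⟨hm2, b1, -, b3⟩ := lab n g1 g2 g3
        exact mon_long2 L J nosq D (δ0 _) hm2 M' g4 g5 (t := Z) (d := d)
          (fun σ h1 h2 => hfar σ h1 (by linarith)) g6 g7 g8 ⟨b1, b3⟩
      · rw [hv, add_sub_cancel_right] at lU'
        have f1 : ∀ᶠ n in atTop, Z - r < U (φ n) - 1 := lU'.eventually (lt_mem_nhds (by linarith))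
        have f2 : ∀ᶠ n in atTop, X (φ n) < Z + r := lX.eventually (gt_mem_nhds (by linarith))
        obtain ⟨n, g1, g2, g3, g4, g5⟩ := (ev1.and (ev2.and (ev3.and (f1.and f2)))).exists
        obtain ⟨hm2, b1, b2, b3⟩ := lab n g1 g2 g3
        obtain ⟨k, hk, hk'⟩ := hR _ _ _ (U4 (φ n))
        exact mon_long3 L J nosq (δ0 _) hm2 M' g4 g5 hk hk' b2
    · obtain ⟨zL, zR, d, y1, y2, hd, hloc⟩ := hour_long L J hZ1
      have e3 : ∀ᶠ n in atTop, δ (φ n) < d := lδ.eventually (gt_mem_nhds hd)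
      rcases hv with hv | hv
      · rw [hv] at lU
        have f1 : ∀ᶠ n in atTop, zL < X (φ n) + (1 - δ (φ n)) - 1 :=
          lQ.eventually (lt_mem_nhds y1)
        have f2 : ∀ᶠ n in atTop, U (φ n) < zR := lU.eventually (gt_mem_nhds y2)
        obtain ⟨n, g1, g2, g3⟩ := (f1.and (f2.and e3)).exists
        have := hloc (δ (φ n)) (T (φ n)) (δ0 _) (hTc _) (hTA _).tyA ⟨q (φ n), hq _, X (φ n),
          U (φ n), hXq _, U1 _, by rw [hq']; exact U2 _, by rw [hq']; exact U3 _,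
          Or.inl ⟨by rw [hq']; exact g1, g2⟩⟩ (p (φ n)) (hp _)
        rw [hp'] at this
        linarith
      · rw [hv, add_sub_cancel_right] at lU'
        have f1 : ∀ᶠ n in atTop, zL < U (φ n) - 1 := lU'.eventually (lt_mem_nhds y1)
        have f2 : ∀ᶠ n in atTop, X (φ n) < zR := lX.eventually (gt_mem_nhds y2)
        obtain ⟨n, g1, g2, g3⟩ := (f1.and (f2.and e3)).exists
        have := hloc (δ (φ n)) (T (φ n)) (δ0 _) (hTc _) (hTA _).tyA ⟨q (φ n), hq _, X (φ n),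
          U (φ n), hXq _, U1 _, by rw [hq']; exact U2 _, by rw [hq']; exact U3 _,
          Or.inr ⟨g1, g2⟩⟩ (p (φ n)) (hp _)
        rw [hp'] at this
        linarith
    · have nb : ∀ {f : ℕ → ℝ}, Tendsto f atTop (𝓝 Z) → ∀ᶠ n in atTop, |f n - Z| < ε := by
        intro f hf
        have h1 := (hf.sub_const Z).abs
        rw [sub_self, abs_zero] at h1
        exact h1.eventually (gt_mem_nhds hε)
      rcases hv with hv | hv
      · rw [hv] at lU
        obtain ⟨n, g1, g2, g3⟩ := ((nb lX).and ((nb lQ).and (nb lU))).exists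
        refine hZ1 _ _ _ g1 g2 g3 ?_
        rw [eQ]
        exact U4 _
      · rw [hv, add_sub_cancel_right] at lU'
        obtain ⟨n, g1, g2, g3⟩ := ((nb lX).and ((nb lQ).and (nb lU'))).exists
        refine hZ1 _ _ _ g1 g2 g3 ?_
        rw [eQ, eU]
        exact U4 _
  · obtain ⟨zL, zR, d, z1, z2, hd, hloc⟩ := hour_thm L J hz1
    have e1 : ∀ᶠ n in atTop, zL < x (φ n) := lx.eventually (lt_mem_nhds z1)
    have e2 : ∀ᶠ n in atTop, x (φ n) + δ (φ n) < zR := lx2.eventually (gt_mem_nhds z2)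
    have e3 : ∀ᶠ n in atTop, δ (φ n) < 1 - d := lδ.eventually (gt_mem_nhds (by linarith))
    obtain ⟨n, a1, a2, a3⟩ := (e1.and (e2.and e3)).exists
    have := hloc (δ (φ n)) (T (φ n)) (δ0 _) (hTc _) (hTA _).tyA
      ⟨p (φ n), hp _, x (φ n), hxp _, a1, by rw [hp']; exact a2⟩ (q (φ n)) (hq _)
    rw [hq'] at this
    linarith
  · have lu : Tendsto (fun n => u (φ n)) atTop (𝓝 z) :=
      tendsto_of_tendsto_of_tendsto_of_le_of_le lx lx2 (fun n => (u1 (φ n)).le)
        (fun n => (u2 (φ n)).le)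
    have nb : ∀ {f : ℕ → ℝ}, Tendsto f atTop (𝓝 z) → ∀ᶠ n in atTop, |f n - z| < ε := by
      intro f hf
      have h1 := (hf.sub_const z).abs
      rw [sub_self, abs_zero] at h1
      exact h1.eventually (gt_mem_nhds hε)
    obtain ⟨n, g1, g2, g3⟩ := ((nb lx).and ((nb lx2).and (nb lu))).exists
    exact hz1 _ _ _ g1 g2 g3 (u4 _)

/-- the triangles whose fourth vertex is inside -/
def RI (c : ℝ → ℂ) (P Q V : ℂ) : Prop := V = P + I * (Q - P) ∧ 0 < mgc c (Q + I * (Q - P))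

theorem square_grand (L : Loop c) (J : Inj c)
    (H : ∀ t, Mon c t ∨ Hourglass c t ∨ NoP c (RI c) t) :
    ∃ z w : ℂ, w ≠ 0 ∧ z ∈ range c ∧ z + w ∈ range c ∧ z + w + I * w ∈ range c ∧
      z + I * w ∈ range c := by
  by_contra nosq
  have wc : ∀ {z : ℂ}, 0 < mgc c z → ∃ n : ℤ, n ≠ 0 ∧ IsWc c z n := by
    intro z hz
    unfold mgc at hz
    split_ifs at hz with h
    · obtain ⟨n, hn, ho⟩ := h
      exact ⟨n, by rintro rfl; exact absurd ho (by decide), hn⟩
    · have := infDist_nonneg (x := z) (s := range c)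
      linarith
  by_cases hA : ∀ ε > 0, ∃ δ, 0 < δ ∧ δ < ε ∧ ∃ T : Set Ann, IsPreconnected T ∧
      TyP c (RI c) δ T ∧ (∃ p ∈ T, p.2 = δ) ∧ ∃ p ∈ T, p.2 = 1 - δ
  · exact core L J nosq (fun x y u h => wc h.2) H hA
  · push Not at hA
    obtain ⟨ε, hε, hA⟩ := hA
    obtain ⟨g, hg⟩ : ∃ g : ℝ → ℂ, g = fun s => c (-s) := ⟨_, rfl⟩
    have Lg' : Loop g := by
      have := L.cont
      refine ⟨by rw [hg]; fun_prop, fun s => ?_⟩
      rw [hg]
      simp only
      rw [← L.per (-(s + 1))]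
      congr 1; ring
    have Jg : Inj g := by
      intro x y h1 h2
      rw [hg]
      exact (J (-y) (-x) (by linarith) (by linarith)).symm
    have hrg : range g = range c := by
      rw [hg]
      apply Subset.antisymm
      · rintro _ ⟨s, rfl⟩; exact ⟨-s, rfl⟩
      · rintro _ ⟨s, rfl⟩; exact ⟨-s, by simp⟩
    refine core Lg' Jg (by rw [hrg]; exact nosq) (Rp := RI c) (fun x y u h => ?_) (fun t => ?_)
      fun ε' hε' => ?_
    · obtain ⟨n, hn, k, hk, ek, e⟩ := wc h.2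
      refine ⟨-n, neg_ne_zero.2 hn, fun t => k (-t), by fun_prop, fun t => ?_, ?_⟩
      · rw [hg]
        simp only
        rw [ek, hg]
      · have h3 := H777R2.exp_const (X := ℝ) (k := fun t => k (t + 1) - k t) (by fun_prop) (c := 1)
          (fun t => by
            rw [exp_sub, ek, ek, L.per, ← ek, div_self (exp_ne_zero _)]) (-1) 0
        simp only [zero_add] at h3
        rw [show (-1 : ℝ) + 1 = 0 by ring, e] at h3
        simp only [neg_zero]
        rw [show k (-1) - k 0 = -(k 0 - k (-1)) by ring, h3]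
        push_cast; ring
    · rcases H (-t) with ⟨ρ, hρ, w, hw⟩ | h | ⟨ε, hε, h⟩
      · refine Or.inl ⟨ρ, hρ, -w, fun x y h1 h2 h3 => ?_⟩
        have := hw (-y) (-x) (by rw [← abs_neg]; convert h2 using 2; ring)
          (by rw [← abs_neg]; convert h1 using 2; ring) (by linarith)
        rw [hg]
        simp only
        rw [show -w * (c (-y) - c (-x)) = w * (c (-x) - c (-y)) by ring]
        exact this
      · have := rev_hour h
        rw [neg_neg] at this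
        rw [hg]; exact Or.inr (Or.inl this)
      · refine Or.inr (Or.inr ⟨ε, hε, fun x y u h1 h2 h3 => ?_⟩)
        rw [hg]
        exact h (-x) (-y) (-u) (by rw [← abs_neg]; convert h1 using 2; ring)
          (by rw [← abs_neg]; convert h2 using 2; ring)
          (by rw [← abs_neg]; convert h3 using 2; ring)
    obtain ⟨δ, hδ⟩ : ∃ δ, δ = min (min (ε / 2) (ε' / 2)) (1 / 4) := ⟨_, rfl⟩
    have δ0 : 0 < δ := by rw [hδ]; positivity
    have δ1 : δ < ε := by
      have : δ ≤ ε / 2 := by rw [hδ]; exact (min_le_left _ _).trans (min_le_left _ _)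
      linarith
    have δ2 : δ < ε' := by
      have : δ ≤ ε' / 2 := by rw [hδ]; exact (min_le_left _ _).trans (min_le_right _ _)
      linarith
    have δ3 : δ < 1 / 2 := by
      have : δ ≤ 1 / 4 := by rw [hδ]; exact min_le_right _ _
      linarith
    obtain ⟨T, hT, ⟨p1, hp1, e1⟩, ⟨p2, hp2, e2⟩, hb, hab⟩ :=
      tri_fam L J nosq (κ := I) (Or.inl rfl) (σ := 1) (Or.inl rfl) δ0 δ3
    rcases hab with hab | hab
    · exfalso
      exact hA δ δ0 δ1 T hT.isPreconnected (fun p hp => ⟨(hb p hp).1, (hb p hp).2, fun x hx => by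
        obtain ⟨u, a1, a2, a3, a4⟩ := hab p hp x hx
        exact ⟨u, a1, a2, a3, a3, by rwa [one_mul] at a4⟩⟩) ⟨p1, hp1, e1⟩ p2 hp2 e2
    · have ch : Continuous fun p : Ann => ((-p.1, 1 - p.2) : Ann) :=
        continuous_fst.neg.prodMk (continuous_const.sub continuous_snd)
      refine ⟨δ, δ0, δ2, (fun p : Ann => ((-p.1, 1 - p.2) : Ann)) '' T,
        (hT.image _ ch.continuousOn).isPreconnected, ?_, ⟨_, ⟨p2, hp2, rfl⟩, ?_⟩,
        ⟨_, ⟨p1, hp1, rfl⟩, ?_⟩⟩
      · rintro _ ⟨p, hp, rfl⟩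
        refine ⟨by show δ ≤ 1 - p.2; linarith [(hb p hp).2],
          by show 1 - p.2 ≤ 1 - δ; linarith [(hb p hp).1], fun x hx => ?_⟩
        have hx' : ((-x : ℝ) : AddCircle (1 : ℝ)) = p.1 := by
          rw [AddCircle.coe_neg, hx]
          show - -p.1 = p.1
          rw [neg_neg]
        obtain ⟨u, a1, a2, a3, a4⟩ := hab p hp (-x) hx'
        rw [one_mul] at a4
        have g1 : c (-(1 - u)) = c u := by
          rw [← L.per (-(1 - u))]; congr 1; ring
        have g3 : c (-(x + (1 - p.2))) = c (-x + p.2) := by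
          rw [← L.per (-(x + (1 - p.2)))]; congr 1; ring
        refine ⟨1 - u, by linarith, by show 1 - u < x + (1 - p.2); linarith, ?_, ?_⟩
        · rw [hg]
          show c (-(1 - u)) = c (-x) + I * (c (-(x + (1 - p.2))) - c (-x))
          rw [g1, g3]
          exact a3
        · rw [hg]
          show RI c (c (-x)) (c (-(x + (1 - p.2)))) (c (-(1 - u)))
          rw [g1, g3]
          exact ⟨a3, a4⟩
      · show 1 - p2.2 = δ
        rw [e2]; ring
      · show 1 - p1.2 = 1 - δ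
        rw [e1]

end Pool.Agent.N335.Hg
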