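import Pool.Agent.N335.Hg.Grand

/-! The theorem for both kinds of triangles, by reflection. -/

set_option autoImplicit false
open Complex Set Topology Metric
open scoped ComplexConjugate

namespace Pool.Agent.N335.Hg

open Pool.Agent.H763R2 Pool.Agent.H763R2.An

variable {c : ℝ → ℂ}

theorem square_grand' (L : Loop c) (J : Inj c) {κ : ℂ} (hκ : κ = I ∨ κ = -I)
    (H : ∀ t, Mon c t ∨ Hourglass c t ∨ NoP c (fun P Q V => V = P + κ * (Q - P) ∧
      0 < mgc c (Q + κ * (Q - P))) t) :
    ∃ z w : ℂ, w ≠ 0 ∧ z ∈ range c ∧ z + w ∈ range c ∧ z + w + I * w ∈ range c ∧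
      z + I * w ∈ range c := by
  rcases hκ with rfl | rfl
  · exact square_grand L J H
  obtain ⟨g, hg⟩ : ∃ g : ℝ → ℂ, g = fun s => conj (c (-s)) := ⟨_, rfl⟩
  have Lg : Loop g := by
    have := L.cont
    refine ⟨by rw [hg]; exact continuous_conj.comp (this.comp continuous_neg), fun s => ?_⟩
    rw [hg]
    simp only
    rw [← L.per (-(s + 1))]
    congr 2; ring
  have Jg : Inj g := by
    intro x y h1 h2 h
    rw [hg] at h
    have h' := (starRingEnd ℂ).injective h
    exact (J (-y) (-x) (by linarith) (by linarith)).symm h'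
  have hmem : ∀ z, z ∈ range g → conj z ∈ range c := by
    rintro _ ⟨s, rfl⟩
    rw [hg]
    exact ⟨-s, by simp⟩
  have key : ∀ t, Mon g t ∨ Hourglass g t ∨ NoP g (RI g) t := by
    intro t
    rcases H (-t) with ⟨ρ, hρ, w, hw⟩ | h | ⟨ε, hε, h⟩
    · refine Or.inl ⟨ρ, hρ, -conj w, fun x y h1 h2 h3 => ?_⟩
      have := hw (-y) (-x) (by rw [← abs_neg]; convert h2 using 2; ring)
        (by rw [← abs_neg]; convert h1 using 2; ring) (by linarith)
      rw [hg]
      simp only
      rw [show -conj w * (conj (c (-y)) - conj (c (-x))) = conj (w * (c (-x) - c (-y))) by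
        simp only [map_mul, map_sub]; ring, conj_re]
      exact this
    · have := conj_hour h
      rw [neg_neg] at this
      rw [hg]
      exact Or.inr (Or.inl this)
    · refine Or.inr (Or.inr ⟨ε, hε, fun x y u h1 h2 h3 hR => ?_⟩)
      refine h (-x) (-y) (-u) (by rw [← abs_neg]; convert h1 using 2; ring)
          (by rw [← abs_neg]; convert h2 using 2; ring)
          (by rw [← abs_neg]; convert h3 using 2; ring) ?_
      obtain ⟨e1, e2⟩ := hR
      rw [hg] at e1 e2
      simp only at e1 e2
      constructor
      · have := congrArg conj e1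
        simp only [map_add, map_mul, map_sub, conj_conj, conj_I] at this
        exact this
      · rw [mgc_conj L] at e2
        simp only [map_add, map_mul, map_sub, conj_conj, conj_I] at e2
        exact e2
  obtain ⟨z, w, hw, m1, m2, m3, m4⟩ := square_grand Lg Jg key
  refine ⟨conj (z + I * w), conj w, by rw [ne_eq, map_eq_zero]; exact hw, hmem _ m4, ?_, ?_, ?_⟩
  · have := hmem _ m3
    convert this using 1
    simp only [map_add, map_mul, conj_I]
    ring
  · have := hmem _ m2
    convert this using 1
    simp only [map_add, map_mul, conj_I]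
    ring
  · have := hmem _ m1
    convert this using 1
    simp only [map_add, map_mul, conj_I]
    ring

end Pool.Agent.N335.Hg
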