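import Pool.Agent.N335.Hg.Th
import Pool.Agent.H763R2.An.G

/-! The variation of the direction from a point outside a closed curve along an arc. -/

set_option autoImplicit false
open Complex Set Topology Metric

namespace Pool.Agent.N335.Hg

open Pool.Agent.H763R2 Pool.Agent.H763R2.An

variable {c : ℝ → ℂ} {z : ℂ}

/-- a continuous logarithm of `c - z` -/
def Lg (c : ℝ → ℂ) (z : ℂ) (k : ℝ → ℂ) : Prop := Continuous k ∧ ∀ t, exp (k t) = c t - z

open Classical in
/-- the variation of the direction from `z` to `c` along the arc over `[s, t]` -/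
noncomputable def Phi (c : ℝ → ℂ) (z : ℂ) (s t : ℝ) : ℝ :=
  if h : ∃ k, Lg c z k then (h.choose t - h.choose s).im else 0

theorem exists_Lg (L : Loop c) (hz : z ∉ range c) : ∃ k, Lg c z k := by
  have cc := L.cont
  obtain ⟨k, hk, ek⟩ := H777R2.exists_log (X := ℝ) (g := fun t => c t - z)
    (by fun_prop) (ne_of_notMem hz)
  exact ⟨k, hk, ek⟩

theorem Phi_eq {k : ℝ → ℂ} (hk : Lg c z k) (s t : ℝ) : Phi c z s t = (k t - k s).im := by
  have h : ∃ k, Lg c z k := ⟨k, hk⟩
  unfold Phi
  rw [dif_pos h]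
  obtain ⟨h1, h2⟩ := h.choose_spec
  obtain ⟨k1, k2⟩ := hk
  have e := H777R2.exp_const (X := ℝ) (k := fun t => h.choose t - k t) (by fun_prop) (c := 1)
    (fun t => by
      rw [exp_sub, h2, k2]
      refine div_self ?_
      rw [← k2]; exact exp_ne_zero _) t s
  have : h.choose t - h.choose s = k t - k s := by
    linear_combination e
  rw [this]

theorem Phi_add (L : Loop c) (hz : z ∉ range c) (s t r : ℝ) :
    Phi c z s t + Phi c z t r = Phi c z s r := by
  obtain ⟨k, hk⟩ := exists_Lg L hz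
  rw [Phi_eq hk, Phi_eq hk, Phi_eq hk, ← add_im]
  congr 1; ring

theorem Phi_per (L : Loop c) (hz : z ∉ range c) (s t : ℝ) :
    Phi c z (s + 1) (t + 1) = Phi c z s t := by
  obtain ⟨k, hk, ek⟩ := exists_Lg L hz
  have h2 : Lg c z (fun t => k (t + 1)) := ⟨by fun_prop, fun t => by rw [ek, L.per]⟩
  rw [Phi_eq ⟨hk, ek⟩, Phi_eq h2]

theorem Phi_wind (L : Loop c) {n : ℤ} (h : IsWc c z n) (s : ℝ) :
    Phi c z s (s + 1) = n * (2 * Real.pi) := by
  obtain ⟨k, hk, ek, e⟩ := h
  have h3 := H777R2.exp_const (X := ℝ) (k := fun t => k (t + 1) - k t) (by fun_prop) (c := 1)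
    (fun t => by
      rw [exp_sub, ek, ek, L.per, ← ek, div_self (exp_ne_zero _)]) s 0
  simp only [zero_add] at h3
  rw [Phi_eq ⟨hk, ek⟩, h3, e]
  rw [show (n : ℂ) * (2 * Real.pi * I) = (((n : ℝ) * (2 * Real.pi) : ℝ) : ℂ) * I by
    push_cast; ring, mul_I_im, ofReal_re]

theorem Phi_polar (L : Loop c) (hz : z ∉ range c) (s t : ℝ) :
    ∃ ρ : ℝ, 0 < ρ ∧ c t - z = ρ * exp (Phi c z s t * I) * (c s - z) := by
  obtain ⟨k, hk, ek⟩ := exists_Lg L hz
  refine ⟨Real.exp (k t - k s).re, Real.exp_pos _, ?_⟩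
  rw [Phi_eq ⟨hk, ek⟩, ofReal_exp, ← exp_add, re_add_im, ← ek, ← ek, ← exp_add]
  congr 1; ring

/-- the variation depends continuously on everything -/
theorem Phi_cont (L : Loop c) :
    ContinuousOn (fun p : ℂ × ℝ × ℝ => Phi c p.1 p.2.1 p.2.2) {p | p.1 ∉ range c} := by
  have cc := L.cont
  rintro ⟨z0, s0, t0⟩ hz0
  simp only [mem_ofPred_eq] at hz0
  apply ContinuousAt.continuousWithinAt
  obtain ⟨k, hk, ek⟩ := exists_Lg L hz0
  have hd : 0 < infDist z0 (range c) := (L.closed.notMem_iff_infDist_pos L.ne).1 hz0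
  have hne : ∀ t, c t - z0 ≠ 0 := fun t => by rw [← ek]; exact exp_ne_zero _
  -- the quotient
  have key : ∀ z ∈ ball z0 (infDist z0 (range c)), ∀ t, 0 < ((c t - z) / (c t - z0)).re := by
    intro z hz t
    have h1 : ‖z - z0‖ < ‖c t - z0‖ := by
      have h2 : infDist z0 (range c) ≤ dist z0 (c t) := infDist_le_dist_of_mem (mem_range_self t)
      rw [dist_comm, dist_eq_norm] at h2
      rw [mem_ball, dist_eq_norm] at hz
      linarith
    have e : (c t - z) / (c t - z0) = 1 - (z - z0) / (c t - z0) := by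
      have := hne t
      field_simp
      ring
    rw [e, sub_re, one_re]
    have h3 : ‖(z - z0) / (c t - z0)‖ < 1 := by
      rw [norm_div, div_lt_one (norm_pos_iff.2 (hne t))]
      exact h1
    have h4 := re_le_norm ((z - z0) / (c t - z0))
    linarith
  have hlog : ∀ z ∈ ball z0 (infDist z0 (range c)),
      Lg c z (fun t => k t + log ((c t - z) / (c t - z0))) := by
    intro z hz
    constructor
    · refine hk.add ?_
      refine Continuous.clog ?_ fun t => Or.inl (key z hz t)
      exact (cc.sub continuous_const).div (cc.sub continuous_const) hne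
    · intro t
      have h0 : (c t - z) / (c t - z0) ≠ 0 := fun h => by
        have := key z hz t
        rw [h] at this
        simp at this
      simp only
      rw [exp_add, exp_log h0, ek]
      have := hne t
      field_simp
  have hev : ∀ᶠ p : ℂ × ℝ × ℝ in 𝓝 (z0, s0, t0), p.1 ∈ ball z0 (infDist z0 (range c)) :=
    continuous_fst.continuousAt.eventually (ball_mem_nhds _ hd)
  have hca : ContinuousAt (fun p : ℂ × ℝ × ℝ => (k p.2.2 + log ((c p.2.2 - p.1) / (c p.2.2 - z0)) -
      (k p.2.1 + log ((c p.2.1 - p.1) / (c p.2.1 - z0)))).im) (z0, s0, t0) := by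
    refine continuous_im.continuousAt.comp ?_
    have e0 : ∀ t, (c t - z0) / (c t - z0) ∈ slitPlane := fun t => by
      rw [div_self (hne t)]; exact one_mem_slitPlane
    refine ContinuousAt.sub (ContinuousAt.add (by fun_prop) ?_)
      (ContinuousAt.add (by fun_prop) ?_)
    · refine ContinuousAt.clog ?_ (e0 t0)
      refine ContinuousAt.div (by fun_prop) (by fun_prop) (hne t0)
    · refine ContinuousAt.clog ?_ (e0 s0)
      refine ContinuousAt.div (by fun_prop) (by fun_prop) (hne s0)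
  refine hca.congr (hev.mono fun p hp => ?_)
  exact (Phi_eq (hlog p.1 hp) p.2.1 p.2.2).symm

/-- continuous angles with positive cosine stay in an interval of length `π` -/
theorem close_of_cos {φ : ℝ → ℝ} {Y : Set ℝ} (hY : IsPreconnected Y) (hφ : ContinuousOn φ Y)
    (h : ∀ y ∈ Y, 0 < Real.cos (φ y)) {y₀ y₁ : ℝ} (h0 : y₀ ∈ Y) (h1 : y₁ ∈ Y) :
    |φ y₁ - φ y₀| < Real.pi := by
  have hO := (hY.image φ hφ).ordConnected
  have key : ∀ a ∈ Y, ∀ b ∈ Y, φ b - φ a < Real.pi := by
    intro a ha b hb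
    by_contra hcon
    push Not at hcon
    have hπ := Real.pi_pos
    obtain ⟨y, hy, e⟩ := hO.out (mem_image_of_mem φ ha) (mem_image_of_mem φ hb)
      (show φ a + Real.pi ∈ Icc (φ a) (φ b) from ⟨by linarith, by linarith⟩)
    have h2 := h y hy
    rw [e, Real.cos_add_pi] at h2
    linarith [h a ha]
  rw [abs_lt]
  constructor
  · have := key y₁ h1 y₀ h0
    linarith
  · exact key y₀ h0 y₁ h1

/-- the variation is less than `π` if the arc is seen in a half plane -/
theorem Phi_half (L : Loop c) (hz : z ∉ range c) {w : ℂ} {s t : ℝ} (hst : s ≤ t)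
    (h : ∀ τ ∈ Icc s t, 0 < (w * (c τ - z)).re) : |Phi c z s t| < Real.pi := by
  obtain ⟨k, hk, ek⟩ := exists_Lg L hz
  have hw : w ≠ 0 := by
    rintro rfl
    have := h s ⟨le_rfl, hst⟩
    rw [zero_mul, zero_re] at this
    exact lt_irrefl _ this
  obtain ⟨v, hv⟩ : ∃ v, exp v = w := ⟨log w, exp_log hw⟩
  have := close_of_cos (φ := fun τ => (k τ + v).im) (Y := Icc s t) isPreconnected_Icc
    (by fun_prop) (fun τ hτ => by
      have h2 := h τ hτ
      rw [← ek, ← hv, ← exp_add, exp_re, add_comm v] at h2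
      exact (mul_pos_iff_of_pos_left (Real.exp_pos _)).1 h2) (y₀ := s) (y₁ := t) ⟨le_rfl, hst⟩
    ⟨hst, le_rfl⟩
  rw [Phi_eq ⟨hk, ek⟩]
  convert this using 2
  simp only [add_im, sub_im]
  ring

end Pool.Agent.N335.Hg
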