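import Pool.Agent.N335.Hg.Long
import Pool.Agent.N335.Hg.Phi

/-! Labels of connected families of triangles: winding around the fourth vertex of the square. -/

set_option autoImplicit false
open Complex Set Topology Metric Filter

namespace Pool.Agent.N335.Hg

open Pool.Agent.H763R2 Pool.Agent.H763R2.An
open Pool.Agent.H763R2.Dm (NoSq)
open Pool.Agent.Y765.Sq (Ann exists_int exists_rep TriM tri_fam)

variable {c : ℝ → ℂ} {θ : ℝ → ℝ → ℝ}

/-- the chord angle under a shift by a period -/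
theorem Dirn.per (D : Dirn c θ) (L : Loop c) : ∃ C : ℝ, ∀ x y, x < y → y < x + 1 →
    θ (x + 1) (y + 1) = θ x y + C := by
  have hne : UU.Nonempty := ⟨(0, 1/2), by norm_num [UU]⟩
  have : PreconnectedSpace UU := Subtype.preconnectedSpace UU_convex.isPreconnected
  have c1 : Continuous fun p : UU => θ p.1.1 p.1.2 := by
    have := continuousOn_iff_continuous_domRestrict.1 D.cont
    exact this
  have c2 : Continuous fun p : UU => θ (p.1.1 + 1) (p.1.2 + 1) := by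
    have hm : ∀ p : UU, ((p.1.1 + 1, p.1.2 + 1) : ℝ × ℝ) ∈ UU := fun p =>
      ⟨by show p.1.1 + 1 < p.1.2 + 1; linarith [p.2.1],
        by show p.1.2 + 1 < p.1.1 + 1 + 1; linarith [p.2.2]⟩
    have := c1.comp (f := fun p : UU => (⟨(p.1.1 + 1, p.1.2 + 1), hm p⟩ : UU)) (by fun_prop)
    exact this
  have key := H777R2.exp_const (X := UU)
    (k := fun p => (((θ (p.1.1 + 1) (p.1.2 + 1) - θ p.1.1 p.1.2 : ℝ) : ℂ)) * I)
    ((continuous_ofReal.comp (c2.sub c1)).mul continuous_const) (c := 1) (fun p => by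
      obtain ⟨ρ, hρ, e⟩ := D.ex p.1.1 p.1.2 p.2.1 p.2.2
      obtain ⟨ρ', hρ', e'⟩ := D.ex (p.1.1 + 1) (p.1.2 + 1) (by linarith [p.2.1])
        (by linarith [p.2.2])
      rw [L.per, L.per, e] at e'
      obtain ⟨n, hn⟩ := ang_eq hρ' hρ e'.symm
      rw [hn, add_sub_cancel_left, exp_eq_one_iff]
      exact ⟨n, by push_cast; ring⟩)
  refine ⟨θ (0 + 1) (1 / 2 + 1) - θ 0 (1 / 2), fun x y h1 h2 => ?_⟩
  have h := key ⟨(x, y), ⟨h1, h2⟩⟩ ⟨(0, 1 / 2), by norm_num [UU]⟩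
  simp only at h
  have h3 := mul_right_cancel₀ I_ne_zero h
  have h4 : θ (x + 1) (y + 1) - θ x y = θ (0 + 1) (1 / 2 + 1) - θ 0 (1 / 2) := by
    exact_mod_cast h3
  linarith

/-- a connected family stays in a clopen part that is invariant under the shift -/
theorem clopen2 (L : Loop c) (J : Inj c) {δ a : ℝ} (hδ : 0 < δ) {T : Set Ann}
    (hT : IsPreconnected T) (hTt : TyA c δ T) {S : Set (ℝ × ℝ × ℝ)}
    (h1 : IsClosed (Mm c δ a ∩ S)) (h2 : IsClosed (Mm c δ a ∩ Sᶜ))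
    (hsh : ∀ x s u, x < u → u < x + s → x + s < x + 1 → ((x + 1, s, u + 1) ∈ S ↔ (x, s, u) ∈ S))
    {q₀ : ℝ × ℝ × ℝ} (hq₀ : q₀ ∈ Mm c δ a ∩ S)
    (hq₀T : (((q₀.1 : AddCircle (1 : ℝ)), q₀.2.1) : Ann) ∈ T) :
    ∀ q ∈ Mm c δ a, (((q.1 : AddCircle (1 : ℝ)), q.2.1) : Ann) ∈ T → q ∈ S := by
  obtain ⟨π, hπ⟩ : ∃ π : ℝ × ℝ × ℝ → Ann, π = fun q => ((q.1 : AddCircle (1 : ℝ)), q.2.1) :=
    ⟨_, rfl⟩
  have cπ : Continuous π := by
    rw [hπ]
    exact ((AddCircle.continuous_mk' 1).comp continuous_fst).prodMk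
      (continuous_fst.comp continuous_snd)
  have hM := Mm_compact L.cont δ a hδ
  have g1 : IsClosed (π '' (Mm c δ a ∩ S)) :=
    ((hM.of_isClosed_subset h1 inter_subset_left).image cπ).isClosed
  have g2 : IsClosed (π '' (Mm c δ a ∩ Sᶜ)) :=
    ((hM.of_isClosed_subset h2 inter_subset_left).image cπ).isClosed
  have hcov : T ⊆ π '' (Mm c δ a ∩ S) ∪ π '' (Mm c δ a ∩ Sᶜ) := by
    intro p hp
    obtain ⟨d1, d2, hall⟩ := hTt p hp
    obtain ⟨y, hy⟩ := QuotientAddGroup.mk_surjective p.1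
    change (y : AddCircle (1 : ℝ)) = p.1 at hy
    obtain ⟨x, hx⟩ : ∃ x, x = a + Int.fract (y - a) := ⟨_, rfl⟩
    have hxp : (x : AddCircle (1 : ℝ)) = p.1 := by
      rw [← hy, hx]
      have : y = a + Int.fract (y - a) + (⌊y - a⌋ : ℝ) := by
        rw [add_assoc, Int.fract_add_floor]; ring
      rw [this, AddCircle.coe_add (p := (1:ℝ)) (a + Int.fract (y - a)) _]
      have h0 : ((⌊y - a⌋ : ℝ) : AddCircle (1 : ℝ)) = 0 := by
        rw [AddCircle.coe_eq_zero_iff]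
        exact ⟨⌊y - a⌋, by simp⟩
      rw [show a + Int.fract (y - a) + (⌊y - a⌋ : ℝ) - a = y - a from by rw [← this]]
      rw [h0, add_zero]
    obtain ⟨u, u1, u2, u3⟩ := hall x hxp
    have hmem : (x, p.2, u) ∈ Mm c δ a :=
      ⟨⟨by rw [hx]; linarith [Int.fract_nonneg (y - a)],
        by rw [hx]; linarith [Int.fract_lt_one (y - a)]⟩, ⟨d1, d2⟩, u1.le, u2.le, u3⟩
    have hpi : π (x, p.2, u) = p := by rw [hπ]; exact Prod.ext hxp rfl
    by_cases hS : (x, p.2, u) ∈ S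
    · exact Or.inl ⟨_, ⟨hmem, hS⟩, hpi⟩
    · exact Or.inr ⟨_, ⟨hmem, hS⟩, hpi⟩
  have hinj : ∀ q ∈ Mm c δ a, ∀ q' ∈ Mm c δ a, π q = π q' → (q ∈ S ↔ q' ∈ S) := by
    rintro ⟨x, s, u⟩ hq ⟨x', s', u'⟩ hq' e
    have s1 := Mm_strict J hδ hq
    have s2 := Mm_strict J hδ hq'
    obtain ⟨k1, k2, k3, k4, k5⟩ := hq
    obtain ⟨l1, l2, l3, l4, l5⟩ := hq'
    rw [hπ] at e
    simp only at *
    obtain ⟨e4, e5⟩ := Prod.mk.injEq .. ▸ e
    obtain ⟨n, hn⟩ := exists_int e4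
    subst e5
    have n1 : (-2 : ℝ) < n := by linarith [l1.2, k1.1]
    have n2 : (n : ℝ) < 2 := by linarith [l1.1, k1.2]
    have n3 : -2 < n := by exact_mod_cast n1
    have n4 : n < 2 := by exact_mod_cast n2
    have hcu : c u = c (u' + n) := by
      rw [L.per_int, k5, l5, hn, L.per_int, show x' + (n:ℝ) + s = x' + s + n by ring, L.per_int]
    have hu : u = u' + n := by
      rcases lt_trichotomy u (u' + n) with h | h | h
      · exact absurd hcu (J u (u' + n) h (by linarith))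
      · exact h
      · exact absurd hcu.symm (J (u' + n) u h (by linarith))
    have n5 : n = -1 ∨ n = 0 ∨ n = 1 := by omega
    rcases n5 with rfl | rfl | rfl
    · have := hsh x s u s1.1 s1.2.1 s1.2.2
      rw [hn, hu] at this ⊢
      push_cast at this ⊢
      rw [show x' + -1 + 1 = x' by ring, show u' + -1 + 1 = u' by ring] at this
      exact this.symm
    · rw [hn, hu]
      simp
    · have := hsh x' s u' s2.1 s2.2.1 s2.2.2
      rw [hn, hu]
      push_cast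
      exact this
  have hdis : ∀ p, ¬ (p ∈ π '' (Mm c δ a ∩ S) ∧ p ∈ π '' (Mm c δ a ∩ Sᶜ)) := by
    rintro p ⟨⟨q, hq, e⟩, ⟨q', hq', e'⟩⟩
    exact hq'.2 ((hinj q hq.1 q' hq'.1 (e.trans e'.symm)).1 hq.2)
  intro q hq hqT
  have hp1 : π q ∈ π '' (Mm c δ a ∩ S) := by
    by_contra hcon
    have hp : π q ∈ T := by rw [hπ]; exact hqT
    have hp2 := (hcov hp).resolve_left hcon
    obtain ⟨r, -, hr⟩ := isPreconnected_closed_iff.1 hT _ _ g1 g2 hcov
      ⟨_, hq₀T, ⟨q₀, hq₀, by rw [hπ]⟩⟩ ⟨π q, hp, hp2⟩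
    exact hdis r hr
  obtain ⟨q', hq', e⟩ := hp1
  exact (hinj q' hq'.1 q hq e).1 hq'.2

/-- the fourth vertex of the square -/
def E4 (c : ℝ → ℂ) (q : ℝ × ℝ × ℝ) : ℂ := c (q.1 + q.2.1) + I * (c (q.1 + q.2.1) - c q.1)

/-- winding of the arc from `P` to `V` around the fourth vertex -/
noncomputable def m1 (c : ℝ → ℂ) (q : ℝ × ℝ × ℝ) : ℝ := Phi c (E4 c q) q.1 q.2.2
/-- winding of the arc from `V` to `Q` around the fourth vertex -/
noncomputable def m2 (c : ℝ → ℂ) (q : ℝ × ℝ × ℝ) : ℝ := Phi c (E4 c q) q.2.2 (q.1 + q.2.1)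

theorem E4_notMem (J : Inj c) (nosq : NoSq (range c)) {δ a : ℝ} (hδ : 0 < δ)
    {q : ℝ × ℝ × ℝ} (hq : q ∈ Mm c δ a) : E4 c q ∉ range c := by
  intro h
  have s := Mm_strict J hδ hq
  obtain ⟨-, -, -, -, k5⟩ := hq
  refine nosq ⟨c q.1, c (q.1 + q.2.1) - c q.1, sub_ne_zero.2
    (J _ _ (by linarith) s.2.2).symm, mem_range_self _, ?_, ?_, ?_⟩
  · rw [add_sub_cancel]; exact mem_range_self _
  · have e : c q.1 + (c (q.1 + q.2.1) - c q.1) + I * (c (q.1 + q.2.1) - c q.1) = E4 c q := by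
      unfold E4; ring
    rw [e]; exact h
  · rw [← k5]; exact mem_range_self _

theorem m1_val (L : Loop c) (J : Inj c) (nosq : NoSq (range c)) {δ a : ℝ} (hδ : 0 < δ)
    {q : ℝ × ℝ × ℝ} (hq : q ∈ Mm c δ a) : ∃ j : ℤ, m1 c q = -(Real.pi / 4) + j * (2 * Real.pi) := by
  have hE := E4_notMem J nosq hδ hq
  have s := Mm_strict J hδ hq
  obtain ⟨-, -, -, -, k5⟩ := hq
  have hne : c (q.1 + q.2.1) - c q.1 ≠ 0 := sub_ne_zero.2 (J _ _ (by linarith) s.2.2).symm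
  obtain ⟨ρ, hρ, e⟩ := Phi_polar L hE q.1 q.2.2
  have e1 : c q.1 - E4 c q = -((1 + I) * (c (q.1 + q.2.1) - c q.1)) := by unfold E4; ring
  have e2 : c q.2.2 - E4 c q = -(c (q.1 + q.2.1) - c q.1) := by rw [k5]; unfold E4; ring
  rw [e1, e2] at e
  have e3 : (1 : ℂ) = ρ * exp (Phi c (E4 c q) q.1 q.2.2 * I) * (1 + I) := by
    have : (1 : ℂ) * (c (q.1 + q.2.1) - c q.1) =
        ρ * exp (Phi c (E4 c q) q.1 q.2.2 * I) * (1 + I) * (c (q.1 + q.2.1) - c q.1) := by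
      linear_combination -e
    exact mul_right_cancel₀ hne this
  have e4 : (2 * ρ : ℝ) * exp (m1 c q * I) = (√2 : ℝ) * exp (((-(Real.pi / 4) : ℝ) : ℂ) * I) := by
    rw [← one_sub_I]
    unfold m1
    have h2 : (1 : ℂ) * (1 - I) = ρ * exp (Phi c (E4 c q) q.1 q.2.2 * I) * (1 + I) * (1 - I) := by
      rw [← e3]
    push_cast
    linear_combination -h2 + ρ * exp (Phi c (E4 c q) q.1 q.2.2 * I) * I_sq
  exact ang_eq (by positivity) (by positivity) e4

theorem m2_val (L : Loop c) (J : Inj c) (nosq : NoSq (range c)) {δ a : ℝ} (hδ : 0 < δ)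
    {q : ℝ × ℝ × ℝ} (hq : q ∈ Mm c δ a) : ∃ j : ℤ, m2 c q = Real.pi / 2 + j * (2 * Real.pi) := by
  have hE := E4_notMem J nosq hδ hq
  have s := Mm_strict J hδ hq
  obtain ⟨-, -, -, -, k5⟩ := hq
  have hne : c (q.1 + q.2.1) - c q.1 ≠ 0 := sub_ne_zero.2 (J _ _ (by linarith) s.2.2).symm
  obtain ⟨ρ, hρ, e⟩ := Phi_polar L hE q.2.2 (q.1 + q.2.1)
  have e1 : c (q.1 + q.2.1) - E4 c q = -(I * (c (q.1 + q.2.1) - c q.1)) := by unfold E4; ring
  have e2 : c q.2.2 - E4 c q = -(c (q.1 + q.2.1) - c q.1) := by rw [k5]; unfold E4; ring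
  rw [e1, e2] at e
  have e3 : I = ρ * exp (Phi c (E4 c q) q.2.2 (q.1 + q.2.1) * I) := by
    have : I * (c (q.1 + q.2.1) - c q.1) =
        ρ * exp (Phi c (E4 c q) q.2.2 (q.1 + q.2.1) * I) * (c (q.1 + q.2.1) - c q.1) := by
      linear_combination -e
    exact mul_right_cancel₀ hne this
  have e4 : (ρ : ℝ) * exp (m2 c q * I) = (1 : ℝ) * exp (((Real.pi / 2 : ℝ) : ℂ) * I) := by
    unfold m2
    rw [← e3]
    push_cast
    rw [exp_pi_div_two_mul_I, one_mul]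
  exact ang_eq hρ one_pos e4

theorem E4_cont (L : Loop c) : Continuous (E4 c) := by
  have := L.cont
  unfold E4
  fun_prop

theorem m1_cont (L : Loop c) (J : Inj c) (nosq : NoSq (range c)) {δ a : ℝ} (hδ : 0 < δ) :
    ContinuousOn (m1 c) (Mm c δ a) := by
  have := E4_cont L
  exact (Phi_cont L).comp (f := fun q : ℝ × ℝ × ℝ => (E4 c q, q.1, q.2.2)) (by fun_prop)
    fun q hq => E4_notMem J nosq hδ hq

theorem m2_cont (L : Loop c) (J : Inj c) (nosq : NoSq (range c)) {δ a : ℝ} (hδ : 0 < δ) :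
    ContinuousOn (m2 c) (Mm c δ a) := by
  have := E4_cont L
  exact (Phi_cont L).comp (f := fun q : ℝ × ℝ × ℝ => (E4 c q, q.2.2, q.1 + q.2.1)) (by fun_prop)
    fun q hq => E4_notMem J nosq hδ hq

theorem l1_val (D : Dirn c θ) (J : Inj c) {δ a : ℝ} (hδ : 0 < δ)
    {q : ℝ × ℝ × ℝ} (hq : q ∈ Mm c δ a) : ∃ j : ℤ, l1 θ q = Real.pi / 2 + j * (2 * Real.pi) := by
  have s := Mm_strict J hδ hq
  obtain ⟨j, hj⟩ := D.lab1 s.1 s.2.1 s.2.2 hq.2.2.2.2
  exact ⟨j, by unfold l1; linarith⟩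

/-- the labels of all members of a family agree -/
theorem labels (L : Loop c) (J : Inj c) (nosq : NoSq (range c)) (D : Dirn c θ) {δ a : ℝ}
    (hδ : 0 < δ) {T : Set Ann} (hT : IsPreconnected T) (hTt : TyA c δ T) {q₀ : ℝ × ℝ × ℝ}
    (hq₀ : q₀ ∈ Mm c δ a) (hq₀T : (((q₀.1 : AddCircle (1 : ℝ)), q₀.2.1) : Ann) ∈ T)
    (e1 : l1 θ q₀ = Real.pi / 2) (e2 : m1 c q₀ = -(Real.pi / 4)) (e3 : m2 c q₀ = Real.pi / 2) :
    ∀ q ∈ Mm c δ a, (((q.1 : AddCircle (1 : ℝ)), q.2.1) : Ann) ∈ T →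
      l1 θ q = Real.pi / 2 ∧ m1 c q = -(Real.pi / 4) ∧ m2 c q = Real.pi / 2 := by
  have hM := Mm_closed L.cont δ a
  obtain ⟨a1, a1'⟩ := disc_closed hM (l1_cont D J (a := a) hδ) (fun q hq => l1_val D J hδ hq)
  obtain ⟨a2, a2'⟩ := disc_closed hM (m1_cont L J nosq (a := a) hδ)
    (fun q hq => m1_val L J nosq hδ hq)
  obtain ⟨a3, a3'⟩ := disc_closed hM (m2_cont L J nosq (a := a) hδ)
    (fun q hq => m2_val L J nosq hδ hq)
  obtain ⟨C, hC⟩ := D.per L
  have k1 : Mm c δ a ∩ {q | l1 θ q = Real.pi / 2 ∧ m1 c q = -(Real.pi / 4) ∧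
      m2 c q = Real.pi / 2} = (Mm c δ a ∩ {q | l1 θ q = Real.pi / 2}) ∩
      ((Mm c δ a ∩ {q | m1 c q = -(Real.pi / 4)}) ∩ (Mm c δ a ∩ {q | m2 c q = Real.pi / 2})) := by
    ext q
    simp only [mem_inter_iff, mem_ofPred_eq]
    tauto
  have k2 : Mm c δ a ∩ {q | l1 θ q = Real.pi / 2 ∧ m1 c q = -(Real.pi / 4) ∧
      m2 c q = Real.pi / 2}ᶜ = (Mm c δ a ∩ {q | l1 θ q ≠ Real.pi / 2}) ∪
      ((Mm c δ a ∩ {q | m1 c q ≠ -(Real.pi / 4)}) ∪ (Mm c δ a ∩ {q | m2 c q ≠ Real.pi / 2})) := by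
    ext q
    simp only [mem_inter_iff, mem_union, mem_ofPred_eq, mem_compl_iff, ne_eq]
    tauto
  have key := clopen2 L J hδ hT hTt (a := a) (S := {q | l1 θ q = Real.pi / 2 ∧
      m1 c q = -(Real.pi / 4) ∧ m2 c q = Real.pi / 2}) (by rw [k1]; exact a1.inter (a2.inter a3))
    (by rw [k2]; exact a1'.union (a2'.union a3')) (fun x s u g1 g2 g3 => by
      have f1 : l1 θ (x + 1, s, u + 1) = l1 θ (x, s, u) := by
        unfold l1
        simp only
        rw [show x + 1 + s = x + s + 1 by ring, hC x u g1 (by linarith),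
          hC x (x + s) (by linarith) g3]
        ring
      have f0 : E4 c (x + 1, s, u + 1) = E4 c (x, s, u) := by
        unfold E4
        simp only
        rw [show x + 1 + s = x + s + 1 by ring, L.per, L.per]
      by_cases hE : E4 c (x, s, u) ∈ range c
      · have z1 : ∀ s' t', Phi c (E4 c (x, s, u)) s' t' = 0 := by
          intro s' t'
          unfold Phi
          rw [dif_neg]
          rintro ⟨k, hk, ek⟩
          obtain ⟨τ, hτ⟩ := hE
          have := ek τ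
          rw [hτ, sub_self] at this
          exact exp_ne_zero _ this
        simp only [mem_ofPred_eq]
        unfold m1 m2
        rw [f0, f1]
        simp only [z1]
      · have f2 : m1 c (x + 1, s, u + 1) = m1 c (x, s, u) := by
          unfold m1
          rw [f0]
          exact Phi_per L hE _ _
        have f3 : m2 c (x + 1, s, u + 1) = m2 c (x, s, u) := by
          unfold m2
          rw [f0]
          simp only
          rw [show x + 1 + s = x + s + 1 by ring]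
          exact Phi_per L hE _ _
        simp only [mem_ofPred_eq]
        rw [f1, f2, f3]) ⟨hq₀, e1, e2, e3⟩ hq₀T
  exact key

end Pool.Agent.N335.Hg
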