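import Pool.Agent.N335.Hg.Win
import Pool.Agent.Y765.Sq.Tri

/-! Connected families of triangles cannot leave a window. -/

set_option autoImplicit false
open Complex Set Topology Metric

namespace Pool.Agent.N335.Hg

open Pool.Agent.H763R2 Pool.Agent.H763R2.An
open Pool.Agent.Y765.Sq (Ann exists_int)

variable {c : ℝ → ℂ} {θ : ℝ → ℝ → ℝ}

/-- triangles `P = c x`, `V = c u`, `Q = c (x + s)`, `x < u < x + s`, `V = P + i (Q - P)` -/
def Mm (c : ℝ → ℂ) (δ a : ℝ) : Set (ℝ × ℝ × ℝ) :=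
  {q | q.1 ∈ Icc a (a + 1) ∧ q.2.1 ∈ Icc δ (1 - δ) ∧ q.1 ≤ q.2.2 ∧ q.2.2 ≤ q.1 + q.2.1 ∧
    c q.2.2 = c q.1 + I * (c (q.1 + q.2.1) - c q.1)}

/-- type A families -/
def TyA (c : ℝ → ℂ) (δ : ℝ) (T : Set Ann) : Prop :=
  ∀ p ∈ T, δ ≤ p.2 ∧ p.2 ≤ 1 - δ ∧ ∀ x : ℝ, (x : AddCircle (1 : ℝ)) = p.1 →
    ∃ u, x < u ∧ u < x + p.2 ∧ c u = c x + I * (c (x + p.2) - c x)

theorem Mm_closed (hc : Continuous c) (δ a : ℝ) : IsClosed (Mm c δ a) := by
  have k1 : IsClosed {q : ℝ × ℝ × ℝ | q.1 ∈ Icc a (a + 1)} := isClosed_Icc.preimage continuous_fst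
  have k2 : IsClosed {q : ℝ × ℝ × ℝ | q.2.1 ∈ Icc δ (1 - δ)} :=
    isClosed_Icc.preimage (continuous_fst.comp continuous_snd)
  have k3 : IsClosed {q : ℝ × ℝ × ℝ | q.1 ≤ q.2.2} := isClosed_le (by fun_prop) (by fun_prop)
  have k4 : IsClosed {q : ℝ × ℝ × ℝ | q.2.2 ≤ q.1 + q.2.1} :=
    isClosed_le (by fun_prop) (by fun_prop)
  have k5 : IsClosed {q : ℝ × ℝ × ℝ | c q.2.2 = c q.1 + I * (c (q.1 + q.2.1) - c q.1)} :=
    isClosed_eq (by fun_prop) (by fun_prop)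
  exact k1.inter (k2.inter (k3.inter (k4.inter k5)))

theorem Mm_compact (hc : Continuous c) (δ a : ℝ) (hδ : 0 < δ) : IsCompact (Mm c δ a) := by
  have hK : IsCompact (Icc a (a + 1) ×ˢ Icc δ (1 - δ) ×ˢ Icc a (a + 2)) :=
    isCompact_Icc.prod (isCompact_Icc.prod isCompact_Icc)
  refine hK.of_isClosed_subset (Mm_closed hc δ a) ?_
  rintro ⟨x, s, u⟩ ⟨h1, h2, h3, h4, -⟩
  simp only at h1 h2 h3 h4
  exact ⟨h1, h2, by linarith [h1.1], by linarith [h1.2, h2.2]⟩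

theorem Mm_strict (J : Inj c) {δ a : ℝ} (hδ : 0 < δ) {q : ℝ × ℝ × ℝ} (h : q ∈ Mm c δ a) :
    q.1 < q.2.2 ∧ q.2.2 < q.1 + q.2.1 ∧ q.1 + q.2.1 < q.1 + 1 := by
  obtain ⟨x, s, u⟩ := q
  obtain ⟨h1, h2, h3, h4, h5⟩ := h
  simp only at *
  have hne : c (x + s) - c x ≠ 0 := sub_ne_zero.2 (J x (x + s) (by linarith [h2.1])
    (by linarith [h2.2])).symm
  refine ⟨lt_of_le_of_ne h3 ?_, lt_of_le_of_ne h4 ?_, by linarith [h2.2]⟩
  · rintro rfl
    have : I * (c (x + s) - c x) = 0 := by linear_combination -h5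
    rcases mul_eq_zero.1 this with h0 | h0
    · exact I_ne_zero h0
    · exact hne h0
  · rintro rfl
    have : (I - 1) * (c (x + s) - c x) = 0 := by linear_combination -h5
    rcases mul_eq_zero.1 this with h0 | h0
    · have := congrArg Complex.im h0
      simp at this
    · exact hne h0

/-- a connected family stays in a clopen part -/
theorem clopen (L : Loop c) (J : Inj c) {δ a : ℝ} (hδ : 0 < δ) {T : Set Ann}
    (hT : IsPreconnected T) (hTt : TyA c δ T) {S : Set (ℝ × ℝ × ℝ)}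
    (h1 : IsClosed (Mm c δ a ∩ S)) (h2 : IsClosed (Mm c δ a ∩ Sᶜ))
    (hin : ∀ q ∈ Mm c δ a ∩ S, a < q.1 ∧ q.1 < a + 1) {q₀ : ℝ × ℝ × ℝ}
    (hq₀ : q₀ ∈ Mm c δ a ∩ S) (hq₀T : (((q₀.1 : AddCircle (1 : ℝ)), q₀.2.1) : Ann) ∈ T) :
    ∀ p ∈ T, ∃ q ∈ Mm c δ a ∩ S, (((q.1 : AddCircle (1 : ℝ)), q.2.1) : Ann) = p := by
  obtain ⟨π, hπ⟩ : ∃ π : ℝ × ℝ × ℝ → Ann, π = fun q => ((q.1 : AddCircle (1 : ℝ)), q.2.1) :=
    ⟨_, rfl⟩
  have cπ : Continuous π := by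
    rw [hπ]
    exact ((AddCircle.continuous_mk' 1).comp continuous_fst).prodMk
      (continuous_fst.comp continuous_snd)
  have hM := Mm_compact L.cont δ a hδ
  have g1 : IsClosed (π '' (Mm c δ a ∩ S)) :=
    ((hM.of_isClosed_subset h1 inter_subset_left).image cπ).isClosed
  have g2 : IsClosed (π '' (Mm c δ a ∩ Sᶜ)) :=
    ((hM.of_isClosed_subset h2 inter_subset_left).image cπ).isClosed
  have hcov : T ⊆ π '' (Mm c δ a ∩ S) ∪ π '' (Mm c δ a ∩ Sᶜ) := by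
    intro p hp
    obtain ⟨d1, d2, hall⟩ := hTt p hp
    obtain ⟨y, hy⟩ := QuotientAddGroup.mk_surjective p.1
    change (y : AddCircle (1 : ℝ)) = p.1 at hy
    obtain ⟨x, hx⟩ : ∃ x, x = a + Int.fract (y - a) := ⟨_, rfl⟩
    have hxp : (x : AddCircle (1 : ℝ)) = p.1 := by
      rw [← hy, hx]
      have : y = a + Int.fract (y - a) + (⌊y - a⌋ : ℝ) := by
        rw [add_assoc, Int.fract_add_floor]; ring
      rw [this, AddCircle.coe_add (p := (1:ℝ)) (a + Int.fract (y - a)) _]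
      have h0 : ((⌊y - a⌋ : ℝ) : AddCircle (1 : ℝ)) = 0 := by
        rw [AddCircle.coe_eq_zero_iff]
        exact ⟨⌊y - a⌋, by simp⟩
      rw [show a + Int.fract (y - a) + (⌊y - a⌋ : ℝ) - a = y - a from by rw [← this]]
      rw [h0, add_zero]
    obtain ⟨u, u1, u2, u3⟩ := hall x hxp
    have hmem : (x, p.2, u) ∈ Mm c δ a :=
      ⟨⟨by rw [hx]; linarith [Int.fract_nonneg (y - a)],
        by rw [hx]; linarith [Int.fract_lt_one (y - a)]⟩, ⟨d1, d2⟩, u1.le, u2.le, u3⟩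
    have hpi : π (x, p.2, u) = p := by rw [hπ]; exact Prod.ext hxp rfl
    by_cases hS : (x, p.2, u) ∈ S
    · exact Or.inl ⟨_, ⟨hmem, hS⟩, hpi⟩
    · exact Or.inr ⟨_, ⟨hmem, hS⟩, hpi⟩
  have hdis : ∀ p, ¬ (p ∈ π '' (Mm c δ a ∩ S) ∧ p ∈ π '' (Mm c δ a ∩ Sᶜ)) := by
    rintro p ⟨⟨⟨x, s, u⟩, hq, e⟩, ⟨⟨x', s', u'⟩, hq', e'⟩⟩
    have hx := hin _ hq
    have s1 := Mm_strict J hδ hq.1
    have s2 := Mm_strict J hδ hq'.1
    have m1 := hq.1
    have m2 := hq'.1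
    obtain ⟨k1, k2, k3, k4, k5⟩ := m1
    obtain ⟨l1, l2, l3, l4, l5⟩ := m2
    rw [hπ] at e e'
    simp only at *
    have e3 := e.trans e'.symm
    obtain ⟨e4, e5⟩ := Prod.mk.injEq .. ▸ e3
    obtain ⟨n, hn⟩ := exists_int e4
    have n1 : (-1 : ℝ) < n := by linarith [l1.2]
    have n2 : (n : ℝ) < 1 := by linarith [l1.1]
    have n3 : -1 < n := by exact_mod_cast n1
    have n4 : n < 1 := by exact_mod_cast n2
    have n5 : n = 0 := by omega
    rw [n5, Int.cast_zero, add_zero] at hn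
    subst hn
    subst e5
    have hu : u = u' := by
      have hcu : c u = c u' := by rw [k5, l5]
      rcases lt_trichotomy u u' with h | h | h
      · exact absurd hcu (J u u' h (by linarith))
      · exact h
      · exact absurd hcu.symm (J u' u h (by linarith))
    subst hu
    exact hq'.2 hq.2
  intro p hp
  have hp1 : p ∈ π '' (Mm c δ a ∩ S) := by
    by_contra hcon
    have hp2 := (hcov hp).resolve_left hcon
    obtain ⟨r, -, hr⟩ := isPreconnected_closed_iff.1 hT _ _ g1 g2 hcov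
      ⟨_, hq₀T, ⟨q₀, hq₀, by rw [hπ]⟩⟩ ⟨p, hp, hp2⟩
    exact hdis r hr
  obtain ⟨q, hq, e⟩ := hp1
  exact ⟨q, hq, by rw [← e, hπ]⟩

/-- first label -/
def l1 (θ : ℝ → ℝ → ℝ) (q : ℝ × ℝ × ℝ) : ℝ := θ q.1 q.2.2 - θ q.1 (q.1 + q.2.1)
/-- second label -/
def l2 (θ : ℝ → ℝ → ℝ) (q : ℝ × ℝ × ℝ) : ℝ := θ q.2.2 (q.1 + q.2.1) - θ q.1 (q.1 + q.2.1)

theorem l1_cont (D : Dirn c θ) (J : Inj c) {δ a : ℝ} (hδ : 0 < δ) :
    ContinuousOn (l1 θ) (Mm c δ a) := by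
  unfold l1
  refine ContinuousOn.sub ?_ ?_
  · refine D.cont.comp (f := fun q : ℝ × ℝ × ℝ => (q.1, q.2.2)) (by fun_prop) fun q hq => ?_
    have := Mm_strict J hδ hq
    exact ⟨this.1, by show q.2.2 < q.1 + 1; linarith⟩
  · refine D.cont.comp (f := fun q : ℝ × ℝ × ℝ => (q.1, q.1 + q.2.1)) (by fun_prop) fun q hq => ?_
    have := Mm_strict J hδ hq
    exact ⟨by show q.1 < q.1 + q.2.1; linarith, this.2.2⟩

theorem l2_cont (D : Dirn c θ) (J : Inj c) {δ a : ℝ} (hδ : 0 < δ) :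
    ContinuousOn (l2 θ) (Mm c δ a) := by
  unfold l2
  refine ContinuousOn.sub ?_ ?_
  · refine D.cont.comp (f := fun q : ℝ × ℝ × ℝ => (q.2.2, q.1 + q.2.1)) (by fun_prop)
      fun q hq => ?_
    have := Mm_strict J hδ hq
    exact ⟨this.2.1, by show q.1 + q.2.1 < q.2.2 + 1; linarith⟩
  · refine D.cont.comp (f := fun q : ℝ × ℝ × ℝ => (q.1, q.1 + q.2.1)) (by fun_prop) fun q hq => ?_
    have := Mm_strict J hδ hq
    exact ⟨by show q.1 < q.1 + q.2.1; linarith, this.2.2⟩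

theorem disc {x v : ℝ} {j : ℤ} (h : x = v + j * (2 * Real.pi)) :
    x ≠ v ↔ Real.pi ≤ |x - v| := by
  have hπ := Real.pi_pos
  constructor
  · intro hne
    have hj : j ≠ 0 := by
      rintro rfl
      apply hne
      rw [h]; push_cast; ring
    have h1 : (1 : ℝ) ≤ |(j : ℝ)| := by
      have := Int.one_le_abs hj
      exact_mod_cast this
    have : x - v = j * (2 * Real.pi) := by linarith
    rw [this, abs_mul, abs_of_pos (show 0 < 2 * Real.pi by linarith)]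
    nlinarith
  · rintro h' rfl
    rw [sub_self, abs_zero] at h'
    linarith

theorem l1_closed (D : Dirn c θ) (L : Loop c) (J : Inj c) {δ a : ℝ} (hδ : 0 < δ) :
    IsClosed (Mm c δ a ∩ {q | l1 θ q = Real.pi / 2}) ∧
      IsClosed (Mm c δ a ∩ {q | l1 θ q ≠ Real.pi / 2}) := by
  have hM := Mm_closed L.cont δ a
  have hc := l1_cont D J (a := a) hδ
  refine ⟨hc.preimage_isClosed_of_isClosed hM isClosed_singleton, ?_⟩
  have h1 : IsClosed {t : ℝ | Real.pi ≤ |t - Real.pi / 2|} :=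
    isClosed_le continuous_const (by fun_prop)
  have := hc.preimage_isClosed_of_isClosed hM h1
  convert this using 1
  ext q
  constructor
  · rintro ⟨hq, h⟩
    have s := Mm_strict J hδ hq
    obtain ⟨j, hj⟩ := D.lab1 s.1 s.2.1 s.2.2 hq.2.2.2.2
    refine ⟨hq, (disc (j := j) ?_).1 h⟩
    unfold l1; linarith
  · rintro ⟨hq, h⟩
    have s := Mm_strict J hδ hq
    obtain ⟨j, hj⟩ := D.lab1 s.1 s.2.1 s.2.2 hq.2.2.2.2
    refine ⟨hq, (disc (j := j) ?_).2 h⟩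
    unfold l1; linarith

theorem l2_closed (D : Dirn c θ) (L : Loop c) (J : Inj c) {δ a : ℝ} (hδ : 0 < δ) :
    IsClosed (Mm c δ a ∩ {q | l2 θ q = -(Real.pi / 4)}) ∧
      IsClosed (Mm c δ a ∩ {q | l2 θ q ≠ -(Real.pi / 4)}) := by
  have hM := Mm_closed L.cont δ a
  have hc := l2_cont D J (a := a) hδ
  refine ⟨hc.preimage_isClosed_of_isClosed hM isClosed_singleton, ?_⟩
  have h1 : IsClosed {t : ℝ | Real.pi ≤ |t - -(Real.pi / 4)|} :=
    isClosed_le continuous_const (by fun_prop)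
  have := hc.preimage_isClosed_of_isClosed hM h1
  convert this using 1
  ext q
  constructor
  · rintro ⟨hq, h⟩
    have s := Mm_strict J hδ hq
    obtain ⟨j, hj⟩ := D.lab2 s.1 s.2.1 s.2.2 hq.2.2.2.2
    refine ⟨hq, (disc (j := j) ?_).1 h⟩
    unfold l2; linarith
  · rintro ⟨hq, h⟩
    have s := Mm_strict J hδ hq
    obtain ⟨j, hj⟩ := D.lab2 s.1 s.2.1 s.2.2 hq.2.2.2.2
    refine ⟨hq, (disc (j := j) ?_).2 h⟩
    unfold l2; linarith

end Pool.Agent.N335.Hg
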