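import Pool.Agent.N335.Hg.Glob
import Pool.Agent.N335.Hg.Bar

/-! Families of triangles whose long members are small triangles near an hourglass. -/

set_option autoImplicit false
open Complex Set Topology Metric Filter

namespace Pool.Agent.N335.Hg

open Pool.Agent.H763R2 Pool.Agent.H763R2.An
open Pool.Agent.Y765.Sq (Ann exists_int exists_rep TriM tri_fam)

variable {c : ℝ → ℂ}

/-- the normalised window of an hourglass -/
theorem exists_win (L : Loop c) (J : Inj c) {t : ℝ} (H : Hourglass c t) :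
    ∃ (w : ℂ) (κ a a₁ α β b₁ b : ℝ), w ≠ 0 ∧ α ≤ t ∧ t ≤ β ∧ Win (mv c w t) κ a a₁ α β b₁ b ∧
      (∀ s, a < s → s ≤ b → (mv c w t a).re < (mv c w t s).re) ∧
      (∀ s, a ≤ s → s < b → (mv c w t s).re < (mv c w t b).re) := by
  obtain ⟨κ, a, a₁, α, β, b₁, b, w, κ0, κ1, hw, h1, h2, h3, h4, h5, h6, h7, hL, hR, hin, hmid⟩ := H
  obtain ⟨f, hf⟩ : ∃ f, f = mv c w t := ⟨_, rfl⟩
  have Lf : Loop f := hf ▸ mv_loop L w t
  have Jf : Inj f := hf ▸ mv_inj J hw t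
  have fc := Lf.cont
  have w0 : 0 < ‖w‖ := norm_pos_iff.2 hw
  have fn : ∀ s, ‖f s‖ = ‖w‖ * ‖c s - c t‖ := fun s => by rw [hf]; unfold mv; rw [norm_mul]
  have fL : ∀ s, a ≤ s → s ≤ α → |(f s).im| ≤ κ * -(f s).re := fun s g1 g2 => by
    rw [hf]; exact hL s ⟨g1, g2⟩
  have fR : ∀ s, β ≤ s → s ≤ b → |(f s).im| ≤ κ * (f s).re := fun s g1 g2 => by
    rw [hf]; exact hR s ⟨g1, g2⟩
  have fin : ∀ s, α ≤ s → s ≤ β → ∀ s', (a ≤ s' ∧ s' ≤ a₁ ∨ b₁ ≤ s' ∧ s' ≤ b) →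
      10 * ‖f s‖ ≤ (1 - κ) ^ 2 * ‖f s'‖ := fun s g1 g2 s' g3 => by
    have := mul_le_mul_of_nonneg_left (hin s ⟨g1, g2⟩ s' (g3.imp id id)) w0.le
    rw [fn, fn]; linarith
  have fmid : ∀ s, a₁ ≤ s → s ≤ b₁ → 10 * ‖f s‖ ≤ (1 - κ) ^ 2 * ‖f a‖ ∧
      10 * ‖f s‖ ≤ (1 - κ) ^ 2 * ‖f b‖ := fun s g1 g2 => by
    have q1 := mul_le_mul_of_nonneg_left (hmid s ⟨g1, g2⟩).1 w0.le
    have q2 := mul_le_mul_of_nonneg_left (hmid s ⟨g1, g2⟩).2 w0.le
    rw [fn, fn, fn]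
    constructor <;> linarith
  have ft : f t = 0 := by rw [hf]; unfold mv; rw [sub_self, mul_zero]
  have fne : ∀ s', (a ≤ s' ∧ s' ≤ a₁ ∨ b₁ ≤ s' ∧ s' ≤ b) → f s' ≠ 0 := by
    rintro s' (⟨g1, g2⟩ | ⟨g1, g2⟩)
    · rw [← ft]; exact Jf s' t (by linarith) (by linarith)
    · rw [← ft]; exact (Jf t s' (by linarith) (by linarith)).symm
  -- the new ends
  obtain ⟨A, hA⟩ : ∃ A, A = -(f a).re := ⟨_, rfl⟩
  obtain ⟨B, hB⟩ : ∃ B, B = (f b).re := ⟨_, rfl⟩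
  have A0' : 0 ≤ A := by rw [hA]; exact Win.re_of κ0 (fL a le_rfl (by linarith))
  have B0' : 0 ≤ B := by rw [hB]; exact Win.re_of κ0 (fR b (by linarith) le_rfl)
  have nA : 3 * ‖f a‖ ≤ 5 * A := norm53 κ1 A0' (by rw [hA, ← abs_neg, abs_of_nonneg
    (by rw [← hA]; exact A0')]) (by rw [hA]; exact fL a le_rfl (by linarith))
  have nB : 3 * ‖f b‖ ≤ 5 * B := norm53 κ1 B0' (by rw [hB, abs_of_nonneg
    (by rw [← hB]; exact B0')]) (by rw [hB]; exact fR b (by linarith) le_rfl)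
  have A0 : 0 < A := by
    have := norm_pos_iff.2 (fne a (Or.inl ⟨le_rfl, h1.le⟩))
    linarith
  have B0 : 0 < B := by
    have := norm_pos_iff.2 (fne b (Or.inr ⟨h6.le, le_rfl⟩))
    linarith
  have kk : 0 < (1 - κ) ^ 2 := by
    have : 0 < 1 - κ := by linarith
    positivity
  have kk1 : (1 - κ) ^ 2 ≤ 1 := by nlinarith
  have mid : ∀ s, a₁ ≤ s → s ≤ b₁ → 6 * ‖f s‖ ≤ (1 - κ) ^ 2 * A ∧ 6 * ‖f s‖ ≤ (1 - κ) ^ 2 * B := by
    intro s g1 g2
    obtain ⟨q1, q2⟩ := fmid s g1 g2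
    have r1 := mul_le_mul_of_nonneg_left nA kk.le
    have r2 := mul_le_mul_of_nonneg_left nB kk.le
    constructor <;> linarith
  have mid' : ∀ s, a₁ ≤ s → s ≤ b₁ → |(f s).re| < A ∧ |(f s).re| < B := by
    intro s g1 g2
    obtain ⟨q1, q2⟩ := mid s g1 g2
    have := Complex.abs_re_le_norm (f s)
    have r1 := mul_le_mul_of_nonneg_right kk1 A0.le
    have r2 := mul_le_mul_of_nonneg_right kk1 B0.le
    constructor <;> linarith
  obtain ⟨a', ⟨⟨ha1, ha2⟩, ha3⟩, ha4⟩ : ∃ a' ∈ Icc a a₁ ∩ {s | (f s).re ≤ -A},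
      ∀ s ∈ Icc a a₁ ∩ {s | (f s).re ≤ -A}, s ≤ a' := by
    have hK : IsCompact (Icc a a₁ ∩ {s | (f s).re ≤ -A}) :=
      isCompact_Icc.inter_right (isClosed_le (continuous_re.comp fc) continuous_const)
    exact hK.exists_isGreatest ⟨a, ⟨le_rfl, h1.le⟩, by show (f a).re ≤ -A; rw [hA]; linarith⟩
  obtain ⟨b', ⟨⟨hb1, hb2⟩, hb3⟩, hb4⟩ : ∃ b' ∈ Icc b₁ b ∩ {s | B ≤ (f s).re},
      ∀ s ∈ Icc b₁ b ∩ {s | B ≤ (f s).re}, b' ≤ s := by
    have hK : IsCompact (Icc b₁ b ∩ {s | B ≤ (f s).re}) :=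
      isCompact_Icc.inter_right (isClosed_le continuous_const (continuous_re.comp fc))
    exact hK.exists_isLeast ⟨b, ⟨h6.le, le_rfl⟩, by show B ≤ (f b).re; rw [hB]⟩
  simp only [mem_setOf_eq] at ha3 hb3
  have ha5 : a' < a₁ := by
    refine lt_of_le_of_ne ha2 fun e => ?_
    have := (mid' a₁ le_rfl (by linarith)).1
    rw [abs_lt] at this
    rw [e] at ha3
    linarith [this.1]
  have hb5 : b₁ < b' := by
    refine lt_of_le_of_ne hb1 fun e => ?_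
    have := (mid' b₁ (by linarith) le_rfl).2
    rw [abs_lt] at this
    rw [← e] at hb3
    linarith [this.2]
  have W : Win f κ a' a₁ α β b₁ b' := by
    refine ⟨κ0, κ1, ha5, h2, by linarith, h5, hb5, by linarith, fun s g1 g2 => fL s (by linarith) g2,
      fun s g1 g2 => fR s g1 (by linarith), fun s g1 g2 s' g3 => fin s g1 g2 s' ?_,
      fun s g1 g2 => ?_, fun s' g3 => fne s' ?_⟩
    · rcases g3 with g3 | g3
      · exact Or.inl ⟨by linarith [g3.1], g3.2⟩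
      · exact Or.inr ⟨g3.1, by linarith [g3.2]⟩
    · obtain ⟨q1, q2⟩ := mid s g1 g2
      have r1 := mul_le_mul_of_nonneg_left (show A ≤ -(f a').re by linarith) kk.le
      have r2 := mul_le_mul_of_nonneg_left hb3 kk.le
      constructor <;> linarith
    · rcases g3 with g3 | g3
      · exact Or.inl ⟨by linarith [g3.1], g3.2⟩
      · exact Or.inr ⟨g3.1, by linarith [g3.2]⟩
  have hl : ∀ s, a' < s → s ≤ b' → (f a').re < (f s).re := by
    intro s g1 g2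
    rcases le_total s a₁ with g | g
    · by_contra hcon
      have := ha4 s ⟨⟨by linarith, g⟩, by show (f s).re ≤ -A; linarith⟩
      linarith
    rcases le_total s b₁ with g' | g'
    · have := (mid' s g g').1
      rw [abs_lt] at this
      linarith [this.1]
    · have := Win.re_of κ0 (fR s (by linarith) (by linarith))
      linarith
  have hr : ∀ s, a' ≤ s → s < b' → (f s).re < (f b').re := by
    intro s g1 g2
    rcases le_total b₁ s with g | g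
    · by_contra hcon
      have := hb4 s ⟨⟨g, by linarith⟩, by show B ≤ (f s).re; linarith⟩
      linarith
    rcases le_total a₁ s with g' | g'
    · have := (mid' s g' g).2
      rw [abs_lt] at this
      linarith [this.2]
    · have := Win.re_of κ0 (fL s (by linarith) (by linarith))
      linarith
  refine ⟨w, κ, a', a₁, α, β, b₁, b', hw, h3, h4, ?_, ?_, ?_⟩
  · rw [← hf]; exact W
  · rw [← hf]; exact hl
  · rw [← hf]; exact hr

theorem mv_tri {w : ℂ} {t x y u : ℝ} (h : c u = c x + I * (c y - c x)) :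
    mv c w t u = mv c w t x + I * (mv c w t y - mv c w t x) := by
  unfold mv
  rw [h]; ring

theorem hour_long (L : Loop c) (J : Inj c) {t : ℝ} (H : Hourglass c t) :
    ∃ zL zR d, zL < t ∧ t < zR ∧ 0 < d ∧ ∀ (δ : ℝ) (T : Set Ann), 0 < δ → IsPreconnected T →
      TyA c δ T →
      (∃ p ∈ T, ∃ x u : ℝ, (x : AddCircle (1 : ℝ)) = p.1 ∧ x < u ∧ u < x + p.2 ∧
        c u = c x + I * (c (x + p.2) - c x) ∧
        ((zL < x + p.2 - 1 ∧ u < zR) ∨ (zL < u - 1 ∧ x < zR))) →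
      ∀ q ∈ T, d < q.2 := by
  obtain ⟨w, κ, a, a₁, α, β, b₁, b, hw, ht1, ht2, W, hl, hr⟩ := exists_win L J H
  obtain ⟨f, hf⟩ : ∃ f, f = mv c w t := ⟨_, rfl⟩
  rw [← hf] at W hl hr
  have Lf : Loop f := hf ▸ mv_loop L w t
  have Jf : Inj f := hf ▸ mv_inj J hw t
  obtain ⟨zL, L1, L2, FL⟩ := W.exists_zL Lf.cont Jf
  obtain ⟨zR, R1, R2, FR⟩ := W.exists_zR Lf.cont Jf
  have h1 := W.h1
  have h2 := W.h2
  have h3 := W.h3
  have h4 := W.h4
  have h5 := W.h5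
  have h6 := W.h6
  obtain ⟨θ, D, B⟩ := exists_base Lf Jf (by linarith) h6 hl hr
  refine ⟨zL, zR, 1 - (b - a), by linarith, by linarith, by linarith, ?_⟩
  rintro δ T hδ hT hTt ⟨p, hp, x, u, hx, u1, u2, hu, hcase⟩
  have hTf : TyA f δ T := hf ▸ mv_tyA hTt
  obtain ⟨d1, d2, -⟩ := hTt p hp
  have hq₀T : (((x : AddCircle (1 : ℝ)), p.2) : Ann) ∈ T := by
    have : (((x : AddCircle (1 : ℝ)), p.2) : Ann) = p := Prod.ext hx rfl
    rw [this]; exact hp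
  have hfu : f u = f x + I * (f (x + p.2) - f x) := by rw [hf]; exact mv_tri hu
  intro p' hp'
  rcases hcase with ⟨g1, g2⟩ | ⟨g1, g2⟩
  · have hq₀ : (x, p.2, u) ∈ Mm f δ a :=
      ⟨⟨by show a ≤ x; linarith, by show x ≤ a + 1; linarith⟩, ⟨d1, d2⟩, u1.le, u2.le, hfu⟩
    obtain ⟨q, hq, e, hlt⟩ := local_gen Lf Jf D B h1 h5 shp2 (W.bar2 D B) (rd2 Lf) L1
      (by linarith) R2 FL FR hδ hT hTf hq₀ hq₀T g1 g2 p' hp'
    have s := Mm_strict Jf hδ hq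
    rw [← e]
    simp only at hlt ⊢
    linarith [s.1]
  · have hq₀ : (x, p.2, u) ∈ Mm f δ a :=
      ⟨⟨by show a ≤ x; linarith, by show x ≤ a + 1; linarith⟩, ⟨d1, d2⟩, u1.le, u2.le, hfu⟩
    obtain ⟨q, hq, e, hlt⟩ := local_gen Lf Jf D B h1 h5 shp3 (W.bar3 D B) (rd3 Lf) L1
      (by linarith) R2 FL FR hδ hT hTf hq₀ hq₀T g1 g2 p' hp'
    have s := Mm_strict Jf hδ hq
    rw [← e]
    simp only at hlt ⊢
    linarith [s.2.1]

end Pool.Agent.N335.Hg
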