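import Pool.Agent.N335.Hg.Lab

/-! Small triangles near a point where the curve is locally monotone. -/

set_option autoImplicit false
open Complex Set Topology Metric Filter

namespace Pool.Agent.N335.Hg

open Pool.Agent.H763R2 Pool.Agent.H763R2.An
open Pool.Agent.H763R2.Dm (NoSq)
open Pool.Agent.Y765.Sq (Ann exists_int exists_rep TriM tri_fam)

variable {c : ℝ → ℂ} {θ : ℝ → ℝ → ℝ}

/-- all chords in the window go into an open half plane -/
def MonW (c : ℝ → ℂ) (w : ℂ) (lo hi : ℝ) : Prop :=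
  ∀ x y, lo < x → x < y → y < hi → 0 < (w * (c y - c x)).re

theorem MonW.ne {w : ℂ} {lo hi : ℝ} (M : MonW c w lo hi) (h : lo < hi) : w ≠ 0 := by
  rintro rfl
  have := M (lo + (hi - lo) / 3) (lo + (hi - lo) / 2) (by linarith) (by linarith) (by linarith)
  rw [zero_mul, zero_re] at this
  exact lt_irrefl _ this

/-- the short end -/
theorem mon_short (L : Loop c) (J : Inj c) (nosq : NoSq (range c)) (D : Dirn c θ) {δ a : ℝ}
    (hδ : 0 < δ) {q : ℝ × ℝ × ℝ} (hq : q ∈ Mm c δ a) {w : ℂ} {lo hi : ℝ} (M : MonW c w lo hi)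
    (h1 : lo < q.1) (h2 : q.1 + q.2.1 < hi) :
    l1 θ q = Real.pi / 2 ∧ m1 c q = -(Real.pi / 4) ∧ m2 c q = Real.pi / 2 := by
  have hπ := Real.pi_pos
  have s := Mm_strict J hδ hq
  have hE := E4_notMem J nosq hδ hq
  have k5 := hq.2.2.2.2
  have hw := M.ne (by linarith)
  obtain ⟨v, hv⟩ : ∃ v, exp v = w := ⟨log w, exp_log hw⟩
  refine ⟨?_, ?_, ?_⟩
  · have hc : |θ q.1 (q.1 + q.2.1) - θ q.1 q.2.2| < Real.pi := by
      have := close_of_cos (φ := fun y => θ q.1 y + v.im) (Y := Icc q.2.2 (q.1 + q.2.1))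
        isPreconnected_Icc ((D.contR fun y hy => ⟨by linarith [hy.1], by linarith [hy.2]⟩).add
          continuousOn_const) (fun y hy => by
          obtain ⟨ρ, hρ, e⟩ := D.ex q.1 y (by linarith [hy.1]) (by linarith [hy.2])
          have h3 := M q.1 y h1 (by linarith [hy.1]) (by linarith [hy.2])
          rw [e, ← hv, show exp v * (ρ * exp (θ q.1 y * I)) = ρ * (exp v * exp (θ q.1 y * I)) by
            ring, ← exp_add, re_ofReal_mul, exp_re] at h3
          have h4 := (mul_pos_iff_of_pos_left hρ).1 h3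
          have h5 := (mul_pos_iff_of_pos_left (Real.exp_pos _)).1 h4
          have e6 : (v + θ q.1 y * I).im = θ q.1 y + v.im := by simp; ring
          rwa [e6] at h5) (y₀ := q.2.2) (y₁ := q.1 + q.2.1) ⟨le_rfl, s.2.1.le⟩ ⟨s.2.1.le, le_rfl⟩
      convert this using 2
      ring
    obtain ⟨j, hj⟩ := l1_val D J hδ hq
    rw [abs_lt] at hc
    have : j = 0 := int_zero_of (x := l1 θ q - Real.pi / 2) (by linarith)
      (by unfold l1; linarith [hc.2]) (by unfold l1; linarith [hc.1])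
    rw [hj, this]; push_cast; ring
  · have hs : ∀ τ, q.1 ≤ τ → τ ≤ q.1 + q.2.1 → 0 < (-w * (c τ - E4 c q)).re := by
      intro τ g1 g2
      have h3 := M q.1 q.2.2 h1 s.1 (by linarith)
      have h4 : 0 ≤ (w * (c (q.1 + q.2.1) - c τ)).re := by
        rcases eq_or_lt_of_le g2 with g | g
        · rw [g, sub_self, mul_zero, zero_re]
        · exact (M τ (q.1 + q.2.1) (by linarith) g h2).le
      have e : -w * (c τ - E4 c q) = w * (c (q.1 + q.2.1) - c τ) + w * (c q.2.2 - c q.1) := by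
        rw [k5]; unfold E4; ring
      rw [e, add_re]
      linarith
    have hc := Phi_half L hE (w := -w) s.1.le (fun τ hτ => hs τ hτ.1 (by linarith [hτ.2, s.2.1]))
    obtain ⟨j, hj⟩ := m1_val L J nosq hδ hq
    unfold m1 at hj ⊢
    rw [abs_lt] at hc
    have : j = 0 := int_zero_of (x := Phi c (E4 c q) q.1 q.2.2 + Real.pi / 4) (by linarith)
      (by linarith [hc.1]) (by linarith [hc.2])
    rw [hj, this]; push_cast; ring
  · have hs : ∀ τ, q.1 ≤ τ → τ ≤ q.1 + q.2.1 → 0 < (-w * (c τ - E4 c q)).re := by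
      intro τ g1 g2
      have h3 := M q.1 q.2.2 h1 s.1 (by linarith)
      have h4 : 0 ≤ (w * (c (q.1 + q.2.1) - c τ)).re := by
        rcases eq_or_lt_of_le g2 with g | g
        · rw [g, sub_self, mul_zero, zero_re]
        · exact (M τ (q.1 + q.2.1) (by linarith) g h2).le
      have e : -w * (c τ - E4 c q) = w * (c (q.1 + q.2.1) - c τ) + w * (c q.2.2 - c q.1) := by
        rw [k5]; unfold E4; ring
      rw [e, add_re]
      linarith
    have hc := Phi_half L hE (w := -w) s.2.1.le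
      (fun τ hτ => hs τ (by linarith [hτ.1, s.1]) hτ.2)
    obtain ⟨j, hj⟩ := m2_val L J nosq hδ hq
    unfold m2 at hj ⊢
    rw [abs_lt] at hc
    have : j = 0 := int_zero_of (x := Phi c (E4 c q) q.2.2 (q.1 + q.2.1) - Real.pi / 2)
      (by linarith) (by linarith [hc.1]) (by linarith [hc.2])
    rw [hj, this]; push_cast; ring

/-- the long end with the vertices in the order `V`, `Q`, `P` -/
theorem mon_long3 (L : Loop c) (J : Inj c) (nosq : NoSq (range c)) {δ a : ℝ}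
    (hδ : 0 < δ) {q : ℝ × ℝ × ℝ} (hq : q ∈ Mm c δ a) {w : ℂ} {lo hi : ℝ} (M : MonW c w lo hi)
    (h1 : lo < q.2.2 - 1) (h2 : q.1 < hi) {n : ℤ} (hn : n ≠ 0) (hw : IsWc c (E4 c q) n) :
    m1 c q ≠ -(Real.pi / 4) := by
  intro hm
  have hπ := Real.pi_pos
  have s := Mm_strict J hδ hq
  have hE := E4_notMem J nosq hδ hq
  have k5 := hq.2.2.2.2
  have eQ : c (q.1 + q.2.1 - 1) = c (q.1 + q.2.1) := by
    rw [← L.per (q.1 + q.2.1 - 1)]; congr 1; ring
  have eV : c (q.2.2 - 1) = c q.2.2 := by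
    rw [← L.per (q.2.2 - 1)]; congr 1; ring
  have hs : ∀ τ ∈ Icc (q.2.2 - 1) q.1, 0 < (w * (c τ - E4 c q)).re := by
    intro τ hτ
    have h3 := M (q.1 + q.2.1 - 1) q.1 (by linarith) (by linarith) h2
    have h4 : 0 ≤ (w * (c τ - c (q.2.2 - 1))).re := by
      rcases eq_or_lt_of_le hτ.1 with g | g
      · rw [g, sub_self, mul_zero, zero_re]
      · exact (M (q.2.2 - 1) τ h1 g (by linarith [hτ.2])).le
    rw [eQ] at h3
    rw [eV] at h4
    have e : w * (c τ - E4 c q) = w * (c τ - c q.2.2) + w * (c q.1 - c (q.1 + q.2.1)) := by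
      rw [k5]; unfold E4; ring
    rw [e, add_re]
    linarith
  have hc := Phi_half L hE (w := w) (by linarith) hs
  have e1 := Phi_wind L hw (q.2.2 - 1)
  have e2 := Phi_add L hE (q.2.2 - 1) q.1 q.2.2
  rw [sub_add_cancel] at e1
  unfold m1 at hm
  rw [hm, e1] at e2
  rw [abs_lt] at hc
  have : n = 0 := int_zero_of (x := Phi c (E4 c q) (q.2.2 - 1) q.1 - Real.pi / 4) (by linarith)
    (by linarith [hc.1]) (by linarith [hc.2])
  exact hn this

/-- two continuous choices of an angle have the same variation -/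
theorem arg_diff {φ ψ : ℝ → ℝ} {u y : ℝ} (huy : u ≤ y) (h1 : ContinuousOn φ (Icc u y))
    (h2 : ContinuousOn ψ (Icc u y)) (h : ∀ σ ∈ Icc u y, ∃ n : ℤ, φ σ = ψ σ + n * (2 * Real.pi)) :
    φ y - φ u = ψ y - ψ u := by
  have hπ := Real.pi_pos
  have hc := close_of_cos (φ := fun σ => φ σ - ψ σ) (Y := Icc u y) isPreconnected_Icc
    (h1.sub h2) (fun σ hσ => by
      obtain ⟨n, hn⟩ := h σ hσ
      rw [hn, add_sub_cancel_left, Real.cos_int_mul_two_pi]
      exact one_pos) (y₀ := u) (y₁ := y) ⟨le_rfl, huy⟩ ⟨huy, le_rfl⟩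
  obtain ⟨n, hn⟩ := h u ⟨le_rfl, huy⟩
  obtain ⟨m, hm⟩ := h y ⟨huy, le_rfl⟩
  rw [abs_lt] at hc
  have : m - n = 0 := int_zero_of (x := φ y - ψ y - (φ u - ψ u)) (by rw [hm, hn]; push_cast; ring)
    (by linarith [hc.1]) (by linarith [hc.2])
  have e : m = n := by omega
  rw [hm, hn, e]
  ring

/-- the arc from `V` to `Q` turns from 90 degrees to -270 degrees when the point of view moves from
`P` to the fourth vertex -/
theorem diag (L : Loop c) (J : Inj c) (D : Dirn c θ) {x u y : ℝ}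
    (h1 : x < u) (h2 : u < y) (h3 : y < x + 1) (hV : c u = c x + I * (c y - c x))
    (hE : c y + I * (c y - c x) ∉ range c)
    (hfree : ∀ σ ∈ Icc u y, ∀ τ ∈ Icc (0:ℝ) 1,
      c σ ≠ c x + τ * ((1 + I) * (c y - c x))) (e1 : θ x u - θ x y = Real.pi / 2)
    (e2 : Phi c (c y + I * (c y - c x)) u y = Real.pi / 2) : False := by
  have hπ := Real.pi_pos
  have cc := L.cont
  obtain ⟨K, hK, hKe⟩ := H777R2.exists_log (X := ℝ × ℝ)
    (g := fun p => c (max u (min p.2 y)) -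
      (c x + ((max 0 (min p.1 1) : ℝ) : ℂ) * ((1 + I) * (c y - c x)))) (by fun_prop) (fun p h =>
      hfree _ ⟨le_max_left _ _, max_le h2.le (min_le_right _ _)⟩ _
        ⟨le_max_left _ _, max_le zero_le_one (min_le_right _ _)⟩ (sub_eq_zero.1 h))
  obtain ⟨d, hd⟩ : ∃ d : ℝ → ℝ, d = fun τ => (K (τ, y) - K (τ, u)).im := ⟨_, rfl⟩
  have cd : Continuous d := by rw [hd]; fun_prop
  have clu : ∀ σ ∈ Icc u y, max u (min σ y) = σ := fun σ hσ => by
    rw [min_eq_left hσ.2, max_eq_right hσ.1]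
  have clt : ∀ τ ∈ Icc (0:ℝ) 1, max 0 (min τ 1) = τ := fun τ hτ => by
    rw [min_eq_left hτ.2, max_eq_right hτ.1]
  have mu : u ∈ Icc u y := ⟨le_rfl, h2.le⟩
  have my : y ∈ Icc u y := ⟨h2.le, le_rfl⟩
  have m0 : (0:ℝ) ∈ Icc (0:ℝ) 1 := ⟨le_rfl, zero_le_one⟩
  have m1 : (1:ℝ) ∈ Icc (0:ℝ) 1 := ⟨zero_le_one, le_rfl⟩
  have hpol : ∀ σ ∈ Icc u y, ∀ τ ∈ Icc (0:ℝ) 1,
      c σ - (c x + τ * ((1 + I) * (c y - c x))) =
        Real.exp (K (τ, σ)).re * exp ((K (τ, σ)).im * I) := by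
    intro σ hσ τ hτ
    have := hKe (τ, σ)
    simp only at this
    rw [clu σ hσ, clt τ hτ] at this
    rw [← this, ofReal_exp, ← exp_add, re_add_im]
  have d0 : d 0 = -(Real.pi / 2) := by
    have := arg_diff (φ := fun σ => (K (0, σ)).im) (ψ := fun σ => θ x σ) h2.le (by fun_prop)
      (D.contR fun y' hy => ⟨by linarith [hy.1], by linarith [hy.2]⟩) (fun σ hσ => by
        obtain ⟨ρ, hρ, e⟩ := D.ex x σ (by linarith [hσ.1]) (by linarith [hσ.2])
        have h := hpol σ hσ 0 m0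
        rw [ofReal_zero, zero_mul, add_zero, e] at h
        exact ang_eq (Real.exp_pos _) hρ h.symm)
    rw [hd]
    simp only at this ⊢
    rw [sub_im, this]
    linarith
  have d1 : d 1 = Real.pi / 2 := by
    obtain ⟨k, hk, ek⟩ := exists_Lg L hE
    have := arg_diff (φ := fun σ => (K (1, σ)).im) (ψ := fun σ => (k σ).im) h2.le (by fun_prop)
      (by fun_prop) (fun σ hσ => by
        have h := hpol σ hσ 1 m1
        have e : c σ - (c x + (1:ℝ) * ((1 + I) * (c y - c x))) =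
            c σ - (c y + I * (c y - c x)) := by push_cast; ring
        rw [e, ← ek, ← re_add_im (k σ), exp_add, ← ofReal_exp] at h
        exact ang_eq (Real.exp_pos _) (Real.exp_pos _) h.symm)
    rw [Phi_eq ⟨hk, ek⟩, sub_im] at e2
    rw [hd]
    simp only at this ⊢
    rw [sub_im, this, e2]
  obtain ⟨τ, hτ, hdτ⟩ := intermediate_value_Icc zero_le_one cd.continuousOn
    (show (0:ℝ) ∈ Icc (d 0) (d 1) from ⟨by rw [d0]; linarith, by rw [d1]; linarith⟩)
  rw [hd] at hdτ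
  simp only at hdτ
  rw [sub_im] at hdτ
  have p1 := hpol y my τ hτ
  have p2 := hpol u mu τ hτ
  have hne : c y - c x ≠ 0 := sub_ne_zero.2 (J x y (h1.trans h2) h3).symm
  have him : (K (τ, y)).im = (K (τ, u)).im := by linarith
  obtain ⟨r, hr⟩ : ∃ r, r = Real.exp ((K (τ, y)).re - (K (τ, u)).re) := ⟨_, rfl⟩
  have r0 : 0 < r := by rw [hr]; exact Real.exp_pos _
  have p3 : c y - (c x + τ * ((1 + I) * (c y - c x))) =
      r * (c u - (c x + τ * ((1 + I) * (c y - c x)))) := by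
    rw [p1, p2, him, hr, ← mul_assoc, ← ofReal_mul, ← Real.exp_add, sub_add_cancel]
  have p4 : (1 - τ * (1 + I)) * (c y - c x) = (r * (I - τ * (1 + I))) * (c y - c x) := by
    rw [hV] at p3
    linear_combination p3
  have p5 := mul_right_cancel₀ hne p4
  have q1 := congrArg Complex.re p5
  have q2 := congrArg Complex.im p5
  simp at q1 q2
  have hτ0 := hτ.1
  have hτ1 := hτ.2
  have : 0 ≤ r * τ := mul_nonneg r0.le hτ0
  have t1 : τ = 1 := by linarith
  rw [t1] at q1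
  linarith

/-- the long end with the vertices in the order `Q`, `P`, `V` -/
theorem mon_long2 (L : Loop c) (J : Inj c) (nosq : NoSq (range c)) (D : Dirn c θ) {δ a : ℝ}
    (hδ : 0 < δ) {q : ℝ × ℝ × ℝ} (hq : q ∈ Mm c δ a) {w : ℂ} {lo hi : ℝ} (M : MonW c w lo hi)
    (h1 : lo < q.1 + q.2.1 - 1) (h2 : q.2.2 < hi) {t d : ℝ}
    (hd : ∀ σ, hi ≤ σ → σ ≤ lo + 1 → d ≤ ‖c σ - c t‖) (k1 : 4 * ‖c q.1 - c t‖ < d)
    (k2 : 4 * ‖c (q.1 + q.2.1) - c t‖ < d) (k3 : 4 * ‖c q.2.2 - c t‖ < d) :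
    ¬ (l1 θ q = Real.pi / 2 ∧ m2 c q = Real.pi / 2) := by
  rintro ⟨e1, e2⟩
  have s := Mm_strict J hδ hq
  have hE := E4_notMem J nosq hδ hq
  have k5 := hq.2.2.2.2
  have eQ : c (q.1 + q.2.1 - 1) = c (q.1 + q.2.1) := by
    rw [← L.per (q.1 + q.2.1 - 1)]; congr 1; ring
  have hA := M q.1 q.2.2 (by linarith) s.1 h2
  have hB := M (q.1 + q.2.1 - 1) q.1 h1 (by linarith) (by linarith)
  rw [eQ] at hB
  refine diag L J D (x := q.1) (u := q.2.2) (y := q.1 + q.2.1) s.1 s.2.1 s.2.2 k5 hE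
    (fun σ hσ τ hτ e => ?_) e1 e2
  have hτ0 := hτ.1
  have hτ1 := hτ.2
  rcases lt_or_ge σ hi with g | g
  · -- to the right of `V`
    have h4 : 0 ≤ (w * (c σ - c q.2.2)).re := by
      rcases eq_or_lt_of_le hσ.1 with g' | g'
      · rw [g', sub_self, mul_zero, zero_re]
      · exact (M q.2.2 σ (by linarith) g' g).le
    have e3 : w * (c σ - c q.2.2) = -(((1 - τ : ℝ) : ℂ) * (w * (c q.2.2 - c q.1)) +
        ((τ : ℝ) : ℂ) * (w * (c q.1 - c (q.1 + q.2.1)))) := by
      rw [e, k5]; push_cast; ring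
    rw [e3, neg_re, add_re, re_ofReal_mul, re_ofReal_mul] at h4
    have h5 : 0 ≤ (1 - τ) * (w * (c q.2.2 - c q.1)).re := mul_nonneg (by linarith) hA.le
    have h6 : 0 ≤ τ * (w * (c q.1 - c (q.1 + q.2.1))).re := mul_nonneg hτ0 hB.le
    rcases eq_or_lt_of_le hτ0 with h7 | h7
    · rw [← h7] at h4
      linarith
    · have := mul_pos h7 hB
      linarith
  · rcases le_or_gt σ (lo + 1) with g' | g'
    · -- far
      have h4 := hd σ g g'
      rw [e] at h4
      have e3 : c q.1 + τ * ((1 + I) * (c (q.1 + q.2.1) - c q.1)) - c t =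
          ((1 - τ : ℝ) : ℂ) * (c q.1 - c t) + ((τ : ℝ) : ℂ) * ((c (q.1 + q.2.1) - c t) +
            (c q.2.2 - c t) - (c q.1 - c t)) := by
        rw [k5]; push_cast; ring
      rw [e3] at h4
      have n1 := norm_add_le (((1 - τ : ℝ) : ℂ) * (c q.1 - c t)) (((τ : ℝ) : ℂ) *
        ((c (q.1 + q.2.1) - c t) + (c q.2.2 - c t) - (c q.1 - c t)))
      have n2 : ‖(c (q.1 + q.2.1) - c t) + (c q.2.2 - c t) - (c q.1 - c t)‖ ≤
          ‖c (q.1 + q.2.1) - c t‖ + ‖c q.2.2 - c t‖ + ‖c q.1 - c t‖ :=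
        (norm_sub_le _ _).trans (add_le_add (norm_add_le _ _) le_rfl)
      rw [norm_mul, norm_mul, norm_real, norm_real, Real.norm_of_nonneg hτ0,
        Real.norm_of_nonneg (show 0 ≤ 1 - τ by linarith)] at n1
      have n3 : (1 - τ) * ‖c q.1 - c t‖ ≤ 1 * ‖c q.1 - c t‖ :=
        mul_le_mul_of_nonneg_right (by linarith) (norm_nonneg _)
      have n4 : τ * ‖(c (q.1 + q.2.1) - c t) + (c q.2.2 - c t) - (c q.1 - c t)‖ ≤
          1 * ‖(c (q.1 + q.2.1) - c t) + (c q.2.2 - c t) - (c q.1 - c t)‖ :=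
        mul_le_mul_of_nonneg_right hτ1 (norm_nonneg _)
      linarith
    · -- to the left of `Q`
      have eσ : c (σ - 1) = c σ := by rw [← L.per (σ - 1)]; congr 1; ring
      have h4 : 0 ≤ (w * (c (q.1 + q.2.1) - c σ)).re := by
        rw [← eσ, ← eQ]
        rcases eq_or_lt_of_le hσ.2 with g'' | g''
        · rw [g'', sub_self, mul_zero, zero_re]
        · exact (M (σ - 1) (q.1 + q.2.1 - 1) (by linarith) (by linarith) (by linarith)).le
      have e3 : w * (c (q.1 + q.2.1) - c σ) = -(((1 - τ : ℝ) : ℂ) *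
          (w * (c q.1 - c (q.1 + q.2.1))) + ((τ : ℝ) : ℂ) * (w * (c q.2.2 - c q.1))) := by
        rw [e, k5]; push_cast; ring
      rw [e3, neg_re, add_re, re_ofReal_mul, re_ofReal_mul] at h4
      have h5 : 0 ≤ (1 - τ) * (w * (c q.1 - c (q.1 + q.2.1))).re :=
        mul_nonneg (by linarith) hB.le
      have h6 : 0 ≤ τ * (w * (c q.2.2 - c q.1)).re := mul_nonneg hτ0 hA.le
      rcases eq_or_lt_of_le hτ0 with h7 | h7
      · rw [← h7] at h4
        linarith
      · have := mul_pos h7 hA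
        linarith

end Pool.Agent.N335.Hg
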