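import Pool.Agent.H763R2.An.A

/-! Continuous choice of the direction of the chords of a simple closed curve. -/

set_option autoImplicit false
open Complex Set Topology Metric

namespace Pool.Agent.N335.Hg

open Pool.Agent.H763R2 Pool.Agent.H763R2.An

variable {c : ℝ → ℂ}

/-- `θ x y` is a continuous choice of the direction of the chord from `c x` to `c y` -/
structure Dirn (c : ℝ → ℂ) (θ : ℝ → ℝ → ℝ) : Prop where
  cont : ContinuousOn (fun p : ℝ × ℝ => θ p.1 p.2) UU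
  ex : ∀ x y, x < y → y < x + 1 → ∃ ρ : ℝ, 0 < ρ ∧ c y - c x = ρ * exp (θ x y * I)

theorem exists_dirn (L : Loop c) (J : Inj c) : ∃ θ, Dirn c θ := by
  have hne : UU.Nonempty := ⟨(0, 1/2), by norm_num [UU]⟩
  have : ContractibleSpace UU := UU_convex.contractibleSpace hne
  have : LocallyPathConnectedSpace UU := UU_open.locallyPathConnectedSpace
  have cc := L.cont
  obtain ⟨K, hK, hKe⟩ := H777R2.exists_log (X := UU)
    (g := fun p => c p.1.2 - c p.1.1) (by fun_prop)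
    (fun p => sub_ne_zero.2 (J _ _ p.2.1 p.2.2).symm)
  classical
  refine ⟨fun x y => if h : ((x, y) : ℝ × ℝ) ∈ UU then (K ⟨(x, y), h⟩).im else 0, ?_, ?_⟩
  · rw [continuousOn_iff_continuous_domRestrict]
    have : UU.domRestrict (fun p : ℝ × ℝ => (fun x y => if h : ((x, y) : ℝ × ℝ) ∈ UU then
        (K ⟨(x, y), h⟩).im else 0) p.1 p.2) = fun p : UU => (K p).im := by
      funext p
      show (if h : ((p.1.1, p.1.2) : ℝ × ℝ) ∈ UU then (K ⟨(p.1.1, p.1.2), h⟩).im else 0) = _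
      rw [dif_pos (show ((p.1.1, p.1.2) : ℝ × ℝ) ∈ UU from p.2)]
    rw [this]
    exact continuous_im.comp hK
  · intro x y h1 h2
    have h : ((x, y) : ℝ × ℝ) ∈ UU := ⟨h1, h2⟩
    refine ⟨Real.exp (K ⟨(x, y), h⟩).re, Real.exp_pos _, ?_⟩
    have e := hKe ⟨(x, y), h⟩
    simp only at e
    rw [dif_pos h, ← e, ofReal_exp, ← exp_add]
    congr 1
    exact (re_add_im _).symm

theorem Dirn.shift {θ : ℝ → ℝ → ℝ} (D : Dirn c θ) (k : ℤ) :
    Dirn c (fun x y => θ x y + k * (2 * Real.pi)) := by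
  refine ⟨D.cont.add continuousOn_const, fun x y h1 h2 => ?_⟩
  obtain ⟨ρ, hρ, e⟩ := D.ex x y h1 h2
  refine ⟨ρ, hρ, ?_⟩
  rw [e]
  congr 1
  rw [exp_eq_exp_iff_exists_int]
  refine ⟨-k, ?_⟩
  push_cast
  ring

/-- two polar representations -/
theorem ang_eq {ρ₁ ρ₂ a b : ℝ} (h1 : 0 < ρ₁) (h2 : 0 < ρ₂)
    (h : (ρ₁ : ℂ) * exp (a * I) = ρ₂ * exp (b * I)) : ∃ n : ℤ, a = b + n * (2 * Real.pi) := by
  have hn := congrArg norm h
  rw [norm_mul, norm_mul, norm_exp_ofReal_mul_I, norm_exp_ofReal_mul_I, mul_one, mul_one,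
    norm_real, norm_real, Real.norm_eq_abs, Real.norm_eq_abs, abs_of_pos h1, abs_of_pos h2] at hn
  rw [hn] at h
  have h3 := mul_left_cancel₀ (ofReal_ne_zero.2 h2.ne') h
  obtain ⟨n, hn⟩ := exp_eq_exp_iff_exists_int.1 h3
  refine ⟨n, ?_⟩
  have := congrArg Complex.im hn
  simpa using this

theorem stay {φ : ℝ → ℝ} {Y : Set ℝ} (hY : IsPreconnected Y) (hφ : ContinuousOn φ Y) {lo hi : ℝ}
    (hno : ∀ y ∈ Y, φ y ≠ lo ∧ φ y ≠ hi) {y₀ y₁ : ℝ} (h0 : y₀ ∈ Y)
    (h : lo < φ y₀ ∧ φ y₀ < hi) (h1 : y₁ ∈ Y) : lo < φ y₁ ∧ φ y₁ < hi := by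
  have hO := (hY.image φ hφ).ordConnected
  constructor
  · by_contra hcon
    obtain ⟨y, hy, e⟩ := hO.out (mem_image_of_mem φ h1) (mem_image_of_mem φ h0)
      (show lo ∈ Icc (φ y₁) (φ y₀) from ⟨not_lt.1 hcon, h.1.le⟩)
    exact (hno y hy).1 e
  · by_contra hcon
    obtain ⟨y, hy, e⟩ := hO.out (mem_image_of_mem φ h0) (mem_image_of_mem φ h1)
      (show hi ∈ Icc (φ y₀) (φ y₁) from ⟨h.2.le, not_lt.1 hcon⟩)
    exact (hno y hy).2 e

/-- the closed sector below: directions between 225 and 315 degrees, with the apex -/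
def Sec (v : ℂ) : Prop := |v.re| ≤ -v.im

theorem Sec.add {v w : ℂ} (hv : Sec v) (hw : Sec w) : Sec (v + w) := by
  unfold Sec at *
  rw [add_re, add_im]
  have := abs_add_le v.re w.re
  linarith

theorem sec_closed : IsClosed {v : ℂ | Sec v} :=
  isClosed_le (continuous_abs.comp continuous_re) continuous_im.neg

theorem sec_mul {ρ : ℝ} (hρ : 0 < ρ) {v : ℂ} (h : Sec v) : Sec (ρ * v) := by
  unfold Sec at *
  rw [re_ofReal_mul, im_ofReal_mul, abs_mul, abs_of_pos hρ]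
  nlinarith

theorem cos_q : Real.cos (Real.pi / 4) = √2 / 2 := Real.cos_pi_div_four
theorem sin_q : Real.sin (Real.pi / 4) = √2 / 2 := Real.sin_pi_div_four

theorem sec_a : Sec (exp (((-(Real.pi / 4) : ℝ) : ℂ) * I)) := by
  unfold Sec
  rw [exp_ofReal_mul_I_re, exp_ofReal_mul_I_im, Real.cos_neg, Real.sin_neg, cos_q, sin_q,
    abs_of_nonneg (by positivity)]
  linarith

theorem sec_b : Sec (exp (((5 * Real.pi / 4 : ℝ) : ℂ) * I)) := by
  unfold Sec
  rw [exp_ofReal_mul_I_re, exp_ofReal_mul_I_im,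
    show 5 * Real.pi / 4 = Real.pi / 4 + Real.pi by ring, Real.cos_add_pi, Real.sin_add_pi,
    cos_q, sin_q, abs_neg, abs_of_nonneg (by positivity)]
  linarith

theorem sec_c : Sec (-exp (((Real.pi / 4 : ℝ) : ℂ) * I)) := by
  unfold Sec
  rw [neg_re, neg_im, exp_ofReal_mul_I_re, exp_ofReal_mul_I_im, cos_q, sin_q, abs_neg,
    abs_of_nonneg (by positivity)]
  linarith

theorem sec_d : Sec (-exp (((-(5 * Real.pi / 4) : ℝ) : ℂ) * I)) := by
  unfold Sec
  rw [neg_re, neg_im, exp_ofReal_mul_I_re, exp_ofReal_mul_I_im, Real.cos_neg, Real.sin_neg,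
    show 5 * Real.pi / 4 = Real.pi / 4 + Real.pi by ring, Real.cos_add_pi, Real.sin_add_pi,
    cos_q, sin_q, neg_neg, abs_of_nonneg (by positivity)]
  linarith

namespace Dirn

variable {θ : ℝ → ℝ → ℝ}

theorem re_pos (D : Dirn c θ) {x y : ℝ} (h1 : x < y) (h2 : y < x + 1)
    (h : (c x).re < (c y).re) : 0 < Real.cos (θ x y) := by
  obtain ⟨ρ, hρ, e⟩ := D.ex x y h1 h2
  have := congrArg Complex.re e
  rw [sub_re, re_ofReal_mul, exp_ofReal_mul_I_re] at this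
  by_contra hc
  have := mul_nonpos_of_nonneg_of_nonpos hρ.le (not_lt.1 hc)
  linarith

theorem contR (D : Dirn c θ) {x : ℝ} {Y : Set ℝ} (hY : ∀ y ∈ Y, x < y ∧ y < x + 1) :
    ContinuousOn (fun y => θ x y) Y :=
  D.cont.comp (f := fun y => ((x, y) : ℝ × ℝ)) (by fun_prop) (fun y hy => hY y hy)

theorem contL (D : Dirn c θ) {y : ℝ} {X : Set ℝ} (hX : ∀ x ∈ X, x < y ∧ y < x + 1) :
    ContinuousOn (fun x => θ x y) X :=
  D.cont.comp (f := fun x => ((x, y) : ℝ × ℝ)) (by fun_prop) (fun x hx => hX x hx)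

theorem ne_a (D : Dirn c θ) {x y : ℝ} (h1 : x < y) (h2 : y < x + 1) (h : ¬ Sec (c y - c x)) :
    θ x y ≠ -(Real.pi / 4) := by
  intro e
  obtain ⟨ρ, hρ, e'⟩ := D.ex x y h1 h2
  rw [e] at e'
  exact h (e' ▸ sec_mul hρ sec_a)

theorem ne_b (D : Dirn c θ) {x y : ℝ} (h1 : x < y) (h2 : y < x + 1) (h : ¬ Sec (c y - c x)) :
    θ x y ≠ 5 * Real.pi / 4 := by
  intro e
  obtain ⟨ρ, hρ, e'⟩ := D.ex x y h1 h2
  rw [e] at e'
  exact h (e' ▸ sec_mul hρ sec_b)

theorem ne_c (D : Dirn c θ) {x y : ℝ} (h1 : x < y) (h2 : y < x + 1) (h : ¬ Sec (c x - c y)) :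
    θ x y ≠ Real.pi / 4 := by
  intro e
  obtain ⟨ρ, hρ, e'⟩ := D.ex x y h1 h2
  rw [e] at e'
  have : c x - c y = ρ * -exp (((Real.pi / 4 : ℝ) : ℂ) * I) := by
    linear_combination -e'
  exact h (this ▸ sec_mul hρ sec_c)

theorem ne_d (D : Dirn c θ) {x y : ℝ} (h1 : x < y) (h2 : y < x + 1) (h : ¬ Sec (c x - c y)) :
    θ x y ≠ -(5 * Real.pi / 4) := by
  intro e
  obtain ⟨ρ, hρ, e'⟩ := D.ex x y h1 h2
  rw [e] at e'
  have : c x - c y = ρ * -exp (((-(5 * Real.pi / 4) : ℝ) : ℂ) * I) := by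
    linear_combination -e'
  exact h (this ▸ sec_mul hρ sec_d)

/-- the labels of a triangle -/
theorem lab1 (D : Dirn c θ) {x u y : ℝ} (h1 : x < u) (h2 : u < y) (h3 : y < x + 1)
    (h : c u = c x + I * (c y - c x)) :
    ∃ j : ℤ, θ x u = θ x y + Real.pi / 2 + j * (2 * Real.pi) := by
  obtain ⟨ρ, hρ, e⟩ := D.ex x y (h1.trans h2) h3
  obtain ⟨ρ', hρ', e'⟩ := D.ex x u h1 (h2.trans h3)
  refine ang_eq hρ' hρ ?_
  rw [← e', h, add_sub_cancel_left, e]
  push_cast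
  rw [add_mul, exp_add, show (Real.pi : ℂ) / 2 * I = Real.pi / 2 * I by ring, exp_pi_div_two_mul_I]
  ring

theorem lab2 (D : Dirn c θ) {x u y : ℝ} (h1 : x < u) (h2 : u < y) (h3 : y < x + 1)
    (h : c u = c x + I * (c y - c x)) :
    ∃ l : ℤ, θ u y = θ x y - Real.pi / 4 + l * (2 * Real.pi) := by
  obtain ⟨ρ, hρ, e⟩ := D.ex x y (h1.trans h2) h3
  obtain ⟨ρ', hρ', e'⟩ := D.ex u y h2 (by linarith)
  have h4 : (1 : ℂ) - I = (√2 : ℝ) * exp (((-(Real.pi / 4) : ℝ) : ℂ) * I) := by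
    have hs : (√2 : ℝ) * (√2 / 2) = 1 := by
      have := Real.mul_self_sqrt (show (0:ℝ) ≤ 2 by norm_num)
      linarith
    apply Complex.ext
    · rw [re_ofReal_mul, exp_ofReal_mul_I_re, Real.cos_neg, cos_q, hs]; simp
    · rw [im_ofReal_mul, exp_ofReal_mul_I_im, Real.sin_neg, sin_q, mul_neg, hs]; simp
  refine ang_eq hρ' (show 0 < √2 * ρ by positivity) ?_
  have e2 : c y - c u = (1 - I) * (c y - c x) := by rw [h]; ring
  rw [← e', e2, e, h4]
  push_cast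
  rw [sub_mul, sub_eq_add_neg, exp_add, ← neg_mul]
  ring

end Dirn

/-- the window: the ends are strictly leftmost and rightmost -/
structure Base (c : ℝ → ℂ) (θ : ℝ → ℝ → ℝ) (a b : ℝ) : Prop where
  ab : a < b
  ba : b < a + 1
  left : ∀ s, a < s → s ≤ b → (c a).re < (c s).re
  right : ∀ s, a ≤ s → s < b → (c s).re < (c b).re
  norm : -(Real.pi / 2) < θ a b ∧ θ a b < Real.pi / 2

/-- every direction from `c z` into the sector below is free -/
def Free (c : ℝ → ℂ) (a b z : ℝ) : Prop := ∀ s, a ≤ s → s ≤ b → Sec (c s - c z) → s = z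

namespace Base

variable {θ : ℝ → ℝ → ℝ} {a b : ℝ}

theorem from_a (D : Dirn c θ) (B : Base c θ a b) {y : ℝ} (h1 : a < y) (h2 : y ≤ b) :
    -(Real.pi / 2) < θ a y ∧ θ a y < Real.pi / 2 := by
  have hb := B.ba
  refine stay (Y := Ioc a b) isPreconnected_Ioc (D.contR fun y hy => ⟨hy.1, by linarith [hy.2]⟩)
    (fun y hy => ?_) ⟨B.ab, le_rfl⟩ B.norm ⟨h1, h2⟩
  have hp := D.re_pos hy.1 (by linarith [hy.2]) (B.left y hy.1 hy.2)
  constructor
  · intro e; rw [e, Real.cos_neg, Real.cos_pi_div_two] at hp; exact lt_irrefl _ hp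
  · intro e; rw [e, Real.cos_pi_div_two] at hp; exact lt_irrefl _ hp

theorem to_b (D : Dirn c θ) (B : Base c θ a b) {x : ℝ} (h1 : a ≤ x) (h2 : x < b) :
    -(Real.pi / 2) < θ x b ∧ θ x b < Real.pi / 2 := by
  have hb := B.ba
  refine stay (Y := Ico a b) isPreconnected_Ico (φ := fun x => θ x b)
    (D.contL fun x hx => ⟨hx.2, by linarith [hx.1]⟩)
    (fun x hx => ?_) (y₀ := a) ⟨le_rfl, B.ab⟩ B.norm ⟨h1, h2⟩
  have hp := D.re_pos hx.2 (by linarith [hx.1]) (B.right x hx.1 hx.2)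
  constructor
  · intro e; rw [e, Real.cos_neg, Real.cos_pi_div_two] at hp; exact lt_irrefl _ hp
  · intro e; rw [e, Real.cos_pi_div_two] at hp; exact lt_irrefl _ hp

theorem not_sec {v : ℂ} {ρ t : ℝ} (hρ : 0 < ρ) (e : v = ρ * exp (t * I)) (h : ¬ Sec v)
    (h1 : -(Real.pi / 2) < t) (h2 : t < Real.pi / 2) : -(Real.pi / 4) < t := by
  by_contra hc
  refine h (e ▸ sec_mul hρ ?_)
  unfold Sec
  rw [exp_ofReal_mul_I_re, exp_ofReal_mul_I_im, abs_of_pos (Real.cos_pos_of_mem_Ioo ⟨h1, h2⟩),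
    ← Real.sin_neg, ← Real.cos_pi_div_two_sub (-t)]
  have hπ := Real.pi_pos
  refine (Real.cos_neg t).symm.le.trans ?_
  refine Real.cos_le_cos_of_nonneg_of_le_pi (by linarith) (by linarith) (by linarith)

/-- directions from a free point to later points -/
theorem fut (D : Dirn c θ) (B : Base c θ a b) {z : ℝ} (F : Free c a b z) (h1 : a ≤ z) {y : ℝ}
    (h2 : z < y) (h3 : y ≤ b) : -(Real.pi / 4) < θ z y ∧ θ z y < 5 * Real.pi / 4 := by
  have hb := B.ba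
  have hπ := Real.pi_pos
  have hno : ∀ y, z < y → y ≤ b → ¬ Sec (c y - c z) := fun y hy hy' hs =>
    absurd (F y (by linarith) hy' hs) (by linarith)
  refine stay (Y := Ioc z b) isPreconnected_Ioc (D.contR fun y hy => ⟨hy.1, by linarith [hy.2]⟩)
    (fun y hy => ⟨D.ne_a hy.1 (by linarith [hy.2]) (hno y hy.1 hy.2),
      D.ne_b hy.1 (by linarith [hy.2]) (hno y hy.1 hy.2)⟩)
    (y₀ := b) ⟨by linarith, le_rfl⟩ ?_ ⟨h2, h3⟩
  have h := B.to_b D h1 (show z < b by linarith)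
  obtain ⟨ρ, hρ, e⟩ := D.ex z b (by linarith) (by linarith)
  exact ⟨not_sec hρ e (hno b (by linarith) le_rfl) h.1 h.2, by linarith [h.2]⟩

/-- directions from earlier points to a free point -/
theorem past (D : Dirn c θ) (B : Base c θ a b) {z : ℝ} (F : Free c a b z) (h1 : z ≤ b) {x : ℝ}
    (h2 : a ≤ x) (h3 : x < z) : -(5 * Real.pi / 4) < θ x z ∧ θ x z < Real.pi / 4 := by
  have hb := B.ba
  have hπ := Real.pi_pos
  have hno : ∀ x, a ≤ x → x < z → ¬ Sec (c x - c z) := fun x hx hx' hs =>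
    absurd (F x hx (by linarith) hs) (by linarith)
  refine stay (Y := Ico a z) isPreconnected_Ico (φ := fun x => θ x z)
    (D.contL fun x hx => ⟨hx.2, by linarith [hx.1]⟩)
    (fun x hx => ⟨D.ne_d hx.2 (by linarith [hx.1]) (hno x hx.1 hx.2),
      D.ne_c hx.2 (by linarith [hx.1]) (hno x hx.1 hx.2)⟩)
    (y₀ := a) ⟨le_rfl, by linarith⟩ ?_ ⟨h2, h3⟩
  have h := B.from_a D (show a < z by linarith) h1
  refine ⟨by linarith [h.1], ?_⟩
  obtain ⟨ρ, hρ, e⟩ := D.ex a z (by linarith) (by linarith)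
  by_contra hc
  refine hno a le_rfl (by linarith) ?_
  have e2 : c a - c z = ρ * -exp (θ a z * I) := by linear_combination -e
  rw [e2]
  refine sec_mul hρ ?_
  unfold Sec
  rw [neg_re, neg_im, abs_neg, exp_ofReal_mul_I_re, exp_ofReal_mul_I_im, neg_neg,
    abs_of_pos (Real.cos_pos_of_mem_Ioo h), ← Real.cos_pi_div_two_sub (θ a z),
    ← Real.cos_abs (Real.pi / 2 - θ a z)]
  refine Real.cos_le_cos_of_nonneg_of_le_pi (abs_nonneg _) (by linarith) ?_
  rw [abs_le]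
  constructor <;> linarith

end Base

end Pool.Agent.N335.Hg
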