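import Pool.Agent.N335.Hg.Th

/-! Windows of a simple closed curve: free points and triangles at the boundary of the window. -/

set_option autoImplicit false
open Complex Set Topology Metric

namespace Pool.Agent.N335.Hg

open Pool.Agent.H763R2 Pool.Agent.H763R2.An

variable {c : ℝ → ℂ} {θ : ℝ → ℝ → ℝ}

theorem int_zero_of {x : ℝ} {j : ℤ} (h : x = j * (2 * Real.pi)) (h1 : -(2 * Real.pi) < x)
    (h2 : x < 2 * Real.pi) : j = 0 := by
  have hπ := Real.pi_pos
  have a1 : (-1 : ℝ) < j := by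
    by_contra hc
    have := mul_le_mul_of_nonneg_right (not_lt.1 hc) (show 0 ≤ 2 * Real.pi by linarith)
    linarith
  have a2 : (j : ℝ) < 1 := by
    by_contra hc
    have := mul_le_mul_of_nonneg_right (not_lt.1 hc) (show 0 ≤ 2 * Real.pi by linarith)
    linarith
  have b1 : -1 < j := by exact_mod_cast a1
  have b2 : j < 1 := by exact_mod_cast a2
  omega

namespace Base

variable {a b : ℝ}

theorem role_P (D : Dirn c θ) (B : Base c θ a b) {z u y : ℝ} (F : Free c a b z) (h1 : a ≤ z)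
    (h2 : z < u) (h3 : u < y) (h4 : y ≤ b) (h : c u = c z + I * (c y - c z)) :
    θ z u = θ z y + Real.pi / 2 := by
  have hb := B.ba
  have hπ := Real.pi_pos
  obtain ⟨j, hj⟩ := D.lab1 h2 h3 (by linarith) h
  have f1 := B.fut D F h1 h2 (by linarith)
  have f2 := B.fut D F h1 (h2.trans h3) h4
  have : j = 0 := int_zero_of (x := θ z u - θ z y - Real.pi / 2) (by linarith)
    (by linarith [f1.1, f2.2]) (by linarith [f1.2, f2.1])
  rw [this] at hj
  rw [hj]; push_cast; ring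

theorem role_Q (D : Dirn c θ) (B : Base c θ a b) {x u z : ℝ} (F : Free c a b z) (h1 : z ≤ b)
    (h2 : a ≤ x) (h3 : x < u) (h4 : u < z) (h : c u = c x + I * (c z - c x)) :
    θ u z = θ x z - Real.pi / 4 := by
  have hb := B.ba
  have hπ := Real.pi_pos
  obtain ⟨j, hj⟩ := D.lab2 h3 h4 (by linarith) h
  have f1 := B.past D F h1 (show a ≤ u by linarith) h4
  have f2 := B.past D F h1 h2 (h3.trans h4)
  have : j = 0 := int_zero_of (x := θ u z - θ x z + Real.pi / 4) (by linarith)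
    (by linarith [f1.1, f2.2]) (by linarith [f1.2, f2.1])
  rw [this] at hj
  rw [hj]; push_cast; ring

theorem role_V (D : Dirn c θ) (B : Base c θ a b) {x z y : ℝ} (F : Free c a b z) (h1 : a ≤ x)
    (h2 : x < z) (h3 : z < y) (h4 : y ≤ b) (e1 : θ x z = θ x y + Real.pi / 2)
    (e2 : θ z y = θ x y - Real.pi / 4) : False := by
  have hπ := Real.pi_pos
  have f1 := B.past D F (show z ≤ b by linarith) h1 h2
  have f2 := B.fut D F (show a ≤ z by linarith) h3 h4
  linarith [f1.2, f2.1]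

end Base

/-- free points exist near every point of the arc -/
theorem exists_free (hc : Continuous c) {a b t : ℝ} (ht : t ∈ Icc a b) :
    ∃ z ∈ Icc a b, Sec (c z - c t) ∧ ∀ s ∈ Icc a b, Sec (c s - c z) → c s = c z := by
  have hK : IsCompact (Icc a b ∩ {s | Sec (c s - c t)}) :=
    isCompact_Icc.inter_right (sec_closed.preimage (hc.sub continuous_const))
  obtain ⟨z, ⟨hz, hz'⟩, hmin⟩ := hK.exists_isMinOn ⟨t, ht, by
    show Sec (c t - c t)
    rw [sub_self]; unfold Sec; simp⟩ (f := fun s => (c s).im) (continuous_im.comp hc).continuousOn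
  refine ⟨z, hz, hz', fun s hs hsec => ?_⟩
  have h1 : Sec (c s - c t) := by
    have := hsec.add hz'
    rwa [sub_add_sub_cancel] at this
  have h2 : (c z).im ≤ (c s).im := hmin ⟨hs, h1⟩
  unfold Sec at hsec
  rw [sub_re, sub_im] at hsec
  have h3 := abs_nonneg ((c s).re - (c z).re)
  have h4 : |(c s).re - (c z).re| = 0 := by linarith
  apply Complex.ext
  · have := abs_eq_zero.1 h4
    linarith
  · linarith

/-- a normalised window -/
structure Win (c : ℝ → ℂ) (κ a a₁ α β b₁ b : ℝ) : Prop where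
  κ0 : 0 < κ
  κ1 : κ < 1
  h1 : a < a₁
  h2 : a₁ < α
  h3 : α ≤ β
  h4 : β < b₁
  h5 : b₁ < b
  h6 : b < a + 1
  hL : ∀ s, a ≤ s → s ≤ α → |(c s).im| ≤ κ * -(c s).re
  hR : ∀ s, β ≤ s → s ≤ b → |(c s).im| ≤ κ * (c s).re
  hin : ∀ s, α ≤ s → s ≤ β → ∀ s', (a ≤ s' ∧ s' ≤ a₁ ∨ b₁ ≤ s' ∧ s' ≤ b) →
    10 * ‖c s‖ ≤ (1 - κ) ^ 2 * ‖c s'‖
  hmid : ∀ s, a₁ ≤ s → s ≤ b₁ → 6 * ‖c s‖ ≤ (1 - κ) ^ 2 * -(c a).re ∧
    6 * ‖c s‖ ≤ (1 - κ) ^ 2 * (c b).re
  hne : ∀ s', (a ≤ s' ∧ s' ≤ a₁ ∨ b₁ ≤ s' ∧ s' ≤ b) → c s' ≠ 0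

namespace Win

variable {κ a a₁ α β b₁ b : ℝ}

theorem free_of (J : Inj c) (h6 : b < a + 1) {z : ℝ} (hz : z ∈ Icc a b)
    (h : ∀ s ∈ Icc a b, Sec (c s - c z) → c s = c z) : Free c a b z := by
  intro s hs1 hs2 hs
  have e := h s ⟨hs1, hs2⟩ hs
  rcases lt_trichotomy s z with hlt | he | hgt
  · exact absurd e (J s z hlt (by linarith [hz.2]))
  · exact he
  · exact absurd e.symm (J z s hgt (by linarith [hz.1]))

theorem re_of {κ x y : ℝ} (hκ : 0 < κ) (h : |y| ≤ κ * x) : 0 ≤ x := by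
  by_contra hc
  push Not at hc
  have := abs_nonneg y
  nlinarith

theorem norm_le {v : ℂ} {κ X : ℝ} (hκ1 : κ < 1) (hX : 0 ≤ X) (hr : |v.re| ≤ X)
    (hi : |v.im| ≤ κ * X) : ‖v‖ ≤ 2 * X := by
  have := Complex.norm_le_abs_re_add_abs_im v
  nlinarith

theorem exists_zL (W : Win c κ a a₁ α β b₁ b) (hc : Continuous c) (J : Inj c) :
    ∃ z, a₁ < z ∧ z < α ∧ Free c a b z := by
  obtain ⟨κ0, κ1, h1, h2, h3, h4, h5, h6, hL, hR, hin, hmid, hne⟩ := W
  obtain ⟨s₀, hs₀, hmin⟩ := (isCompact_Icc (a := a) (b := a₁)).exists_isMinOn ⟨a, le_rfl, h1.le⟩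
    (f := fun s => ‖c s‖) hc.norm.continuousOn
  obtain ⟨ρ, hρ⟩ : ∃ ρ, ρ = ‖c s₀‖ := ⟨_, rfl⟩
  have ρ0 : 0 < ρ := by rw [hρ]; exact norm_pos_iff.2 (hne s₀ (Or.inl hs₀))
  have hfar : ∀ s, a ≤ s → s ≤ a₁ → ρ ≤ ‖c s‖ := fun s hs hs' => by rw [hρ]; exact hmin ⟨hs, hs'⟩
  have hnear : ∀ s, α ≤ s → s ≤ β → 10 * ‖c s‖ ≤ (1 - κ) ^ 2 * ρ := fun s hs hs' => by
    rw [hρ]; exact hin s hs hs' s₀ (Or.inl hs₀)
  have kp : 0 < 1 - κ := by linarith
  have kr : 0 < (1 - κ) * ρ := mul_pos kp ρ0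
  have kq : (1 - κ) ^ 2 * ρ ≤ (1 - κ) * ρ := by nlinarith
  have ks : 0 < (1 - κ) ^ 2 * ρ := by positivity
  have hX : ∀ s, a ≤ s → s ≤ a₁ → ρ ≤ 2 * -(c s).re := by
    intro s hs hs'
    have h := hL s hs (by linarith)
    have h0 := re_of κ0 h
    refine (hfar s hs hs').trans (norm_le κ1 h0 ?_ h)
    rw [← abs_neg, abs_of_nonneg h0]
  obtain ⟨r, hr⟩ : ∃ r, r = (1 - κ) * ρ / 4 := ⟨_, rfl⟩
  have r0 : 0 < r := by rw [hr]; linarith
  obtain ⟨t, ht, hte⟩ : ∃ t ∈ Icc a₁ α, -(c t).re = r := by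
    refine intermediate_value_Icc' h2.le (f := fun s => -(c s).re)
      (continuous_re.comp hc).neg.continuousOn ⟨?_, ?_⟩
    · have := Complex.abs_re_le_norm (c α)
      have h' := neg_abs_le (c α).re
      have := hnear α le_rfl h3
      rw [hr]; linarith
    · have := hX a₁ h1.le le_rfl
      have : κ * ρ > 0 := mul_pos κ0 ρ0
      rw [hr]; linarith
  have htc := hL t (h1.le.trans ht.1) ht.2
  rw [hte] at htc
  obtain ⟨z, hz, hsec, hz'⟩ := exists_free hc (a := a) (b := b) (t := t)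
    ⟨h1.le.trans ht.1, by linarith [ht.2]⟩
  unfold Sec at hsec
  rw [sub_re, sub_im] at hsec
  have q1 := le_abs_self ((c z).re - (c t).re)
  have q2 := neg_abs_le ((c z).re - (c t).re)
  have q3 := (le_abs_self (c t).im).trans htc
  refine ⟨z, ?_, ?_, free_of J h6 hz hz'⟩
  · by_contra hcon
    push Not at hcon
    have hx := hX z hz.1 hcon
    have hi := hL z hz.1 (by linarith)
    have q4 := (neg_le_abs (c z).im).trans hi
    have : (1 - κ) * -(c z).re ≤ (1 + κ) * r := by linarith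
    have : (1 + κ) * r < 2 * r := by nlinarith
    have : (1 - κ) * (2 * -(c z).re) < (1 - κ) * ρ := by
      have e4 : 4 * r = (1 - κ) * ρ := by rw [hr]; ring
      linarith
    have := lt_of_mul_lt_mul_left this kp.le
    linarith
  · by_contra hcon
    push Not at hcon
    rcases le_total z β with hzβ | hzβ
    · have hn := hnear z hcon hzβ
      have a1 := (neg_le_abs (c z).im).trans (Complex.abs_im_le_norm (c z))
      have a2 := (neg_le_abs (c z).re).trans (Complex.abs_re_le_norm (c z))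
      have : (1 - κ) * r ≤ 2 * ‖c z‖ := by linarith
      have : (1 - κ) * r = (1 - κ) ^ 2 * ρ / 4 := by rw [hr]; ring
      linarith
    · have hi := hR z hzβ hz.2
      have h0 := re_of κ0 hi
      have q4 := (neg_le_abs (c z).im).trans hi
      have : (1 - κ) * ((c z).re + r) ≤ 0 := by linarith
      have : 0 < (1 - κ) * ((c z).re + r) := mul_pos kp (by linarith)
      linarith

theorem exists_zR (W : Win c κ a a₁ α β b₁ b) (hc : Continuous c) (J : Inj c) :
    ∃ z, β < z ∧ z < b₁ ∧ Free c a b z := by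
  obtain ⟨κ0, κ1, h1, h2, h3, h4, h5, h6, hL, hR, hin, hmid, hne⟩ := W
  obtain ⟨s₀, hs₀, hmin⟩ := (isCompact_Icc (a := b₁) (b := b)).exists_isMinOn ⟨b, h5.le, le_rfl⟩
    (f := fun s => ‖c s‖) hc.norm.continuousOn
  obtain ⟨ρ, hρ⟩ : ∃ ρ, ρ = ‖c s₀‖ := ⟨_, rfl⟩
  have ρ0 : 0 < ρ := by rw [hρ]; exact norm_pos_iff.2 (hne s₀ (Or.inr hs₀))
  have hfar : ∀ s, b₁ ≤ s → s ≤ b → ρ ≤ ‖c s‖ := fun s hs hs' => by rw [hρ]; exact hmin ⟨hs, hs'⟩
  have hnear : ∀ s, α ≤ s → s ≤ β → 10 * ‖c s‖ ≤ (1 - κ) ^ 2 * ρ := fun s hs hs' => by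
    rw [hρ]; exact hin s hs hs' s₀ (Or.inr hs₀)
  have kp : 0 < 1 - κ := by linarith
  have kr : 0 < (1 - κ) * ρ := mul_pos kp ρ0
  have kq : (1 - κ) ^ 2 * ρ ≤ (1 - κ) * ρ := by nlinarith
  have ks : 0 < (1 - κ) ^ 2 * ρ := by positivity
  have hX : ∀ s, b₁ ≤ s → s ≤ b → ρ ≤ 2 * (c s).re := by
    intro s hs hs'
    have h := hR s (by linarith) hs'
    have h0 := re_of κ0 h
    refine (hfar s hs hs').trans (norm_le κ1 h0 ?_ h)
    rw [abs_of_nonneg h0]
  obtain ⟨r, hr⟩ : ∃ r, r = (1 - κ) * ρ / 4 := ⟨_, rfl⟩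
  have r0 : 0 < r := by rw [hr]; linarith
  obtain ⟨t, ht, hte⟩ : ∃ t ∈ Icc β b₁, (c t).re = r := by
    refine intermediate_value_Icc h4.le (f := fun s => (c s).re)
      (continuous_re.comp hc).continuousOn ⟨?_, ?_⟩
    · have := Complex.abs_re_le_norm (c β)
      have h' := le_abs_self (c β).re
      have := hnear β h3 le_rfl
      rw [hr]; linarith
    · have := hX b₁ le_rfl h5.le
      have : κ * ρ > 0 := mul_pos κ0 ρ0
      rw [hr]; linarith
  have htc := hR t ht.1 (ht.2.trans h5.le)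
  rw [hte] at htc
  obtain ⟨z, hz, hsec, hz'⟩ := exists_free hc (a := a) (b := b) (t := t)
    ⟨by linarith [ht.1], by linarith [ht.2]⟩
  unfold Sec at hsec
  rw [sub_re, sub_im] at hsec
  have q1 := le_abs_self ((c z).re - (c t).re)
  have q2 := neg_abs_le ((c z).re - (c t).re)
  have q3 := (le_abs_self (c t).im).trans htc
  refine ⟨z, ?_, ?_, free_of J h6 hz hz'⟩
  · by_contra hcon
    push Not at hcon
    rcases le_total α z with hzα | hzα
    · have hn := hnear z hzα hcon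
      have a1 := (neg_le_abs (c z).im).trans (Complex.abs_im_le_norm (c z))
      have a2 := (le_abs_self (c z).re).trans (Complex.abs_re_le_norm (c z))
      have : (1 - κ) * r ≤ 2 * ‖c z‖ := by linarith
      have : (1 - κ) * r = (1 - κ) ^ 2 * ρ / 4 := by rw [hr]; ring
      linarith
    · have hi := hL z hz.1 hzα
      have h0 := re_of κ0 hi
      have q4 := (neg_le_abs (c z).im).trans hi
      have : (1 - κ) * (-(c z).re + r) ≤ 0 := by linarith
      have : 0 < (1 - κ) * (-(c z).re + r) := mul_pos kp (by linarith)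
      linarith
  · by_contra hcon
    push Not at hcon
    have hx := hX z hcon hz.2
    have hi := hR z (by linarith) hz.2
    have q4 := (neg_le_abs (c z).im).trans hi
    have : (1 - κ) * (c z).re ≤ (1 + κ) * r := by linarith
    have : (1 + κ) * r < 2 * r := by nlinarith
    have : (1 - κ) * (2 * (c z).re) < (1 - κ) * ρ := by
      have e4 : 4 * r = (1 - κ) * ρ := by rw [hr]; ring
      linarith
    have := lt_of_mul_lt_mul_left this kp.le
    linarith

/-- no triangle with `Q = c b` and two vertices in the middle part -/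
theorem no_mid (W : Win c κ a a₁ α β b₁ b) {x u : ℝ} (hx : a₁ ≤ x) (hx' : x ≤ b₁) (hu : a₁ ≤ u)
    (hu' : u ≤ b₁) (h : c u = c x + I * (c b - c x)) : False := by
  obtain ⟨κ0, κ1, h1, h2, h3, h4, h5, h6, hL, hR, hin, hmid, hne⟩ := W
  have e := congrArg Complex.im h
  simp only [add_im, mul_im, I_re, I_im, sub_re, sub_im, zero_mul, one_mul, zero_add] at e
  have kp : 0 < 1 - κ := by linarith
  have b1 := (hmid x hx hx').2
  have b2 := (hmid u hu hu').2
  have a1 := abs_le.1 (Complex.abs_im_le_norm (c x))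
  have a2 := abs_le.1 (Complex.abs_re_le_norm (c x))
  have a3 := abs_le.1 (Complex.abs_im_le_norm (c u))
  have h0 := re_of κ0 (hR b (by linarith) le_rfl)
  have hpos : 0 < (c b).re := by
    refine lt_of_le_of_ne h0 fun h' => hne b (Or.inr ⟨h5.le, le_rfl⟩) ?_
    have := hR b (by linarith) le_rfl
    rw [← h', mul_zero] at this
    exact Complex.ext h'.symm (abs_nonpos_iff.1 this)
  have hk : (1 - κ) ^ 2 * (c b).re ≤ (c b).re := by
    have : (1 - κ) ^ 2 ≤ 1 := by nlinarith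
    nlinarith
  linarith [a1.1, a1.2, a2.1, a2.2, a3.1, a3.2]

theorem b_pos (W : Win c κ a a₁ α β b₁ b) : 0 < (c b).re := by
  obtain ⟨κ0, κ1, h1, h2, h3, h4, h5, h6, hL, hR, hin, hmid, hne⟩ := W
  have h0 := re_of κ0 (hR b (by linarith) le_rfl)
  refine lt_of_le_of_ne h0 fun h' => hne b (Or.inr ⟨h5.le, le_rfl⟩) ?_
  have := hR b (by linarith) le_rfl
  rw [← h', mul_zero] at this
  exact Complex.ext h'.symm (abs_nonpos_iff.1 this)

theorem a_pos (W : Win c κ a a₁ α β b₁ b) : 0 < -(c a).re := by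
  obtain ⟨κ0, κ1, h1, h2, h3, h4, h5, h6, hL, hR, hin, hmid, hne⟩ := W
  have h0 := re_of κ0 (hL a le_rfl (by linarith))
  refine lt_of_le_of_ne h0 fun h' => hne a (Or.inl ⟨le_rfl, h1.le⟩) ?_
  have := hL a le_rfl (by linarith)
  rw [← h', mul_zero] at this
  exact Complex.ext (by linarith [h', zero_re]) (abs_nonpos_iff.1 this)

theorem bar_B1 (W : Win c κ a a₁ α β b₁ b) {x u : ℝ} (hx : a₁ ≤ x) (hx' : x ≤ b₁) (hu : x < u)
    (hu' : u ≤ b) (h : c u = c x + I * (c b - c x)) : False := by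
  rcases le_total u b₁ with h' | h'
  · exact W.no_mid hx hx' (by linarith) h' h
  · have hpos := W.b_pos
    obtain ⟨κ0, κ1, h1, h2, h3, h4, h5, h6, hL, hR, hin, hmid, hne⟩ := W
    have e := congrArg Complex.im h
    have e' := congrArg Complex.re h
    simp only [add_im, mul_im, add_re, mul_re, I_re, I_im, sub_re, sub_im, zero_mul, one_mul,
      zero_add, zero_sub] at e e'
    have kp : 0 < 1 - κ := by linarith
    have b1 := (hmid x hx hx').2
    have a1 := abs_le.1 (Complex.abs_im_le_norm (c x))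
    have a2 := abs_le.1 (Complex.abs_re_le_norm (c x))
    have hu2 := (le_abs_self _).trans (hR u (by linarith) hu')
    have hb2 := (neg_le_abs _).trans (hR b (by linarith) le_rfl)
    have s1 : (c b).re - 2 * ‖c x‖ ≤ κ * (2 * ‖c x‖ + κ * (c b).re) := by
      have : (c u).re ≤ 2 * ‖c x‖ + κ * (c b).re := by linarith [a1.1, a1.2, a2.1, a2.2]
      have := mul_le_mul_of_nonneg_left this κ0.le
      linarith [a1.1, a1.2, a2.1, a2.2]
    have s2 : (1 + κ) * ((1 - κ) * (c b).re) ≤ (1 + κ) * (2 * ‖c x‖) := by nlinarith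
    have s3 := le_of_mul_le_mul_left s2 (by linarith)
    have s4 : (1 - κ) * ((1 - κ) * (c b).re) ≤ 1 * ((1 - κ) * (c b).re) :=
      mul_le_mul_of_nonneg_right (by linarith) (by positivity)
    have s5 : 0 < (1 - κ) * (c b).re := mul_pos kp hpos
    nlinarith

theorem bar_B2 (W : Win c κ a a₁ α β b₁ b) {x u : ℝ} (hx : a ≤ x) (hx' : x < u) (hu : a₁ ≤ u)
    (hu' : u ≤ b₁) (h : c u = c x + I * (c b - c x)) : False := by
  rcases le_total a₁ x with h' | h'
  · exact W.no_mid h' (by linarith) hu hu' h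
  · have hpos := W.b_pos
    obtain ⟨κ0, κ1, h1, h2, h3, h4, h5, h6, hL, hR, hin, hmid, hne⟩ := W
    have e := congrArg Complex.im h
    simp only [add_im, mul_im, I_re, I_im, sub_re, sub_im, zero_mul, one_mul, zero_add] at e
    have b1 := (hmid u hu hu').2
    have a1 := abs_le.1 (Complex.abs_im_le_norm (c u))
    have hxL := hL x hx (by linarith)
    have h0 := re_of κ0 hxL
    have hx2 := (neg_le_abs _).trans hxL
    have s1 : κ * -(c x).re ≤ -(c x).re := by nlinarith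
    have s2 : (1 - κ) ^ 2 * (c b).re ≤ (c b).re := by
      have : (1 - κ) ^ 2 ≤ 1 := by nlinarith
      nlinarith
    linarith [a1.1, a1.2]

theorem im_a (W : Win c κ a a₁ α β b₁ b) {u y p : ℝ} (hp : -p ≤ (c y).re)
    (h : c u = c a + I * (c y - c a)) : (1 - κ) * -(c a).re - p ≤ (c u).im := by
  have hpos := W.a_pos
  obtain ⟨κ0, κ1, h1, h2, h3, h4, h5, h6, hL, hR, hin, hmid, hne⟩ := W
  have e := congrArg Complex.im h
  simp only [add_im, mul_im, I_re, I_im, sub_re, sub_im, zero_mul, one_mul, zero_add] at e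
  have := (neg_le_abs _).trans (hL a le_rfl (by linarith))
  linarith

theorem small (W : Win c κ a a₁ α β b₁ b) {s : ℝ} (h : a₁ ≤ s) (h' : s ≤ b₁) :
    6 * ‖c s‖ ≤ (1 - κ) * -(c a).re := by
  have hpos := W.a_pos
  obtain ⟨κ0, κ1, h1, h2, h3, h4, h5, h6, hL, hR, hin, hmid, hne⟩ := W
  have b1 := (hmid s h h').1
  have kp : 0 < 1 - κ := by linarith
  have : (1 - κ) * ((1 - κ) * -(c a).re) ≤ 1 * ((1 - κ) * -(c a).re) :=
    mul_le_mul_of_nonneg_right (by linarith) (by positivity)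
  nlinarith

theorem bar_A1 (W : Win c κ a a₁ α β b₁ b) {u y : ℝ} (hu : a₁ ≤ u)
    (hu' : u ≤ b₁) (hy : u < y) (hy' : y ≤ b) (h : c u = c a + I * (c y - c a)) : False := by
  have hpos := W.a_pos
  have kp : 0 < (1 - κ) * -(c a).re := mul_pos (by linarith [W.κ1]) hpos
  have su := W.small hu hu'
  have a1 := abs_le.1 (Complex.abs_im_le_norm (c u))
  rcases le_total y b₁ with h' | h'
  · have sy := W.small (by linarith) h'
    have a2 := abs_le.1 (Complex.abs_re_le_norm (c y))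
    have := W.im_a (p := ‖c y‖) a2.1 h
    linarith [a1.2]
  · have h0 := re_of W.κ0 (W.hR y (by linarith [W.h4]) hy')
    have := W.im_a (p := 0) (by linarith) h
    linarith [a1.2]

theorem bar_A2 (W : Win c κ a a₁ α β b₁ b) (D : Dirn c θ) (B : Base c θ a b) {u y : ℝ}
    (hu : a < u) (hy : u < y) (hy1 : a₁ ≤ y) (hy' : y ≤ b₁) (h : c u = c a + I * (c y - c a)) :
    θ u y = θ a y - Real.pi / 4 := by
  have hπ := Real.pi_pos
  have hpos := W.a_pos
  have κ1 := W.κ1
  have kp : 0 < (1 - κ) * -(c a).re := mul_pos (by linarith [W.κ1]) hpos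
  have sy := W.small hy1 hy'
  have a2 := abs_le.1 (Complex.abs_re_le_norm (c y))
  have him := W.im_a (p := ‖c y‖) a2.1 h
  have hb := B.ba
  have h5 := W.h5
  have hu1 : u < a₁ := by
    by_contra hc
    push Not at hc
    have su := W.small hc (by linarith)
    have a1 := abs_le.1 (Complex.abs_im_le_norm (c u))
    linarith [a1.2]
  have huL := W.hL u hu.le (by linarith [W.h2])
  have hu0 := re_of W.κ0 huL
  have hure : (5 / 6) * ((1 - κ) * -(c a).re) ≤ -(c u).re := by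
    have s1 := (le_abs_self _).trans huL
    have s2 : κ * -(c u).re ≤ -(c u).re := by nlinarith [W.κ0]
    linarith
  have hpos' : ∀ y', a₁ ≤ y' → y' ≤ b → (c u).re < (c y').re := by
    intro y' g1 g2
    rcases le_total y' b₁ with g3 | g3
    · have sy' := W.small g1 g3
      have a3 := abs_le.1 (Complex.abs_re_le_norm (c y'))
      linarith [a3.1]
    · have h0 := re_of W.κ0 (W.hR y' (by linarith [W.h4]) g2)
      linarith
  have r1 := B.from_a D (show a < y by linarith) (by linarith)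
  have r2 : -(Real.pi / 2) < θ u y ∧ θ u y < Real.pi / 2 := by
    refine stay (Y := Icc y b) isPreconnected_Icc
      (D.contR fun y' hy => ⟨by linarith [hy.1], by linarith [hy.2]⟩)
      (fun y' g => ?_) (y₀ := b) ⟨by linarith, le_rfl⟩
      (B.to_b D hu.le (by linarith)) ⟨le_rfl, by linarith⟩
    have hp := D.re_pos (show u < y' by linarith [g.1]) (by linarith [g.2])
      (hpos' y' (by linarith [g.1]) g.2)
    constructor
    · intro e; rw [e, Real.cos_neg, Real.cos_pi_div_two] at hp; exact lt_irrefl _ hp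
    · intro e; rw [e, Real.cos_pi_div_two] at hp; exact lt_irrefl _ hp
  obtain ⟨l, hl⟩ := D.lab2 hu hy (by linarith) h
  have : l = 0 := int_zero_of (x := θ u y - θ a y + Real.pi / 4) (by linarith)
    (by linarith [r1.1, r1.2, r2.1, r2.2]) (by linarith [r1.1, r1.2, r2.1, r2.2])
  rw [this] at hl
  rw [hl]; push_cast; ring

end Win

end Pool.Agent.N335.Hg
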